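import Pool.Agent.H48.PW.Defs
import Pool.Agent.H48.PL.JB

/-!
# Module OmD: the factor `Ω(v,w) = min(1,⟨w⟩/⟨v⟩)^4`

Elementary. For `len x ≤ ⟨v⟩/2`: `⟨v+x⟩ ∈ [⟨v⟩/2, 3⟨v⟩/2]` (`jb_lip`), `| ⟨v+x⟩ - ⟨v⟩ | ≤ len x`.
* `om4_lip`: `t = ⟨w⟩/⟨v⟩`, `t' = ⟨w⟩/⟨u⟩`, `|t'-t| ≤ 2 t len x/⟨v⟩`, `|min 1 t' ^4 - min 1 t^4| ≤ 4 max(min 1 t, min 1 t')^3 |min 1 t' - min 1 t|`, and `min 1 t' ≤ 2 min 1 t`, `|min 1 t' - min 1 t| ≤ 2 min 1 t · len x/⟨v⟩`.
* `om4_max`: `Ω(v,w) (⟨v⟩+⟨w⟩)^a ≤ K⟨w⟩^a`: if `⟨w⟩ ≥ ⟨v⟩` trivial; else `(⟨w⟩/⟨v⟩)^4 (2⟨v⟩)^a ≤ 2^a ⟨w⟩^a`. `len (v-w) ≤ ⟨v⟩+⟨w⟩`.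
-/

set_option autoImplicit false

open MeasureTheory Set Filter Topology Pool.Agent.H25.Kin Pool.Agent.H48.PL

namespace Pool.Agent.H48.PW

variable {d : ℕ}

/-- `min(1,⟨w⟩/⟨v⟩)^4` -/
noncomputable def om4 (v w : Vec d) : ℝ := min 1 (jb w / jb v) ^ 4

lemma om4_nonneg (v w : Vec d) : 0 ≤ om4 v w := by
  unfold om4
  positivity

lemma om4_le_one (v w : Vec d) : om4 v w ≤ 1 := by
  unfold om4
  exact pow_le_one₀ (le_min zero_le_one (div_nonneg (jb_pos w).le (jb_pos v).le)) (min_le_left _ _)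

lemma om4_cont (w : Vec d) : Continuous fun v : Vec d => om4 v w := by
  unfold om4
  exact (continuous_const.min (continuous_const.div jb_cont fun v => (jb_pos v).ne')).pow 4

private lemma min_lip {a b c l : ℝ} (ha : 0 < a) (hb : 0 < b) (hc : 0 < c) (h : |b - a| ≤ l) (hl : l ≤ 1 / 2 * a) :
    |min 1 (c / b) - min 1 (c / a)| ≤ 2 * min 1 (c / a) * (l / a) := by
  have hl0 : 0 ≤ l := (abs_nonneg _).trans h
  obtain ⟨h1, h2⟩ := abs_le.1 h
  set L := l / a with hL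
  have hLa : l = L * a := by rw [hL]; field_simp
  have hL0 : 0 ≤ L := div_nonneg hl0 ha.le
  have hL1 : L ≤ 1 / 2 := by rw [hL, div_le_iff₀ ha]; linarith
  set m := min 1 (c / a) with hm
  have hm0 : 0 ≤ m := le_min zero_le_one (div_nonneg hc.le ha.le)
  have hm1 : m ≤ 1 := min_le_left _ _
  have hm2 : m ≤ c / a := min_le_right _ _
  have hca : 0 < c / a := div_pos hc ha
  have e1 : c / b ≤ (1 + 2 * L) * (c / a) := by
    rw [div_le_iff₀ hb]
    have : (1 + 2 * L) * (c / a) * b ≥ (1 + 2 * L) * (c / a) * (a * (1 - L)) := by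
      apply mul_le_mul_of_nonneg_left _ (by positivity)
      nlinarith
    have h3 : (1 + 2 * L) * (c / a) * (a * (1 - L)) = (1 + 2 * L) * (1 - L) * c := by
      field_simp
    have h4 : (1 + 2 * L) * (1 - L) ≥ 1 := by nlinarith
    nlinarith
  have e2 : (1 - L) * (c / a) ≤ c / b := by
    rw [le_div_iff₀ hb]
    have hnn : 0 ≤ (1 - L) * (c / a) := mul_nonneg (by linarith) hca.le
    have : (1 - L) * (c / a) * b ≤ (1 - L) * (c / a) * (a * (1 + L)) := by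
      apply mul_le_mul_of_nonneg_left _ hnn
      nlinarith
    have h3 : (1 - L) * (c / a) * (a * (1 + L)) = (1 - L) * (1 + L) * c := by
      field_simp
    have h4 : (1 - L) * (1 + L) ≤ 1 := by nlinarith
    nlinarith
  have u1 : min 1 (c / b) ≤ (1 + 2 * L) * m := by
    rcases min_choice 1 (c / a) with hh | hh
    · rw [hm, hh]
      exact (min_le_left _ _).trans (by linarith)
    · rw [hm, hh]
      exact (min_le_right _ _).trans e1
  have u2 : (1 - 2 * L) * m ≤ min 1 (c / b) := by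
    apply le_min
    · nlinarith
    · calc (1 - 2 * L) * m ≤ (1 - L) * m := by nlinarith
        _ ≤ (1 - L) * (c / a) := mul_le_mul_of_nonneg_left hm2 (by linarith)
        _ ≤ c / b := e2
  rw [abs_le]
  constructor <;> nlinarith

theorem om4_lip : ∃ K : ℝ, 0 ≤ K ∧ ∀ v w x : Vec d, len x ≤ 1 / 2 * jb v →
    |om4 (v + x) w - om4 v w| ≤ K * (om4 v w * (len x / jb v)) := by
  refine ⟨30, by norm_num, fun v w x hx => ?_⟩
  have hlip : |jb (v + x) - jb v| ≤ len x := by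
    have := jb_lip (v + x) v
    rwa [add_sub_cancel_left] at this
  have key := min_lip (jb_pos v) (jb_pos (v + x)) (jb_pos w) hlip hx
  unfold om4
  have hL0 : 0 ≤ len x / jb v := div_nonneg ((abs_nonneg _).trans hlip) (jb_pos v).le
  have hL1 : len x / jb v ≤ 1 / 2 := by rw [div_le_iff₀ (jb_pos v)]; linarith
  have hm0 : 0 ≤ min 1 (jb w / jb v) := le_min zero_le_one (div_nonneg (jb_pos w).le (jb_pos v).le)
  have hn0 : 0 ≤ min 1 (jb w / jb (v + x)) := le_min zero_le_one (div_nonneg (jb_pos w).le (jb_pos _).le)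
  generalize len x / jb v = L at key hL0 hL1 ⊢
  generalize min 1 (jb w / jb v) = m at key hm0 ⊢
  generalize min 1 (jb w / jb (v + x)) = n at key hn0 ⊢
  have hn : n ≤ 2 * m := by
    have := (abs_le.1 key).2
    nlinarith
  have hs : n ^ 4 - m ^ 4 = (n - m) * (n ^ 3 + n ^ 2 * m + n * m ^ 2 + m ^ 3) := by ring
  have hp : n ^ 3 + n ^ 2 * m + n * m ^ 2 + m ^ 3 ≤ 15 * m ^ 3 := by
    have h3 : n ^ 3 ≤ (2 * m) ^ 3 := pow_le_pow_left₀ hn0 hn 3
    have h2 : n ^ 2 * m ≤ (2 * m) ^ 2 * m := mul_le_mul_of_nonneg_right (pow_le_pow_left₀ hn0 hn 2) hm0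
    have h1 : n * m ^ 2 ≤ 2 * m * m ^ 2 := mul_le_mul_of_nonneg_right hn (by positivity)
    nlinarith
  have hp0 : 0 ≤ n ^ 3 + n ^ 2 * m + n * m ^ 2 + m ^ 3 := by positivity
  rw [hs, abs_mul, abs_of_nonneg hp0]
  calc |n - m| * (n ^ 3 + n ^ 2 * m + n * m ^ 2 + m ^ 3) ≤ (2 * m * L) * (15 * m ^ 3) :=
        mul_le_mul key hp hp0 (by positivity)
    _ = 30 * (m ^ 4 * L) := by ring

private lemma om4_rpow {a : ℝ} (ha : 0 ≤ a) (ha1 : a ≤ 1) (v w : Vec d) {y : ℝ} (hy : 0 ≤ y)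
    (hyb : y ≤ 2 * (jb v + jb w)) : om4 v w * y ^ a ≤ 4 * jb w ^ a := by
  have h4 : (4 : ℝ) ^ a ≤ 4 := by
    calc (4 : ℝ) ^ a ≤ (4 : ℝ) ^ (1 : ℝ) := Real.rpow_le_rpow_of_exponent_le (by norm_num) ha1
      _ = 4 := Real.rpow_one 4
  have hv := jb_pos v
  have hw := jb_pos w
  rcases le_total (jb v) (jb w) with h | h
  · have h1 : y ^ a ≤ (4 * jb w) ^ a := Real.rpow_le_rpow hy (by linarith) ha
    rw [Real.mul_rpow (by norm_num) hw.le] at h1
    calc om4 v w * y ^ a ≤ 1 * y ^ a :=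
          mul_le_mul_of_nonneg_right (om4_le_one v w) (Real.rpow_nonneg hy a)
      _ ≤ (4 : ℝ) ^ a * jb w ^ a := by rw [one_mul]; exact h1
      _ ≤ 4 * jb w ^ a := mul_le_mul_of_nonneg_right h4 (Real.rpow_nonneg hw.le a)
  · have ht0 : 0 < jb w / jb v := div_pos hw hv
    have ht1 : jb w / jb v ≤ 1 := by rw [div_le_one hv]; exact h
    have h1 : y ^ a ≤ (4 * jb v) ^ a := Real.rpow_le_rpow hy (by linarith) ha
    rw [Real.mul_rpow (by norm_num) hv.le] at h1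
    have h2 : om4 v w ≤ (jb w / jb v) ^ a := by
      unfold om4
      rw [min_eq_right ht1, ← Real.rpow_natCast]
      exact Real.rpow_le_rpow_of_exponent_ge ht0 ht1 (by push_cast; linarith)
    calc om4 v w * y ^ a ≤ (jb w / jb v) ^ a * ((4 : ℝ) ^ a * jb v ^ a) :=
          mul_le_mul h2 h1 (Real.rpow_nonneg hy a) (Real.rpow_nonneg ht0.le a)
      _ = (4 : ℝ) ^ a * ((jb w / jb v) ^ a * jb v ^ a) := by ring
      _ = (4 : ℝ) ^ a * jb w ^ a := by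
          rw [← Real.mul_rpow ht0.le hv.le, div_mul_cancel₀ _ hv.ne']
      _ ≤ 4 * jb w ^ a := mul_le_mul_of_nonneg_right h4 (Real.rpow_nonneg hw.le a)

theorem om4_max {a : ℝ} (ha : 0 ≤ a) (ha1 : a ≤ 1) : ∃ K : ℝ, 0 ≤ K ∧ ∀ v w x : Vec d,
    len x ≤ 1 / 2 * jb v →
    om4 v w * max (len (v - w)) (len x) ^ a ≤ K * jb w ^ a ∧ om4 v w * len (v - w + x) ^ a ≤ K * jb w ^ a := by
  refine ⟨4, by norm_num, fun v w x hx => ?_⟩
  have hn : ∀ u : Vec d, 0 ≤ len u := fun u => Real.sqrt_nonneg _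
  have h1 : len (v - w) ≤ jb v + jb w :=
    (len_sub_le v w).trans (add_le_add (len_le_jb v) (len_le_jb w))
  have hv := jb_pos v
  have hw := jb_pos w
  constructor
  · refine om4_rpow ha ha1 v w (le_max_of_le_left (hn _)) (max_le ?_ ?_) <;> linarith
  · refine om4_rpow ha ha1 v w (hn _) ?_
    have h2 := len_add_le (v - w) x
    linarith

end Pool.Agent.H48.PW
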