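import Pool.Agent.H48.PW.PhiD
import Pool.Agent.H48.PW.OmD
import Pool.Agent.H48.PI.Wg4A

/-!
# Module WtA: the weights `PhS`, `PhE`, simple bounds

`PhS v w = om4 v w * phi e a (v-w)`, `PhE v w = om4 v w * len (v-w)^a` (definitionally), `om4 = min(1, jb w/jb v)^4`. Compare PI/Wg4A.lean (same proofs, `sp a (v_e-w_e)` replaced by `phi` resp. `len^a`).
* `PhS_PGW`, `PhE_PGW`: continuity (`phi_cont`, `continuous_len`, rpow with positive exponent), growth `|..| ≤ len (v-w)^a ≤ (len v + len w + 1)`, as `Ph4_PGW`.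
* `PhS_abs`, `PhE_abs`: `phi_abs`, `len (v-w) ≤ jb v + jb w ≤ 2 max`; `jb w ≥ jb v`: `(2 jb w)^a ≤ 2 jb w^a`; `jb w < jb v`: `μ^4 ≤ μ^a`, `(2 jb v)^a`.
* `VPhS_nonneg`: `mul_phi_nonneg`. `VPhS_le`: `mul_phi_le` and the computation of `VPh4_le` with `len (v-w)` instead of `|v_e-w_e|`.
-/

set_option autoImplicit false

open MeasureTheory Set Filter Topology Pool.Agent.H25.Kin Pool.Agent.H48.PL Pool.Agent.H48.PI

namespace Pool.Agent.H48.PW

variable {d : ℕ} {a : ℝ}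

private lemma wta_V (v w : Vec d) : len (v - w) ≤ jb v + jb w := by
  linarith [len_sub_le v w, len_le_jb v, len_le_jb w]

private lemma wta_two {r : ℝ} {n : ℕ} (hr : r ≤ n) : (2 : ℝ) ^ r ≤ 2 ^ n := by
  have := Real.rpow_le_rpow_of_exponent_le (by norm_num : (1 : ℝ) ≤ 2) hr
  rwa [Real.rpow_natCast] at this

private lemma wta_mu (v w : Vec d) : 0 ≤ min 1 (jb w / jb v) :=
  le_min zero_le_one (div_nonneg (jb_pos w).le (jb_pos v).le)

private lemma wta_mu_rpow {r : ℝ} (hr0 : 0 ≤ r) (hr : r ≤ 4) (v w : Vec d) :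
    min 1 (jb w / jb v) ^ 4 * len (v - w) ^ r ≤ 2 ^ r * jb w ^ r := by
  have hv := jb_pos v
  have hw := jb_pos w
  have hV := wta_V v w
  have hl := len_nonneg (v - w)
  have hmu0 := wta_mu v w
  rcases le_total (jb v) (jb w) with h | h
  · have h1 : min 1 (jb w / jb v) ^ 4 ≤ 1 := pow_le_one₀ hmu0 (min_le_left _ _)
    have h2 : len (v - w) ^ r ≤ 2 ^ r * jb w ^ r := by
      rw [← Real.mul_rpow (by norm_num) hw.le]
      exact Real.rpow_le_rpow hl (by linarith) hr0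
    calc min 1 (jb w / jb v) ^ 4 * len (v - w) ^ r ≤ 1 * (2 ^ r * jb w ^ r) :=
          mul_le_mul h1 h2 (Real.rpow_nonneg hl _) zero_le_one
      _ = 2 ^ r * jb w ^ r := one_mul _
  · have hle : jb w / jb v ≤ 1 := (div_le_one hv).2 h
    have hq0 : 0 < jb w / jb v := div_pos hw hv
    rw [min_eq_right hle]
    have h1 : (jb w / jb v) ^ 4 ≤ (jb w / jb v) ^ r := by
      have h4 : (jb w / jb v) ^ 4 = (jb w / jb v) ^ (4 : ℝ) := by
        rw [← Real.rpow_natCast]; norm_num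
      rw [h4]
      exact Real.rpow_le_rpow_of_exponent_ge hq0 hle hr
    have h2 : len (v - w) ^ r ≤ 2 ^ r * jb v ^ r := by
      rw [← Real.mul_rpow (by norm_num) hv.le]
      exact Real.rpow_le_rpow hl (by linarith) hr0
    have h3 : (jb w / jb v) ^ r * jb v ^ r = jb w ^ r := by
      rw [← Real.mul_rpow hq0.le hv.le, div_mul_cancel₀ _ hv.ne']
    calc (jb w / jb v) ^ 4 * len (v - w) ^ r ≤ (jb w / jb v) ^ r * (2 ^ r * jb v ^ r) :=
          mul_le_mul h1 h2 (Real.rpow_nonneg hl _) (Real.rpow_nonneg hq0.le _)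
      _ = 2 ^ r * ((jb w / jb v) ^ r * jb v ^ r) := by ring
      _ = 2 ^ r * jb w ^ r := by rw [h3]

private lemma wta_sub : Continuous fun p : Vec d × Vec d => p.1 - p.2 :=
  continuous_fst.sub continuous_snd

private lemma wta_mu_cont : Continuous fun p : Vec d × Vec d => min 1 (jb p.2 / jb p.1) ^ 4 :=
  (continuous_const.min ((jb_cont.comp continuous_snd).div (jb_cont.comp continuous_fst)
    fun p => (jb_pos p.1).ne')).pow 4

private lemma wta_growth (ha : 0 < a) {Φ : Vec d → Vec d → ℝ}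
    (h : ∀ v w, |Φ v w| ≤ min 1 (jb w / jb v) ^ 4 * len (v - w) ^ a) :
    ∃ (N : ℕ) (C : ℝ), 0 ≤ C ∧ ∀ v w, |Φ v w| ≤ C * ((1 + ‖v‖) ^ N * (1 + ‖w‖) ^ N) := by
  obtain ⟨N, hN⟩ := exists_nat_ge a
  refine ⟨N, (2 * ((d : ℝ) + 1) ^ 2) ^ N, by positivity, fun v w => (h v w).trans ?_⟩
  have hv := one_le_jb v
  have hw := one_le_jb w
  have h1 : min 1 (jb w / jb v) ^ 4 ≤ 1 := pow_le_one₀ (wta_mu v w) (min_le_left _ _)
  have hV := wta_V v w
  have h2 : jb v + jb w ≤ 2 * (jb v * jb w) := by nlinarith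
  have h3 := jb_le_w v
  have h4 := jb_le_w w
  have h5 : jb v * jb w ≤ (((d : ℝ) + 1) * (1 + ‖v‖)) * (((d : ℝ) + 1) * (1 + ‖w‖)) :=
    mul_le_mul h3 h4 (by linarith) (by positivity)
  have h6 : 2 * (jb v * jb w) ≤ (2 * ((d : ℝ) + 1) ^ 2) * ((1 + ‖v‖) * (1 + ‖w‖)) := by
    calc 2 * (jb v * jb w) ≤ 2 * ((((d : ℝ) + 1) * (1 + ‖v‖)) * (((d : ℝ) + 1) * (1 + ‖w‖))) := by
          linarith
      _ = (2 * ((d : ℝ) + 1) ^ 2) * ((1 + ‖v‖) * (1 + ‖w‖)) := by ring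
  have h7 : 1 ≤ 2 * (jb v * jb w) := by nlinarith
  calc min 1 (jb w / jb v) ^ 4 * len (v - w) ^ a ≤ 1 * (2 * (jb v * jb w)) ^ a :=
        mul_le_mul h1 (Real.rpow_le_rpow (len_nonneg _) (hV.trans h2) ha.le)
          (Real.rpow_nonneg (len_nonneg _) _) zero_le_one
    _ = (2 * (jb v * jb w)) ^ a := one_mul _
    _ ≤ (2 * (jb v * jb w)) ^ (N : ℝ) := Real.rpow_le_rpow_of_exponent_le h7 hN
    _ = (2 * (jb v * jb w)) ^ N := Real.rpow_natCast _ _
    _ ≤ ((2 * ((d : ℝ) + 1) ^ 2) * ((1 + ‖v‖) * (1 + ‖w‖))) ^ N :=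
        pow_le_pow_left₀ (by linarith) h6 N
    _ = (2 * ((d : ℝ) + 1) ^ 2) ^ N * ((1 + ‖v‖) ^ N * (1 + ‖w‖) ^ N) := by
        rw [mul_pow, mul_pow (1 + ‖v‖)]

private lemma wta_S (ha : 0 < a) (e : Fin d) (v w : Vec d) :
    |PhS e a v w| ≤ min 1 (jb w / jb v) ^ 4 * len (v - w) ^ a := by
  unfold PhS
  rw [abs_mul, abs_of_nonneg (pow_nonneg (wta_mu v w) 4)]
  exact mul_le_mul_of_nonneg_left (phi_abs ha e (v - w)) (pow_nonneg (wta_mu v w) 4)

private lemma wta_E (v w : Vec d) :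
    |PhE a v w| ≤ min 1 (jb w / jb v) ^ 4 * len (v - w) ^ a := by
  unfold PhE
  rw [abs_of_nonneg (mul_nonneg (pow_nonneg (wta_mu v w) 4) (Real.rpow_nonneg (len_nonneg _) _))]

lemma PhS_PGW (ha : 0 < a) (ha1 : a ≤ 1) (e : Fin d) : PGW (PhS e a) := by
  refine ⟨?_, wta_growth ha (wta_S ha e)⟩
  unfold PhS
  exact wta_mu_cont.mul ((phi_cont ha ha1 e).comp wta_sub)

lemma PhE_PGW (ha : 0 < a) (ha1 : a ≤ 1) : PGW (PhE a : Vec d → Vec d → ℝ) := by
  refine ⟨?_, wta_growth ha wta_E⟩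
  unfold PhE
  exact wta_mu_cont.mul ((continuous_len.comp wta_sub).rpow_const fun _ => Or.inr ha.le)

private lemma wta_le (ha : 0 < a) (ha1 : a ≤ 1) (v w : Vec d) :
    min 1 (jb w / jb v) ^ 4 * len (v - w) ^ a ≤ 2 * jb w ^ a := by
  refine (wta_mu_rpow ha.le (by linarith) v w).trans ?_
  refine mul_le_mul_of_nonneg_right ?_ (Real.rpow_nonneg (jb_pos w).le _)
  have := wta_two (r := a) (n := 1) (by push_cast; linarith)
  simpa using this

lemma PhS_abs (ha : 0 < a) (ha1 : a ≤ 1) (e : Fin d) (v w : Vec d) : |PhS e a v w| ≤ 2 * jb w ^ a :=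
  (wta_S ha e v w).trans (wta_le ha ha1 v w)

lemma PhE_abs (ha : 0 < a) (ha1 : a ≤ 1) (v w : Vec d) : |PhE a v w| ≤ 2 * jb w ^ a :=
  (wta_E v w).trans (wta_le ha ha1 v w)

lemma VPhS_nonneg (e : Fin d) (a : ℝ) (v w : Vec d) : 0 ≤ (v e - w e) * PhS e a v w := by
  have h1 := mul_phi_nonneg e a (v - w)
  rw [Pi.sub_apply] at h1
  have h2 := mul_nonneg (pow_nonneg (wta_mu v w) 4) h1
  unfold PhS
  have e1 : (v e - w e) * (min 1 (jb w / jb v) ^ 4 * phi e a (v - w)) =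
      min 1 (jb w / jb v) ^ 4 * ((v e - w e) * phi e a (v - w)) := by ring
  rw [e1]
  exact h2

private lemma wta_VS (ha : 0 < a) (e : Fin d) (v w : Vec d) :
    (v e - w e) * PhS e a v w ≤ min 1 (jb w / jb v) ^ 4 * len (v - w) ^ (1 + a) := by
  have h1 := mul_phi_le ha e (v - w)
  rw [Pi.sub_apply] at h1
  unfold PhS
  have e1 : (v e - w e) * (min 1 (jb w / jb v) ^ 4 * phi e a (v - w)) =
      min 1 (jb w / jb v) ^ 4 * ((v e - w e) * phi e a (v - w)) := by ring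
  rw [e1]
  exact mul_le_mul_of_nonneg_left h1 (pow_nonneg (wta_mu v w) 4)

lemma VPhS_le (ha : 0 < a) (ha1 : a ≤ 1) (e : Fin d) (v w : Vec d) :
    (v e - w e) * PhS e a v w ≤ 4 * jb w ^ (1 + a) ∧
    (v e - w e) * PhS e a v w ≤ 4 * (jb v ^ (a - 1) * jb w ^ 2) := by
  have hv := jb_pos v
  have hw := jb_pos w
  have hS := wta_VS ha e v w
  have h4 : (2 : ℝ) ^ (1 + a) ≤ 4 := by
    have := wta_two (r := 1 + a) (n := 2) (by push_cast; linarith)
    linarith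
  have hA : (v e - w e) * PhS e a v w ≤ 4 * jb w ^ (1 + a) := by
    refine hS.trans ((wta_mu_rpow (by linarith) (by linarith) v w).trans ?_)
    exact mul_le_mul_of_nonneg_right h4 (Real.rpow_nonneg hw.le _)
  refine ⟨hA, ?_⟩
  rcases le_total (jb v) (jb w) with h | h
  · refine hA.trans ?_
    have e1 : jb w ^ (1 + a) = jb w ^ (a - 1) * jb w ^ 2 := by
      rw [← Real.rpow_two, ← Real.rpow_add hw]
      congr 1; ring
    rw [e1]
    have e2 : jb w ^ (a - 1) ≤ jb v ^ (a - 1) :=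
      Real.rpow_le_rpow_of_nonpos hv h (by linarith)
    have e3 : jb w ^ (a - 1) * jb w ^ 2 ≤ jb v ^ (a - 1) * jb w ^ 2 :=
      mul_le_mul_of_nonneg_right e2 (by positivity)
    linarith
  · refine hS.trans ?_
    have hle : jb w / jb v ≤ 1 := (div_le_one hv).2 h
    have hq0 : 0 < jb w / jb v := div_pos hw hv
    rw [min_eq_right hle]
    have hV := wta_V v w
    have hl := len_nonneg (v - w)
    have e1 : (jb w / jb v) ^ 4 ≤ (jb w / jb v) ^ 2 := pow_le_pow_of_le_one hq0.le hle (by norm_num)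
    have e2 : len (v - w) ^ (1 + a) ≤ 4 * jb v ^ (1 + a) := by
      calc len (v - w) ^ (1 + a) ≤ (2 * jb v) ^ (1 + a) :=
            Real.rpow_le_rpow hl (by linarith) (by linarith)
        _ = 2 ^ (1 + a) * jb v ^ (1 + a) := Real.mul_rpow (by norm_num) hv.le
        _ ≤ 4 * jb v ^ (1 + a) := mul_le_mul_of_nonneg_right h4 (Real.rpow_nonneg hv.le _)
    have e3 : jb v ^ (1 + a) = jb v ^ (a - 1) * jb v ^ 2 := by
      rw [← Real.rpow_two, ← Real.rpow_add hv]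
      congr 1; ring
    calc (jb w / jb v) ^ 4 * len (v - w) ^ (1 + a)
        ≤ (jb w / jb v) ^ 2 * (4 * jb v ^ (1 + a)) :=
          mul_le_mul e1 e2 (Real.rpow_nonneg hl _) (by positivity)
      _ = 4 * (jb v ^ (a - 1) * jb w ^ 2) := by
          rw [e3]
          field_simp

end Pool.Agent.H48.PW
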