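import Pool.Agent.H48.PW.SpC
import Pool.Agent.H48.PL.TbL

/-!
# Module SpF: block P, final form

`d ≥ 3`: `sp_cusp3` and `min 1 (len x/jb v) ≤ mm β v (v+x)` (`mm β v (v+x) = (min 1 (nsq x/(1+nsq v)))^(β/2) = (min 1 (len x/jb v))^β`, `β ≤ 1`); `radk_mono`.
`β ≤ a`: `M₁ = 0`, `c₂ = 1`: pointwise for `len x ≤ ⟨v⟩/2`: `|PhS(v+x,w) - PhS(v,w)| ≤ K ⟨w⟩^a (len x/jb v)^a` (and the same for `PhE`): `om4_lip`, `om4_max` and
`|φ(y+x) - φ(y)| ≤ K len x (max (len y) (len x))^(a-1) ≤ K (len x)^a` (`phi_lip`), times `Ω(v) ≤ K (⟨w⟩/⟨v⟩)^a`: `Ω(v,w) (len x)^a = (Ω(v,w) ⟨v⟩^a) (len x/⟨v⟩)^a ≤ K⟨w⟩^a (len x/⟨v⟩)^a` (`om4_max` with `len x := ⟨v⟩/2`, or directly: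
`min(1,t)^4 ≤ t^a`). `(len x/jb v)^a ≤ (len x/jb v)^β = mm β`. The square is `≤ 4K²⟨w⟩^(2a) (..)^(2a)`, times `⟨w⟩^(-a)`.
-/

set_option autoImplicit false

open MeasureTheory Set Filter Topology Pool.Agent.H25.Kin Pool.Agent.H82.BK Pool.Agent.H48.PL

namespace Pool.Agent.H48.PW

variable {d : ℕ} {a β : ℝ}

private lemma spf_mm_cont (hβ : 0 < β) (v : Vec d) : Continuous fun x : Vec d => mm β v (v + x) := by
  unfold mm
  refine Continuous.rpow_const ?_ (fun _ => Or.inr (by linarith))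
  refine continuous_const.min ?_
  refine Continuous.div_const ?_ _
  exact continuous_sq.comp ((continuous_const.add continuous_id).sub continuous_const)

private lemma spf_mm (β : ℝ) {v x : Vec d} (hx : len x ≤ 1 / 2 * jb v) :
    mm β v (v + x) = (len x / jb v) ^ β := by
  have h0 := jb_pos v
  have hτ : 0 ≤ len x / jb v := div_nonneg (len_nonneg x) h0.le
  have hτ1 : len x / jb v ≤ 1 / 2 := by rwa [div_le_iff₀ h0]
  unfold mm
  rw [add_sub_cancel_left, ← jb_sq, ← len_sq, ← div_pow, min_eq_right (by nlinarith),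
    ← Real.rpow_natCast, ← Real.rpow_mul hτ]
  congr 1
  push_cast
  ring

private lemma spf_pt (ha : 0 < a) (ha1 : a < 1) : ∃ K : ℝ, 0 ≤ K ∧
    ∀ (e : Fin d) (v w x : Vec d), len x ≤ 1 / 2 * jb v →
      |PhS e a (v + x) w - PhS e a v w| ≤ K * (jb w ^ a * (len x / jb v) ^ a) ∧
      |PhE a (v + x) w - PhE a v w| ≤ K * (jb w ^ a * (len x / jb v) ^ a) := by
  obtain ⟨K₁, hK₁, h₁⟩ := phi_lip (d := d) ha ha1.le
  obtain ⟨K₂, hK₂, h₂⟩ := om4_lip (d := d)
  obtain ⟨K₃, hK₃, h₃⟩ := om4_max (d := d) ha.le ha1.le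
  refine ⟨K₁ + K₂ * K₃, by positivity, fun e v w x hx => ?_⟩
  have hJ := jb_pos v
  have hW := jb_pos w
  have hL := len_nonneg x
  have hlip := h₂ v w x hx
  have hmax := (h₃ v w x hx).2
  set τ : ℝ := len x / jb v with hτ
  have hτ0 : 0 ≤ τ := div_nonneg hL hJ.le
  have hτ2 : τ ≤ 1 / 2 := by rw [hτ]; rwa [div_le_iff₀ hJ]
  have hτ1 : τ ≤ 1 := by linarith
  have hxτ : len x = jb v * τ := by
    rw [hτ]
    field_simp
  have hO := om4_nonneg v w
  have hWa : 0 ≤ jb w ^ a := Real.rpow_nonneg hW.le a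
  have e1 : om4 v w * len x ^ a ≤ jb w ^ a * τ ^ a := by
    rw [hxτ, Real.mul_rpow hJ.le hτ0, ← mul_assoc]
    refine mul_le_mul_of_nonneg_right ?_ (Real.rpow_nonneg hτ0 a)
    have h5 : om4 v w ≤ (jb w / jb v) ^ a := by
      unfold om4
      have hs : 0 < jb w / jb v := div_pos hW hJ
      rcases le_total 1 (jb w / jb v) with h | h
      · rw [min_eq_left h, one_pow]
        exact Real.one_le_rpow h ha.le
      · rw [min_eq_right h, ← Real.rpow_natCast]
        exact Real.rpow_le_rpow_of_exponent_ge hs h (by push_cast; linarith)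
    calc om4 v w * jb v ^ a ≤ (jb w / jb v) ^ a * jb v ^ a :=
          mul_le_mul_of_nonneg_right h5 (Real.rpow_nonneg hJ.le a)
      _ = jb w ^ a := by
          rw [← Real.mul_rpow (div_pos hW hJ).le hJ.le, div_mul_cancel₀ _ hJ.ne']
  have e2 : len x * max (len (v - w)) (len x) ^ (a - 1) ≤ len x ^ a := by
    rcases hL.eq_or_lt with h | h
    · rw [← h, zero_mul, Real.zero_rpow ha.ne']
    · calc len x * max (len (v - w)) (len x) ^ (a - 1) ≤ len x * len x ^ (a - 1) := by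
            refine mul_le_mul_of_nonneg_left ?_ h.le
            exact Real.rpow_le_rpow_of_nonpos h (le_max_right _ _) (by linarith)
        _ = len x ^ a := by
            rw [Real.rpow_sub_one h.ne']
            field_simp
  have e3 : τ ≤ τ ^ a := by
    rcases hτ0.eq_or_lt with h | h
    · rw [← h, Real.zero_rpow ha.ne']
    · calc τ = τ ^ (1 : ℝ) := (Real.rpow_one τ).symm
        _ ≤ τ ^ a := Real.rpow_le_rpow_of_exponent_ge h hτ1 ha1.le
  have key : ∀ p q : ℝ, |p - q| ≤ K₁ * (len x * max (len (v - w)) (len x) ^ (a - 1)) →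
      |p| ≤ len (v - w + x) ^ a →
      |om4 (v + x) w * p - om4 v w * q| ≤ (K₁ + K₂ * K₃) * (jb w ^ a * τ ^ a) := by
    intro p q hpq hp
    have f1 : om4 (v + x) w * p - om4 v w * q =
        om4 v w * (p - q) + (om4 (v + x) w - om4 v w) * p := by ring
    rw [f1]
    refine (abs_add_le _ _).trans ?_
    rw [abs_mul, abs_mul, abs_of_nonneg hO, add_mul]
    refine add_le_add ?_ ?_
    · calc om4 v w * |p - q| ≤ om4 v w * (K₁ * len x ^ a) :=
            mul_le_mul_of_nonneg_left (hpq.trans (mul_le_mul_of_nonneg_left e2 hK₁)) hO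
        _ = K₁ * (om4 v w * len x ^ a) := by ring
        _ ≤ K₁ * (jb w ^ a * τ ^ a) := mul_le_mul_of_nonneg_left e1 hK₁
    · calc |om4 (v + x) w - om4 v w| * |p| ≤ (K₂ * (om4 v w * τ)) * len (v - w + x) ^ a :=
            mul_le_mul hlip hp (abs_nonneg _) (by positivity)
        _ = K₂ * τ * (om4 v w * len (v - w + x) ^ a) := by ring
        _ ≤ K₂ * τ * (K₃ * jb w ^ a) := mul_le_mul_of_nonneg_left hmax (by positivity)
        _ = K₂ * K₃ * jb w ^ a * τ := by ring
        _ ≤ K₂ * K₃ * jb w ^ a * τ ^ a := mul_le_mul_of_nonneg_left e3 (by positivity)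
        _ = K₂ * K₃ * (jb w ^ a * τ ^ a) := by ring
  have hv : v + x - w = v - w + x := by abel
  obtain ⟨h4, h5⟩ := h₁ e (v - w) x
  constructor
  · have h6 := key (phi e a (v - w + x)) (phi e a (v - w)) h4 (phi_abs ha e _)
    rw [← hv] at h6
    exact h6
  · have h6 := key (len (v - w + x) ^ a) (len (v - w) ^ a) h5
      (le_of_eq (abs_of_nonneg (Real.rpow_nonneg (len_nonneg _) a)))
    rw [← hv] at h6
    exact h6

private lemma spf_PhS_cont (ha : 0 < a) (ha1 : a < 1) (e : Fin d) (v w : Vec d) :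
    Continuous fun x : Vec d => PhS e a (v + x) w := by
  have h1 : Continuous fun x : Vec d => om4 (v + x) w :=
    (om4_cont w).comp (continuous_const.add continuous_id)
  have h2 : Continuous fun x : Vec d => phi e a (v + x - w) :=
    (phi_cont ha ha1.le e).comp ((continuous_const.add continuous_id).sub continuous_const)
  exact h1.mul h2

private lemma spf_PhE_cont (ha : 0 < a) (v w : Vec d) :
    Continuous fun x : Vec d => PhE a (v + x) w := by
  have h1 : Continuous fun x : Vec d => om4 (v + x) w :=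
    (om4_cont w).comp (continuous_const.add continuous_id)
  have hl : Continuous (len : Vec d → ℝ) := continuous_sq.sqrt
  have h2 : Continuous fun x : Vec d => len (v + x - w) ^ a :=
    (hl.comp ((continuous_const.add continuous_id).sub continuous_const)).rpow_const
      fun _ => Or.inr ha.le
  exact h1.mul h2

theorem sp_cuspF (hd : 2 ≤ d) (ha : 0 < a) (ha1 : a < 1) (hβ : 0 < β) (hβ1 : β ≤ 1)
    (h : 3 ≤ d ∨ β ≤ a) (e : Fin d) :
    ∃ M₁ c₂ K : ℝ, 0 ≤ M₁ ∧ 0 < c₂ ∧ 0 ≤ K ∧ ∀ v w m : Vec d, m ≠ 0 → ∀ k : ℝ → ℝ, RadK v m k →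
      ∀ t : ℝ, |t| ≤ 1 / 2 →
      ∫ σ in {σ : Vec d | 0 < dot m σ}, k (co m σ) *
        (t * (PhS e a (v + hh σ m) w - PhS e a v w) - M₁ * (PhE a (v + hh σ m) w - PhE a v w) +
          c₂ * jb w ^ (-a) * (|PhS e a (v + hh σ m) w - PhS e a v w| +
            |PhE a (v + hh σ m) w - PhE a v w|) ^ 2) ∂(surf d) ≤
        K * jb w ^ a * ∫ σ in {σ : Vec d | 0 < dot m σ},
          k (co m σ) * mm β v (v + hh σ m) ∂(surf d) := by
  by_cases hd3 : 3 ≤ d
  · obtain ⟨M₁, c₂, K, hM, hc, hK, H⟩ := sp_cusp3 hd3 ha ha1 e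
    refine ⟨M₁, c₂, K, hM, hc, hK, fun v w m hm k hk t ht => (H v w m hm k hk t ht).trans ?_⟩
    refine mul_le_mul_of_nonneg_left ?_ (mul_nonneg hK (Real.rpow_nonneg (jb_pos w).le a))
    have hl : Continuous (len : Vec d → ℝ) := continuous_sq.sqrt
    refine radk_mono hk (F := fun x => min 1 (len x / jb v)) (G := fun x => mm β v (v + x))
      (continuous_const.min (hl.div_const _)) (spf_mm_cont hβ v) fun x hx => ?_
    have h0 := jb_pos v
    have hτ : 0 ≤ len x / jb v := div_nonneg (len_nonneg x) h0.le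
    have hτ1 : len x / jb v ≤ 1 / 2 := by rwa [div_le_iff₀ h0]
    show min 1 (len x / jb v) ≤ mm β v (v + x)
    rw [spf_mm β hx]
    refine (min_le_right _ _).trans ?_
    rcases hτ.eq_or_lt with h1 | h1
    · rw [← h1, Real.zero_rpow hβ.ne']
    · calc len x / jb v = (len x / jb v) ^ (1 : ℝ) := (Real.rpow_one _).symm
        _ ≤ (len x / jb v) ^ β := Real.rpow_le_rpow_of_exponent_ge h1 (by linarith) hβ1
  · have hβa : β ≤ a := h.resolve_left hd3
    obtain ⟨K₀, hK₀, H⟩ := spf_pt (d := d) ha ha1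
    refine ⟨0, 1, K₀ / 2 + 4 * K₀ ^ 2, le_rfl, one_pos, by positivity,
      fun v w m hm k hk t ht => ?_⟩
    have hW := jb_pos w
    have hS := spf_PhS_cont ha ha1 e v w
    have hE := spf_PhE_cont ha v w
    have hF : Continuous fun x : Vec d => t * (PhS e a (v + x) w - PhS e a v w) -
        0 * (PhE a (v + x) w - PhE a v w) +
        1 * jb w ^ (-a) * (|PhS e a (v + x) w - PhS e a v w| +
          |PhE a (v + x) w - PhE a v w|) ^ 2 :=
      ((continuous_const.mul (hS.sub continuous_const)).sub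
        (continuous_const.mul (hE.sub continuous_const))).add
        (continuous_const.mul (((hS.sub continuous_const).abs.add
          (hE.sub continuous_const).abs).pow 2))
    have hG : Continuous fun x : Vec d =>
        (K₀ / 2 + 4 * K₀ ^ 2) * jb w ^ a * mm β v (v + x) :=
      continuous_const.mul (spf_mm_cont hβ v)
    have hpt : ∀ x : Vec d, len x ≤ 1 / 2 * jb v →
        t * (PhS e a (v + x) w - PhS e a v w) - 0 * (PhE a (v + x) w - PhE a v w) +
        1 * jb w ^ (-a) * (|PhS e a (v + x) w - PhS e a v w| +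
          |PhE a (v + x) w - PhE a v w|) ^ 2 ≤
        (K₀ / 2 + 4 * K₀ ^ 2) * jb w ^ a * mm β v (v + x) := by
      intro x hx
      obtain ⟨h1, h2⟩ := H e v w x hx
      rw [spf_mm β hx]
      have h0 := jb_pos v
      have hτ0 : 0 ≤ len x / jb v := div_nonneg (len_nonneg x) h0.le
      have hτ1 : len x / jb v ≤ 1 := by
        have : len x / jb v ≤ 1 / 2 := by rwa [div_le_iff₀ h0]
        linarith
      have hτa : (len x / jb v) ^ a ≤ (len x / jb v) ^ β := by
        rcases hτ0.eq_or_lt with h3 | h3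
        · rw [← h3, Real.zero_rpow ha.ne', Real.zero_rpow hβ.ne']
        · exact Real.rpow_le_rpow_of_exponent_ge h3 hτ1 hβa
      have hτa1 : (len x / jb v) ^ a ≤ 1 := Real.rpow_le_one hτ0 hτ1 ha.le
      have hτa0 : 0 ≤ (len x / jb v) ^ a := Real.rpow_nonneg hτ0 a
      have hWm : jb w ^ (-a) * jb w ^ a = 1 := by
        rw [← Real.rpow_add hW, neg_add_cancel, Real.rpow_zero]
      have hWm0 : 0 < jb w ^ (-a) := Real.rpow_pos_of_pos hW _
      have hWa0 : 0 < jb w ^ a := Real.rpow_pos_of_pos hW _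
      generalize PhS e a (v + x) w - PhS e a v w = P at h1 ⊢
      generalize PhE a (v + x) w - PhE a v w = R at h2 ⊢
      generalize (len x / jb v) ^ a = u at *
      generalize (len x / jb v) ^ β = z at *
      generalize jb w ^ (-a) = Y at *
      generalize jb w ^ a = W at *
      have f1 : t * P ≤ 1 / 2 * (K₀ * (W * u)) := by
        calc t * P ≤ |t * P| := le_abs_self _
          _ = |t| * |P| := abs_mul _ _
          _ ≤ 1 / 2 * (K₀ * (W * u)) := mul_le_mul ht h1 (abs_nonneg _) (by norm_num)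
      have f2 : (|P| + |R|) ^ 2 ≤ (2 * (K₀ * (W * u))) ^ 2 :=
        pow_le_pow_left₀ (by positivity) (by linarith) 2
      have f3 : Y * (|P| + |R|) ^ 2 ≤ 4 * K₀ ^ 2 * W * u ^ 2 := by
        calc Y * (|P| + |R|) ^ 2 ≤ Y * (2 * (K₀ * (W * u))) ^ 2 :=
              mul_le_mul_of_nonneg_left f2 hWm0.le
          _ = 4 * K₀ ^ 2 * (Y * W) * W * u ^ 2 := by ring
          _ = 4 * K₀ ^ 2 * W * u ^ 2 := by rw [hWm, mul_one]
      have f4 : u ^ 2 ≤ z := by nlinarith
      have f5 : 4 * K₀ ^ 2 * W * u ^ 2 ≤ 4 * K₀ ^ 2 * W * z :=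
        mul_le_mul_of_nonneg_left f4 (by positivity)
      have f6 : 1 / 2 * (K₀ * (W * u)) ≤ 1 / 2 * (K₀ * (W * z)) := by
        have : W * u ≤ W * z := mul_le_mul_of_nonneg_left hτa hWa0.le
        have := mul_le_mul_of_nonneg_left this hK₀
        linarith
      calc t * P - 0 * R + 1 * Y * (|P| + |R|) ^ 2 = t * P + Y * (|P| + |R|) ^ 2 := by ring
        _ ≤ 1 / 2 * (K₀ * (W * z)) + 4 * K₀ ^ 2 * W * z := by linarith
        _ = (K₀ / 2 + 4 * K₀ ^ 2) * W * z := by ring
    have h3 := radk_mono hk hF hG hpt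
    refine h3.trans (le_of_eq ?_)
    rw [← integral_const_mul]
    refine integral_congr_ae (Filter.Eventually.of_forall fun σ => ?_)
    show k (co m σ) * ((K₀ / 2 + 4 * K₀ ^ 2) * jb w ^ a * mm β v (v + hh σ m)) =
      (K₀ / 2 + 4 * K₀ ^ 2) * jb w ^ a * (k (co m σ) * mm β v (v + hh σ m))
    ring

end Pool.Agent.H48.PW
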