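import Pool.Agent.H48.PW.TailDef
import Pool.Agent.H48.PW.SpF
import Pool.Agent.H67.NW.OpW
import Pool.Agent.H87.PF.Fin
import Pool.Agent.H48.PL.Glob
import Pool.Agent.H82.CM.LowK
import Pool.Agent.H15.AV.Defs

/-!
# Module Blk: the interfaces of the blocks of P-WIDE

The statements used by the assembly, with references to the folders of the block architects. Lemma S (`sing_S`): H87/PF. Blocks X and T (`tail_T`): H71/PX, used in RegW.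
-/

set_option autoImplicit false

open MeasureTheory Set Filter Topology Pool.Agent.H25.Kin Pool.Agent.H82.BK Pool.Agent.H82.CM
open Pool.Agent.H48.PL Pool.Agent.H48.PI
open Pool.Agent.H15.AV (UNice gau)

namespace Pool.Agent.H48.PW

variable {d : ℕ} {s a β m C Ca cb : ℝ} {b : ℝ → ℝ}

/-- block O -/
theorem op_w (HL : HypL d (1 + a) s b C Ca cb) (W : WP s a β m) {p : ℕ}
    (hp : (d : ℝ) + (1 + a) + 4 ≤ 2 * p) (e : Fin d) :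
    ∃ K₀ κ δ₁ : ℝ, 0 ≤ K₀ ∧ 0 < κ ∧ 0 < δ₁ ∧ δ₁ ≤ 1 ∧ ∀ C₀ R : ℝ, 0 < C₀ → 1 ≤ R →
    ∃ N₁ : ℝ, 0 < N₁ ∧ ∀ g g₁ : Vec d → ℝ, Nice g → (∀ u, 0 ≤ g u) → Measurable g₁ → (∀ u, 0 ≤ g₁ u) →
      (∀ u, g₁ u ≤ g u) → (∀ u, g₁ u ≤ C₀) → (∀ u, R < jb u → g₁ u = 0) →
      ∀ v : Vec d, TouchS δ₁ β p g v → N₁ ≤ g v * (1 + nsq v) ^ p →
      boltzQ (1 + a) b g v ≤ g v * (K₀ * (∫ w, (v e - w e) * PhS e a v w * (g w - g₁ w)) -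
        κ * ∫ w, len (v - w) ^ (1 + a) * g₁ w) :=
  Pool.Agent.H67.NW.op_w HL W hp e

/-- block H: cusp test functions -/
theorem err_cusp (HL : HypL d (1 + a) s b C Ca cb) (W : WP s a β m) (A₁ : ℝ) (hA₁ : 0 ≤ A₁) :
    ∃ K : ℝ, 0 ≤ K ∧ ∀ R₁ : ℝ, 1 ≤ R₁ → ∃ K₁ : ℝ, 0 ≤ K₁ ∧ ∀ ε : ℝ, 0 < ε → ε ≤ 1 →
      ∀ (Cl : ℕ → ℝ), ∀ η > 0, ∃ δ₀ > 0, ∀ δ ∈ Ioc (0 : ℝ) δ₀, ∀ g : Vec d → ℝ, UNice Cl g →
      ∀ (v₀ : Vec d) (V₁ : ℝ), 1 ≤ V₁ → ∀ ψ : Vec d → ℝ, Cusp s a m v₀ V₁ A₁ ψ →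
      |∫ w, boltzQ (1 + a) b g w * ψ w| ≤ K₁ / ε * Dn (1 + a) b δ g +
        ε * K₁ * om m V₁ R₁ * XT a m 1 g + K * XT a m (max V₁ R₁) g + η :=
  Pool.Agent.H87.PF.err_cusp HL W A₁ hA₁

/-- block R: renormalized cusp test functions -/
theorem err_renc (HL : HypL d (1 + a) s b C Ca cb) (W : WP s a β m) :
    ∃ K : ℝ, 0 ≤ K ∧ ∀ ε : ℝ, 0 < ε → ε ≤ 1 → ∀ (A₁ C₀ : ℝ) (Cl : ℕ → ℝ), 0 < C₀ → ∀ η > 0,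
      ∃ δ₀ > 0, ∀ δ ∈ Ioc (0 : ℝ) δ₀, ∀ g : Vec d → ℝ, UNice Cl g →
      ∀ (v₀ : Vec d) (A : ℝ), 0 ≤ A → A ≤ A₁ → ∀ ψ : Vec d → ℝ, CuspB s a v₀ A ψ →
      |∫ w, bet' C₀ (g w) * boltzQ (1 + a) b g w * ψ w| ≤
        A * ((1 / ε + K) * Dn (1 + a) b δ g + ε * K * XT a m 1 g) + η :=
  Pool.Agent.H87.PF.err_renc HL W

/-- block P: the one-sided condition for the cusps, `d ≥ 3` or `β ≤ a` -/
theorem sp_cusp (hd : 2 ≤ d) (ha : 0 < a) (ha1 : a < 1) (hβ : 0 < β) (hβ1 : β ≤ 1)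
    (h : 3 ≤ d ∨ β ≤ a) (e : Fin d) :
    ∃ M₁ c₂ K : ℝ, 0 ≤ M₁ ∧ 0 < c₂ ∧ 0 ≤ K ∧ ∀ v w m : Vec d, m ≠ 0 → ∀ k : ℝ → ℝ, RadK v m k →
      ∀ t : ℝ, |t| ≤ 1 / 2 →
      ∫ σ in {σ : Vec d | 0 < dot m σ}, k (co m σ) *
        (t * (PhS e a (v + hh σ m) w - PhS e a v w) - M₁ * (PhE a (v + hh σ m) w - PhE a v w) +
          c₂ * jb w ^ (-a) * (|PhS e a (v + hh σ m) w - PhS e a v w| +
            |PhE a (v + hh σ m) w - PhE a v w|) ^ 2) ∂(surf d) ≤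
        K * jb w ^ a * ∫ σ in {σ : Vec d | 0 < dot m σ},
          k (co m σ) * mm β v (v + hh σ m) ∂(surf d) :=
  sp_cuspF hd ha ha1 hβ hβ1 h e

end Pool.Agent.H48.PW
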