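import Pool.Agent.H48.PW.CircA

/-!
# Module CircB: the circle mean inequality

`ρ² + r² + 2(X cos t - Y sin t)` is `|y+h|²` for a vector `h` of length `r` rotating in a plane, `ρ = |y|`.
Proof. `n = √(X²+Y²) ≤ ρ r`. `X cos t - Y sin t = n cos (t + t₀)` (`n > 0`: `X = n cos t₀`, `Y = n sin t₀`, e.g. by Complex.arg of `X + iY`); by periodicity (`Function.Periodic.intervalIntegral_add_eq`) the
integral is the one with `2 n cos t`. Choose `α ≥ β' ≥ 0` with `α² + β'² = ρ²+r²`, `α β' = n`: `α² = (A + √(A²-4n²))/2`, `β'² = (A - √(A²-4n²))/2`, `A = ρ²+r² ≥ 2ρr ≥ 2n`.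
As `√(A²-4n²) ≥ √(A²-4ρ²r²) = |ρ²-r²|`: `α ≥ max ρ r`. If `α = 0` all is `0` (then `ρ = r = 0`, `0^a = 0`, `0^2 * .. = 0`). Otherwise `ρ²+r²+2n cos t = α² (1 + 2τ cos t + τ²)`, `τ = β'/α ≤ 1`, so by `circ_one`
`mean ≥ α^a (1 + c τ²)`, `c = a²/384`. `α² - ρ² = r² - β'²`. Case `β'² ≥ r²/2`: `α^a ≥ ρ^a` and `α^a c τ² = c α^(a-2) β'² ≥ c α^(a-2) r²/2 ≥ (c/2) r² (2 max²)^((a-2)/2) ≥ (c/4) r² max^(a-2)` (`α² ≤ ρ²+r² ≤ 2 max²`).
Case `β'² < r²/2`: `α² ≥ ρ² + r²/2`, `α^a - ρ^a ≥ (a/2)(α²-ρ²) (α²)^(a/2-1)` (concavity of `x^(a/2)`, mean value) `≥ (a/4) r² (2max²)^((a-2)/2) ≥ (a/8) r² max^(a-2)`.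
-/

set_option autoImplicit false

open MeasureTheory Set Filter Topology Real

namespace Pool.Agent.H48.PW

/-- `min(r²ρ^(a-2), r^a)` -/
noncomputable def mu (a ρ r : ℝ) : ℝ := r ^ 2 * max ρ r ^ (a - 2)

lemma mu_nonneg (a : ℝ) {ρ r : ℝ} (hρ : 0 ≤ ρ) : 0 ≤ mu a ρ r :=
  mul_nonneg (sq_nonneg _) (rpow_nonneg (le_max_of_le_left hρ) _)

private lemma rot_int (a A X Y : ℝ) :
    ∫ t in (0 : ℝ)..(2 * π), (A + 2 * (X * cos t - Y * sin t)) ^ (a / 2) =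
      ∫ t in (0 : ℝ)..(2 * π), (A + 2 * (√(X ^ 2 + Y ^ 2) * cos t)) ^ (a / 2) := by
  set z : ℂ := ⟨X, Y⟩ with hz
  have hn : ‖z‖ = √(X ^ 2 + Y ^ 2) := by
    rw [Complex.norm_eq_sqrt_sq_add_sq]
  have hX : ‖z‖ * cos z.arg = X := Complex.norm_mul_cos_arg z
  have hY : ‖z‖ * sin z.arg = Y := Complex.norm_mul_sin_arg z
  have e1 : ∀ t, X * cos t - Y * sin t = √(X ^ 2 + Y ^ 2) * cos (t + z.arg) := by
    intro t
    rw [← hn, cos_add]
    calc X * cos t - Y * sin t = (‖z‖ * cos z.arg) * cos t - (‖z‖ * sin z.arg) * sin t := by rw [hX, hY]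
      _ = ‖z‖ * (cos t * cos z.arg - sin t * sin z.arg) := by ring
  have e2 : ∫ t in (0 : ℝ)..(2 * π), (A + 2 * (X * cos t - Y * sin t)) ^ (a / 2) =
      ∫ t in (0 : ℝ)..(2 * π), (fun u => (A + 2 * (√(X ^ 2 + Y ^ 2) * cos u)) ^ (a / 2)) (t + z.arg) := by
    congr 1
    funext t
    rw [e1]
  rw [e2, intervalIntegral.integral_comp_add_right
    (fun u => (A + 2 * (√(X ^ 2 + Y ^ 2) * cos u)) ^ (a / 2)) z.arg]
  have hper : Function.Periodic (fun u : ℝ => (A + 2 * (√(X ^ 2 + Y ^ 2) * cos u)) ^ (a / 2)) (2 * π) := by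
    intro u
    simp only [cos_add_two_pi]
  have := hper.intervalIntegral_add_eq (0 + z.arg) 0
  rw [zero_add] at this
  rw [zero_add, add_comm (2 * π) z.arg]
  rw [this, zero_add]

private lemma conc {p x y : ℝ} (hp : 0 ≤ p) (hp1 : p ≤ 1) (hx : 0 < x) (hy : 0 ≤ y) :
    y ^ p + p * (x - y) * x ^ (p - 1) ≤ x ^ p := by
  have h1 : (1 + (y / x - 1)) ^ p ≤ 1 + p * (y / x - 1) :=
    rpow_one_add_le_one_add_mul_self (by have : 0 ≤ y / x := by positivity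
                                         linarith) hp hp1
  have e : 1 + (y / x - 1) = y / x := by ring
  rw [e, div_rpow hy hx.le] at h1
  have hxp : 0 < x ^ p := rpow_pos_of_pos hx p
  rw [div_le_iff₀ hxp] at h1
  rw [rpow_sub_one hx.ne']
  have e2 : p * (x - y) * (x ^ p / x) = x ^ p * (p * (1 - y / x)) := by
    field_simp
  rw [e2]
  linarith

private lemma pow_half {ρ a : ℝ} (hρ : 0 ≤ ρ) : (ρ ^ 2) ^ (a / 2) = ρ ^ a := by
  rw [← rpow_natCast, ← rpow_mul hρ]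
  congr 1
  push_cast
  ring

private lemma alg {a : ℝ} (ha : 0 < a) (ha1 : a ≤ 1) {ρ r P Q : ℝ} (hρ : 0 ≤ ρ) (hr : 0 ≤ r)
    (hP : 0 < P) (hQ : 0 ≤ Q) (hPQ : P + Q = ρ ^ 2 + r ^ 2) (hPM : max ρ r ^ 2 ≤ P) :
    ρ ^ a + a ^ 2 / 1536 * mu a ρ r ≤ P ^ (a / 2) * (1 + a ^ 2 / 384 * (Q / P)) := by
  set M := max ρ r with hM
  have hρM : ρ ≤ M := le_max_left _ _
  have hrM : r ≤ M := le_max_right _ _
  have hM0 : 0 < M := by
    rcases (hρ.trans hρM).eq_or_lt with h | h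
    · exfalso
      have h1 : ρ = 0 := le_antisymm (by rw [h]; exact hρM) hρ
      have h2 : r = 0 := le_antisymm (by rw [h]; exact hrM) hr
      rw [h1, h2] at hPQ
      norm_num at hPQ
      linarith
    · exact h
  have hPle : P ≤ 2 * M ^ 2 := by
    have h1 : ρ ^ 2 ≤ M ^ 2 := pow_le_pow_left₀ hρ hρM 2
    have h2 : r ^ 2 ≤ M ^ 2 := pow_le_pow_left₀ hr hrM 2
    linarith
  have hρP : ρ ^ 2 ≤ P := (pow_le_pow_left₀ hρ hρM 2).trans hPM
  -- the lower bound for `P^(a/2-1)`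
  have hlow : 1 / 2 * M ^ (a - 2) ≤ P ^ (a / 2 - 1) := by
    have h1 : (2 * M ^ 2) ^ (a / 2 - 1) ≤ P ^ (a / 2 - 1) :=
      rpow_le_rpow_of_nonpos hP hPle (by linarith)
    refine le_trans ?_ h1
    rw [mul_rpow (by norm_num) (by positivity)]
    have h2 : (M ^ 2) ^ (a / 2 - 1) = M ^ (a - 2) := by
      rw [← rpow_natCast, ← rpow_mul hM0.le]
      congr 1
      push_cast
      ring
    rw [h2]
    apply mul_le_mul_of_nonneg_right _ (rpow_nonneg hM0.le _)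
    have h3 : (2 : ℝ) ^ (-1 : ℝ) ≤ 2 ^ (a / 2 - 1) :=
      rpow_le_rpow_of_exponent_le (by norm_num) (by linarith)
    rw [rpow_neg_one] at h3
    linarith
  have hmu : mu a ρ r = r ^ 2 * M ^ (a - 2) := rfl
  have hMp : 0 ≤ M ^ (a - 2) := rpow_nonneg hM0.le _
  have hPp : 0 < P ^ (a / 2) := rpow_pos_of_pos hP _
  have hsub : P ^ (a / 2 - 1) = P ^ (a / 2) / P := rpow_sub_one hP.ne' _
  have hr2 : 0 ≤ r ^ 2 * M ^ (a - 2) := mul_nonneg (sq_nonneg _) hMp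
  rcases le_or_gt (r ^ 2 / 2) Q with h | h
  · have h1 : ρ ^ a ≤ P ^ (a / 2) := by
      rw [← pow_half hρ]
      exact rpow_le_rpow (by positivity) hρP (by positivity)
    have h2 : a ^ 2 / 1536 * mu a ρ r ≤ P ^ (a / 2) * (a ^ 2 / 384 * (Q / P)) := by
      have e : P ^ (a / 2) * (a ^ 2 / 384 * (Q / P)) = a ^ 2 / 384 * (Q * P ^ (a / 2 - 1)) := by
        rw [hsub]
        field_simp
      rw [e, hmu]
      have h3 : r ^ 2 / 2 * (1 / 2 * M ^ (a - 2)) ≤ Q * P ^ (a / 2 - 1) :=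
        mul_le_mul h hlow (by positivity) hQ
      have h4 := mul_le_mul_of_nonneg_left h3 (by positivity : 0 ≤ a ^ 2 / 384)
      refine le_trans (le_of_eq ?_) h4
      ring
    rw [mul_add, mul_one]
    linarith
  · have h1 : (ρ ^ 2) ^ (a / 2) + a / 2 * (P - ρ ^ 2) * P ^ (a / 2 - 1) ≤ P ^ (a / 2) :=
      conc (by positivity) (by linarith) hP (by positivity)
    rw [pow_half hρ] at h1
    have h2 : r ^ 2 / 2 ≤ P - ρ ^ 2 := by linarith
    have h3 : r ^ 2 / 2 * (1 / 2 * M ^ (a - 2)) ≤ (P - ρ ^ 2) * P ^ (a / 2 - 1) :=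
      mul_le_mul h2 hlow (by positivity) (by linarith [sq_nonneg r])
    have h4 : a ^ 2 / 1536 * mu a ρ r ≤ a / 2 * (P - ρ ^ 2) * P ^ (a / 2 - 1) := by
      have h5 := mul_le_mul_of_nonneg_left h3 (by positivity : 0 ≤ a / 2)
      have e : a / 2 * (P - ρ ^ 2) * P ^ (a / 2 - 1) = a / 2 * ((P - ρ ^ 2) * P ^ (a / 2 - 1)) := by ring
      rw [e]
      refine le_trans ?_ h5
      rw [hmu]
      have e2 : a / 2 * (r ^ 2 / 2 * (1 / 2 * M ^ (a - 2))) = a / 8 * (r ^ 2 * M ^ (a - 2)) := by ring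
      rw [e2]
      apply mul_le_mul_of_nonneg_right _ hr2
      nlinarith
    have h6 : P ^ (a / 2) ≤ P ^ (a / 2) * (1 + a ^ 2 / 384 * (Q / P)) := by
      have : 0 ≤ a ^ 2 / 384 * (Q / P) := by positivity
      nlinarith
    linarith

theorem circ_mean {a : ℝ} (ha : 0 < a) (ha1 : a ≤ 1) : ∃ c : ℝ, 0 < c ∧ ∀ ρ r X Y : ℝ, 0 ≤ ρ → 0 ≤ r →
    X ^ 2 + Y ^ 2 ≤ ρ ^ 2 * r ^ 2 →
    ρ ^ a + c * mu a ρ r ≤
      (2 * π)⁻¹ * ∫ t in (0 : ℝ)..(2 * π), (ρ ^ 2 + r ^ 2 + 2 * (X * cos t - Y * sin t)) ^ (a / 2) := by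
  refine ⟨a ^ 2 / 1536, by positivity, ?_⟩
  intro ρ r X Y hρ hr hXY
  rw [rot_int]
  set A := ρ ^ 2 + r ^ 2 with hA
  set n := √(X ^ 2 + Y ^ 2) with hn
  have hn0 : 0 ≤ n := sqrt_nonneg _
  have hn2 : n ^ 2 = X ^ 2 + Y ^ 2 := sq_sqrt (by positivity)
  have hnr : n ^ 2 ≤ ρ ^ 2 * r ^ 2 := by rw [hn2]; exact hXY
  have hD0 : 0 ≤ (ρ ^ 2 - r ^ 2) ^ 2 := sq_nonneg _
  have hD1 : (ρ ^ 2 - r ^ 2) ^ 2 ≤ A ^ 2 - 4 * n ^ 2 := by
    rw [hA]
    nlinarith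
  set D := √(A ^ 2 - 4 * n ^ 2) with hD
  have hDn : 0 ≤ D := sqrt_nonneg _
  have hD2 : D ^ 2 = A ^ 2 - 4 * n ^ 2 := sq_sqrt (hD0.trans hD1)
  have hDabs : |ρ ^ 2 - r ^ 2| ≤ D := abs_le_sqrt hD1
  have hA0 : 0 ≤ A := by rw [hA]; positivity
  have hDA : D ≤ A := by
    rw [← sq_le_sq₀ hDn hA0, hD2]
    nlinarith
  set P := (A + D) / 2 with hP
  set Q := (A - D) / 2 with hQ
  have hQ0 : 0 ≤ Q := by rw [hQ]; linarith
  have hPQ : P + Q = ρ ^ 2 + r ^ 2 := by rw [hP, hQ, ← hA]; ring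
  have hPQn : P * Q = n ^ 2 := by
    rw [hP, hQ]
    nlinarith
  have hPM : max ρ r ^ 2 ≤ P := by
    have h1 := le_abs_self (ρ ^ 2 - r ^ 2)
    have h2 := neg_abs_le (ρ ^ 2 - r ^ 2)
    rcases max_choice ρ r with h | h <;> rw [h, hP, hA] <;> linarith
  have hP0 : 0 ≤ P := (sq_nonneg _).trans hPM
  rcases hP0.eq_or_lt with h0 | hPpos
  · have hM : max ρ r = 0 := by
      rw [← h0] at hPM
      exact pow_eq_zero_iff two_ne_zero |>.1 (le_antisymm hPM (sq_nonneg _))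
    have h1 : ρ = 0 := le_antisymm (hM ▸ le_max_left ρ r) hρ
    have h2 : r = 0 := le_antisymm (hM ▸ le_max_right ρ r) hr
    have h3 : ρ ^ a + a ^ 2 / 1536 * mu a ρ r = 0 := by
      unfold mu
      rw [h1, h2, zero_rpow ha.ne']
      ring
    rw [h3]
    apply mul_nonneg (by positivity)
    apply intervalIntegral.integral_nonneg (by positivity)
    intro t _
    have hn00 : n = 0 := by
      have : n ^ 2 ≤ 0 := by rw [h1] at hnr; simpa using hnr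
      exact pow_eq_zero_iff two_ne_zero |>.1 (le_antisymm this (sq_nonneg _))
    rw [hn00]
    apply rpow_nonneg
    simpa using hA0
  · set τ := n / P with hτ
    have hτ0 : 0 ≤ τ := by positivity
    have hQP : Q ≤ P := by rw [hP, hQ]; linarith
    have hτ2 : τ ^ 2 = Q / P := by
      rw [hτ, div_pow, ← hPQn]
      field_simp
    have hτ1 : τ ≤ 1 := by
      rw [hτ, div_le_one hPpos, ← sq_le_sq₀ hn0 hPpos.le, ← hPQn, sq]
      exact mul_le_mul_of_nonneg_left hQP hPpos.le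
    have e1 : ∀ t, (A + 2 * (n * cos t)) ^ (a / 2) =
        P ^ (a / 2) * (1 + 2 * τ * cos t + τ ^ 2) ^ (a / 2) := by
      intro t
      have hu : 0 ≤ 1 + 2 * τ * cos t + τ ^ 2 := by
        have := neg_one_le_cos t
        nlinarith [sq_nonneg (1 - τ)]
      rw [← mul_rpow hPpos.le hu, hτ2]
      congr 1
      have : P * (1 + 2 * τ * cos t + Q / P) = P + Q + 2 * (P * τ) * cos t := by
        field_simp
        ring
      rw [this, hPQ, hτ, mul_div_cancel₀ _ hPpos.ne']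
      ring
    have e2 : ∫ t in (0 : ℝ)..(2 * π), (A + 2 * (n * cos t)) ^ (a / 2) =
        P ^ (a / 2) * ∫ t in (0 : ℝ)..(2 * π), (1 + 2 * τ * cos t + τ ^ 2) ^ (a / 2) := by
      rw [← intervalIntegral.integral_const_mul]
      congr 1
      funext t
      exact e1 t
    rw [e2]
    have h1 := circ_one ha ha1 hτ0 hτ1
    have h2 := alg ha ha1 hρ hr hPpos hQ0 hPQ hPM
    have h3 : 0 < P ^ (a / 2) := rpow_pos_of_pos hPpos _
    calc ρ ^ a + a ^ 2 / 1536 * mu a ρ r ≤ P ^ (a / 2) * (1 + a ^ 2 / 384 * (Q / P)) := h2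
      _ ≤ P ^ (a / 2) * ((2 * π)⁻¹ * ∫ t in (0 : ℝ)..(2 * π), (1 + 2 * τ * cos t + τ ^ 2) ^ (a / 2)) := by
          rw [← hτ2]
          exact mul_le_mul_of_nonneg_left h1 h3.le
      _ = _ := by ring

end Pool.Agent.H48.PW
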