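import Pool.Agent.H48.PW.Defs
import Pool.Agent.H48.PW.CircB
import Pool.Agent.H48.PL.JB

/-!
# Module PhiD: first and second differences of `φ(y) = y_e |y|^(a-1)` and `|y|^a`, `0 < a ≤ 1`

`ρ = |y|`, `r = |h|`.
* `phi_abs`: `|y_e| ≤ |y|` (`abs_coord_le`), at `y = 0` both sides vanish.
* `phi_holder`: if `|y-y'| ≥ |y|/2` both values are `≤ C |y-y'|^a`; else the segment stays in `|·| ≥ |y|/2`: `y_e|y|^(a-1) - y'_e|y'|^(a-1) = (y_e-y'_e)|y|^(a-1) + y'_e (|y|^(a-1)-|y'|^(a-1))`,
  `| |y|^(a-1) - |y'|^(a-1) | ≤ C |y|^(a-2) | |y|-|y'| |` (mean value theorem for `x^(a-1)` on `[|y|/2, 2|y|]`), so the difference is `≤ C |y-y'| |y|^(a-1) ≤ C |y-y'|^a`.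
* `phi_lip`: the same computation (`r ≤ ρ/2`), and `≤ C r^a ≤ C r ρ^(a-1)..` is used for `r > ρ/2` in the form `C r (max ρ r)^(a-1)`.
* `phi_snd`: for `r > ρ/2` from `phi_holder` (`≤ 2 C r^a ≤ C' mu`). For `r ≤ ρ/2`: `N(q) = q^((a-1)/2)`, `q = |y|²`, `q₊ = q + r² + 2 y·h`, `q₋ = q + r² - 2 y·h`:
  `φ(y+h)+φ(y-h)-2φ(y) = y_e (N(q₊)+N(q₋)-2N(q)) + h_e (N(q₊)-N(q₋))`; all points in `[q/4, 4q]`; Taylor: `|N(q₊)+N(q₋)-2N(q)| ≤ sup|N'| 2r² + sup|N''| ((q₊-q)²+(q₋-q)²)/2 ≤ C q^((a-3)/2) r² + C q^((a-5)/2) (9 q r²)`,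
  `|N(q₊)-N(q₋)| ≤ C q^((a-3)/2) 4 ρ r`. Total `≤ C ρ^(a-2) r²`.
* `len_rpow_lip`: `| |y+h|^a - |y|^a | ≤ C r (max ρ r)^(a-1)`: subadditivity of `x^a` for `r > ρ/2`, mean value theorem for `r ≤ ρ/2`.
-/

set_option autoImplicit false

open MeasureTheory Set Filter Topology Pool.Agent.H25.Kin Pool.Agent.H48.PL

namespace Pool.Agent.H48.PW

variable {d : ℕ}

/-! ### real variable -/

private lemma up1 {p u : ℝ} (hp0 : 0 ≤ p) (hp1 : p ≤ 1) (hu : 0 ≤ u) : |u ^ p - 1| ≤ |u - 1| := by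
  rcases le_total u 1 with h | h
  · have h1 : u ≤ u ^ p := by
      rcases hu.eq_or_lt with h0 | h0
      · rw [← h0]
        exact Real.rpow_nonneg le_rfl p
      · calc u = u ^ (1 : ℝ) := (Real.rpow_one u).symm
          _ ≤ u ^ p := Real.rpow_le_rpow_of_exponent_ge h0 h hp1
    have h2 : u ^ p ≤ 1 := Real.rpow_le_one hu h hp0
    rw [abs_of_nonpos (by linarith), abs_of_nonpos (by linarith)]
    linarith
  · have h1 : u ^ p ≤ u := by
      calc u ^ p ≤ u ^ (1 : ℝ) := Real.rpow_le_rpow_of_exponent_le h hp1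
        _ = u := Real.rpow_one u
    have h2 : 1 ≤ u ^ p := Real.one_le_rpow h hp0
    rw [abs_of_nonneg (by linarith), abs_of_nonneg (by linarith)]
    linarith

/-- `|u^(-p) - 1| ≤ 2 |u - 1|` for `u ≥ 1/2` -/
private lemma un1 {p u : ℝ} (hp0 : 0 ≤ p) (hp1 : p ≤ 1) (hu : 1 / 2 ≤ u) : |u ^ (-p) - 1| ≤ 2 * |u - 1| := by
  have h0 : 0 < u := by linarith
  have h1 := up1 hp0 hp1 h0.le
  have h2 : 1 / 2 ≤ u ^ p := by
    rcases le_total u 1 with h | h
    · calc (1 / 2 : ℝ) ≤ u := hu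
        _ = u ^ (1 : ℝ) := (Real.rpow_one u).symm
        _ ≤ u ^ p := Real.rpow_le_rpow_of_exponent_ge h0 h hp1
    · have := Real.one_le_rpow h hp0
      linarith
  have h3 : u ^ (-p) = (u ^ p)⁻¹ := Real.rpow_neg h0.le p
  have h4 : u ^ (-p) - 1 = -(u ^ p - 1) * (u ^ p)⁻¹ := by
    rw [h3]
    field_simp
    ring
  rw [h4, abs_mul, abs_neg, abs_of_pos (inv_pos.2 (by linarith : (0 : ℝ) < u ^ p))]
  have h5 : (u ^ p)⁻¹ ≤ 2 := by
    rw [inv_le_comm₀ (by linarith) (by norm_num)]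
    linarith
  calc |u ^ p - 1| * (u ^ p)⁻¹ ≤ |u - 1| * 2 :=
        mul_le_mul h1 h5 (inv_nonneg.2 (by linarith)) (abs_nonneg _)
    _ = 2 * |u - 1| := by ring

/-- Taylor: `0 ≤ x^(-p) - 1 + p (x-1) ≤ 4 (x-1)²` for `x ≥ 1/4` -/
private lemma tay {p x : ℝ} (hp0 : 0 ≤ p) (hp1 : p ≤ 1) (hx : 1 / 4 ≤ x) :
    |x ^ (-p) - 1 + p * (x - 1)| ≤ 4 * (x - 1) ^ 2 := by
  have h0 : 0 < x := by linarith
  have h1 : x ^ p ≤ 1 + p * (x - 1) := by
    have := rpow_one_add_le_one_add_mul_self (s := x - 1) (by linarith) hp0 hp1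
    rwa [add_sub_cancel] at this
  have h2 : x⁻¹ ^ p ≤ 1 + p * (x⁻¹ - 1) := by
    have := rpow_one_add_le_one_add_mul_self (s := x⁻¹ - 1) (by linarith [inv_pos.2 h0]) hp0 hp1
    rwa [add_sub_cancel] at this
  have h3 : x ^ (-p) = (x ^ p)⁻¹ := Real.rpow_neg h0.le p
  have h4 : x⁻¹ ^ p = x ^ (-p) := by
    rw [Real.inv_rpow h0.le, h3]
  rw [h4] at h2
  have hxp : 0 < x ^ p := Real.rpow_pos_of_pos h0 p
  have h5 : 0 ≤ x ^ (-p) - 1 + p * (x - 1) := by
    have hw : 0 < 1 + p * (x - 1) := lt_of_lt_of_le hxp h1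
    have h6 : (1 + p * (x - 1))⁻¹ ≤ (x ^ p)⁻¹ := inv_anti₀ hxp h1
    have h7 : 1 - p * (x - 1) ≤ (1 + p * (x - 1))⁻¹ := by
      rw [← one_div, le_div_iff₀ hw]
      nlinarith [sq_nonneg (p * (x - 1))]
    rw [h3]
    linarith
  rw [abs_of_nonneg h5]
  have h8 : x⁻¹ - 1 = -(x - 1) + (x - 1) ^ 2 * x⁻¹ := by
    field_simp
    ring
  have h9 : x⁻¹ ≤ 4 := by
    rw [inv_le_comm₀ h0 (by norm_num)]
    linarith
  have h10 : (x - 1) ^ 2 * x⁻¹ ≤ (x - 1) ^ 2 * 4 := mul_le_mul_of_nonneg_left h9 (sq_nonneg _)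
  have h11 : p * ((x - 1) ^ 2 * x⁻¹) ≤ 1 * ((x - 1) ^ 2 * x⁻¹) :=
    mul_le_mul_of_nonneg_right hp1 (mul_nonneg (sq_nonneg _) (inv_nonneg.2 h0.le))
  rw [h8] at h2
  nlinarith

/-- second difference -/
private lemma sec {p t e : ℝ} (hp0 : 0 ≤ p) (hp1 : p ≤ 1) (ht0 : 0 ≤ t) (ht : t ≤ 1 / 2) (he : e ^ 2 ≤ 4 * t ^ 2)
    (h1 : 1 / 4 ≤ 1 + t ^ 2 + e) (h2 : 1 / 4 ≤ 1 + t ^ 2 - e) :
    |(1 + t ^ 2 + e) ^ (-p) + (1 + t ^ 2 - e) ^ (-p) - 2| ≤ 36 * t ^ 2 := by
  have a1 := tay hp0 hp1 h1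
  have a2 := tay hp0 hp1 h2
  rw [abs_le] at a1 a2 ⊢
  have ht2 : t ^ 2 ≤ 1 / 4 := by nlinarith
  have hpt : p * t ^ 2 ≤ t ^ 2 := by nlinarith [sq_nonneg t]
  have hpt0 : 0 ≤ p * t ^ 2 := mul_nonneg hp0 (sq_nonneg t)
  have ht4 : t ^ 2 * t ^ 2 ≤ 1 / 4 * t ^ 2 := mul_le_mul_of_nonneg_right ht2 (sq_nonneg t)
  constructor
  · nlinarith [a1.1, a2.1]
  · nlinarith [a1.2, a2.2]

/-! ### vectors -/

private lemma rt {a : ℝ} (ha : 0 < a) (ha1 : a ≤ 1) {r m : ℝ} (hr : 0 < r) (hm : r ≤ m) (hm2 : m ≤ 2 * r) :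
    r ^ a ≤ 2 * (r * m ^ (a - 1)) ∧ r ^ a ≤ 4 * (r ^ 2 * m ^ (a - 2)) := by
  have hm0 : 0 < m := lt_of_lt_of_le hr hm
  constructor
  · have h1 : (2 * r) ^ (a - 1) ≤ m ^ (a - 1) := Real.rpow_le_rpow_of_nonpos hm0 hm2 (by linarith)
    have h2 : (2 * r) ^ (a - 1) = 2 ^ (a - 1) * r ^ (a - 1) := Real.mul_rpow (by norm_num) hr.le
    have h3 : (1 : ℝ) / 2 ≤ 2 ^ (a - 1) := by
      calc (1 : ℝ) / 2 = 2 ^ (-1 : ℝ) := by rw [Real.rpow_neg_one]; norm_num
        _ ≤ 2 ^ (a - 1) := Real.rpow_le_rpow_of_exponent_le (by norm_num) (by linarith)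
    have h4 : r ^ a = r * r ^ (a - 1) := by
      rw [← Real.rpow_one_add' hr.le (by linarith)]
      congr 1
      ring
    have h5 : 0 < r ^ (a - 1) := Real.rpow_pos_of_pos hr _
    rw [h4]
    have h6 : 1 / 2 * r ^ (a - 1) ≤ m ^ (a - 1) := by
      calc 1 / 2 * r ^ (a - 1) ≤ 2 ^ (a - 1) * r ^ (a - 1) := mul_le_mul_of_nonneg_right h3 h5.le
        _ ≤ m ^ (a - 1) := by rw [← h2]; exact h1
    nlinarith
  · have h1 : (2 * r) ^ (a - 2) ≤ m ^ (a - 2) := Real.rpow_le_rpow_of_nonpos hm0 hm2 (by linarith)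
    have h2 : (2 * r) ^ (a - 2) = 2 ^ (a - 2) * r ^ (a - 2) := Real.mul_rpow (by norm_num) hr.le
    have h3 : (1 : ℝ) / 4 ≤ 2 ^ (a - 2) := by
      calc (1 : ℝ) / 4 = 2 ^ (-2 : ℝ) := by
            rw [Real.rpow_neg (by norm_num)]
            norm_num
        _ ≤ 2 ^ (a - 2) := Real.rpow_le_rpow_of_exponent_le (by norm_num) (by linarith)
    have h4 : r ^ a = r ^ 2 * r ^ (a - 2) := by
      rw [← Real.rpow_natCast r 2, ← Real.rpow_add hr]
      congr 1
      push_cast
      ring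
    have h5 : 0 < r ^ (a - 2) := Real.rpow_pos_of_pos hr _
    rw [h4]
    have h6 : 1 / 4 * r ^ (a - 2) ≤ m ^ (a - 2) := by
      calc 1 / 4 * r ^ (a - 2) ≤ 2 ^ (a - 2) * r ^ (a - 2) := mul_le_mul_of_nonneg_right h3 h5.le
        _ ≤ m ^ (a - 2) := by rw [← h2]; exact h1
    nlinarith [sq_nonneg r, pow_pos hr 2]

private lemma kr {a k r x : ℝ} (ha : 0 < a) (ha1 : a ≤ 1) (hk : 1 ≤ k) (hr : 0 ≤ r) (hx : 0 ≤ x) (hxr : x ≤ k * r) :
    x ^ a ≤ k * r ^ a := by
  calc x ^ a ≤ (k * r) ^ a := Real.rpow_le_rpow hx hxr ha.le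
    _ = k ^ a * r ^ a := Real.mul_rpow (by linarith) hr
    _ ≤ k * r ^ a := by
      refine mul_le_mul_of_nonneg_right ?_ (Real.rpow_nonneg hr a)
      calc k ^ a ≤ k ^ (1 : ℝ) := Real.rpow_le_rpow_of_exponent_le hk ha1
        _ = k := Real.rpow_one k

lemma phi_abs {a : ℝ} (ha : 0 < a) (e : Fin d) (y : Vec d) : |phi e a y| ≤ len y ^ a := by
  unfold phi
  rw [abs_mul, abs_of_nonneg (Real.rpow_nonneg (len_nonneg y) (a - 1))]
  rcases (len_nonneg y).eq_or_lt with h | h
  · have h1 := abs_coord_le y e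
    rw [← h] at h1
    have h2 : |y e| = 0 := le_antisymm h1 (abs_nonneg _)
    rw [h2, zero_mul]
    exact Real.rpow_nonneg (len_nonneg y) a
  · calc |y e| * len y ^ (a - 1) ≤ len y * len y ^ (a - 1) :=
          mul_le_mul_of_nonneg_right (abs_coord_le y e) (Real.rpow_nonneg h.le _)
      _ = len y ^ a := by
        rw [← Real.rpow_one_add' h.le (by linarith)]
        congr 1
        ring

lemma phi_neg (e : Fin d) (a : ℝ) (y : Vec d) : phi e a (-y) = -phi e a y := by
  unfold phi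
  rw [len_neg, Pi.neg_apply]
  ring

lemma mul_phi_nonneg (e : Fin d) (a : ℝ) (y : Vec d) : 0 ≤ y e * phi e a y := by
  unfold phi
  rw [← mul_assoc]
  exact mul_nonneg (mul_self_nonneg _) (Real.rpow_nonneg (len_nonneg y) _)

lemma mul_phi_le {a : ℝ} (ha : 0 < a) (e : Fin d) (y : Vec d) : y e * phi e a y ≤ len y ^ (1 + a) := by
  have h1 : y e * phi e a y ≤ |y e| * |phi e a y| := by
    rw [← abs_mul]
    exact le_abs_self _
  refine h1.trans ?_
  rw [Real.rpow_one_add' (len_nonneg y) (by linarith)]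
  exact mul_le_mul (abs_coord_le y e) (phi_abs ha e y) (abs_nonneg _) (len_nonneg y)

private lemma len_diff (y h : Vec d) : |len (y + h) - len y| ≤ len h := by
  rw [abs_le]
  have h1 := len_add_le y h
  have h2 := len_le_add_sub y (y + h)
  have h3 : len (y - (y + h)) = len h := by
    rw [show y - (y + h) = -h by abel, len_neg]
  rw [h3] at h2
  constructor <;> linarith

/-- near case: differences of `|y|^(a-1)` -/
private lemma near1 {a : ℝ} (ha : 0 < a) (ha1 : a ≤ 1) {y h : Vec d} (hy : 0 < len y) (hh : len h ≤ len y / 2) :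
    |len (y + h) ^ (a - 1) - len y ^ (a - 1)| ≤ 2 * (len y ^ (a - 1) * (len h / len y)) ∧
    |len (y + h) ^ a - len y ^ a| ≤ len y ^ a * (len h / len y) := by
  have hd := len_diff y h
  have hz := len_nonneg (y + h)
  set u := len (y + h) / len y with hu
  have hu0 : len (y + h) = u * len y := by
    rw [hu]
    field_simp
  have hu1 : |u - 1| ≤ len h / len y := by
    have h1 : u - 1 = (len (y + h) - len y) / len y := by
      rw [hu]
      field_simp
    rw [h1, abs_div, abs_of_pos hy]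
    exact div_le_div_of_nonneg_right hd hy.le
  have hh2 : len h / len y ≤ 1 / 2 := by
    rw [div_le_iff₀ hy]
    linarith
  have hu2 : 1 / 2 ≤ u := by
    have := (abs_le.1 (hu1.trans hh2)).1
    linarith
  have hup : 0 ≤ u := by linarith
  constructor
  · have h1 : len (y + h) ^ (a - 1) - len y ^ (a - 1) = len y ^ (a - 1) * (u ^ (-(1 - a)) - 1) := by
      rw [hu0, Real.mul_rpow hup hy.le, neg_sub]
      ring
    rw [h1, abs_mul, abs_of_nonneg (Real.rpow_nonneg hy.le _)]
    have h2 := un1 (p := 1 - a) (by linarith) (by linarith) hu2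
    calc len y ^ (a - 1) * |u ^ (-(1 - a)) - 1| ≤ len y ^ (a - 1) * (2 * (len h / len y)) :=
          mul_le_mul_of_nonneg_left (h2.trans (by linarith)) (Real.rpow_nonneg hy.le _)
      _ = 2 * (len y ^ (a - 1) * (len h / len y)) := by ring
  · have h1 : len (y + h) ^ a - len y ^ a = len y ^ a * (u ^ a - 1) := by
      rw [hu0, Real.mul_rpow hup hy.le]
      ring
    rw [h1, abs_mul, abs_of_nonneg (Real.rpow_nonneg hy.le _)]
    exact mul_le_mul_of_nonneg_left ((up1 ha.le ha1 hup).trans hu1) (Real.rpow_nonneg hy.le _)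

private lemma pow_a {a : ℝ} {y : Vec d} (hy : 0 < len y) : len y ^ a / len y = len y ^ (a - 1) := by
  rw [Real.rpow_sub_one hy.ne']

private lemma len_zero_of {h : Vec d} (hh : len h ≤ 0) : h = 0 := by
  funext i
  have h1 := abs_coord_le h i
  have h2 : |h i| = 0 := le_antisymm (h1.trans hh) (abs_nonneg _)
  exact abs_eq_zero.1 h2

theorem phi_lip {a : ℝ} (ha : 0 < a) (ha1 : a ≤ 1) : ∃ K : ℝ, 0 ≤ K ∧ ∀ (e : Fin d) (y h : Vec d),
    |phi e a (y + h) - phi e a y| ≤ K * (len h * max (len y) (len h) ^ (a - 1)) ∧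
    |len (y + h) ^ a - len y ^ a| ≤ K * (len h * max (len y) (len h) ^ (a - 1)) := by
  refine ⟨10, by norm_num, ?_⟩
  intro e y h
  have hr := len_nonneg h
  have hρ := len_nonneg y
  have hz := len_nonneg (y + h)
  have hd := len_diff y h
  rw [abs_le] at hd
  rcases lt_or_ge (len y / 2) (len h) with hc | hc
  · -- far
    have hr0 : 0 < len h := by linarith
    have hm1 : len h ≤ max (len y) (len h) := le_max_right _ _
    have hm2 : max (len y) (len h) ≤ 2 * len h := max_le (by linarith) (by linarith)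
    have h1 := (rt ha ha1 hr0 hm1 hm2).1
    have h2 := kr ha ha1 (k := 3) (by norm_num) hr hz (by linarith)
    have h3 := kr ha ha1 (k := 2) (by norm_num) hr hρ (by linarith)
    have h4 := phi_abs ha e (y + h)
    have h5 := phi_abs ha e y
    have h6 := Real.rpow_nonneg hz a
    have h7 := Real.rpow_nonneg hρ a
    rw [abs_le] at h4 h5
    constructor
    · rw [abs_le]
      constructor <;> linarith [h4.1, h4.2, h5.1, h5.2]
    · rw [abs_le]
      constructor <;> linarith
  · rcases hρ.eq_or_lt with h0 | h0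
    · have hh : h = 0 := len_zero_of (by linarith)
      rw [hh, add_zero, sub_self, abs_zero, sub_self, abs_zero]
      have h1 : 0 ≤ 10 * (len (0 : Vec d) * max (len y) (len (0 : Vec d)) ^ (a - 1)) := by
        rw [len_zero]
        simp
      exact ⟨h1, h1⟩
    · have hm : max (len y) (len h) = len y := max_eq_left (by linarith)
      rw [hm]
      obtain ⟨n1, n2⟩ := near1 ha ha1 h0 hc
      have hpa : 0 < len y ^ (a - 1) := Real.rpow_pos_of_pos h0 _
      constructor
      · have e1 : phi e a (y + h) - phi e a y =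
            h e * len y ^ (a - 1) + (y e + h e) * (len (y + h) ^ (a - 1) - len y ^ (a - 1)) := by
          unfold phi
          rw [Pi.add_apply]
          ring
        rw [e1]
        have c1 : |h e * len y ^ (a - 1)| ≤ len h * len y ^ (a - 1) := by
          rw [abs_mul, abs_of_pos hpa]
          exact mul_le_mul_of_nonneg_right (abs_coord_le h e) hpa.le
        have c2 : |(y e + h e) * (len (y + h) ^ (a - 1) - len y ^ (a - 1))| ≤
            (2 * len y) * (2 * (len y ^ (a - 1) * (len h / len y))) := by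
          rw [abs_mul]
          refine mul_le_mul ?_ n1 (abs_nonneg _) (by linarith)
          have := abs_coord_le (y + h) e
          rw [Pi.add_apply] at this
          linarith
        have c3 : (2 * len y) * (2 * (len y ^ (a - 1) * (len h / len y))) = 4 * (len h * len y ^ (a - 1)) := by
          field_simp
          ring
        rw [c3] at c2
        have c4 : 0 ≤ len h * len y ^ (a - 1) := mul_nonneg hr hpa.le
        refine (abs_add_le _ _).trans ?_
        linarith
      · have c5 : len y ^ a * (len h / len y) = len h * len y ^ (a - 1) := by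
          rw [← pow_a h0]
          ring
        rw [c5] at n2
        have c4 : 0 ≤ len h * len y ^ (a - 1) := mul_nonneg hr hpa.le
        linarith

lemma phi_cont {a : ℝ} (ha : 0 < a) (ha1 : a ≤ 1) (e : Fin d) : Continuous (phi e a : Vec d → ℝ) := by
  obtain ⟨K, hK, h⟩ := phi_lip (d := d) ha ha1
  rw [continuous_iff_continuousAt]
  intro y
  have h1 : ∀ z : Vec d, |phi e a z - phi e a y| ≤ K * len (z - y) ^ a := by
    intro z
    have h2 := (h e y (z - y)).1
    rw [add_sub_cancel] at h2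
    refine h2.trans (mul_le_mul_of_nonneg_left ?_ hK)
    rcases (len_nonneg (z - y)).eq_or_lt with h0 | h0
    · rw [← h0, zero_mul, Real.zero_rpow ha.ne']
    · calc len (z - y) * max (len y) (len (z - y)) ^ (a - 1) ≤ len (z - y) * len (z - y) ^ (a - 1) := by
            refine mul_le_mul_of_nonneg_left ?_ h0.le
            exact Real.rpow_le_rpow_of_nonpos h0 (le_max_right _ _) (by linarith)
        _ = len (z - y) ^ a := by
          rw [← Real.rpow_one_add' h0.le (by linarith)]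
          congr 1
          ring
  have h3 : Tendsto (fun z : Vec d => K * len (z - y) ^ a) (𝓝 y) (𝓝 0) := by
    have h4 : Continuous fun z : Vec d => K * len (z - y) ^ a :=
      continuous_const.mul ((continuous_len.comp (continuous_id.sub continuous_const)).rpow_const
        (fun z => Or.inr ha.le))
    have h5 := h4.tendsto y
    simp only [sub_self, len_zero, Real.zero_rpow ha.ne', mul_zero] at h5
    exact h5
  unfold ContinuousAt
  rw [tendsto_iff_norm_sub_tendsto_zero]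
  exact squeeze_zero (fun z => norm_nonneg _) (fun z => by rw [Real.norm_eq_abs]; exact h1 z) h3

private lemma len_rpow (c : ℝ) (z : Vec d) : len z ^ c = nsq z ^ (c / 2) := by
  unfold len
  rw [Real.sqrt_eq_rpow, ← Real.rpow_mul (sq_nonneg' z)]
  congr 1
  ring

theorem phi_snd {a : ℝ} (ha : 0 < a) (ha1 : a ≤ 1) : ∃ K : ℝ, 0 ≤ K ∧ ∀ (e : Fin d) (y h : Vec d),
    |phi e a (y + h) + phi e a (y - h) - 2 * phi e a y| ≤ K * mu a (len y) (len h) := by
  refine ⟨40, by norm_num, ?_⟩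
  intro e y h
  have hr := len_nonneg h
  have hρ := len_nonneg y
  have hz := len_nonneg (y + h)
  have hz' := len_nonneg (y - h)
  have hd := len_diff y h
  have hd' := len_diff y (-h)
  rw [← sub_eq_add_neg, len_neg] at hd'
  rw [abs_le] at hd hd'
  unfold mu
  rcases lt_or_ge (len y / 2) (len h) with hc | hc
  · have hr0 : 0 < len h := by linarith
    have hm1 : len h ≤ max (len y) (len h) := le_max_right _ _
    have hm2 : max (len y) (len h) ≤ 2 * len h := max_le (by linarith) (by linarith)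
    have h1 := (rt ha ha1 hr0 hm1 hm2).2
    have h2 := kr ha ha1 (k := 3) (by norm_num) hr hz (by linarith)
    have h2' := kr ha ha1 (k := 3) (by norm_num) hr hz' (by linarith)
    have h3 := kr ha ha1 (k := 2) (by norm_num) hr hρ (by linarith)
    have h4 := phi_abs ha e (y + h)
    have h4' := phi_abs ha e (y - h)
    have h5 := phi_abs ha e y
    rw [abs_le] at h4 h4' h5
    rw [abs_le]
    constructor <;> linarith [h4.1, h4.2, h5.1, h5.2, h4'.1, h4'.2]
  · rcases hρ.eq_or_lt with h0 | h0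
    · have hh : h = 0 := len_zero_of (by linarith)
      rw [hh, add_zero, sub_zero, len_zero]
      have e1 : phi e a y + phi e a y - 2 * phi e a y = 0 := by ring
      rw [e1, abs_zero]
      simp
    · have hm : max (len y) (len h) = len y := max_eq_left (by linarith)
      rw [hm]
      obtain ⟨n1, -⟩ := near1 ha ha1 h0 hc
      obtain ⟨n1', -⟩ := near1 ha ha1 (h := -h) h0 (by rw [len_neg]; exact hc)
      rw [← sub_eq_add_neg, len_neg] at n1'
      have hpa : 0 < len y ^ (a - 1) := Real.rpow_pos_of_pos h0 _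
      -- the second difference of `|y|^(a-1)`
      set t := len h / len y with ht
      have ht0 : 0 ≤ t := div_nonneg hr hρ
      have ht2 : t ≤ 1 / 2 := by
        rw [ht, div_le_iff₀ h0]
        linarith
      have hq : nsq y = len y ^ 2 := (len_sq y).symm
      have hqh : nsq h = len h ^ 2 := (len_sq h).symm
      have hq0 : 0 < nsq y := by
        rw [hq]
        positivity
      set E := 2 * dot y h / nsq y with hE
      have ht3 : t ^ 2 = nsq h / nsq y := by
        rw [ht, div_pow, len_sq, len_sq]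
      have hE2 : E ^ 2 ≤ 4 * t ^ 2 := by
        have h1 := dot_sq_le y h
        have h2 : 4 * (nsq h / nsq y) * nsq y ^ 2 = 4 * (nsq y * nsq h) := by
          field_simp
        rw [ht3, hE, div_pow, div_le_iff₀ (by positivity), h2, mul_pow]
        linarith
      have hx1 : nsq (y + h) = (1 + t ^ 2 + E) * nsq y := by
        rw [nsq_add, hE, ht3]
        field_simp
        ring
      have hx2 : nsq (y - h) = (1 + t ^ 2 - E) * nsq y := by
        rw [nsq_sub, hE, ht3]
        field_simp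
        ring
      have hb1 : 1 / 4 ≤ 1 + t ^ 2 + E := by
        have h1 : (len y / 2) ^ 2 ≤ len (y + h) ^ 2 := pow_le_pow_left₀ (by linarith) (by linarith) 2
        rw [len_sq, hx1] at h1
        have h2 : (len y / 2) ^ 2 = 1 / 4 * nsq y := by
          rw [div_pow, ← hq]
          ring
        rw [h2] at h1
        exact le_of_mul_le_mul_right h1 hq0
      have hb2 : 1 / 4 ≤ 1 + t ^ 2 - E := by
        have h1 : (len y / 2) ^ 2 ≤ len (y - h) ^ 2 := pow_le_pow_left₀ (by linarith) (by linarith) 2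
        rw [len_sq, hx2] at h1
        have h2 : (len y / 2) ^ 2 = 1 / 4 * nsq y := by
          rw [div_pow, ← hq]
          ring
        rw [h2] at h1
        exact le_of_mul_le_mul_right h1 hq0
      have hs := sec (p := (1 - a) / 2) (by linarith) (by linarith) ht0 ht2 hE2 hb1 hb2
      have hS : len (y + h) ^ (a - 1) + len (y - h) ^ (a - 1) - 2 * len y ^ (a - 1) =
          len y ^ (a - 1) * ((1 + t ^ 2 + E) ^ (-((1 - a) / 2)) + (1 + t ^ 2 - E) ^ (-((1 - a) / 2)) - 2) := by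
        have h1 : (a - 1) / 2 = -((1 - a) / 2) := by ring
        rw [len_rpow (a - 1) (y + h), len_rpow (a - 1) (y - h), len_rpow (a - 1) y, h1, hx1, hx2,
          Real.mul_rpow (by linarith) hq0.le, Real.mul_rpow (by linarith) hq0.le]
        ring
      have e1 : phi e a (y + h) + phi e a (y - h) - 2 * phi e a y =
          y e * (len (y + h) ^ (a - 1) + len (y - h) ^ (a - 1) - 2 * len y ^ (a - 1)) +
            h e * (len (y + h) ^ (a - 1) - len (y - h) ^ (a - 1)) := by
        unfold phi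
        rw [Pi.add_apply, Pi.sub_apply]
        ring
      have ha2 : len y ^ (a - 2) = len y ^ (a - 1) / len y := by
        rw [← Real.rpow_sub_one h0.ne']
        congr 1
        ring
      have c1 : |y e * (len (y + h) ^ (a - 1) + len (y - h) ^ (a - 1) - 2 * len y ^ (a - 1))| ≤
          36 * (len h ^ 2 * len y ^ (a - 2)) := by
        rw [hS, abs_mul, abs_mul, abs_of_pos hpa]
        have h1 : len y * (len y ^ (a - 1) * (36 * t ^ 2)) = 36 * (len h ^ 2 * len y ^ (a - 2)) := by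
          rw [ha2, ht]
          field_simp
        rw [← h1]
        exact mul_le_mul (abs_coord_le y e) (mul_le_mul_of_nonneg_left hs hpa.le)
          (mul_nonneg hpa.le (abs_nonneg _)) hρ
      have c2 : |h e * (len (y + h) ^ (a - 1) - len (y - h) ^ (a - 1))| ≤ 4 * (len h ^ 2 * len y ^ (a - 2)) := by
        rw [abs_mul]
        have h1 : len h * (4 * (len y ^ (a - 1) * t)) = 4 * (len h ^ 2 * len y ^ (a - 2)) := by
          rw [ha2, ht]
          field_simp
        rw [← h1]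
        refine mul_le_mul (abs_coord_le h e) ?_ (abs_nonneg _) hr
        have h2 : len (y + h) ^ (a - 1) - len (y - h) ^ (a - 1) =
            (len (y + h) ^ (a - 1) - len y ^ (a - 1)) - (len (y - h) ^ (a - 1) - len y ^ (a - 1)) := by ring
        rw [h2]
        refine (abs_sub _ _).trans ?_
        linarith
      rw [e1]
      refine (abs_add_le _ _).trans ?_
      linarith

end Pool.Agent.H48.PW
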