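import Pool.Agent.H48.PI.FinalU

/-!
# Module FinG: plane symmetric solutions, constants independent of `T`, from the uniform pointwise bound
-/

set_option autoImplicit false

open MeasureTheory Set Filter Topology Pool.Agent.H25.Kin Pool.Agent.H82.BK Pool.Agent.H82.CM
open Pool.Agent.H48.PL Pool.Agent.H48.PI Pool.Agent.H93.CM

namespace Pool.Agent.H48.PW

variable {d : ℕ}

/-- the uniform pointwise bound for plane symmetric solutions -/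
def UniP (d : ℕ) (γ : ℝ) (b : ℝ → ℝ) : Prop := ∀ (e : Fin d) (p : ℕ), (d : ℝ) + γ + 4 ≤ 2 * p →
    ∀ M : ℝ, 0 ≤ M → ∀ m : ℝ, 0 < m → ∃ K : ℝ, 0 ≤ K ∧
    ∀ (T : ℝ) (f : ℝ → Vec d → Vec d → ℝ), IsBoltzmannSol γ b T f →
      Planar e T f → GB M (f 0) → m ≤ ∫ q, f 0 q.2 q.1 ∂(nu d) →
      ∀ A₀ : ℝ, (∀ x v, f 0 x v * (1 + nsq v) ^ p ≤ A₀) →
      ∀ t ∈ Ico 0 T, ∀ x v, f t x v * (1 + nsq v) ^ p ≤ K * (A₀ + 1)

/-- the hypotheses of the general theorem -/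
structure Reg (d : ℕ) (s γ : ℝ) (b : ℝ → ℝ) : Prop where
  hd : 2 ≤ d
  hs : 0 < s
  hs1 : s < 1
  g1 : 1 < γ
  g2 : γ + 2 * s < 2
  hb : IsKernel d s b
  uni : UniP d γ b

lemma Reg.g0 {s γ : ℝ} {b : ℝ → ℝ} (h : Reg d s γ b) : 0 ≤ γ + 2 * s := by
  have := h.hs
  have := h.g1
  linarith

lemma Reg.hyp {s γ : ℝ} {b : ℝ → ℝ} (h : Reg d s γ b) : ∃ C Ca cb, HypL d γ s b C Ca cb :=
  exists_hypL h.hd h.hs h.hs1 h.g0 h.g2.le h.hb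

/-- the constants of the initial value -/
private lemma data_of (F : Vec d → Vec d → ℝ) : ∃ M : ℝ, 0 ≤ M ∧ GB M F := by
  refine ⟨max 0 (max (∫ q, F q.2 q.1 ∂(nu d)) (max (∫ q, F q.2 q.1 * nsq q.1 ∂(nu d))
    (∫ q, F q.2 q.1 * Real.log (F q.2 q.1) ∂(nu d)))), le_max_left _ _, ?_, ?_, ?_⟩
  · exact (le_max_left _ _).trans (le_max_right _ _)
  · exact ((le_max_left _ _).trans (le_max_right _ _)).trans (le_max_right _ _)
  · exact ((le_max_right _ _).trans (le_max_right _ _)).trans (le_max_right _ _)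

/-- from the weighted supremum to the decay -/
private lemma decay_of {f : Vec d → ℝ} (h0 : ∀ v, 0 ≤ f v) {N p : ℕ} (hNp : N ≤ p) {K : ℝ}
    (h : ∀ v, f v * (1 + nsq v) ^ p ≤ K) (v : Vec d) : (1 + ‖v‖) ^ N * f v ≤ 2 ^ N * K := by
  have h12 : (1 + ‖v‖) ^ N ≤ 2 ^ N * (1 + nsq v) ^ p := by
    have h13 : (1 : ℝ) ≤ 1 + ‖v‖ := by linarith [norm_nonneg v]
    calc (1 + ‖v‖) ^ N ≤ ((1 + ‖v‖) ^ 2) ^ N := by
          apply pow_le_pow_left₀ (by linarith)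
          nlinarith
      _ ≤ (2 * (1 + nsq v)) ^ N := pow_le_pow_left₀ (by positivity) (norm_le_nsq v) N
      _ = 2 ^ N * (1 + nsq v) ^ N := mul_pow _ _ _
      _ ≤ 2 ^ N * (1 + nsq v) ^ p := by
          apply mul_le_mul_of_nonneg_left _ (by positivity)
          exact pow_le_pow_right₀ (by linarith [sq_nonneg' v]) hNp
  calc (1 + ‖v‖) ^ N * f v ≤ (2 ^ N * (1 + nsq v) ^ p) * f v :=
        mul_le_mul_of_nonneg_right h12 (h0 v)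
    _ = 2 ^ N * (f v * (1 + nsq v) ^ p) := by ring
    _ ≤ 2 ^ N * K := mul_le_mul_of_nonneg_left (h v) (by positivity)

/-- rapid decay with constants depending on the initial value only -/
theorem planar_rapid_gen {s γ : ℝ} {b : ℝ → ℝ} (hw : Reg d s γ b) (e : Fin d)
    (F₀ : Vec d → Vec d → ℝ) :
    ∃ U : ℕ → ℝ, ∀ (T : ℝ) (f : ℝ → Vec d → Vec d → ℝ), IsBoltzmannSol γ b T f → Planar e T f → f 0 = F₀ →
      ∀ N : ℕ, ∀ t ∈ Ico 0 T, ∀ x v, (1 + ‖v‖) ^ N * f t x v ≤ U N := by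
  by_cases hex : ∃ (T : ℝ) (f : ℝ → Vec d → Vec d → ℝ), 0 < T ∧ IsBoltzmannSol γ b T f ∧ Planar e T f ∧ f 0 = F₀
  swap
  · refine ⟨fun _ => 0, fun T f hf hpl h0 N t ht x v => ?_⟩
    exact absurd ⟨T, f, ht.1.trans_lt ht.2, hf, hpl, h0⟩ hex
  obtain ⟨T₁, f₁, hT₁, hf₁, -, h₁⟩ := hex
  obtain ⟨C, Ca, cb, HL⟩ := hw.hyp
  obtain ⟨M, hM0, hM⟩ := data_of F₀
  have hz₁ : (0 : ℝ) ∈ Ico 0 T₁ := ⟨le_rfl, hT₁⟩
  have hF0 : ∀ x v, 0 ≤ F₀ x v := fun x v => by rw [← h₁]; exact hf₁.nonneg 0 hz₁ x v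
  have hm0 : 0 ≤ ∫ q, F₀ q.2 q.1 ∂(nu d) := integral_nonneg fun q => hF0 _ _
  rcases hm0.eq_or_lt with hm | hm
  · refine ⟨fun _ => 0, fun T f hf hpl h0 N t ht x v => ?_⟩
    have h3 := Pool.Agent.H15.AV.mass_const (Q := boltzQ γ b) hf (boltz_HasInvariants HL.H hf) ht
    rw [h0, ← hm] at h3
    rw [zero_of_mass (Q := fun t x => boltzQ γ b (f t x)) hf ht h3 x v, mul_zero]
  have hp : ∀ N : ℕ, ∃ p : ℕ, (d : ℝ) + γ + 4 ≤ 2 * p ∧ N ≤ p := by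
    intro N
    obtain ⟨p, hp⟩ := exists_nat_ge (((d : ℝ) + γ + 4) / 2 + N)
    have h5 : (0 : ℝ) ≤ N := Nat.cast_nonneg N
    have h3 : (0 : ℝ) ≤ d := Nat.cast_nonneg d
    refine ⟨p, by linarith, ?_⟩
    have h4 : (N : ℝ) ≤ p := by linarith [hw.g1]
    exact_mod_cast h4
  choose p hp1 hp2 using hp
  have hK := fun N => hw.uni e (p N) (hp1 N) M hM0 _ hm
  choose K hK0 hK using hK
  have hA := fun N => init_bound (Q := fun t x => boltzQ γ b (f₁ t x)) hf₁ hT₁ (p N)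
  choose A hA using hA
  refine ⟨fun N => 2 ^ N * (K N * (A N + 1)), fun T f hf hpl h0 N t ht x v => ?_⟩
  refine decay_of (fun v => hf.nonneg t ht x v) (hp2 N) (fun v => ?_) v
  refine hK N T f hf hpl (by rw [h0]; exact hM) (by rw [h0]) (A N) (fun x v => ?_) t ht x v
  rw [h0, ← h₁]
  exact hA N x v

/-- the hydrodynamic bounds with constants depending on the initial value only -/
theorem planar_hydro_gen {s γ : ℝ} {b : ℝ → ℝ} (hw : Reg d s γ b) (e : Fin d)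
    (F₀ : Vec d → Vec d → ℝ) (hF : ∀ x, 0 < ∫ v, F₀ x v) :
    ∃ m₀ > 0, ∃ M₀ : ℝ, ∀ (T : ℝ) (f : ℝ → Vec d → Vec d → ℝ), IsBoltzmannSol γ b T f → Planar e T f →
      f 0 = F₀ → ∀ t ∈ Ico 0 T, ∀ x, HydroBounds m₀ M₀ M₀ M₀ (f t x) := by
  by_cases hex : ∃ (T : ℝ) (f : ℝ → Vec d → Vec d → ℝ), 0 < T ∧ IsBoltzmannSol γ b T f ∧ Planar e T f ∧ f 0 = F₀
  swap
  · refine ⟨1, one_pos, 0, fun T f hf hpl h0 t ht x => ?_⟩
    exact absurd ⟨T, f, ht.1.trans_lt ht.2, hf, hpl, h0⟩ hex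
  obtain ⟨T₁, f₁, hT₁, hf₁, -, h₁⟩ := hex
  obtain ⟨M, hM0, hM⟩ := data_of F₀
  have hsl : Pool.Agent.H15.AV.Slice F₀ := by
    rw [← h₁]
    exact Pool.Agent.H15.AV.sol_slice hf₁ ⟨le_rfl, hT₁⟩
  obtain ⟨U, hU⟩ := planar_rapid_gen hw e F₀
  obtain ⟨M₀, hM₀⟩ := hydro_of_U d U
  obtain ⟨m₀, hm₀, hlow⟩ := Pool.Agent.H85.LB.lower_unif hw.hd ⟨hw.hs, hw.hs1⟩ hw.g0 hw.g2 hw.hb e U hsl hF hM
  refine ⟨m₀, hm₀, M₀, fun T f hf hpl h0 t ht x => ?_⟩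
  have hUf := hU T f hf hpl h0
  obtain ⟨g1, g2, g3⟩ := hM₀ T _ f hf hUf t ht x
  exact ⟨hlow T f hf hpl h0 hUf t ht x, g1, g2, g3⟩

end Pool.Agent.H48.PW
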