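import Pool.Agent.H48.PW.RegW
import Pool.Agent.H25.PN.Fin

/-!
# Module EstW: all directions, the region of the exponents
-/

set_option autoImplicit false

open MeasureTheory Set Filter Topology Pool.Agent.H25.Kin Pool.Agent.H82.BK Pool.Agent.H82.CM
open Pool.Agent.H48.PL Pool.Agent.H48.PI Pool.Agent.H93.CM Pool.Agent.H25.PN

namespace Pool.Agent.H48.PW

variable {d : ℕ}

/-- the coordinate directions -/
theorem est_coordW {s γ : ℝ} {b : ℝ → ℝ} (hw : Reg d s γ b) (e : Fin d) : Est d γ b (Planar e) := by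
  refine ⟨fun F₀ => ⟨?_, fun hF => planar_hydro_gen hw e F₀ hF⟩, fun p hp m hm M => ?_⟩
  · obtain ⟨U, hU⟩ := planar_rapid_gen hw e F₀
    obtain ⟨M₀, hM₀⟩ := hydro_of_U d U
    refine ⟨U, M₀, fun T f hf hpl h0 t ht x => ?_⟩
    exact ⟨fun N v => hU T f hf hpl h0 N t ht x v, hM₀ T _ f hf (hU T f hf hpl h0) t ht x⟩
  · rcases lt_or_ge M 0 with hM | hM
    · refine ⟨0, le_rfl, fun T f hf hpl g0 g1 g2 g3 A₀ hA t ht x v => ?_⟩
      linarith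
    obtain ⟨K, hK0, hK⟩ := hw.uni e p hp M hM m hm
    refine ⟨K, hK0, fun T f hf hpl g0 g1 g2 g3 A₀ hA t ht x v => ?_⟩
    have hT : (0 : ℝ) ∈ Ico 0 T := ⟨le_rfl, ht.1.trans_lt ht.2⟩
    have hsl := Pool.Agent.H15.AV.sol_slice hf hT
    refine hK T f hf hpl (GB_of hsl g1 g2 g3) ?_ A₀ hA t ht x v
    rw [mass_iter hsl]
    exact g0

/-- all directions -/
theorem est_dirW {s γ : ℝ} (hw : ∀ b : ℝ → ℝ, IsKernel d s b → Reg d s γ b) {b : ℝ → ℝ}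
    (hb : IsKernel d s b) {ν : Vec d} (hν : ν ≠ 0) : Est d γ b (PlaneSym ν) := by
  have h := hw b hb
  exact est_all h.hd h.hs h.hs1 h.g0 h.g2.le (fun b hb e => est_coordW (hw b hb) e) hb hν

/-- `d ≥ 3`: `1 < γ < 1 + 4s/(1+4s)`, `γ + 2s < 2`; `d = 2`: also `1 + 2s < γ` -/
theorem est_regionW (hd : 2 ≤ d) {s γ : ℝ} (hs : 0 < s) (h1 : 1 < γ) (h2 : γ < 1 + 4 * s / (1 + 4 * s))
    (h3 : γ + 2 * s < 2) (h4 : 3 ≤ d ∨ 1 + 2 * s < γ) {b : ℝ → ℝ} (hb : IsKernel d s b) {ν : Vec d}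
    (hν : ν ≠ 0) : Est d γ b (PlaneSym ν) := by
  rcases lt_or_ge (1 + 2 * s) γ with h5 | h5
  · exact est_dir hd hs h5 h2 hb hν
  · have h6 : 3 ≤ d := h4.resolve_right (not_lt.2 h5)
    exact est_dirW (fun b hb => reg_low h6 hs h1 h5 h3 hb) hb hν

/-- the form with the upper region as a hypothesis: all `γ > 1`, `γ + 2s < 2` -/
theorem est_full_of {s γ : ℝ} (hU : 1 + 2 * s < γ → ∀ b : ℝ → ℝ, IsKernel d s b → Reg d s γ b)
    (hs : 0 < s) (h1 : 1 < γ) (h3 : γ + 2 * s < 2) (h4 : 3 ≤ d ∨ 1 + 2 * s < γ) {b : ℝ → ℝ}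
    (hb : IsKernel d s b) {ν : Vec d} (hν : ν ≠ 0) : Est d γ b (PlaneSym ν) := by
  rcases lt_or_ge (1 + 2 * s) γ with h5 | h5
  · exact est_dirW (hU h5) hb hν
  · have h6 : 3 ≤ d := h4.resolve_right (not_lt.2 h5)
    exact est_dirW (fun b hb => reg_low h6 hs h1 h5 h3 hb) hb hν

end Pool.Agent.H48.PW
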