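import Pool.Agent.H48.PW.EWDef
import Pool.Agent.H48.PI.AvgG

/-!
# Module AvGW: the unbounded part is small

Copy of PI/AvgG.lean (`g2_small`, 232 lines) with `a < 1` instead of `a < 1/2` (only `a < 1` is used) and `gw q F = chi q.R w * bet q.C₀ (F x w)` instead of `g1 q F` (the same function).
-/

set_option autoImplicit false

open MeasureTheory Set Filter Topology Pool.Agent.H25.Kin Pool.Agent.H48.PL Pool.Agent.H48.PI

namespace Pool.Agent.H48.PW

variable {d : ℕ}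

private lemma ag_pt {y j c b R C₀ K a : ℝ} (hy : 0 ≤ y) (hj : 1 ≤ j) (hc0 : 0 ≤ c) (hc1 : c ≤ 1)
    (hcR : j ≤ R → c = 1) (hc2 : 2 * R ≤ j → c = 0) (hR : 1 ≤ R) (ha : 0 < a) (ha1 : a < 1)
    (hC : 0 < C₀) (hK : 0 < K) (hby : b ≤ y) (hb : y - b = y ^ 2 / (C₀ + y)) :
    (y - c * b) * j ^ (1 + a) ≤ R ^ (a - 1) * (y * j ^ (2 : ℝ)) +
      (2 * R) ^ (1 + a) * (Real.exp K / C₀ * y) + (2 * R) ^ (1 + a) / K * (y * max (Real.log y) 0) := by
  have hj0 : 0 < j := lt_of_lt_of_le one_pos hj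
  have hR0 : 0 < R := lt_of_lt_of_le one_pos hR
  have hp : 0 ≤ j ^ (1 + a) := Real.rpow_nonneg hj0.le _
  have hq : 0 ≤ (2 * R) ^ (1 + a) := Real.rpow_nonneg (by positivity) _
  have e0 : (y - c * b) * j ^ (1 + a) = (1 - c) * y * j ^ (1 + a) + c * (y - b) * j ^ (1 + a) +
      (0 : ℝ) := by ring
  -- the part with large velocities
  have p1 : (1 - c) * y * j ^ (1 + a) ≤ R ^ (a - 1) * (y * j ^ (2 : ℝ)) := by
    rcases le_or_gt j R with h | h
    · rw [hcR h, sub_self, zero_mul, zero_mul]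
      have := Real.rpow_nonneg hR0.le (a - 1)
      have := Real.rpow_nonneg hj0.le 2
      positivity
    · have e1 : j ^ (1 + a) = j ^ (a - 1) * j ^ (2 : ℝ) := by
        rw [← Real.rpow_add hj0]; congr 1; ring
      have e2 : j ^ (a - 1) ≤ R ^ (a - 1) := Real.rpow_le_rpow_of_nonpos hR0 h.le (by linarith)
      have e3 : 0 ≤ j ^ (2 : ℝ) := Real.rpow_nonneg hj0.le _
      have e4 : (1 - c) * y ≤ y := by nlinarith
      calc (1 - c) * y * j ^ (1 + a) ≤ y * j ^ (1 + a) := mul_le_mul_of_nonneg_right e4 hp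
        _ = j ^ (a - 1) * (y * j ^ (2 : ℝ)) := by rw [e1]; ring
        _ ≤ R ^ (a - 1) * (y * j ^ (2 : ℝ)) :=
          mul_le_mul_of_nonneg_right e2 (mul_nonneg hy e3)
  -- the unbounded part
  have q0 : 0 ≤ y ^ 2 / (C₀ + y) := by positivity
  have q1 : y ^ 2 / (C₀ + y) ≤ Real.exp K / C₀ * y + 1 / K * (y * max (Real.log y) 0) := by
    have m0 : 0 ≤ max (Real.log y) 0 := le_max_right _ _
    have m1 : 0 ≤ 1 / K * (y * max (Real.log y) 0) := by positivity
    have m2 : 0 ≤ Real.exp K / C₀ * y := by have := Real.exp_pos K; positivity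
    rcases le_or_gt y (Real.exp K) with h | h
    · have h1 : y ^ 2 / (C₀ + y) ≤ y ^ 2 / C₀ :=
        div_le_div_of_nonneg_left (sq_nonneg y) hC (by linarith)
      have h2 : y ^ 2 / C₀ ≤ Real.exp K / C₀ * y := by
        rw [div_mul_eq_mul_div]
        apply div_le_div_of_nonneg_right _ hC.le
        nlinarith
      linarith
    · have hl : K ≤ Real.log y := by
        rw [← Real.log_exp K]
        exact Real.log_le_log (Real.exp_pos K) h.le
      have h1 : y ^ 2 / (C₀ + y) ≤ y := by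
        rw [div_le_iff₀ (by linarith)]
        nlinarith
      have h2 : y ≤ 1 / K * (y * max (Real.log y) 0) := by
        have h3 : K ≤ max (Real.log y) 0 := hl.trans (le_max_left _ _)
        have h4 : y * K ≤ y * max (Real.log y) 0 := mul_le_mul_of_nonneg_left h3 hy
        rw [one_div, inv_mul_eq_div, le_div_iff₀ hK]
        exact h4
      linarith
  have p2 : c * (y - b) * j ^ (1 + a) ≤ (2 * R) ^ (1 + a) * (Real.exp K / C₀ * y) +
      (2 * R) ^ (1 + a) / K * (y * max (Real.log y) 0) := by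
    have r1 : (2 * R) ^ (1 + a) * (Real.exp K / C₀ * y) +
      (2 * R) ^ (1 + a) / K * (y * max (Real.log y) 0) = (2 * R) ^ (1 + a) *
        (Real.exp K / C₀ * y + 1 / K * (y * max (Real.log y) 0)) := by ring
    rw [r1, hb]
    rcases le_or_gt (2 * R) j with h | h
    · rw [hc2 h, zero_mul, zero_mul]
      exact mul_nonneg hq (q0.trans q1)
    · have r2 : j ^ (1 + a) ≤ (2 * R) ^ (1 + a) :=
        Real.rpow_le_rpow hj0.le h.le (by linarith)
      have r3 : c * (y ^ 2 / (C₀ + y)) ≤ y ^ 2 / (C₀ + y) := by nlinarith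
      calc c * (y ^ 2 / (C₀ + y)) * j ^ (1 + a) ≤ y ^ 2 / (C₀ + y) * (2 * R) ^ (1 + a) :=
            mul_le_mul r3 r2 hp q0
        _ = (2 * R) ^ (1 + a) * (y ^ 2 / (C₀ + y)) := by ring
        _ ≤ _ := mul_le_mul_of_nonneg_left q1 hq
  rw [e0]
  linarith

private lemma ag_wt {F : Vec d → Vec d → ℝ} (hd : RX F) (k : ℕ) :
    ∃ C, 0 ≤ C ∧ ∀ x v, (1 + ‖v‖) ^ k * |F x v| ≤ C * wt d v := by
  obtain ⟨C, hC⟩ := hd (k + (d + 1))
  refine ⟨C, le_trans (mul_nonneg (by positivity) (abs_nonneg _)) (hC 0 0), fun x v => ?_⟩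
  have h := hC x v
  have h4 : 0 < (1 + ‖v‖) ^ (d + 1) := by positivity
  unfold wt
  rw [← div_eq_mul_inv, le_div_iff₀ h4]
  calc (1 + ‖v‖) ^ k * |F x v| * (1 + ‖v‖) ^ (d + 1) = (1 + ‖v‖) ^ (k + (d + 1)) * |F x v| := by
        rw [pow_add]; ring
    _ ≤ C := h

private lemma ag_int {e : Fin d} {F G : Vec d → Vec d → ℝ} (h : FS e F G) (r : ℝ) :
    Integrable (fun q : Vec d × Vec d => F q.2 q.1 * jb q.1 ^ r) (nu d) := by
  obtain ⟨N, hN⟩ := exists_nat_ge r
  obtain ⟨C, hC0, hC⟩ := ag_wt h.decF N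
  have hb : ∀ x v, |F x v * jb v ^ r| ≤ (((d : ℝ) + 1) ^ N * C) * wt d v := by
    intro x v
    have j0 := jb_pos v
    have e1 : jb v ^ r ≤ (((d : ℝ) + 1) * (1 + ‖v‖)) ^ N := by
      calc jb v ^ r ≤ jb v ^ (N : ℝ) := Real.rpow_le_rpow_of_exponent_le (one_le_jb v) hN
        _ = jb v ^ N := Real.rpow_natCast _ _
        _ ≤ _ := pow_le_pow_left₀ j0.le (jb_le_w v) N
    rw [abs_mul, abs_of_nonneg (Real.rpow_nonneg j0.le r)]
    calc |F x v| * jb v ^ r ≤ |F x v| * (((d : ℝ) + 1) * (1 + ‖v‖)) ^ N :=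
          mul_le_mul_of_nonneg_left e1 (abs_nonneg _)
      _ = ((d : ℝ) + 1) ^ N * ((1 + ‖v‖) ^ N * |F x v|) := by rw [mul_pow]; ring
      _ ≤ ((d : ℝ) + 1) ^ N * (C * wt d v) := mul_le_mul_of_nonneg_left (hC x v) (by positivity)
      _ = _ := by ring
  have cj : Continuous fun v : Vec d => jb v ^ r :=
    jb_cont.rpow_const fun v => Or.inl (jb_pos v).ne'
  have hc : Continuous fun q : Vec d × Vec d => F q.2 q.1 * jb q.1 ^ r :=
    (h.contF.comp (continuous_snd.prodMk continuous_fst)).mul (cj.comp continuous_fst)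
  exact integrable_nu hc.aestronglyMeasurable fun q => hb q.2 q.1

theorem gw_small (M : ℝ) {a : ℝ} (ha : 0 < a) (ha1 : a < 1) {ε₂ : ℝ} (hε : 0 < ε₂) :
    ∃ R₀ : ℝ, 1 ≤ R₀ ∧ ∀ R ≥ R₀, ∃ C₁ : ℝ, 1 ≤ C₁ ∧ ∀ C₀ ≥ C₁, ∀ q : Pm, q.a = a → q.R = R → q.C₀ = C₀ →
      ∀ (e : Fin d) (F G : Vec d → Vec d → ℝ), FS e F G → GB M F →
        ∫ p, (F p.2 p.1 - gw q F p.2 p.1) * jb p.1 ^ (1 + a) ∂(nu d) ≤ ε₂ := by
  obtain ⟨C, hC0, hC⟩ := ent_lower d M
  have hM0 : 0 ≤ |M| := abs_nonneg M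
  -- the threshold for `R`
  have hlim : Tendsto (fun R : ℝ => R ^ (a - 1) * (2 * |M|)) atTop (𝓝 (0 * (2 * |M|))) := by
    have h1 : Tendsto (fun R : ℝ => R ^ (-(1 - a))) atTop (𝓝 0) :=
      tendsto_rpow_neg_atTop (by linarith)
    have h2 : (fun R : ℝ => R ^ (a - 1)) = fun R : ℝ => R ^ (-(1 - a)) := by
      funext R; congr 1; ring
    rw [← h2] at h1
    exact h1.mul_const _
  rw [zero_mul] at hlim
  have hev := hlim.eventually (Iic_mem_nhds (show (0 : ℝ) < ε₂ / 3 by positivity))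
  obtain ⟨R₁, hR₁⟩ := eventually_atTop.1 hev
  refine ⟨max 1 R₁, le_max_left _ _, fun R hR => ?_⟩
  have hR1 : 1 ≤ R := (le_max_left _ _).trans hR
  have hR0 : 0 < R := lt_of_lt_of_le one_pos hR1
  have hRs : R ^ (a - 1) * (2 * |M|) ≤ ε₂ / 3 := hR₁ R ((le_max_right _ _).trans hR)
  -- the threshold for `C₀`
  set P : ℝ := (2 * R) ^ (1 + a) with hP
  have hP0 : 0 ≤ P := Real.rpow_nonneg (by positivity) _
  set K : ℝ := 3 * P * C / ε₂ + 1 with hKd
  have hK : 0 < K := by positivity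
  have hKs : P / K * C ≤ ε₂ / 3 := by
    rw [div_mul_eq_mul_div, div_le_iff₀ hK, hKd]
    have : ε₂ / 3 * (3 * P * C / ε₂ + 1) = P * C + ε₂ / 3 := by field_simp
    rw [this]
    linarith
  set B : ℝ := 3 * (P * Real.exp K * |M|) / ε₂ with hB
  refine ⟨max 1 B, le_max_left _ _, fun C₀ hC₀ q qa qR qC e F G hF hG => ?_⟩
  have hC1 : 1 ≤ C₀ := (le_max_left _ _).trans hC₀
  have hCp : 0 < C₀ := lt_of_lt_of_le one_pos hC1
  have hBs : P * (Real.exp K / C₀ * |M|) ≤ ε₂ / 3 := by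
    have h1 : B ≤ C₀ := (le_max_right _ _).trans hC₀
    rw [hB, div_le_iff₀ hε] at h1
    have h2 : P * (Real.exp K / C₀ * |M|) = P * Real.exp K * |M| / C₀ := by ring
    rw [h2, div_le_iff₀ hCp]
    linarith
  -- integrability
  have i2 := ag_int hF 2
  have i0 : Integrable (fun p : Vec d × Vec d => F p.2 p.1) (nu d) := by
    have := ag_int hF 0
    simpa using this
  have iL := (ent_int hF.nonneg hF.contF hF.decF).1
  have j1 := i2.const_mul (R ^ (a - 1))
  have j2 : Integrable (fun p : Vec d × Vec d => P * (Real.exp K / C₀ * F p.2 p.1)) (nu d) :=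
    (i0.const_mul (Real.exp K / C₀)).const_mul P
  have j3 := iL.const_mul (P / K)
  -- the pointwise bound
  have hpt : ∀ p : Vec d × Vec d, (F p.2 p.1 - gw q F p.2 p.1) * jb p.1 ^ (1 + a) ≤
      R ^ (a - 1) * (F p.2 p.1 * jb p.1 ^ (2 : ℝ)) + P * (Real.exp K / C₀ * F p.2 p.1) +
        P / K * (F p.2 p.1 * max (Real.log (F p.2 p.1)) 0) := by
    intro p
    unfold gw
    rw [qR, qC]
    exact ag_pt (hF.nonneg _ _) (one_le_jb _) (chi_nonneg _ _) (chi_le_one _ _)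
      (fun h => chi_eq_one hR1 h) (fun h => chi_eq_zero hR1 h) hR1 ha ha1 hCp hK
      (bet_le hCp (hF.nonneg _ _)) (sub_bet hCp (hF.nonneg _ _))
  have hnn : ∀ p : Vec d × Vec d, 0 ≤ (F p.2 p.1 - gw q F p.2 p.1) * jb p.1 ^ (1 + a) := by
    intro p
    refine mul_nonneg ?_ (Real.rpow_nonneg (jb_pos _).le _)
    unfold gw
    rw [qR, qC]
    have b0 := bet_nonneg hCp (hF.nonneg p.2 p.1)
    have b1 := bet_le hCp (hF.nonneg p.2 p.1)
    have c0 := chi_nonneg R p.1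
    have c1 := chi_le_one R p.1
    nlinarith
  have hle := integral_mono_of_nonneg (Eventually.of_forall hnn) ((j1.add j2).add j3)
    (Eventually.of_forall fun p => hpt p)
  have e1 := integral_add (j1.add j2) j3
  have e2 := integral_add j1 j2
  simp only [Pi.add_apply] at e1 e2 hle
  rw [e1, e2, integral_const_mul, integral_const_mul, integral_const_mul, integral_const_mul] at hle
  have m2 : ∫ p, F p.2 p.1 * jb p.1 ^ (2 : ℝ) ∂(nu d) ≤ 2 * |M| := by
    have a1 : ∀ p : Vec d × Vec d, F p.2 p.1 * jb p.1 ^ (2 : ℝ) =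
        F p.2 p.1 + F p.2 p.1 * nsq p.1 := by
      intro p
      have : jb p.1 ^ (2 : ℝ) = 1 + nsq p.1 := by
        rw [show (2 : ℝ) = ((2 : ℕ) : ℝ) by norm_num, Real.rpow_natCast, jb_sq]
      rw [this]; ring
    have b2 : Integrable (fun p : Vec d × Vec d => F p.2 p.1 * nsq p.1) (nu d) := by
      have := i2.sub i0
      refine this.congr (Eventually.of_forall fun p => ?_)
      simp only [Pi.sub_apply, a1]
      ring
    simp_rw [a1]
    rw [integral_add i0 b2]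
    have := hG.mass
    have := hG.energy
    have := le_abs_self M
    linarith
  have m0 : ∫ p, F p.2 p.1 ∂(nu d) ≤ |M| := hG.mass.trans (le_abs_self M)
  have mL : ∫ p, F p.2 p.1 * max (Real.log (F p.2 p.1)) 0 ∂(nu d) ≤ C :=
    (hC F hF.nonneg hF.contF hF.decF hG.energy).2 hG.entropy
  have f1 := mul_le_mul_of_nonneg_left m2 (Real.rpow_nonneg hR0.le (a - 1))
  have f2 := mul_le_mul_of_nonneg_left (mul_le_mul_of_nonneg_left m0
    (show 0 ≤ Real.exp K / C₀ by have := Real.exp_pos K; positivity)) hP0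
  have f3 := mul_le_mul_of_nonneg_left mL (show 0 ≤ P / K by positivity)
  linarith

end Pool.Agent.H48.PW
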