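import Pool.Agent.H48.PW.Defs
import Pool.Agent.H48.PI.WgPa
import Pool.Agent.H48.PI.BetA
import Pool.Agent.H48.PL.SP

/-!
# Module WtC: the weight `PgB`

`sS a β x = sgn(x) τ(|x|)`, `τ(r) = min(r^β, r^(a₁))`, `a₁ = max a β ≤ 1`. `PgB v w = chi_{R₀}(w) jb v^(-β) sS(v_e-w_e)`. Compare PI/WgPa.lean.
* `sS_abs`: `≤ |x|^β`. `sS_holder`: `|sS x - sS y| ≤ 4|x-y|^β`, and `≤ 4|x-y|^(a₁)` if `|x-y| ≤ 1` (`τ` is nondecreasing and `τ(r+h) - τ(r) ≤ 2h^β`: cases `r+h ≤ 1`, `r ≥ 1`, `r < 1 < r+h` through the point `1`; subadditivity of powers;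
  for `|x-y| ≤ 1` and the exponent `a₁`: for `r ≥ 1` `(r+h)^β - r^β ≤ h` (mean value) `≤ h^(a₁)`; opposite signs: `τ(|x|)+τ(|y|) ≤ 2τ(|x-y|)`).
* `PgB_abs`: `jb v^(-β)(jb v + jb w)^β ≤ jb v^(-β)(2 jb v jb w)^β ≤ 2 jb w^β`. `VPgB_nonneg`: `x sS x = |x| τ(|x|) ≥ 0`.
* `VPgB_le_len`: `chi ≠ 0` gives `jb w ≤ 2R₀`. `x = v_e-w_e`, `|x| ≤ len (v-w)`. `|x| ≤ 1`: `|x|^(1+a₁) ≤ |x|^(1+a)`. `|x| ≥ 1`, `β ≤ a`: `|x|^(1+β) ≤ |x|^(1+a)`; `a < β`: `|x| ≤ jb v + 2R₀ ≤ 3R₀ jb v`, `jb v^(-β)|x|^(1+β) ≤ |x|^(1+a) (|x|/jb v)^(β-a) ≤ 3R₀ |x|^(1+a)`.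
* `PgB_osc` (in `v`): as `Pg_osc`: `len(u-v) ≥ jb v/2`: `min(..)^β ≥ 1/2` and `PgB_abs` twice. Otherwise `jb u ∈ [jb v/2, 3jb v/2]`: `jb u^(-β) 4 len^β ≤ 8 (len/jb v)^β`; `|jb u^(-β) - jb v^(-β)| ≤ 4 jb v^(-β) len/jb v`, `|sS(v_e-w_e)| ≤ 2 jb v^β jb w^β`.
* `PgB_holder` (in `w`): `sS_holder`, `chi_holder` (`|chi w - chi w'| ≤ len^r` for `0 < r ≤ 1`); `|sS| ≤ 2 jb v^β (2R₀)^β ..` where `chi ≠ 0`. Stated with the constant `C yv e β v`, `yv e β v = ((1+|v_e|)/jb v)^β ≥ jb v^(-β)`.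
-/

set_option autoImplicit false

open MeasureTheory Set Filter Topology Pool.Agent.H25.Kin Pool.Agent.H48.PL Pool.Agent.H48.PI

namespace Pool.Agent.H48.PW

variable {d : ℕ} {a β R₀ : ℝ}

/-- `r^β min(1, r^(c-β))`, for `r ≥ 0` -/
private noncomputable def tt (β c r : ℝ) : ℝ := r ^ β * min 1 (r ^ (c - β))

private lemma mn_nonneg {x : ℝ} (hx : 0 ≤ x) (p : ℝ) : 0 ≤ min 1 (x ^ p) :=
  le_min zero_le_one (Real.rpow_nonneg hx _)

private lemma tt_le_b {c r : ℝ} (hr : 0 ≤ r) : tt β c r ≤ r ^ β := by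
  unfold tt
  exact mul_le_of_le_one_right (Real.rpow_nonneg hr _) (min_le_left _ _)

private lemma tt_le_c {c r : ℝ} (hβ : 0 < β) (hr : 0 ≤ r) : tt β c r ≤ r ^ c := by
  unfold tt
  rcases hr.eq_or_lt with h | h
  · rw [← h, Real.zero_rpow hβ.ne', zero_mul]
    exact Real.rpow_nonneg le_rfl _
  · calc r ^ β * min 1 (r ^ (c - β)) ≤ r ^ β * r ^ (c - β) :=
          mul_le_mul_of_nonneg_left (min_le_right _ _) (Real.rpow_nonneg hr _)
      _ = r ^ c := by rw [← Real.rpow_add h]; congr 1; ring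

private lemma tt_eq_c {c r : ℝ} (hβ : 0 < β) (hc : β ≤ c) (hr : 0 ≤ r) (h1 : r ≤ 1) :
    tt β c r = r ^ c := by
  unfold tt
  rcases hr.eq_or_lt with h | h
  · rw [← h, Real.zero_rpow hβ.ne', zero_mul, Real.zero_rpow (by linarith)]
  · rw [min_eq_right (Real.rpow_le_one hr h1 (by linarith)), ← Real.rpow_add h]
    congr 1; ring

private lemma tt_eq_b {c r : ℝ} (hc : β ≤ c) (h1 : 1 ≤ r) : tt β c r = r ^ β := by
  unfold tt
  rw [min_eq_left (Real.one_le_rpow h1 (by linarith)), mul_one]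

private lemma tt_mono {c r r' : ℝ} (hβ : 0 < β) (hc : β ≤ c) (hr : 0 ≤ r) (h : r ≤ r') :
    tt β c r ≤ tt β c r' := by
  unfold tt
  exact mul_le_mul (Real.rpow_le_rpow hr h hβ.le)
    (min_le_min le_rfl (Real.rpow_le_rpow hr h (by linarith))) (mn_nonneg hr _)
    (Real.rpow_nonneg (hr.trans h) _)

private lemma tt_add_b {c r h : ℝ} (hβ : 0 < β) (hβ1 : β ≤ 1) (hc : β ≤ c) (hc1 : c ≤ 1)
    (hr : 0 ≤ r) (hh : 0 ≤ h) : tt β c (r + h) ≤ tt β c r + 2 * h ^ β := by
  have hhb : 0 ≤ h ^ β := Real.rpow_nonneg hh _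
  rcases le_total 1 r with h1 | h1
  · rw [tt_eq_b hc h1]
    have e1 := tt_le_b (β := β) (c := c) (add_nonneg hr hh)
    have e2 := Real.rpow_add_le_add_rpow hr hh hβ.le hβ1
    linarith
  · rcases le_total h 1 with h2 | h2
    · rw [tt_eq_c hβ hc hr h1]
      have e1 := tt_le_c (c := c) hβ (add_nonneg hr hh)
      have e2 := Real.rpow_add_le_add_rpow hr hh (by linarith : (0 : ℝ) ≤ c) hc1
      have e3 : h ^ c ≤ h ^ β := by
        rcases hh.eq_or_lt with h0 | h0
        · rw [← h0, Real.zero_rpow (by linarith : c ≠ 0), Real.zero_rpow hβ.ne']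
        · exact Real.rpow_le_rpow_of_exponent_ge h0 h2 hc
      linarith
    · have e1 := tt_le_b (β := β) (c := c) (add_nonneg hr hh)
      have e2 := Real.rpow_add_le_add_rpow hr hh hβ.le hβ1
      have e3 : r ^ β ≤ 1 := Real.rpow_le_one hr h1 hβ.le
      have e4 : 1 ≤ h ^ β := Real.one_le_rpow h2 hβ.le
      have e5 : 0 ≤ tt β c r := mul_nonneg (Real.rpow_nonneg hr _) (mn_nonneg hr _)
      linarith

private lemma tt_add_c {c r h : ℝ} (hβ : 0 < β) (hβ1 : β ≤ 1) (hc : β ≤ c) (hc1 : c ≤ 1)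
    (hr : 0 ≤ r) (hh : 0 ≤ h) (h1 : h ≤ 1) : tt β c (r + h) ≤ tt β c r + 2 * h ^ c := by
  have hhc : 0 ≤ h ^ c := Real.rpow_nonneg hh _
  rcases le_total 1 r with h2 | h2
  · have hr0 : 0 < r := by linarith
    rw [tt_eq_b hc h2]
    have e1 := tt_le_b (β := β) (c := c) (add_nonneg hr hh)
    have e2 : (r + h) ^ β ≤ r ^ β + h := by
      have e3 : r + h = r * (1 + h / r) := by field_simp
      have e4 : (1 + h / r) ^ β ≤ 1 + h / r := by
        have h0 : 0 ≤ h / r := div_nonneg hh hr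
        calc (1 + h / r) ^ β ≤ (1 + h / r) ^ (1 : ℝ) :=
              Real.rpow_le_rpow_of_exponent_le (by linarith) hβ1
          _ = 1 + h / r := Real.rpow_one _
      have e5 : r ^ β ≤ r := by
        calc r ^ β ≤ r ^ (1 : ℝ) := Real.rpow_le_rpow_of_exponent_le h2 hβ1
          _ = r := Real.rpow_one _
      have e6 : r ^ β * (h / r) ≤ h := by
        calc r ^ β * (h / r) ≤ r * (h / r) := mul_le_mul_of_nonneg_right e5 (div_nonneg hh hr)
          _ = h := by field_simp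
      calc (r + h) ^ β = r ^ β * (1 + h / r) ^ β := by
            rw [e3, Real.mul_rpow hr (by positivity)]
        _ ≤ r ^ β * (1 + h / r) := mul_le_mul_of_nonneg_left e4 (Real.rpow_nonneg hr _)
        _ = r ^ β + r ^ β * (h / r) := by ring
        _ ≤ r ^ β + h := by linarith
    have e7 : h ≤ h ^ c := by
      rcases hh.eq_or_lt with h0 | h0
      · rw [← h0]; exact Real.rpow_nonneg le_rfl _
      · calc h = h ^ (1 : ℝ) := (Real.rpow_one _).symm
          _ ≤ h ^ c := Real.rpow_le_rpow_of_exponent_ge h0 h1 hc1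
    linarith
  · rw [tt_eq_c hβ hc hr h2]
    have e1 := tt_le_c (c := c) hβ (add_nonneg hr hh)
    have e2 := Real.rpow_add_le_add_rpow hr hh (by linarith : (0 : ℝ) ≤ c) hc1
    linarith

private lemma sS_eq (hβ : 0 < β) (x : ℝ) :
    sS a β x = tt β (max a β) (max x 0) - tt β (max a β) (max (-x) 0) := by
  unfold sS tt
  rw [sp_eq_max hβ]
  rcases le_total 0 x with h | h
  · rw [max_eq_left h, max_eq_right (by linarith : -x ≤ 0), abs_of_nonneg h,
      Real.zero_rpow hβ.ne']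
    ring
  · rw [max_eq_right h, max_eq_left (by linarith : 0 ≤ -x), abs_of_nonpos h,
      Real.zero_rpow hβ.ne']
    ring

lemma sS_abs (hβ : 0 < β) (x : ℝ) : |sS a β x| ≤ |x| ^ β := by
  unfold sS
  rw [abs_mul, abs_sp, abs_of_nonneg (mn_nonneg (abs_nonneg x) _)]
  exact mul_le_of_le_one_right (Real.rpow_nonneg (abs_nonneg x) _) (min_le_left _ _)

private lemma sS_holder_aux (ha : 0 < a) (ha1 : a ≤ 1) (hβ : 0 < β) (hβ1 : β ≤ 1) {x y : ℝ}
    (hy : y ≤ x) : |sS a β x - sS a β y| ≤ 4 * |x - y| ^ β ∧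
    (|x - y| ≤ 1 → |sS a β x - sS a β y| ≤ 4 * |x - y| ^ max a β) := by
  have hc : β ≤ max a β := le_max_right _ _
  have hc1 : max a β ≤ 1 := max_le ha1 hβ1
  have key : ∀ u v : ℝ, v ≤ u →
      0 ≤ tt β (max a β) (max u 0) - tt β (max a β) (max v 0) ∧
      tt β (max a β) (max u 0) - tt β (max a β) (max v 0) ≤ 2 * (u - v) ^ β ∧
      (u - v ≤ 1 → tt β (max a β) (max u 0) - tt β (max a β) (max v 0) ≤
        2 * (u - v) ^ max a β) := by
    intro u v huv
    have hv0 : (0 : ℝ) ≤ max v 0 := le_max_right _ _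
    have hm : max v 0 ≤ max u 0 := max_le_max huv le_rfl
    have huv0 : 0 ≤ u - v := sub_nonneg.2 huv
    have hle : max u 0 ≤ max v 0 + (u - v) :=
      max_le (by linarith [le_max_left v 0]) (by linarith)
    have h0 := tt_mono hβ hc hv0 hm
    have h1 := tt_mono hβ hc (le_max_right u 0) hle
    refine ⟨by linarith, ?_, fun h => ?_⟩
    · have h2 := tt_add_b hβ hβ1 hc hc1 hv0 huv0
      linarith
    · have h2 := tt_add_c hβ hβ1 hc hc1 hv0 huv0 h
      linarith
  obtain ⟨h1, h2, h3⟩ := key x y hy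
  obtain ⟨h4, h5, h6⟩ := key (-y) (-x) (by linarith)
  have h7 : -y - -x = x - y := by ring
  rw [h7] at h5 h6
  have h8 : |x - y| = x - y := abs_of_nonneg (sub_nonneg.2 hy)
  rw [sS_eq hβ, sS_eq hβ, h8]
  constructor
  · rw [abs_of_nonneg (by linarith)]
    linarith
  · intro h
    have h3' := h3 h
    have h6' := h6 h
    rw [abs_of_nonneg (by linarith)]
    linarith

lemma sS_holder (ha : 0 < a) (ha1 : a ≤ 1) (hβ : 0 < β) (hβ1 : β ≤ 1) (x y : ℝ) :
    |sS a β x - sS a β y| ≤ 4 * |x - y| ^ β ∧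
    (|x - y| ≤ 1 → |sS a β x - sS a β y| ≤ 4 * |x - y| ^ max a β) := by
  rcases le_total y x with h | h
  · exact sS_holder_aux ha ha1 hβ hβ1 h
  · have := sS_holder_aux ha ha1 hβ hβ1 h
    rwa [abs_sub_comm (sS a β y), abs_sub_comm y x] at this

private lemma sS_cont (hβ : 0 < β) : Continuous (sS a β) := by
  unfold sS
  exact (sp_cont hβ).mul (continuous_const.min
    (continuous_abs.rpow_const fun _ => Or.inr (sub_nonneg.2 (le_max_right a β))))

private lemma PgB_eq (e : Fin d) (v w : Vec d) : PgB e a β R₀ v w =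
    (chi R₀ w * min 1 (|v e - w e| ^ (max a β - β))) * Pg e β v w := by
  unfold PgB Pg sS
  ring

private lemma fac_nonneg (e : Fin d) (v w : Vec d) :
    0 ≤ chi R₀ w * min 1 (|v e - w e| ^ (max a β - β)) :=
  mul_nonneg (chi_nonneg _ _) (mn_nonneg (abs_nonneg _) _)

private lemma fac_le_one (e : Fin d) (v w : Vec d) :
    chi R₀ w * min 1 (|v e - w e| ^ (max a β - β)) ≤ 1 :=
  mul_le_one₀ (chi_le_one _ _) (mn_nonneg (abs_nonneg _) _) (min_le_left _ _)

private lemma PgB_le_Pg (e : Fin d) (v w : Vec d) : |PgB e a β R₀ v w| ≤ |Pg e β v w| := by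
  rw [PgB_eq, abs_mul, abs_of_nonneg (fac_nonneg e v w)]
  exact mul_le_of_le_one_left (abs_nonneg _) (fac_le_one e v w)

lemma PgB_PGW (ha : 0 < a) (ha1 : a ≤ 1) (hβ : 0 < β) (hβ1 : β ≤ 1) (hR : 1 ≤ R₀) (e : Fin d) :
    PGW (PgB e a β R₀) := by
  obtain ⟨_, N, C, hC, hb⟩ := Pg_PGW hβ e
  refine ⟨?_, N, C, hC, fun v w => (PgB_le_Pg e v w).trans (hb v w)⟩
  unfold PgB
  have h1 : Continuous fun p : Vec d × Vec d => jb p.1 ^ (-β) :=
    (jb_cont.comp continuous_fst).rpow_const fun p => Or.inl (jb_pos p.1).ne'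
  exact ((chi_cont R₀).comp continuous_snd).mul (h1.mul ((sS_cont hβ).comp
    (((continuous_apply e).comp continuous_fst).sub ((continuous_apply e).comp continuous_snd))))

lemma PgB_abs (hβ : 0 < β) (hβ1 : β ≤ 1) (e : Fin d) (v w : Vec d) :
    |PgB e a β R₀ v w| ≤ 2 * jb w ^ β :=
  (PgB_le_Pg e v w).trans (Pg_abs hβ hβ1 e v w)

lemma VPgB_nonneg (hβ : 0 < β) (e : Fin d) (v w : Vec d) : 0 ≤ (v e - w e) * PgB e a β R₀ v w := by
  have h : (v e - w e) * PgB e a β R₀ v w =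
      (chi R₀ w * min 1 (|v e - w e| ^ (max a β - β))) * ((v e - w e) * Pg e β v w) := by
    rw [PgB_eq]; ring
  rw [h]
  exact mul_nonneg (fac_nonneg e v w) (VPg_nonneg hβ e v w)

private lemma jbv_le_one (hβ : 0 < β) (v : Vec d) : jb v ^ (-β) ≤ 1 :=
  Real.rpow_le_one_of_one_le_of_nonpos (one_le_jb v) (by linarith)

private lemma rpow_le_self {x p : ℝ} (hx : 1 ≤ x) (hp : p ≤ 1) : x ^ p ≤ x := by
  calc x ^ p ≤ x ^ (1 : ℝ) := Real.rpow_le_rpow_of_exponent_le hx hp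
    _ = x := Real.rpow_one _

private lemma chi_ne {R : ℝ} (hR : 1 ≤ R) {w : Vec d} (h : chi R w ≠ 0) : jb w ≤ 2 * R := by
  by_contra hc
  exact h (chi_eq_zero hR (not_le.1 hc).le)

lemma VPgB_le_len (ha : 0 < a) (ha1 : a ≤ 1) (hβ : 0 < β) (hβ1 : β ≤ 1) (hR : 1 ≤ R₀) (e : Fin d)
    (v w : Vec d) : (v e - w e) * PgB e a β R₀ v w ≤ 4 * R₀ * len (v - w) ^ (1 + a) := by
  have hL := len_nonneg (v - w)
  have hLp : 0 ≤ len (v - w) ^ (1 + a) := Real.rpow_nonneg hL _
  have hx0 : 0 ≤ |v e - w e| := abs_nonneg _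
  have hxL : |v e - w e| ≤ len (v - w) := by
    have := abs_coord_le (v - w) e
    rwa [Pi.sub_apply] at this
  have hxa : |v e - w e| ^ (1 + a) ≤ len (v - w) ^ (1 + a) :=
    Real.rpow_le_rpow hx0 hxL (by linarith)
  have hxa0 : 0 ≤ |v e - w e| ^ (1 + a) := Real.rpow_nonneg hx0 _
  have hE : (v e - w e) * PgB e a β R₀ v w =
      chi R₀ w * (jb v ^ (-β) * (|v e - w e| ^ (1 + β) * min 1 (|v e - w e| ^ (max a β - β)))) := by
    rw [PgB_eq, ← mul_assoc, mul_comm (v e - w e), mul_assoc, VPg_eq hβ]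
    ring
  have hj0 : 0 ≤ jb v ^ (-β) := Real.rpow_nonneg (jb_pos v).le _
  have hj1 := jbv_le_one hβ v
  have hm0 := mn_nonneg hx0 (max a β - β)
  have hm1 : min 1 (|v e - w e| ^ (max a β - β)) ≤ 1 := min_le_left _ _
  rw [hE]
  by_cases hχ : chi R₀ w = 0
  · rw [hχ, zero_mul]; positivity
  have hw := chi_ne hR hχ
  have hχ1 := chi_le_one R₀ w
  have hχ0 := chi_nonneg R₀ w
  have hmain : jb v ^ (-β) * (|v e - w e| ^ (1 + β) * min 1 (|v e - w e| ^ (max a β - β))) ≤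
      3 * R₀ * len (v - w) ^ (1 + a) := by
    rcases le_total (|v e - w e|) 1 with h1 | h1
    · have e1 : |v e - w e| ^ (1 + β) * min 1 (|v e - w e| ^ (max a β - β)) ≤
          |v e - w e| ^ (1 + a) := by
        rcases hx0.eq_or_lt with h0 | h0
        · rw [← h0, Real.zero_rpow (by linarith : 1 + β ≠ 0), zero_mul]
          exact Real.rpow_nonneg le_rfl _
        · calc |v e - w e| ^ (1 + β) * min 1 (|v e - w e| ^ (max a β - β))
              ≤ |v e - w e| ^ (1 + β) * |v e - w e| ^ (max a β - β) :=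
                mul_le_mul_of_nonneg_left (min_le_right _ _) (Real.rpow_nonneg hx0 _)
            _ = |v e - w e| ^ (1 + max a β) := by rw [← Real.rpow_add h0]; congr 1; ring
            _ ≤ |v e - w e| ^ (1 + a) :=
                Real.rpow_le_rpow_of_exponent_ge h0 h1 (by linarith [le_max_left a β])
      have e2 : 0 ≤ |v e - w e| ^ (1 + β) * min 1 (|v e - w e| ^ (max a β - β)) :=
        mul_nonneg (Real.rpow_nonneg hx0 _) hm0
      calc _ ≤ 1 * |v e - w e| ^ (1 + a) := mul_le_mul hj1 e1 e2 zero_le_one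
        _ ≤ 3 * R₀ * len (v - w) ^ (1 + a) := by
          rw [one_mul]
          refine hxa.trans (le_mul_of_one_le_left hLp ?_)
          linarith
    · have e0 : |v e - w e| ^ (1 + β) * min 1 (|v e - w e| ^ (max a β - β)) ≤
          |v e - w e| ^ (1 + β) := mul_le_of_le_one_right (Real.rpow_nonneg hx0 _) hm1
      refine (mul_le_mul_of_nonneg_left e0 hj0).trans ?_
      rcases le_total β a with h2 | h2
      · have e1 : |v e - w e| ^ (1 + β) ≤ |v e - w e| ^ (1 + a) :=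
          Real.rpow_le_rpow_of_exponent_le h1 (by linarith)
        calc _ ≤ 1 * |v e - w e| ^ (1 + a) :=
              mul_le_mul hj1 e1 (Real.rpow_nonneg hx0 _) zero_le_one
          _ ≤ 3 * R₀ * len (v - w) ^ (1 + a) := by
            rw [one_mul]
            refine hxa.trans (le_mul_of_one_le_left hLp ?_)
            linarith
      · have hxp : 0 < |v e - w e| := by linarith
        have hv1 := one_le_jb v
        have hvp := jb_pos v
        have hx3 : |v e - w e| ≤ 3 * R₀ * jb v := by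
          have h3 := len_sub_le v w
          have h4 := len_le_jb v
          have h5 := len_le_jb w
          nlinarith
        have e1 : |v e - w e| ^ (1 + β) = |v e - w e| ^ (1 + a) * |v e - w e| ^ (β - a) := by
          rw [← Real.rpow_add hxp]; congr 1; ring
        have e2 : jb v ^ (-β) * |v e - w e| ^ (β - a) ≤ 3 * R₀ := by
          calc jb v ^ (-β) * |v e - w e| ^ (β - a)
              ≤ jb v ^ (-(β - a)) * (3 * R₀ * jb v) ^ (β - a) :=
                mul_le_mul (Real.rpow_le_rpow_of_exponent_le hv1 (by linarith))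
                  (Real.rpow_le_rpow hx0 hx3 (by linarith)) (Real.rpow_nonneg hx0 _)
                  (Real.rpow_nonneg hvp.le _)
            _ = (3 * R₀) ^ (β - a) * (jb v ^ (-(β - a)) * jb v ^ (β - a)) := by
                rw [Real.mul_rpow (by linarith) hvp.le]; ring
            _ = (3 * R₀) ^ (β - a) := by
                rw [← Real.rpow_add hvp]; simp
            _ ≤ 3 * R₀ := rpow_le_self (by linarith) (by linarith)
        calc jb v ^ (-β) * |v e - w e| ^ (1 + β)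
            = (jb v ^ (-β) * |v e - w e| ^ (β - a)) * |v e - w e| ^ (1 + a) := by rw [e1]; ring
          _ ≤ 3 * R₀ * len (v - w) ^ (1 + a) := mul_le_mul e2 hxa hxa0 (by linarith)
  have hZ : 0 ≤ jb v ^ (-β) * (|v e - w e| ^ (1 + β) * min 1 (|v e - w e| ^ (max a β - β))) :=
    mul_nonneg hj0 (mul_nonneg (Real.rpow_nonneg hx0 _) hm0)
  calc _ ≤ 1 * (3 * R₀ * len (v - w) ^ (1 + a)) := mul_le_mul hχ1 hmain hZ zero_le_one
    _ ≤ 4 * R₀ * len (v - w) ^ (1 + a) := by
      have : 0 ≤ R₀ * len (v - w) ^ (1 + a) := mul_nonneg (by linarith) hLp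
      linarith

private lemma sp_pos_eq {x : ℝ} (hx : 0 ≤ x) : sp β x = x ^ β := by
  unfold sp
  rw [if_neg (not_lt.2 hx)]

private lemma absVβ_le (hβ : 0 < β) (hβ1 : β ≤ 1) (e : Fin d) (v w : Vec d) :
    |v e - w e| ^ β ≤ 2 * (jb v ^ β * jb w ^ β) := by
  have hv := jb_pos v
  have hw := jb_pos w
  have h1 := abs_coord_le (v - w) e
  rw [Pi.sub_apply] at h1
  have h2 := len_sub_le v w
  have h3 := len_le_jb v
  have h4 := len_le_jb w
  have h5 := one_le_jb v
  have h6 := one_le_jb w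
  have h7 : |v e - w e| ≤ 2 * (jb v * jb w) := by nlinarith
  calc |v e - w e| ^ β ≤ (2 * (jb v * jb w)) ^ β := Real.rpow_le_rpow (abs_nonneg _) h7 hβ.le
    _ = 2 ^ β * (jb v ^ β * jb w ^ β) := by
      rw [Real.mul_rpow (by norm_num) (by positivity), Real.mul_rpow hv.le hw.le]
    _ ≤ 2 * (jb v ^ β * jb w ^ β) :=
      mul_le_mul_of_nonneg_right (rpow_le_self (by norm_num) hβ1) (by positivity)

lemma PgB_osc (ha : 0 < a) (ha1 : a ≤ 1) (hβ : 0 < β) (hβ1 : β ≤ 1) (e : Fin d) (u v w : Vec d) :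
    |PgB e a β R₀ u w - PgB e a β R₀ v w| ≤ 64 * (jb w ^ β * min 1 (len (u - v) / jb v) ^ β) := by
  have hv := jb_pos v
  have hw := jb_pos w
  have hu := jb_pos u
  have hwa := Real.rpow_pos_of_pos hw β
  have hva := Real.rpow_pos_of_pos hv β
  have hua := Real.rpow_pos_of_pos hu β
  have hw1 : 1 ≤ jb w ^ β := Real.one_le_rpow (one_le_jb w) hβ.le
  have hl := len_nonneg (u - v)
  have h2a : (2 : ℝ) ^ β ≤ 2 := rpow_le_self (by norm_num) hβ1
  rcases le_or_gt (jb v / 2) (len (u - v)) with h | h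
  · have h1 : (1 / 2 : ℝ) ≤ min 1 (len (u - v) / jb v) := by
      refine le_min (by norm_num) ?_
      rw [le_div_iff₀ hv]
      linarith
    have h2 : (1 / 2 : ℝ) ≤ min 1 (len (u - v) / jb v) ^ β := by
      calc (1 / 2 : ℝ) = (1 / 2 : ℝ) ^ (1 : ℝ) := (Real.rpow_one _).symm
        _ ≤ (1 / 2 : ℝ) ^ β := Real.rpow_le_rpow_of_exponent_ge (by norm_num) (by norm_num) hβ1
        _ ≤ _ := Real.rpow_le_rpow (by norm_num) h1 hβ.le
    have h3 := PgB_abs (a := a) (R₀ := R₀) hβ hβ1 e u w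
    have h4 := PgB_abs (a := a) (R₀ := R₀) hβ hβ1 e v w
    have h5 := abs_sub (PgB e a β R₀ u w) (PgB e a β R₀ v w)
    have h6 : jb w ^ β * (1 / 2) ≤ jb w ^ β * min 1 (len (u - v) / jb v) ^ β :=
      mul_le_mul_of_nonneg_left h2 hwa.le
    linarith
  · have hx1 : len (u - v) / jb v ≤ 1 := by
      rw [div_le_one hv]; linarith
    rw [min_eq_right hx1]
    have hx0 : 0 ≤ len (u - v) / jb v := div_nonneg hl hv.le
    have hju : jb v / 2 ≤ jb u := by
      have := (abs_le.1 (jb_lip u v)).1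
      linarith
    have hinv : (jb u ^ β)⁻¹ ≤ 2 * (jb v ^ β)⁻¹ := by
      have e1 : jb v ^ β ≤ 2 * jb u ^ β := by
        calc jb v ^ β ≤ (2 * jb u) ^ β := Real.rpow_le_rpow hv.le (by linarith) hβ.le
          _ = 2 ^ β * jb u ^ β := Real.mul_rpow (by norm_num) hu.le
          _ ≤ 2 * jb u ^ β := mul_le_mul_of_nonneg_right h2a hua.le
      rw [inv_eq_one_div, inv_eq_one_div, mul_one_div, div_le_div_iff₀ hua hva]
      linarith
    have hlen : (len (u - v) / jb v) ^ β = len (u - v) ^ β * (jb v ^ β)⁻¹ := by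
      rw [Real.div_rpow hl hv.le, div_eq_mul_inv]
    have hla : 0 ≤ len (u - v) ^ β := Real.rpow_nonneg hl β
    have d1 : |sS a β (u e - w e) - sS a β (v e - w e)| ≤ 4 * len (u - v) ^ β := by
      refine (sS_holder ha ha1 hβ hβ1 _ _).1.trans ?_
      have : |u e - w e - (v e - w e)| ≤ len (u - v) := by
        have := abs_coord_le (u - v) e
        rw [Pi.sub_apply] at this
        rwa [show u e - w e - (v e - w e) = u e - v e by ring]
      exact mul_le_mul_of_nonneg_left (Real.rpow_le_rpow (abs_nonneg _) this hβ.le) (by norm_num)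
    have d2 : |jb v ^ β - jb u ^ β| ≤ 2 * len (u - v) ^ β := by
      have h1 := sp_holder hβ hβ1 (jb v) (jb u)
      rw [sp_pos_eq hv.le, sp_pos_eq hu.le] at h1
      refine h1.trans ?_
      have : |jb v - jb u| ≤ len (u - v) := by
        rw [abs_sub_comm]; exact jb_lip u v
      exact mul_le_mul_of_nonneg_left (Real.rpow_le_rpow (abs_nonneg _) this hβ.le) (by norm_num)
    have d3 : |sS a β (v e - w e)| ≤ 2 * (jb v ^ β * jb w ^ β) :=
      (sS_abs hβ _).trans (absVβ_le hβ hβ1 e v w)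
    have d4 : |(jb u ^ β)⁻¹ - (jb v ^ β)⁻¹| ≤ (jb u ^ β)⁻¹ * (2 * (len (u - v) ^ β * (jb v ^ β)⁻¹)) := by
      have : (jb u ^ β)⁻¹ - (jb v ^ β)⁻¹ = (jb u ^ β)⁻¹ * (jb v ^ β - jb u ^ β) * (jb v ^ β)⁻¹ := by
        field_simp
      rw [this, abs_mul, abs_mul, abs_of_pos (inv_pos.2 hua), abs_of_pos (inv_pos.2 hva)]
      calc (jb u ^ β)⁻¹ * |jb v ^ β - jb u ^ β| * (jb v ^ β)⁻¹
          ≤ (jb u ^ β)⁻¹ * (2 * len (u - v) ^ β) * (jb v ^ β)⁻¹ := by gcongr
        _ = _ := by ring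
    have hsplit : PgB e a β R₀ u w - PgB e a β R₀ v w =
        chi R₀ w * ((jb u ^ β)⁻¹ * (sS a β (u e - w e) - sS a β (v e - w e)) +
        ((jb u ^ β)⁻¹ - (jb v ^ β)⁻¹) * sS a β (v e - w e)) := by
      unfold PgB
      rw [Real.rpow_neg hu.le, Real.rpow_neg hv.le]
      ring
    have f1 : |(jb u ^ β)⁻¹ * (sS a β (u e - w e) - sS a β (v e - w e))| ≤
        8 * (len (u - v) ^ β * (jb v ^ β)⁻¹) := by
      rw [abs_mul, abs_of_pos (inv_pos.2 hua)]
      calc (jb u ^ β)⁻¹ * |sS a β (u e - w e) - sS a β (v e - w e)|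
          ≤ (2 * (jb v ^ β)⁻¹) * (4 * len (u - v) ^ β) :=
            mul_le_mul hinv d1 (abs_nonneg _) (by positivity)
        _ = _ := by ring
    have f2 : |((jb u ^ β)⁻¹ - (jb v ^ β)⁻¹) * sS a β (v e - w e)| ≤
        8 * (jb w ^ β * (len (u - v) ^ β * (jb v ^ β)⁻¹)) := by
      rw [abs_mul]
      calc |(jb u ^ β)⁻¹ - (jb v ^ β)⁻¹| * |sS a β (v e - w e)|
          ≤ ((2 * (jb v ^ β)⁻¹) * (2 * (len (u - v) ^ β * (jb v ^ β)⁻¹))) *
            (2 * (jb v ^ β * jb w ^ β)) := by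
            refine mul_le_mul (d4.trans ?_) d3 (abs_nonneg _) (by positivity)
            exact mul_le_mul_of_nonneg_right hinv (by positivity)
        _ = 8 * (jb w ^ β * (len (u - v) ^ β * (jb v ^ β)⁻¹)) * ((jb v ^ β)⁻¹ * jb v ^ β) := by ring
        _ = _ := by rw [inv_mul_cancel₀ hva.ne', mul_one]
    rw [hsplit, hlen, abs_mul, abs_of_nonneg (chi_nonneg R₀ w)]
    refine (mul_le_of_le_one_left (abs_nonneg _) (chi_le_one R₀ w)).trans ?_
    refine (abs_add_le _ _).trans ?_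
    have hY : 0 ≤ len (u - v) ^ β * (jb v ^ β)⁻¹ := by positivity
    have f3 : len (u - v) ^ β * (jb v ^ β)⁻¹ ≤ jb w ^ β * (len (u - v) ^ β * (jb v ^ β)⁻¹) :=
      le_mul_of_one_le_left hY hw1
    have f4 : 0 ≤ jb w ^ β * (len (u - v) ^ β * (jb v ^ β)⁻¹) := by positivity
    linarith

private lemma yv_eq (hβ : 0 < β) (e : Fin d) (v : Vec d) :
    yv e β v = (1 + |v e|) ^ β * jb v ^ (-β) := by
  unfold yv
  rw [Real.div_rpow (by positivity) (jb_pos v).le, Real.rpow_neg (jb_pos v).le, div_eq_mul_inv]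

private lemma jbv_le_yv (hβ : 0 < β) (e : Fin d) (v : Vec d) : jb v ^ (-β) ≤ yv e β v := by
  rw [yv_eq hβ]
  refine le_mul_of_one_le_left (Real.rpow_nonneg (jb_pos v).le _) (Real.one_le_rpow ?_ hβ.le)
  linarith [abs_nonneg (v e)]

/-- the size of `sS` where `|w_e| ≤ M` -/
private lemma sS_size (hβ : 0 < β) (hβ1 : β ≤ 1) (e : Fin d) (v w : Vec d) {M : ℝ} (hM : 1 ≤ M)
    (hw : |w e| ≤ M) : jb v ^ (-β) * |sS a β (v e - w e)| ≤ M * yv e β v := by
  have hj0 : 0 ≤ jb v ^ (-β) := Real.rpow_nonneg (jb_pos v).le _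
  have h1 : |v e - w e| ≤ M * (1 + |v e|) := by
    have h2 := abs_sub (v e) (w e)
    have h3 := abs_nonneg (v e)
    nlinarith
  have h4 : |sS a β (v e - w e)| ≤ M * (1 + |v e|) ^ β := by
    calc |sS a β (v e - w e)| ≤ |v e - w e| ^ β := sS_abs hβ _
      _ ≤ (M * (1 + |v e|)) ^ β := Real.rpow_le_rpow (abs_nonneg _) h1 hβ.le
      _ = M ^ β * (1 + |v e|) ^ β := Real.mul_rpow (by linarith) (by positivity)
      _ ≤ M * (1 + |v e|) ^ β :=
        mul_le_mul_of_nonneg_right (rpow_le_self hM hβ1) (Real.rpow_nonneg (by positivity) _)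
  rw [yv_eq hβ]
  calc jb v ^ (-β) * |sS a β (v e - w e)| ≤ jb v ^ (-β) * (M * (1 + |v e|) ^ β) :=
        mul_le_mul_of_nonneg_left h4 hj0
    _ = M * ((1 + |v e|) ^ β * jb v ^ (-β)) := by ring

/-- bounds in `w` with the factor `yv` -/
theorem PgB_w (ha : 0 < a) (ha1 : a ≤ 1) (hβ : 0 < β) (hβ1 : β ≤ 1) (hR : 1 ≤ R₀) :
    ∃ K : ℝ, 0 ≤ K ∧ ∀ (e : Fin d) (v w w' : Vec d), |PgB e a β R₀ v w| ≤ K * yv e β v ∧
      (len (w - w') ≤ 1 → |PgB e a β R₀ v w - PgB e a β R₀ v w'| ≤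
        K * yv e β v * len (w - w') ^ max a β) := by
  refine ⟨4 + 3 * R₀, by linarith, fun e v w w' => ?_⟩
  have hj0 : 0 ≤ jb v ^ (-β) := Real.rpow_nonneg (jb_pos v).le _
  have hjy := jbv_le_yv hβ e v
  have hy0 : 0 ≤ yv e β v := hj0.trans hjy
  have hχ0 := chi_nonneg R₀ w
  have hχ1 := chi_le_one R₀ w
  have hwe : ∀ z : Vec d, |z e| ≤ jb z := fun z => (abs_coord_le z e).trans (len_le_jb z)
  constructor
  · by_cases hχ : chi R₀ w = 0
    · have : PgB e a β R₀ v w = 0 := by unfold PgB; rw [hχ, zero_mul]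
      rw [this, abs_zero]
      positivity
    · have hw := chi_ne hR hχ
      have h1 := sS_size (a := a) hβ hβ1 e v w (by linarith : (1 : ℝ) ≤ 2 * R₀) ((hwe w).trans hw)
      have h2 : |PgB e a β R₀ v w| = chi R₀ w * (jb v ^ (-β) * |sS a β (v e - w e)|) := by
        unfold PgB
        rw [abs_mul, abs_mul, abs_of_nonneg hχ0, abs_of_nonneg hj0]
      rw [h2]
      calc chi R₀ w * (jb v ^ (-β) * |sS a β (v e - w e)|) ≤
            1 * (2 * R₀ * yv e β v) := mul_le_mul hχ1 h1 (by positivity) zero_le_one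
        _ ≤ (4 + 3 * R₀) * yv e β v := by
          rw [one_mul]
          exact mul_le_mul_of_nonneg_right (by linarith) hy0
  · intro hl
    have hl0 := len_nonneg (w - w')
    have hlc : 0 ≤ len (w - w') ^ max a β := Real.rpow_nonneg hl0 _
    have hc0 : 0 < max a β := lt_of_lt_of_le ha (le_max_left _ _)
    have hc1 : max a β ≤ 1 := max_le ha1 hβ1
    have hchi := chi_holder hR hc0 hc1 w w'
    have hsplit : PgB e a β R₀ v w - PgB e a β R₀ v w' =
        chi R₀ w * (jb v ^ (-β) * (sS a β (v e - w e) - sS a β (v e - w' e))) +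
        (chi R₀ w - chi R₀ w') * (jb v ^ (-β) * sS a β (v e - w' e)) := by
      unfold PgB
      ring
    have hcoord : |w e - w' e| ≤ len (w - w') := by
      have := abs_coord_le (w - w') e
      rwa [Pi.sub_apply] at this
    have f1 : |chi R₀ w * (jb v ^ (-β) * (sS a β (v e - w e) - sS a β (v e - w' e)))| ≤
        4 * yv e β v * len (w - w') ^ max a β := by
      have g1 : |sS a β (v e - w e) - sS a β (v e - w' e)| ≤ 4 * len (w - w') ^ max a β := by
        have g2 : |v e - w e - (v e - w' e)| = |w e - w' e| := by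
          rw [show v e - w e - (v e - w' e) = -(w e - w' e) by ring, abs_neg]
        have g3 := (sS_holder (a := a) ha ha1 hβ hβ1 (v e - w e) (v e - w' e)).2
        rw [g2] at g3
        exact (g3 (hcoord.trans hl)).trans (mul_le_mul_of_nonneg_left
          (Real.rpow_le_rpow (abs_nonneg _) hcoord hc0.le) (by norm_num))
      rw [abs_mul, abs_mul, abs_of_nonneg hχ0, abs_of_nonneg hj0]
      calc chi R₀ w * (jb v ^ (-β) * |sS a β (v e - w e) - sS a β (v e - w' e)|)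
          ≤ 1 * (yv e β v * (4 * len (w - w') ^ max a β)) :=
            mul_le_mul hχ1 (mul_le_mul hjy g1 (abs_nonneg _) hy0) (by positivity) zero_le_one
        _ = _ := by ring
    have f2 : |(chi R₀ w - chi R₀ w') * (jb v ^ (-β) * sS a β (v e - w' e))| ≤
        3 * R₀ * yv e β v * len (w - w') ^ max a β := by
      by_cases hz : chi R₀ w = 0 ∧ chi R₀ w' = 0
      · rw [hz.1, hz.2, sub_zero, zero_mul, abs_zero]
        have : 0 ≤ R₀ := by linarith
        positivity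
      · have hw' : jb w' ≤ 3 * R₀ := by
          rcases not_and_or.1 hz with h | h
          · have h1 := chi_ne hR h
            have h2 := (abs_le.1 (jb_lip w w')).1
            linarith
          · have h1 := chi_ne hR h
            linarith
        have h1 := sS_size (a := a) hβ hβ1 e v w' (by linarith : (1 : ℝ) ≤ 3 * R₀)
          ((hwe w').trans hw')
        rw [abs_mul, abs_mul (jb v ^ (-β)), abs_of_nonneg hj0]
        calc |chi R₀ w - chi R₀ w'| * (jb v ^ (-β) * |sS a β (v e - w' e)|)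
            ≤ len (w - w') ^ max a β * (3 * R₀ * yv e β v) :=
              mul_le_mul hchi h1 (by positivity) hlc
          _ = _ := by ring
    rw [hsplit]
    refine (abs_add_le _ _).trans ?_
    calc _ ≤ 4 * yv e β v * len (w - w') ^ max a β + 3 * R₀ * yv e β v * len (w - w') ^ max a β :=
          add_le_add f1 f2
      _ = (4 + 3 * R₀) * yv e β v * len (w - w') ^ max a β := by ring

end Pool.Agent.H48.PW
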