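import Pool.Agent.H48.PW.WtA
import Pool.Agent.H48.PW.WtC
import Pool.Agent.H48.PI.BetS
import Pool.Agent.H48.PL.CSolP
import Pool.Agent.H48.PL.PlI
import Pool.Agent.H48.PL.PotC

/-!
# Module EWDef: the weight function `EW` and its derivative

`EW = K₀ pot[PhS] F - pot[PsS] (bet F) - M₁ (K₀ avn[PhE] F - avn[PsE] (bet F))`, `l = 1`; `avn` is the average over the whole torus (a function of `v` only), its derivative is the average of the source.
* `PsS_PGW`, `PsE_PGW`: `chi_cont`, `chi ≤ 1`, sums and products as `Psi_PGW` in PI/WgP.lean.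
* `avn_deriv`: `csol_mom` with the weight `Φ v ·` (`PG`, continuous from `PGW`), and the derivative of `t ↦ ∫ f t p(v) dν` (private lemma `int_hasDerivAt` in PL/CSolF.lean, or `CSol.ftc` and `CSol.contI` with the fundamental theorem).
* `avn_cont`: jointly continuous in `(t,v)`: `avn = ∫ Φ v p.1 * f t p.2 p.1 dν`, dominated convergence (`hf.f_le` on `[0,T₁]` with `N` large, `PGW.le`), as `pot_cont`/PotA.
* `EW_cont`, `EW_per`, `EW_char`: `pot_cont`, `pot_per`, `pot_char` as in PI/EDef.lean for `f` and `bet f` (`bet_sol`, `bet_planar`), `avn_cont`, `avn_deriv` (the last does not depend on `x`).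
-/

set_option autoImplicit false

open MeasureTheory Set Filter Topology Pool.Agent.H25.Kin Pool.Agent.H48.PL Pool.Agent.H48.PI

namespace Pool.Agent.H48.PW

variable {d : ℕ}

/-- the parameters of the weight -/
structure Pm where
  a : ℝ
  β : ℝ
  K₀ : ℝ
  M₁ : ℝ
  A' : ℝ
  R₀ : ℝ
  R : ℝ
  C₀ : ℝ

/-- conditions on the parameters -/
structure Pm.Ok (q : Pm) : Prop where
  ha : 0 < q.a
  hβ : 0 < q.β
  haβ : q.a + q.β < 1
  hK : 0 ≤ q.K₀
  hM : 0 ≤ q.M₁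
  hA : 0 ≤ q.A'
  hR₀ : 1 ≤ q.R₀
  hR : 1 ≤ q.R
  hC : 0 < q.C₀

/-- the bounded part `chi bet(F)` -/
noncomputable def gw (q : Pm) (F : Vec d → Vec d → ℝ) (x w : Vec d) : ℝ := chi q.R w * bet q.C₀ (F x w)

/-- odd weight of the bounded part -/
noncomputable def PsS (e : Fin d) (q : Pm) (v w : Vec d) : ℝ :=
  chi q.R w * (q.K₀ * PhS e q.a v w + q.A' * PgB e q.a q.β q.R₀ v w)

/-- even weight of the bounded part -/
noncomputable def PsE (q : Pm) (v w : Vec d) : ℝ := chi q.R w * (q.K₀ * PhE q.a v w)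

/-- average over the torus with a weight -/
noncomputable def avn (Φ : Vec d → Vec d → ℝ) (F : Vec d → Vec d → ℝ) (v : Vec d) : ℝ :=
  ∫ p, Φ v p.1 * F p.2 p.1 ∂(nu d)

/-- the weight function -/
noncomputable def EW (q : Pm) (e : Fin d) (F : Vec d → Vec d → ℝ) (x v : Vec d) : ℝ :=
  q.K₀ * pot e 1 (PhS e q.a) F x v - pot e 1 (PsS e q) (fun y w => bet q.C₀ (F y w)) x v -
    q.M₁ * (q.K₀ * avn (PhE q.a) F v - avn (PsE q) (fun y w => bet q.C₀ (F y w)) v)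

/-- its derivative along characteristics -/
noncomputable def dEW (q : Pm) (e : Fin d) (F G : Vec d → Vec d → ℝ) (x v : Vec d) : ℝ :=
  q.K₀ * dpot e 1 (PhS e q.a) F G x v -
    dpot e 1 (PsS e q) (fun y w => bet q.C₀ (F y w)) (fun y w => bet' q.C₀ (F y w) * G y w) x v -
    q.M₁ * (q.K₀ * avn (PhE q.a) G v - avn (PsE q) (fun y w => bet' q.C₀ (F y w) * G y w) v)

/-- the average over the torus of the flux of the unbounded part -/
noncomputable def av2w (q : Pm) (e : Fin d) (F : Vec d → Vec d → ℝ) (v : Vec d) : ℝ :=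
  ∫ p, (v e - p.1 e) * PhS e q.a v p.1 * (F p.2 p.1 - gw q F p.2 p.1) ∂(nu d)

/-- the average over the torus of the flux of the bounded part -/
noncomputable def av1w (q : Pm) (e : Fin d) (F : Vec d → Vec d → ℝ) (v : Vec d) : ℝ :=
  ∫ p, (v e - p.1 e) * PgB e q.a q.β q.R₀ v p.1 * gw q F p.2 p.1 ∂(nu d)

variable {T : ℝ} {Q f : ℝ → Vec d → Vec d → ℝ} {q : Pm} {Φ : Vec d → Vec d → ℝ}

private lemma pgw_const_mul {A : Vec d → Vec d → ℝ} (hA : PGW A) (K : ℝ) :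
    PGW fun v w => K * A v w := by
  obtain ⟨N, C, hC0, hC⟩ := hA.le
  refine ⟨continuous_const.mul hA.cont, N, |K| * C, by positivity, fun v w => ?_⟩
  rw [abs_mul, mul_assoc]
  exact mul_le_mul_of_nonneg_left (hC v w) (abs_nonneg _)

private lemma pgw_add {A B : Vec d → Vec d → ℝ} (hA : PGW A) (hB : PGW B) :
    PGW fun v w => A v w + B v w := by
  obtain ⟨N1, C1, h1, H1⟩ := hA.le
  obtain ⟨N2, C2, h2, H2⟩ := hB.le
  refine ⟨hA.cont.add hB.cont, N1 + N2, C1 + C2, by positivity, fun v w => ?_⟩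
  have hv := one_le_w v
  have hw := one_le_w w
  have hv0 := (w_pos v).le
  have hw0 := (w_pos w).le
  have e1 : (1 + ‖v‖) ^ N1 * (1 + ‖w‖) ^ N1 ≤ (1 + ‖v‖) ^ (N1 + N2) * (1 + ‖w‖) ^ (N1 + N2) :=
    mul_le_mul (pow_le_pow_right₀ hv (Nat.le_add_right _ _))
      (pow_le_pow_right₀ hw (Nat.le_add_right _ _)) (pow_nonneg hw0 _) (pow_nonneg hv0 _)
  have e2 : (1 + ‖v‖) ^ N2 * (1 + ‖w‖) ^ N2 ≤ (1 + ‖v‖) ^ (N1 + N2) * (1 + ‖w‖) ^ (N1 + N2) :=
    mul_le_mul (pow_le_pow_right₀ hv (Nat.le_add_left _ _))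
      (pow_le_pow_right₀ hw (Nat.le_add_left _ _)) (pow_nonneg hw0 _) (pow_nonneg hv0 _)
  have g1 := (H1 v w).trans (mul_le_mul_of_nonneg_left e1 h1)
  have g2 := (H2 v w).trans (mul_le_mul_of_nonneg_left e2 h2)
  refine (abs_add_le _ _).trans ((add_le_add g1 g2).trans (le_of_eq ?_))
  ring

private lemma pgw_chi_mul {A : Vec d → Vec d → ℝ} (hA : PGW A) (R : ℝ) :
    PGW fun v w => chi R w * A v w := by
  obtain ⟨N, C, hC0, hC⟩ := hA.le
  refine ⟨((chi_cont R).comp continuous_snd).mul hA.cont, N, C, hC0, fun v w => ?_⟩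
  rw [abs_mul, abs_of_nonneg (chi_nonneg R w)]
  exact (mul_le_of_le_one_left (abs_nonneg _) (chi_le_one R w)).trans (hC v w)

private lemma Pm.Ok.ha1 (hq : q.Ok) : q.a ≤ 1 := by linarith [hq.haβ, hq.hβ]

private lemma Pm.Ok.hβ1 (hq : q.Ok) : q.β ≤ 1 := by linarith [hq.haβ, hq.ha]

lemma PsS_PGW (hq : q.Ok) (e : Fin d) : PGW (PsS e q) :=
  pgw_chi_mul (pgw_add (pgw_const_mul (PhS_PGW hq.ha hq.ha1 e) q.K₀)
    (pgw_const_mul (PgB_PGW hq.ha hq.ha1 hq.hβ hq.hβ1 hq.hR₀ e) q.A')) q.R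

lemma PsE_PGW (hq : q.Ok) : PGW (PsE q : Vec d → Vec d → ℝ) :=
  pgw_chi_mul (pgw_const_mul (PhE_PGW hq.ha hq.ha1) q.K₀) q.R

private lemma pgw_pg (hΦ : PGW Φ) (v : Vec d) : PG (Φ v) := by
  obtain ⟨N, C, hC0, hC⟩ := hΦ.le
  refine ⟨N, C * (1 + ‖v‖) ^ N, fun w => ?_⟩
  rw [Real.norm_eq_abs, mul_assoc]
  exact hC v w

private lemma pgw_cont_right (hΦ : PGW Φ) (v : Vec d) : Continuous (Φ v) := by
  have h : Continuous fun w : Vec d => (v, w) := by fun_prop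
  exact hΦ.cont.comp h

lemma avn_deriv (hf : IsClassicalSol T Q f) (hΦ : PGW Φ) {t : ℝ} (ht : t ∈ Ioo 0 T) (v : Vec d) :
    HasDerivAt (fun r => avn Φ (f r) v) (avn Φ (Q t) v) t := by
  have H := csol_mom hf (pgw_pg hΦ v) (pgw_cont_right hΦ v)
  have hI := H.contI
  have hca : ContinuousAt (fun t => ∫ q : Vec d × Vec d, Q t q.2 q.1 * Φ v q.1 ∂(nu d)) t :=
    hI.continuousAt (isOpen_Ioo.mem_nhds ht)
  have hs : 0 < t / 2 := by linarith [ht.1]
  have hst : t / 2 ≤ t := by linarith [ht.1]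
  have hii : IntervalIntegrable (fun t => ∫ q : Vec d × Vec d, Q t q.2 q.1 * Φ v q.1 ∂(nu d))
      volume (t / 2) t := by
    refine (hI.mono ?_).intervalIntegrable
    rw [uIcc_of_le hst]
    exact fun r hr => ⟨hs.trans_le hr.1, hr.2.trans_lt ht.2⟩
  have hmeas : StronglyMeasurableAtFilter
      (fun t => ∫ q : Vec d × Vec d, Q t q.2 q.1 * Φ v q.1 ∂(nu d)) (𝓝 t) volume :=
    hI.stronglyMeasurableAtFilter isOpen_Ioo t ht
  have key := intervalIntegral.integral_hasDerivAt_right hii hmeas hca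
  have e1 : (fun r => avn Φ (f r) v) =ᶠ[𝓝 t] fun r =>
      (∫ q : Vec d × Vec d, f (t / 2) q.2 q.1 * Φ v q.1 ∂(nu d)) +
        ∫ τ in (t / 2)..r, (∫ q : Vec d × Vec d, Q τ q.2 q.1 * Φ v q.1 ∂(nu d)) := by
    have hn : Ioo (t / 2) T ∈ 𝓝 t := Ioo_mem_nhds (by linarith [ht.1]) ht.2
    filter_upwards [hn] with r hr
    have h1 := H.ftc hs hr.1.le hr.2
    have h2 : avn Φ (f r) v = ∫ q : Vec d × Vec d, f r q.2 q.1 * Φ v q.1 ∂(nu d) := by
      unfold avn
      congr 1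
      funext p
      ring
    rw [h2, ← h1]
    ring
  have e2 : avn Φ (Q t) v = ∫ q : Vec d × Vec d, Q t q.2 q.1 * Φ v q.1 ∂(nu d) := by
    unfold avn
    congr 1
    funext p
    ring
  rw [e2]
  exact (key.const_add _).congr_of_eventuallyEq e1

lemma avn_cont (hf : IsClassicalSol T Q f) (hΦ : PGW Φ) :
    ContinuousOn (fun z : ℝ × Vec d => avn Φ (f z.1) z.2) (Ico 0 T ×ˢ univ) := by
  obtain ⟨N, C, hC0, hC⟩ := hΦ.le
  rintro ⟨t₀, v₀⟩ ⟨ht₀, -⟩
  have h1 : (t₀ + T) / 2 < T := by linarith [ht₀.2]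
  obtain ⟨D, hD0, hD⟩ := hf.f_le h1 (N + (d + 1))
  have hev : ∀ᶠ z : ℝ × Vec d in 𝓝[Ico 0 T ×ˢ univ] (t₀, v₀),
      z.1 ∈ Icc 0 ((t₀ + T) / 2) ∧ z.1 ∈ Ico 0 T ∧ ‖z.2‖ ≤ ‖v₀‖ + 1 := by
    have a1 : ∀ᶠ z : ℝ × Vec d in 𝓝[Ico 0 T ×ˢ univ] (t₀, v₀), z.1 < (t₀ + T) / 2 := by
      refine mem_nhdsWithin_of_mem_nhds ?_
      exact (isOpen_Iio.preimage continuous_fst).mem_nhds (by
        show t₀ < (t₀ + T) / 2
        linarith [ht₀.2])
    have a2 : ∀ᶠ z : ℝ × Vec d in 𝓝[Ico 0 T ×ˢ univ] (t₀, v₀), ‖z.2‖ < ‖v₀‖ + 1 := by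
      refine mem_nhdsWithin_of_mem_nhds ?_
      exact (isOpen_Iio.preimage (continuous_norm.comp continuous_snd)).mem_nhds (by
        show ‖v₀‖ < ‖v₀‖ + 1
        linarith)
    filter_upwards [a1, a2, self_mem_nhdsWithin] with z h1 h2 h3
    exact ⟨⟨h3.1.1, h1.le⟩, h3.1, h2.le⟩
  unfold avn
  refine continuousWithinAt_of_dominated
    (bound := fun p : Vec d × Vec d => (C * (1 + (‖v₀‖ + 1)) ^ N * D) * wt d p.1) ?_ ?_ ?_ ?_
  · filter_upwards [hev] with z hz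
    have c1 : Continuous fun p : Vec d × Vec d => Φ z.2 p.1 :=
      (pgw_cont_right hΦ z.2).comp continuous_fst
    have c2 : Continuous fun p : Vec d × Vec d => f z.1 p.2 p.1 := by
      have h1 : Continuous fun p : Vec d × Vec d => (z.1, p.2, p.1) := by fun_prop
      exact hf.cont.comp_continuous h1 fun p => ⟨hz.2.1, mem_univ _⟩
    exact (c1.mul c2).aestronglyMeasurable
  · filter_upwards [hev] with z hz
    refine Eventually.of_forall fun p => ?_
    have b1 := hC z.2 p.1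
    have b2 := hD z.1 hz.1 p.2 p.1
    have b3 : (1 + ‖z.2‖) ^ N ≤ (1 + (‖v₀‖ + 1)) ^ N :=
      pow_le_pow_left₀ (w_pos z.2).le (by linarith [hz.2.2]) N
    have hw := w_pos p.1
    rw [Real.norm_eq_abs, abs_mul]
    calc |Φ z.2 p.1| * |f z.1 p.2 p.1|
        ≤ (C * ((1 + (‖v₀‖ + 1)) ^ N * (1 + ‖p.1‖) ^ N)) * (D * ((1 + ‖p.1‖) ^ (N + (d + 1)))⁻¹) := by
          refine mul_le_mul (b1.trans ?_) b2 (abs_nonneg _) (by positivity)
          gcongr
      _ = (C * (1 + (‖v₀‖ + 1)) ^ N * D) * wt d p.1 := by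
          unfold wt
          rw [pow_add]
          field_simp
  · exact ((integrable_wt (d := d)).comp_fst (muD d)).const_mul _
  · refine Eventually.of_forall fun p => ?_
    have c1 : Continuous fun z : ℝ × Vec d => Φ z.2 p.1 := by
      have h1 : Continuous fun z : ℝ × Vec d => (z.2, p.1) := by fun_prop
      exact hΦ.cont.comp h1
    have c2 : ContinuousWithinAt (fun z : ℝ × Vec d => f z.1 p.2 p.1) (Ico 0 T ×ˢ univ) (t₀, v₀) := by
      have h1 : Continuous fun z : ℝ × Vec d => (z.1, p.2, p.1) := by fun_prop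
      have h2 : ContinuousOn (fun z : ℝ × Vec d => unc f (z.1, p.2, p.1)) (Ico 0 T ×ˢ univ) :=
        hf.cont.comp h1.continuousOn fun z hz => ⟨hz.1, mem_univ _⟩
      exact h2 (t₀, v₀) ⟨ht₀, mem_univ _⟩
    exact c1.continuousWithinAt.mul c2

private lemma avn_cont3 (hf : IsClassicalSol T Q f) (hΦ : PGW Φ) :
    ContinuousOn (unc fun t (_ : Vec d) v => avn Φ (f t) v) (Ico 0 T ×ˢ univ) := by
  have h1 : Continuous fun z : ℝ × Vec d × Vec d => (z.1, z.2.2) := by fun_prop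
  exact (avn_cont hf hΦ).comp h1.continuousOn fun z hz => ⟨hz.1, mem_univ _⟩

theorem EW_cont (hq : q.Ok) (hf : IsClassicalSol T Q f) (e : Fin d) :
    ContinuousOn (unc fun t x v => EW q e (f t) x v) (Ico 0 T ×ˢ univ) := by
  have h1 := pot_cont hf (PhS_PGW hq.ha hq.ha1 e) e one_pos
  have h2 := pot_cont (bet_sol hq.hC hf) (PsS_PGW hq e) e one_pos
  have h3 := avn_cont3 hf (PhE_PGW (d := d) hq.ha hq.ha1)
  have h4 := avn_cont3 (bet_sol hq.hC hf) (PsE_PGW hq)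
  exact ((continuousOn_const.mul h1).sub h2).sub
    (continuousOn_const.mul ((continuousOn_const.mul h3).sub h4))

lemma EW_per {F : Vec d → Vec d → ℝ} (hF : ∀ x v i, F (x + Pi.single i 1) v = F x v) (e : Fin d)
    (x v : Vec d) (i : Fin d) : EW q e F (x + Pi.single i 1) v = EW q e F x v := by
  unfold EW
  rw [pot_per hF, pot_per (F := fun y w => bet q.C₀ (F y w)) (fun y w j => by
    show bet q.C₀ (F (y + Pi.single j 1) w) = bet q.C₀ (F y w)
    rw [hF])]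

theorem EW_char (hq : q.Ok) (hf : IsClassicalSol T Q f) {e : Fin d} (hpl : Planar e T f) {t : ℝ}
    (ht : t ∈ Ioo 0 T) (x v : Vec d) :
    HasDerivAt (fun r => EW q e (f r) (x + r • v) v) (dEW q e (f t) (Q t) (x + t • v) v) t := by
  have h1 := pot_char hf hpl (PhS_PGW hq.ha hq.ha1 e) one_pos ht x v
  have h2 := pot_char (bet_sol hq.hC hf) (bet_planar hpl) (PsS_PGW hq e) one_pos ht x v
  have h3 := avn_deriv hf (PhE_PGW (d := d) hq.ha hq.ha1) ht v
  have h4 := avn_deriv (bet_sol hq.hC hf) (PsE_PGW hq) ht v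
  exact ((h1.const_mul q.K₀).sub h2).sub (((h3.const_mul q.K₀).sub h4).const_mul q.M₁)

end Pool.Agent.H48.PW
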