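import Pool.Agent.H48.PW.Defs
import Pool.Agent.H48.PI.XWc

/-!
# Module XTc: the density `XT` and its integral over the torus

Copies of PI/XWd.lean and PI/XWc.lean with the weight `len (v-w)^(1+a) * jb (v-w)^m` instead of `len (v-w)^(1+a) * RR v w^a` (`jb (v-w) ≤ 1 + len v + len w`, so `≤ C (1+‖v‖)^3 (1+‖w‖)^3`; continuous). `om m V R` as there with `m` for `a` (`OmA`: generic).
-/

set_option autoImplicit false

open MeasureTheory Set Filter Topology Pool.Agent.H25.Kin Pool.Agent.H48.PL Pool.Agent.H48.PI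

namespace Pool.Agent.H48.PW

variable {d : ℕ} {a m T : ℝ} {Q f : ℝ → Vec d → Vec d → ℝ}

/-- `∫_x XT` at time `t` -/
noncomputable def Zw (a m : ℝ) (f : ℝ → Vec d → Vec d → ℝ) (t V : ℝ) : ℝ := ∫ x, XT a m V (f t x) ∂(muD d)

private noncomputable def dT (a m : ℝ) (g : Vec d → ℝ) (p : Vec d × Vec d) : ℝ :=
  g p.1 * g p.2 * (len (p.1 - p.2) ^ (1 + a) * jb (p.1 - p.2) ^ m)

private lemma xt_jb (v w : Vec d) : jb (v - w) ≤ 2 * RR v w := by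
  have h := one_le_RR v w
  refine abs_le_of_sq_le_sq' ?_ (by positivity) |>.2
  rw [jb_sq]
  have h2 := nsq_sub_le_RR v w
  nlinarith [sq_nonneg (RR v w)]

private lemma xt_w0 (v w : Vec d) : 0 ≤ len (v - w) ^ (1 + a) * jb (v - w) ^ m :=
  mul_nonneg (Real.rpow_nonneg (len_nonneg _) _) (Real.rpow_nonneg (jb_pos _).le _)

private lemma xt_kin (ha : 0 ≤ a) (ha1 : a ≤ 1) (hm : 0 ≤ m) (hm1 : m ≤ 1) (v w : Vec d) :
    |len (v - w) ^ (1 + a) * jb (v - w) ^ m| ≤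
      64 * ((d : ℝ) + 1) ^ 6 * ((1 + ‖v‖) ^ 3 * (1 + ‖w‖) ^ 3) := by
  have hR := RR_pos v w
  have hR1 := one_le_RR v w
  have hl := len_nonneg (v - w)
  rw [abs_of_nonneg (xt_w0 v w)]
  have h1 : len (v - w) ^ (1 + a) ≤ (2 * RR v w) ^ (2 : ℕ) := by
    calc len (v - w) ^ (1 + a) ≤ (2 * RR v w) ^ (1 + a) :=
          Real.rpow_le_rpow hl (len_le_RR v w) (by linarith)
      _ ≤ (2 * RR v w) ^ ((2 : ℕ) : ℝ) :=
          Real.rpow_le_rpow_of_exponent_le (by linarith) (by push_cast; linarith)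
      _ = (2 * RR v w) ^ (2 : ℕ) := Real.rpow_natCast _ _
  have h2 : jb (v - w) ^ m ≤ 2 * RR v w := by
    calc jb (v - w) ^ m ≤ (2 * RR v w) ^ m :=
          Real.rpow_le_rpow (jb_pos _).le (xt_jb v w) hm
      _ ≤ (2 * RR v w) ^ (1 : ℝ) := Real.rpow_le_rpow_of_exponent_le (by linarith) hm1
      _ = 2 * RR v w := Real.rpow_one _
  have h3 : RR v w ≤ 2 * (jb v * jb w) := by
    have h4 := RR_le v w
    have h5 := one_le_jb v
    have h6 := one_le_jb w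
    nlinarith
  have h4 : jb v * jb w ≤ (((d : ℝ) + 1) * (1 + ‖v‖)) * (((d : ℝ) + 1) * (1 + ‖w‖)) :=
    mul_le_mul (jb_le_w v) (jb_le_w w) (jb_pos w).le (by positivity)
  calc len (v - w) ^ (1 + a) * jb (v - w) ^ m ≤ (2 * RR v w) ^ (2 : ℕ) * (2 * RR v w) :=
        mul_le_mul h1 h2 (Real.rpow_nonneg (jb_pos _).le _) (by positivity)
    _ = 8 * RR v w ^ 3 := by ring
    _ ≤ 8 * (2 * ((((d : ℝ) + 1) * (1 + ‖v‖)) * (((d : ℝ) + 1) * (1 + ‖w‖)))) ^ 3 := by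
        gcongr
        linarith
    _ = 64 * ((d : ℝ) + 1) ^ 6 * ((1 + ‖v‖) ^ 3 * (1 + ‖w‖) ^ 3) := by ring

private lemma xt_dens {C : ℝ} (ha : 0 ≤ a) (ha1 : a ≤ 1) (hm : 0 ≤ m) (hm1 : m ≤ 1) (hC : 0 ≤ C)
    {g : Vec d → ℝ} (hg : ∀ v, |g v| ≤ C * ((1 + ‖v‖) ^ (3 + (d + 1)))⁻¹) (p : Vec d × Vec d) :
    |dT a m g p| ≤ 64 * ((d : ℝ) + 1) ^ 6 * (C * C) * (wt d p.1 * wt d p.2) := by
  unfold dT
  rw [abs_mul, abs_mul]
  have h1 := hg p.1
  have h2 := hg p.2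
  have h3 := xt_kin ha ha1 hm hm1 p.1 p.2
  have w1 := w_pos p.1
  have w2 := w_pos p.2
  have e1 := wt_bound (d := d) (a := 1) (b := C) zero_le_one hC p.1 3
  have e2 := wt_bound (d := d) (a := 1) (b := C) zero_le_one hC p.2 3
  calc |g p.1| * |g p.2| * |len (p.1 - p.2) ^ (1 + a) * jb (p.1 - p.2) ^ m|
      ≤ (C * ((1 + ‖p.1‖) ^ (3 + (d + 1)))⁻¹) * (C * ((1 + ‖p.2‖) ^ (3 + (d + 1)))⁻¹) *
        (64 * ((d : ℝ) + 1) ^ 6 * ((1 + ‖p.1‖) ^ 3 * (1 + ‖p.2‖) ^ 3)) := by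
        refine mul_le_mul (mul_le_mul h1 h2 (abs_nonneg _) (by positivity)) h3 (abs_nonneg _)
          (by positivity)
    _ = 64 * ((d : ℝ) + 1) ^ 6 * (((1 * (1 + ‖p.1‖) ^ 3) * (C * ((1 + ‖p.1‖) ^ (3 + (d + 1)))⁻¹)) *
        ((1 * (1 + ‖p.2‖) ^ 3) * (C * ((1 + ‖p.2‖) ^ (3 + (d + 1)))⁻¹))) := by ring
    _ = 64 * ((d : ℝ) + 1) ^ 6 * (C * C) * (wt d p.1 * wt d p.2) := by rw [e1, e2]; ring

private lemma xt_cont (ha : 0 ≤ a) {g : Vec d → ℝ} (hg : Continuous g) : Continuous (dT a m g) := by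
  unfold dT
  have h0 : Continuous fun p : Vec d × Vec d => p.1 - p.2 := continuous_fst.sub continuous_snd
  have h1 : Continuous fun p : Vec d × Vec d => len (p.1 - p.2) ^ (1 + a) :=
    (continuous_len.comp h0).rpow_const fun _ => Or.inr (by linarith)
  have h2 : Continuous fun p : Vec d × Vec d => jb (p.1 - p.2) ^ m :=
    (jb_cont.comp h0).rpow_const fun p => Or.inl (jb_pos _).ne'
  exact ((hg.comp continuous_fst).mul (hg.comp continuous_snd)).mul (h1.mul h2)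

private lemma xt_int : Integrable fun p : Vec d × Vec d => wt d p.1 * wt d p.2 :=
  (integrable_wt (d := d)).mul_prod (integrable_wt (d := d))

private lemma xt_slice (hf : IsClassicalSol T Q f) {t : ℝ} (ht : t ∈ Ico 0 T) (x : Vec d) :
    Continuous (f t x) :=
  (hf.cont_slice ht).comp (by fun_prop : Continuous fun v : Vec d => (x, v))

private lemma xt_bd (ha : 0 ≤ a) (ha1 : a ≤ 1) (hm : 0 ≤ m) (hm1 : m ≤ 1) (hf : IsClassicalSol T Q f)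
    {T₁ : ℝ} (h1 : T₁ < T) :
    ∃ K, 0 ≤ K ∧ ∀ t ∈ Icc 0 T₁, ∀ x, ∀ p : Vec d × Vec d,
      |dT a m (f t x) p| ≤ K * (wt d p.1 * wt d p.2) := by
  obtain ⟨C, hC0, hC⟩ := hf.f_le h1 (3 + (d + 1))
  exact ⟨64 * ((d : ℝ) + 1) ^ 6 * (C * C), by positivity,
    fun t ht x p => xt_dens ha ha1 hm hm1 hC0 (hC t ht x) p⟩

private lemma xt_d0 {g : Vec d → ℝ} (hg : ∀ v, 0 ≤ g v) (p : Vec d × Vec d) : 0 ≤ dT a m g p :=
  mul_nonneg (mul_nonneg (hg _) (hg _)) (xt_w0 _ _)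

private lemma xt_XT (V : ℝ) (g : Vec d → ℝ) :
    XT a m V g = ∫ p : Vec d × Vec d, dT a m g p * om m V (RR p.1 p.2) := rfl

lemma XT_nonneg {V : ℝ} (hV : 0 < V) {g : Vec d → ℝ} (hg : ∀ v, 0 ≤ g v) : 0 ≤ XT a m V g := by
  rw [xt_XT]
  exact integral_nonneg fun p => mul_nonneg (xt_d0 hg p) (om_nonneg hV (RR_pos _ _).le)

private lemma xt_wi0 (ha : 0 ≤ a) (hm1 : m ≤ 1) {V : ℝ} (hV : 0 < V) {g : Vec d → ℝ}
    (hgc : Continuous g) {K : ℝ} (hK : ∀ p : Vec d × Vec d, |dT a m g p| ≤ K * (wt d p.1 * wt d p.2)) :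
    Integrable fun p : Vec d × Vec d => dT a m g p * om m V (RR p.1 p.2) := by
  have hmeas : Measurable fun p : Vec d × Vec d => om m V (RR p.1 p.2) :=
    (om_meas m V).comp RR_cont.measurable
  refine (xt_int.const_mul K).mono'
    ((xt_cont ha hgc).aestronglyMeasurable.mul hmeas.aestronglyMeasurable)
    (Eventually.of_forall fun p => ?_)
  have h1 := om_nonneg (a := m) hV (RR_pos p.1 p.2).le
  have h2 := om_le_one hm1 hV (RR_pos p.1 p.2).le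
  rw [Real.norm_eq_abs, abs_mul, abs_of_nonneg h1]
  exact (mul_le_of_le_one_right (abs_nonneg _) h2).trans (hK p)

lemma XT_integrable (ha : 0 ≤ a) (ha1 : a ≤ 1) (hm : 0 ≤ m) (hm1 : m ≤ 1) {V : ℝ} (hV : 0 < V)
    {g : Vec d → ℝ} (hg : RD g) (hgc : Continuous g) :
    Integrable fun p : Vec d × Vec d => g p.1 * g p.2 * (len (p.1 - p.2) ^ (1 + a) * jb (p.1 - p.2) ^ m) *
      om m V (RR p.1 p.2) := by
  obtain ⟨C, hC⟩ := hg (3 + (d + 1))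
  have hC0 : 0 ≤ C := le_trans (mul_nonneg (pow_nonneg (w_pos (0 : Vec d)).le _) (norm_nonneg _)) (hC 0)
  have hb : ∀ v, |g v| ≤ C * ((1 + ‖v‖) ^ (3 + (d + 1)))⁻¹ := by
    intro v
    have h1 := pow_pos (w_pos v) (3 + (d + 1))
    have h2 := hC v
    rw [← div_eq_mul_inv, le_div_iff₀ h1, mul_comm]
    exact h2
  exact xt_wi0 ha hm1 hV hgc fun p => xt_dens ha ha1 hm hm1 hC0 hb p

lemma XT_cont (ha : 0 ≤ a) (ha1 : a ≤ 1) (hm : 0 ≤ m) (hm1 : m ≤ 1) (hf : IsClassicalSol T Q f) :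
    ContinuousOn (fun q : (ℝ × Vec d) × ℝ => XT a m q.2 (f q.1.1 q.1.2)) ((Ico 0 T ×ˢ univ) ×ˢ Ioi 0) := by
  intro q hq
  have hq1 : q.1.1 ∈ Ico 0 T := hq.1.1
  have hlt : (q.1.1 + T) / 2 < T := by linarith [hq1.2]
  obtain ⟨K, hK0, hK⟩ := xt_bd ha ha1 hm hm1 hf hlt
  have hsub : ∀ r ∈ Icc 0 ((q.1.1 + T) / 2), r ∈ Ico 0 T := fun r hr => ⟨hr.1, hr.2.trans_lt hlt⟩
  have key : ContinuousOn (fun q : (ℝ × Vec d) × ℝ => XT a m q.2 (f q.1.1 q.1.2))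
      ((Icc 0 ((q.1.1 + T) / 2) ×ˢ univ) ×ˢ Ioi 0) := by
    simp only [xt_XT]
    refine continuousOn_of_dominated (bound := fun p => K * (wt d p.1 * wt d p.2)) ?_ ?_ ?_ ?_
    · intro r hr
      have h1 : Continuous (dT a m (f r.1.1 r.1.2)) := xt_cont ha (xt_slice hf (hsub _ hr.1.1) r.1.2)
      exact (h1.measurable.mul ((om_meas m r.2).comp RR_cont.measurable)).aestronglyMeasurable
    · intro r hr
      refine Eventually.of_forall fun p => ?_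
      have h1 := hK r.1.1 hr.1.1 r.1.2 p
      have h2 := om_nonneg (a := m) (V := r.2) hr.2 (RR_pos p.1 p.2).le
      have h3 := om_le_one hm1 (V := r.2) hr.2 (RR_pos p.1 p.2).le
      rw [Real.norm_eq_abs, abs_mul, abs_of_nonneg h2]
      exact (mul_le_of_le_one_right (abs_nonneg _) h3).trans h1
    · exact xt_int.const_mul K
    · refine Eventually.of_forall fun p => ?_
      have hc : ∀ v : Vec d, ContinuousOn (fun r : (ℝ × Vec d) × ℝ => f r.1.1 r.1.2 v)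
          ((Icc 0 ((q.1.1 + T) / 2) ×ˢ univ) ×ˢ Ioi 0) := by
        intro v
        have h1 : Continuous fun r : (ℝ × Vec d) × ℝ => (r.1.1, r.1.2, v) := by fun_prop
        exact hf.isCont.comp h1.continuousOn fun r hr => ⟨hsub _ hr.1.1, mem_univ _⟩
      have ho : ContinuousOn (fun r : (ℝ × Vec d) × ℝ => om m r.2 (RR p.1 p.2))
          ((Icc 0 ((q.1.1 + T) / 2) ×ˢ univ) ×ˢ Ioi 0) := by
        unfold om
        have h1 : ContinuousOn (fun r : (ℝ × Vec d) × ℝ => RR p.1 p.2 / r.2)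
            ((Icc 0 ((q.1.1 + T) / 2) ×ˢ univ) ×ˢ Ioi 0) :=
          continuousOn_const.div continuous_snd.continuousOn fun r hr => (ne_of_gt hr.2 : r.2 ≠ 0)
        have h2 : ContinuousOn (fun r : (ℝ × Vec d) × ℝ => min 1 (RR p.1 p.2 / r.2))
            ((Icc 0 ((q.1.1 + T) / 2) ×ˢ univ) ×ˢ Ioi 0) :=
          ContinuousOn.inf continuousOn_const h1
        exact h2.rpow_const fun r _ => Or.inr (by linarith)
      unfold dT
      exact (((hc p.1).mul (hc p.2)).mul continuousOn_const).mul ho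
  refine (key q ⟨⟨⟨hq1.1, by linarith [hq1.2]⟩, mem_univ _⟩, hq.2⟩).mono_of_mem_nhdsWithin ?_
  have hop : {r : (ℝ × Vec d) × ℝ | r.1.1 < (q.1.1 + T) / 2} ∈ 𝓝 q :=
    (isOpen_lt (continuous_fst.comp continuous_fst) continuous_const).mem_nhds (by
      change q.1.1 < (q.1.1 + T) / 2
      linarith [hq1.2])
  filter_upwards [mem_nhdsWithin_of_mem_nhds hop, self_mem_nhdsWithin] with r hr hr2
  exact ⟨⟨⟨hr2.1.1.1, le_of_lt hr⟩, mem_univ _⟩, hr2.2⟩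

lemma XT_pl (ha : 0 ≤ a) (ha1 : a ≤ 1) (hm : 0 ≤ m) (hm1 : m ≤ 1) (hf : IsClassicalSol T Q f) {e : Fin d}
    (hpl : Planar e T f) {t : ℝ} (ht : t ∈ Ico 0 T) {V : ℝ} (hV : 0 < V) :
    PlF e (fun x => XT a m V (f t x)) := by
  have hper : ∀ (x : Vec d) (i : Fin d), f t (x + Pi.single i 1) = f t x := fun x i =>
    funext fun v => hf.periodic t ht x v i
  have hpl' : ∀ x y : Vec d, x e = y e → f t x = f t y := fun x y hxy =>
    funext fun v => hpl t ht x y v hxy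
  refine ⟨?_, ?_, ?_⟩
  · have h1 : Continuous fun x : Vec d => (((t, x), V) : (ℝ × Vec d) × ℝ) := by fun_prop
    exact (XT_cont ha ha1 hm hm1 hf).comp_continuous h1 fun x => ⟨⟨ht, mem_univ _⟩, hV⟩
  · intro x i
    simp only [hper x i]
  · intro x y hxy
    simp only [hpl' x y hxy]

private lemma xt_wi (ha : 0 ≤ a) (ha1 : a ≤ 1) (hm : 0 ≤ m) (hm1 : m ≤ 1) (hf : IsClassicalSol T Q f)
    {t : ℝ} (ht : t ∈ Ico 0 T) (x : Vec d) {V : ℝ} (hV : 0 < V) :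
    Integrable fun p : Vec d × Vec d => dT a m (f t x) p * om m V (RR p.1 p.2) := by
  obtain ⟨K, hK0, hK⟩ := xt_bd ha ha1 hm hm1 hf ht.2
  exact xt_wi0 ha hm1 hV (xt_slice hf ht x) fun p => hK t ⟨ht.1, le_rfl⟩ x p

private lemma xt_bdd (ha : 0 ≤ a) (ha1 : a ≤ 1) (hm : 0 ≤ m) (hm1 : m ≤ 1) (hf : IsClassicalSol T Q f)
    {T₁ : ℝ} (h1 : T₁ < T) :
    ∃ C, 0 ≤ C ∧ ∀ t ∈ Icc 0 T₁, ∀ x, ∀ V : ℝ, 0 < V → XT a m V (f t x) ≤ C := by
  obtain ⟨K, hK0, hK⟩ := xt_bd ha ha1 hm hm1 hf h1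
  refine ⟨∫ p : Vec d × Vec d, K * (wt d p.1 * wt d p.2), ?_, fun t ht x V hV => ?_⟩
  · exact integral_nonneg fun p => mul_nonneg hK0 (mul_nonneg (wt_nonneg _) (wt_nonneg _))
  · rw [xt_XT]
    refine integral_mono (xt_wi ha ha1 hm hm1 hf ⟨ht.1, ht.2.trans_lt h1⟩ x hV)
      (xt_int.const_mul K) fun p => ?_
    have h2 := hK t ht x p
    have h3 := om_nonneg (a := m) hV (RR_pos p.1 p.2).le
    have h4 := om_le_one hm1 hV (RR_pos p.1 p.2).le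
    calc dT a m (f t x) p * om m V (RR p.1 p.2)
        ≤ |dT a m (f t x) p| * om m V (RR p.1 p.2) := mul_le_mul_of_nonneg_right (le_abs_self _) h3
      _ ≤ |dT a m (f t x) p| := mul_le_of_le_one_right (abs_nonneg _) h4
      _ ≤ _ := h2

private lemma xt_f0 (hf : IsClassicalSol T Q f) {t : ℝ} (ht : t ∈ Ico 0 T) (x : Vec d) :
    ∀ v, 0 ≤ f t x v := fun v => hf.nonneg t ht x v

private lemma xt_meas (ha : 0 ≤ a) (ha1 : a ≤ 1) (hm : 0 ≤ m) (hm1 : m ≤ 1) (hf : IsClassicalSol T Q f)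
    {t : ℝ} (ht : t ∈ Ico 0 T) {V : ℝ} (hV : 0 < V) : Continuous fun x : Vec d => XT a m V (f t x) := by
  have h1 : Continuous fun x : Vec d => (((t, x), V) : (ℝ × Vec d) × ℝ) := by fun_prop
  exact (XT_cont ha ha1 hm hm1 hf).comp_continuous h1 fun x => ⟨⟨ht, mem_univ _⟩, hV⟩

private lemma xt_xi (ha : 0 ≤ a) (ha1 : a ≤ 1) (hm : 0 ≤ m) (hm1 : m ≤ 1) (hf : IsClassicalSol T Q f)
    {t : ℝ} (ht : t ∈ Ico 0 T) {V : ℝ} (hV : 0 < V) :
    Integrable (fun x : Vec d => XT a m V (f t x)) (muD d) := by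
  obtain ⟨C, hC0, hC⟩ := xt_bdd ha ha1 hm hm1 hf ht.2
  refine (integrable_const C).mono' (xt_meas ha ha1 hm hm1 hf ht hV).aestronglyMeasurable
    (Eventually.of_forall fun x => ?_)
  rw [Real.norm_eq_abs, abs_of_nonneg (XT_nonneg hV (xt_f0 hf ht x))]
  exact hC t ⟨ht.1, le_rfl⟩ x V hV

lemma Zw_cont (ha : 0 ≤ a) (ha1 : a ≤ 1) (hm : 0 ≤ m) (hm1 : m ≤ 1) (hf : IsClassicalSol T Q f) :
    ContinuousOn (fun q : ℝ × ℝ => Zw a m f q.1 q.2) (Ico 0 T ×ˢ Ioi 0) := by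
  intro q hq
  have hq1 : q.1 ∈ Ico 0 T := hq.1
  have hlt : (q.1 + T) / 2 < T := by linarith [hq1.2]
  obtain ⟨C, hC0, hC⟩ := xt_bdd ha ha1 hm hm1 hf hlt
  have hX := XT_cont ha ha1 hm hm1 hf
  have hsub : ∀ r ∈ Icc 0 ((q.1 + T) / 2), r ∈ Ico 0 T := fun r hr => ⟨hr.1, hr.2.trans_lt hlt⟩
  have key : ContinuousOn (fun q : ℝ × ℝ => Zw a m f q.1 q.2) (Icc 0 ((q.1 + T) / 2) ×ˢ Ioi 0) := by
    unfold Zw
    refine continuousOn_of_dominated (bound := fun _ => C) ?_ ?_ ?_ ?_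
    · intro r hr
      exact (xt_meas ha ha1 hm hm1 hf (hsub _ hr.1) hr.2).aestronglyMeasurable
    · intro r hr
      refine Eventually.of_forall fun x => ?_
      rw [Real.norm_eq_abs, abs_of_nonneg (XT_nonneg hr.2 (xt_f0 hf (hsub _ hr.1) x))]
      exact hC r.1 hr.1 x r.2 hr.2
    · exact integrable_const C
    · refine Eventually.of_forall fun x => ?_
      have h1 : Continuous fun r : ℝ × ℝ => (((r.1, x), r.2) : (ℝ × Vec d) × ℝ) := by fun_prop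
      exact hX.comp h1.continuousOn fun r hr => ⟨⟨hsub _ hr.1, mem_univ _⟩, hr.2⟩
  refine (key q ⟨⟨hq1.1, by linarith [hq1.2]⟩, hq.2⟩).mono_of_mem_nhdsWithin ?_
  have hop : {r : ℝ × ℝ | r.1 < (q.1 + T) / 2} ∈ 𝓝 q :=
    (isOpen_lt continuous_fst continuous_const).mem_nhds (by
      change q.1 < (q.1 + T) / 2
      linarith [hq1.2])
  filter_upwards [mem_nhdsWithin_of_mem_nhds hop, self_mem_nhdsWithin] with r hr hr2
  exact ⟨⟨hr2.1.1, le_of_lt hr⟩, hr2.2⟩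

lemma Zw_nonneg (hf : IsClassicalSol T Q f) {t : ℝ} (ht : t ∈ Ico 0 T) {V : ℝ} (hV : 0 < V) :
    0 ≤ Zw a m f t V :=
  integral_nonneg fun x => XT_nonneg hV (xt_f0 hf ht x)

lemma Zw_anti (ha : 0 ≤ a) (ha1 : a ≤ 1) (hm : 0 ≤ m) (hm1 : m ≤ 1) (hf : IsClassicalSol T Q f) {t : ℝ}
    (ht : t ∈ Ico 0 T) {V V' : ℝ} (hV : 0 < V) (h : V ≤ V') : Zw a m f t V' ≤ Zw a m f t V := by
  unfold Zw
  refine integral_mono (xt_xi ha ha1 hm hm1 hf ht (hV.trans_le h)) (xt_xi ha ha1 hm hm1 hf ht hV)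
    fun x => ?_
  show XT a m V' (f t x) ≤ XT a m V (f t x)
  rw [xt_XT, xt_XT]
  refine integral_mono (xt_wi ha ha1 hm hm1 hf ht x (hV.trans_le h))
    (xt_wi ha ha1 hm hm1 hf ht x hV) fun p => ?_
  exact mul_le_mul_of_nonneg_left (om_anti hm1 hV (RR_pos p.1 p.2).le h) (xt_d0 (xt_f0 hf ht x) p)

private lemma xt_osc (ha : 0 ≤ a) (ha1 : a ≤ 1) (hm : 0 < m) (hm1 : m ≤ 1) (hf : IsClassicalSol T Q f)
    {t : ℝ} (ht : t ∈ Ico 0 T) {R₁ V V' : ℝ} (hR : 0 < R₁) (hV : R₁ ≤ V) (hV' : R₁ ≤ V') (x : Vec d) :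
    |XT a m V (f t x) - XT a m V' (f t x)| ≤ 4 * (|V - V'| / max V V') * XT a m R₁ (f t x) := by
  have h0V : 0 < V := hR.trans_le hV
  have h0V' : 0 < V' := hR.trans_le hV'
  have hc : 0 ≤ 4 * (|V - V'| / max V V') :=
    mul_nonneg (by norm_num) (div_nonneg (abs_nonneg _) (h0V.le.trans (le_max_left _ _)))
  have i1 := xt_wi ha ha1 hm.le hm1 hf ht x h0V
  have i2 := xt_wi ha ha1 hm.le hm1 hf ht x h0V'
  have i3 := xt_wi ha ha1 hm.le hm1 hf ht x hR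
  rw [xt_XT, xt_XT, xt_XT, ← integral_sub i1 i2, ← integral_const_mul]
  refine (abs_integral_le_integral_abs).trans ?_
  refine integral_mono (i1.sub i2).abs (i3.const_mul _) fun p => ?_
  have hd := xt_d0 (a := a) (m := m) (xt_f0 hf ht x) p
  have hRR := (RR_pos p.1 p.2).le
  have h1 := om_osc hm hm1 h0V h0V' hRR
  have h2 : om m (min V V') (RR p.1 p.2) ≤ om m R₁ (RR p.1 p.2) :=
    om_anti hm1 hR hRR (le_min hV hV')
  show |dT a m (f t x) p * om m V (RR p.1 p.2) - dT a m (f t x) p * om m V' (RR p.1 p.2)| ≤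
    4 * (|V - V'| / max V V') * (dT a m (f t x) p * om m R₁ (RR p.1 p.2))
  rw [← mul_sub, abs_mul, abs_of_nonneg hd]
  calc dT a m (f t x) p * |om m V (RR p.1 p.2) - om m V' (RR p.1 p.2)|
      ≤ dT a m (f t x) p * (4 * (|V - V'| / max V V') * om m R₁ (RR p.1 p.2)) :=
        mul_le_mul_of_nonneg_left (h1.trans (mul_le_mul_of_nonneg_left h2 hc)) hd
    _ = 4 * (|V - V'| / max V V') * (dT a m (f t x) p * om m R₁ (RR p.1 p.2)) := by ring

lemma Zw_osc (ha : 0 ≤ a) (ha1 : a ≤ 1) (hm : 0 < m) (hm1 : m ≤ 1) (hf : IsClassicalSol T Q f) {t : ℝ}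
    (ht : t ∈ Ico 0 T) {R₁ V V' : ℝ} (hR : 0 < R₁) (hV : R₁ ≤ V) (hV' : R₁ ≤ V') :
    |Zw a m f t V - Zw a m f t V'| ≤ 4 * (|V - V'| / max V V') * Zw a m f t R₁ := by
  have i1 := xt_xi ha ha1 hm.le hm1 hf ht (hR.trans_le hV)
  have i2 := xt_xi ha ha1 hm.le hm1 hf ht (hR.trans_le hV')
  have i3 := xt_xi ha ha1 hm.le hm1 hf ht hR
  unfold Zw
  rw [← integral_sub i1 i2, ← integral_const_mul]
  refine (abs_integral_le_integral_abs).trans ?_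
  exact integral_mono (i1.sub i2).abs (i3.const_mul _)
    fun x => xt_osc ha ha1 hm hm1 hf ht hR hV hV' x

end Pool.Agent.H48.PW
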