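import Pool.Agent.H48.PL.Defs
import Pool.Agent.H82.BK.Fin

/-!
# Module StartW: the weighted supremum is upper semicontinuous at `t = 0`

`f` is continuous on `[0,T) × ℝ^d × ℝ^d`, periodic in `x`, `(1+‖v‖)^N f ≤ C` on `[0,T₁]` for every `N` (`hf.decay`). For `‖v‖ ≥ R` (`N = 2p+1`): `f (1+nsq v)^p ≤ C' /(1+‖v‖) ≤ η`. For `‖v‖ ≤ R`, `x ∈ [0,1]^d` (periodicity: every `x` is congruent to a point of the cube) uniform continuity on the compact set
`[0,T₁] × [0,1]^d × {‖v‖ ≤ R}`: `f t x v W ≤ f 0 x v W + η ≤ A + η` for `t ≤ t₁`. (`A ≥ 0`.)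
-/

set_option autoImplicit false

open MeasureTheory Set Filter Topology Pool.Agent.H25.Kin

namespace Pool.Agent.H48.PW

variable {d : ℕ}

/-- reduction of the position to the unit cube -/
private lemma sw_per {F : Vec d → ℝ} (hF : Per F) (x : Vec d) :
    ∃ y ∈ Icc (0 : Vec d) 1, F y = F x := by
  refine ⟨fun i => Int.fract (x i), ⟨fun i => Int.fract_nonneg _, fun i => (Int.fract_lt_one _).le⟩, ?_⟩
  have hl : (fun i => (-(⌊x i⌋ : ℤ) : ℝ)) ∈
      Submodule.span ℤ (Set.range (Pi.basisFun ℝ (Fin d))) := by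
    have e : (fun i => (-(⌊x i⌋ : ℤ) : ℝ)) = ∑ i, (-⌊x i⌋ : ℤ) • (Pi.basisFun ℝ (Fin d) i) := by
      funext j
      rw [Finset.sum_apply]
      simp only [Pi.basisFun_apply, Pi.smul_apply, Pi.single_apply]
      rw [Finset.sum_eq_single j]
      · simp
      · intro b _ hb
        simp [Ne.symm hb]
      · intro h
        exact absurd (Finset.mem_univ _) h
    rw [e]
    exact Submodule.sum_mem _ fun i _ => Submodule.smul_mem _ _
      (Submodule.subset_span (Set.mem_range_self i))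
  have h := hF.span hl x
  have e2 : (fun i => (-(⌊x i⌋ : ℤ) : ℝ)) + x = fun i => Int.fract (x i) := by
    funext i
    simp only [Pi.add_apply, Int.fract]
    ring
  rw [e2] at h
  exact h

/-- velocities with a large value of `F` are bounded -/
private lemma sw_bdd {T : ℝ} {Q f : ℝ → Vec d → Vec d → ℝ} (hf : IsClassicalSol T Q f) (p : ℕ)
    {T₁ : ℝ} (hT₁ : T₁ < T) {β : ℝ} (hβ : 0 < β) :
    ∃ R : ℝ, ∀ t ∈ Icc 0 T₁, ∀ x v, β ≤ f t x v * (1 + nsq v) ^ p → ‖v‖ ≤ R := by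
  obtain ⟨C, hC⟩ := hf.decay T₁ hT₁ (2 * p + 1)
  refine ⟨((d : ℝ) + 1) ^ p * C / β, fun t ht x v h => ?_⟩
  have h0 : 0 ≤ f t x v := hf.nonneg t ⟨ht.1, ht.2.trans_lt hT₁⟩ x v
  have h1 := hC t ht x v
  have hn := norm_nonneg v
  have h2 : 1 + nsq v ≤ ((d : ℝ) + 1) * (1 + ‖v‖) ^ 2 := by
    have h3 := sq_le v
    have h4 : (0 : ℝ) ≤ d := Nat.cast_nonneg _
    nlinarith [mul_nonneg h4 hn]
  have h5 : (1 + nsq v) ^ p ≤ ((d : ℝ) + 1) ^ p * (1 + ‖v‖) ^ (2 * p) := by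
    rw [pow_mul, ← mul_pow]
    exact pow_le_pow_left₀ (by have := sq_nonneg' v; linarith) h2 p
  have h6 : f t x v * (1 + nsq v) ^ p ≤ f t x v * (((d : ℝ) + 1) ^ p * (1 + ‖v‖) ^ (2 * p)) :=
    mul_le_mul_of_nonneg_left h5 h0
  rw [le_div_iff₀ hβ]
  have h7 : β * (1 + ‖v‖) ≤ ((d : ℝ) + 1) ^ p * C := by
    calc β * (1 + ‖v‖) ≤ (f t x v * (((d : ℝ) + 1) ^ p * (1 + ‖v‖) ^ (2 * p))) * (1 + ‖v‖) := by
          gcongr
          exact h.trans h6
      _ = ((d : ℝ) + 1) ^ p * ((1 + ‖v‖) ^ (2 * p + 1) * f t x v) := by ring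
      _ ≤ ((d : ℝ) + 1) ^ p * C := by gcongr
  nlinarith

theorem start_W {T : ℝ} {Q f : ℝ → Vec d → Vec d → ℝ} (hf : IsClassicalSol T Q f) (hT : 0 < T) (p : ℕ)
    {A : ℝ} (hA : 0 ≤ A) (h0 : ∀ x v, f 0 x v * (1 + nsq v) ^ p ≤ A) {η : ℝ} (hη : 0 < η) :
    ∃ t₁ : ℝ, 0 < t₁ ∧ t₁ < T ∧ ∀ t ∈ Icc 0 t₁, ∀ x v, f t x v * (1 + nsq v) ^ p ≤ A + η := by
  have hT1 : T / 2 < T := by linarith
  have hβ : 0 < A + η := by linarith
  obtain ⟨R, hR⟩ := sw_bdd hf p hT1 hβ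
  have hsub : Icc (0 : ℝ) (T / 2) ⊆ Ico 0 T := fun t ht => ⟨ht.1, ht.2.trans_lt hT1⟩
  have hper : ∀ t ∈ Icc (0 : ℝ) (T / 2), ∀ v : Vec d, Per fun x => f t x v * (1 + nsq v) ^ p :=
    fun t ht v x i => by
      show f t (x + Pi.single i 1) v * (1 + nsq v) ^ p = f t x v * (1 + nsq v) ^ p
      rw [hf.periodic t (hsub ht) x v i]
  set K : Set (ℝ × Vec d × Vec d) :=
    Icc 0 (T / 2) ×ˢ (Icc (0 : Vec d) 1 ×ˢ Metric.closedBall (0 : Vec d) R) with hK
  have hKc : IsCompact K := isCompact_Icc.prod (isCompact_Icc.prod (isCompact_closedBall _ _))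
  have hnc : Continuous (fun v : Vec d => nsq v) := by
    unfold nsq
    fun_prop
  have hFc : ContinuousOn (fun q : ℝ × Vec d × Vec d => unc f q * (1 + nsq q.2.2) ^ p) K := by
    have h1 : ContinuousOn (unc f) K :=
      (show ContinuousOn (unc f) (Ico 0 T ×ˢ univ) from hf.isCont).mono
        fun q hq => ⟨hsub hq.1, mem_univ _⟩
    have h2 : Continuous (fun q : ℝ × Vec d × Vec d => (1 + nsq q.2.2) ^ p) :=
      (continuous_const.add (hnc.comp (continuous_snd.comp continuous_snd))).pow p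
    exact h1.mul h2.continuousOn
  set S : Set (ℝ × Vec d × Vec d) :=
    K ∩ (fun q : ℝ × Vec d × Vec d => unc f q * (1 + nsq q.2.2) ^ p) ⁻¹' Ici (A + η) with hS
  have hSc : IsCompact S := hKc.of_isClosed_subset
    (hFc.preimage_isClosed_of_isClosed hKc.isClosed isClosed_Ici) inter_subset_left
  have hmem : ∀ t ∈ Icc (0 : ℝ) (T / 2), ∀ x v, A + η ≤ f t x v * (1 + nsq v) ^ p →
      ∃ y, (t, y, v) ∈ S := by
    intro t ht x v h
    obtain ⟨y, hy, hyx⟩ := sw_per (hper t ht v) x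
    refine ⟨y, ⟨⟨ht, hy, ?_⟩, ?_⟩⟩
    · rw [Metric.mem_closedBall, dist_zero_right]
      exact hR t ht x v h
    · simp only [mem_preimage, mem_Ici, unc]
      have h2 : f t y v * (1 + nsq v) ^ p = f t x v * (1 + nsq v) ^ p := hyx
      linarith
  rcases S.eq_empty_or_nonempty with hSe | hSn
  · refine ⟨T / 2, by linarith, hT1, fun t ht x v => ?_⟩
    by_contra hcon
    push Not at hcon
    obtain ⟨y, hy⟩ := hmem t ht x v hcon.le
    rw [hSe] at hy
    exact hy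
  · obtain ⟨q, hqS, hq⟩ := hSc.exists_isMinOn hSn (f := fun q : ℝ × Vec d × Vec d => q.1)
      continuous_fst.continuousOn
    obtain ⟨t₀, x₀, v₀⟩ := q
    have ht₀ : t₀ ∈ Icc 0 (T / 2) := hqS.1.1
    have hge : A + η ≤ f t₀ x₀ v₀ * (1 + nsq v₀) ^ p := by
      have := hqS.2
      simp only [mem_preimage, mem_Ici, unc] at this
      exact this
    have hpos : 0 < t₀ := by
      rcases lt_or_eq_of_le ht₀.1 with h | h
      · exact h
      · exfalso
        have := h0 x₀ v₀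
        rw [h] at this
        linarith
    refine ⟨t₀ / 2, by linarith, by linarith [ht₀.2], fun t ht x v => ?_⟩
    by_contra hcon
    push Not at hcon
    obtain ⟨y, hy⟩ := hmem t ⟨ht.1, by linarith [ht.2, ht₀.2]⟩ x v hcon.le
    have h2 : t₀ ≤ t := hq hy
    linarith [ht.2]

end Pool.Agent.H48.PW
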