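import Pool.Agent.H48.PW.EWDef
import Pool.Agent.H48.PI.AvgI
import Pool.Agent.H48.PI.YvA

/-!
# Module AvIW: upper bound for the average of the unbounded part, comparison

Copy of PI/AvgI.lean (177 lines).
* `av2w_up`: `VPhS_le` (both forms), `VPhS_nonneg`, `0 ≤ F - gw ≤ F`.
* `avw_cmp`: `yv e β v ≥ jb v^(-β)` (`yv_ge`). For `jb v ≥ V₀`: `K₀ 4M₂ jb v^(a-1) ≤ (A' c/4) jb v^(-β)` because `a + β < 1`; for `jb v ≤ V₀`: `K₀ 4 ε₂ ≤ (A' c/4) V₀^(-β)`.
-/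

set_option autoImplicit false

open MeasureTheory Set Filter Topology Pool.Agent.H25.Kin Pool.Agent.H48.PL Pool.Agent.H48.PI

namespace Pool.Agent.H48.PW

variable {d : ℕ}

private lemma aviw_wt {F : Vec d → Vec d → ℝ} (hd : RX F) (k : ℕ) :
    ∃ C, 0 ≤ C ∧ ∀ x v, (1 + ‖v‖) ^ k * |F x v| ≤ C * wt d v := by
  obtain ⟨C, hC⟩ := hd (k + (d + 1))
  refine ⟨C, le_trans (mul_nonneg (by positivity) (abs_nonneg _)) (hC 0 0), fun x v => ?_⟩
  have h := hC x v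
  have h4 : 0 < (1 + ‖v‖) ^ (d + 1) := by positivity
  unfold wt
  rw [← div_eq_mul_inv, le_div_iff₀ h4]
  calc (1 + ‖v‖) ^ k * |F x v| * (1 + ‖v‖) ^ (d + 1) = (1 + ‖v‖) ^ (k + (d + 1)) * |F x v| := by
        rw [pow_add]; ring
    _ ≤ C := h

private lemma aviw_int {e : Fin d} {F G : Vec d → Vec d → ℝ} (h : FS e F G) (r : ℝ) :
    Integrable (fun q : Vec d × Vec d => F q.2 q.1 * jb q.1 ^ r) (nu d) := by
  obtain ⟨N, hN⟩ := exists_nat_ge r
  obtain ⟨C, hC0, hC⟩ := aviw_wt h.decF N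
  have hb : ∀ x v, |F x v * jb v ^ r| ≤ (((d : ℝ) + 1) ^ N * C) * wt d v := by
    intro x v
    have j0 := jb_pos v
    have e1 : jb v ^ r ≤ (((d : ℝ) + 1) * (1 + ‖v‖)) ^ N := by
      calc jb v ^ r ≤ jb v ^ (N : ℝ) := Real.rpow_le_rpow_of_exponent_le (one_le_jb v) hN
        _ = jb v ^ N := Real.rpow_natCast _ _
        _ ≤ _ := pow_le_pow_left₀ j0.le (jb_le_w v) N
    rw [abs_mul, abs_of_nonneg (Real.rpow_nonneg j0.le r)]
    calc |F x v| * jb v ^ r ≤ |F x v| * (((d : ℝ) + 1) * (1 + ‖v‖)) ^ N :=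
          mul_le_mul_of_nonneg_left e1 (abs_nonneg _)
      _ = ((d : ℝ) + 1) ^ N * ((1 + ‖v‖) ^ N * |F x v|) := by rw [mul_pow]; ring
      _ ≤ ((d : ℝ) + 1) ^ N * (C * wt d v) := mul_le_mul_of_nonneg_left (hC x v) (by positivity)
      _ = _ := by ring
  have cj : Continuous fun v : Vec d => jb v ^ r :=
    jb_cont.rpow_const fun v => Or.inl (jb_pos v).ne'
  have hc : Continuous fun q : Vec d × Vec d => F q.2 q.1 * jb q.1 ^ r :=
    (h.contF.comp (continuous_snd.prodMk continuous_fst)).mul (cj.comp continuous_fst)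
  exact integrable_nu hc.aestronglyMeasurable fun q => hb q.2 q.1

private lemma aviw_sub {q : Pm} (hq : q.Ok) {F : Vec d → Vec d → ℝ} (h0 : ∀ x v, 0 ≤ F x v) (x w : Vec d) :
    0 ≤ F x w - gw q F x w ∧ F x w - gw q F x w ≤ F x w := by
  have b0 := bet_nonneg hq.hC (h0 x w)
  have b1 := bet_le hq.hC (h0 x w)
  have c0 := chi_nonneg q.R w
  have c1 := chi_le_one q.R w
  unfold gw
  constructor
  · nlinarith [mul_le_mul_of_nonneg_right c1 b0]
  · linarith [mul_nonneg c0 b0]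

private lemma aviw_int2 {q : Pm} (hq : q.Ok) {e : Fin d} {F G : Vec d → Vec d → ℝ} (h : FS e F G) (r : ℝ) :
    Integrable (fun p : Vec d × Vec d => (F p.2 p.1 - gw q F p.2 p.1) * jb p.1 ^ r) (nu d) := by
  have cj : Continuous fun v : Vec d => jb v ^ r :=
    jb_cont.rpow_const fun v => Or.inl (jb_pos v).ne'
  have cF : Continuous fun p : Vec d × Vec d => F p.2 p.1 := h.contF.comp (continuous_snd.prodMk continuous_fst)
  have mb : Measurable (bet q.C₀) := by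
    unfold bet
    exact (measurable_const.mul measurable_id).div (measurable_const.add measurable_id)
  have mm : Measurable fun p : Vec d × Vec d => (F p.2 p.1 - gw q F p.2 p.1) * jb p.1 ^ r := by
    refine Measurable.mul (cF.measurable.sub ?_) (cj.measurable.comp measurable_fst)
    unfold gw
    exact ((chi_cont q.R).measurable.comp measurable_fst).mul (mb.comp cF.measurable)
  refine (aviw_int h r).mono' mm.aestronglyMeasurable (Eventually.of_forall fun p => ?_)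
  have hs := aviw_sub hq h.nonneg p.2 p.1
  have hj : 0 ≤ jb p.1 ^ r := Real.rpow_nonneg (jb_pos p.1).le r
  rw [Real.norm_eq_abs, abs_of_nonneg (mul_nonneg hs.1 hj)]
  exact mul_le_mul_of_nonneg_right hs.2 hj

theorem av2w_up {q : Pm} (hq : q.Ok) {e : Fin d} {F G : Vec d → Vec d → ℝ} (h : FS e F G) {ε₂ M₂ : ℝ}
    (h2 : ∫ p, (F p.2 p.1 - gw q F p.2 p.1) * jb p.1 ^ (1 + q.a) ∂(nu d) ≤ ε₂)
    (hM : ∫ p, F p.2 p.1 * jb p.1 ^ 2 ∂(nu d) ≤ M₂) (v : Vec d) :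
    0 ≤ av2w q e F v ∧ av2w q e F v ≤ 4 * ε₂ ∧ av2w q e F v ≤ 4 * (jb v ^ (q.a - 1) * M₂) := by
  have ha1 : q.a ≤ 1 := by linarith [hq.haβ, hq.hβ]
  have hn : ∀ p : Vec d × Vec d, 0 ≤ (v e - p.1 e) * PhS e q.a v p.1 * (F p.2 p.1 - gw q F p.2 p.1) :=
    fun p => mul_nonneg (VPhS_nonneg e q.a v p.1) (aviw_sub hq h.nonneg p.2 p.1).1
  refine ⟨integral_nonneg hn, ?_, ?_⟩
  · have h3 : av2w q e F v ≤ ∫ p, 4 * ((F p.2 p.1 - gw q F p.2 p.1) * jb p.1 ^ (1 + q.a)) ∂(nu d) := by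
      unfold av2w
      refine integral_mono_of_nonneg (Eventually.of_forall hn) ((aviw_int2 hq h _).const_mul 4)
        (Eventually.of_forall fun p => ?_)
      have h4 := (VPhS_le hq.ha ha1 e v p.1).1
      have h5 := (aviw_sub hq h.nonneg p.2 p.1).1
      have h6 := mul_le_mul_of_nonneg_right h4 h5
      simp only
      linarith
    rw [integral_const_mul] at h3
    linarith
  · have i2 : Integrable (fun p : Vec d × Vec d => F p.2 p.1 * jb p.1 ^ 2) (nu d) := by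
      have := aviw_int h 2
      simpa only [Real.rpow_two] using this
    have h3 : av2w q e F v ≤ ∫ p, 4 * jb v ^ (q.a - 1) * (F p.2 p.1 * jb p.1 ^ 2) ∂(nu d) := by
      unfold av2w
      refine integral_mono_of_nonneg (Eventually.of_forall hn) (i2.const_mul _)
        (Eventually.of_forall fun p => ?_)
      have h4 := (VPhS_le hq.ha ha1 e v p.1).2
      have h5 := aviw_sub hq h.nonneg p.2 p.1
      have h6 := mul_le_mul_of_nonneg_right h4 h5.1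
      have h7 : 0 ≤ 4 * (jb v ^ (q.a - 1) * jb p.1 ^ 2) := by
        have := Real.rpow_nonneg (jb_pos v).le (q.a - 1)
        have := jb_pos p.1
        positivity
      have h8 := mul_le_mul_of_nonneg_left h5.2 h7
      simp only
      linarith
    rw [integral_const_mul] at h3
    have h9 : 0 ≤ 4 * jb v ^ (q.a - 1) := by
      have := Real.rpow_nonneg (jb_pos v).le (q.a - 1)
      positivity
    have h10 := mul_le_mul_of_nonneg_left hM h9
    linarith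

theorem avw_cmp {a β : ℝ} (ha : 0 < a) (hβ : 0 < β) (haβ : a + β < 1) {K₀ c A' M₂ : ℝ} (hK : 0 ≤ K₀)
    (hc : 0 < c) (hA : 0 < A') (hM : 0 ≤ M₂) : ∃ ε₂ : ℝ, 0 < ε₂ ∧ ∀ (e : Fin d) (v : Vec d) (z : ℝ),
      z ≤ 4 * ε₂ → z ≤ 4 * (jb v ^ (a - 1) * M₂) → K₀ * z ≤ A' * c / 4 * yv e β v := by
  obtain ⟨κ, hκd⟩ : ∃ κ : ℝ, κ = A' * c / 4 := ⟨_, rfl⟩
  have hκ : 0 < κ := by rw [hκd]; positivity
  -- `V₀` with `4 K₀ M₂ ≤ κ V₀^(1-2a)`
  obtain ⟨V₀, hV₀1, hV₀⟩ : ∃ V₀ : ℝ, 1 ≤ V₀ ∧ 4 * K₀ * M₂ ≤ κ * V₀ ^ (1 - a - β) := by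
    have ht := (tendsto_rpow_atTop (show (0 : ℝ) < 1 - a - β by linarith)).eventually_ge_atTop (4 * K₀ * M₂ / κ)
    obtain ⟨V, hV⟩ := (ht.and (eventually_ge_atTop (1 : ℝ))).exists
    refine ⟨V, hV.2, ?_⟩
    have := hV.1
    rw [div_le_iff₀ hκ] at this
    linarith
  have hV0 : 0 < V₀ := by linarith
  obtain ⟨ε₂, hε⟩ : ∃ ε₂ : ℝ, ε₂ = κ * V₀ ^ (-β) / (4 * (K₀ + 1)) := ⟨_, rfl⟩
  have hVa : 0 < V₀ ^ (-β) := Real.rpow_pos_of_pos hV0 _
  have hε0 : 0 < ε₂ := by rw [hε]; positivity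
  refine ⟨ε₂, hε0, fun e v z h1 h2 => ?_⟩
  rw [← hκd]
  have j0 := jb_pos v
  have hy := yv_ge hβ e v
  rcases le_total V₀ (jb v) with hv | hv
  · have h3 : K₀ * z ≤ K₀ * (4 * (jb v ^ (a - 1) * M₂)) := mul_le_mul_of_nonneg_left h2 hK
    have h4 : V₀ ^ (1 - a - β) ≤ jb v ^ (1 - a - β) := Real.rpow_le_rpow hV0.le hv (by linarith)
    have h5 : 0 ≤ jb v ^ (a - 1) := Real.rpow_nonneg j0.le _
    have h6 : jb v ^ (1 - a - β) * jb v ^ (a - 1) = jb v ^ (-β) := by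
      rw [← Real.rpow_add j0]
      congr 1
      ring
    calc K₀ * z ≤ K₀ * (4 * (jb v ^ (a - 1) * M₂)) := h3
      _ = 4 * K₀ * M₂ * jb v ^ (a - 1) := by ring
      _ ≤ κ * V₀ ^ (1 - a - β) * jb v ^ (a - 1) := mul_le_mul_of_nonneg_right hV₀ h5
      _ ≤ κ * jb v ^ (1 - a - β) * jb v ^ (a - 1) :=
          mul_le_mul_of_nonneg_right (mul_le_mul_of_nonneg_left h4 hκ.le) h5
      _ = κ * jb v ^ (-β) := by rw [mul_assoc, h6]
      _ ≤ κ * yv e β v := mul_le_mul_of_nonneg_left hy hκ.le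
  · have h3 : K₀ * z ≤ K₀ * (4 * ε₂) := mul_le_mul_of_nonneg_left h1 hK
    have h4 : V₀ ^ (-β) ≤ jb v ^ (-β) := Real.rpow_le_rpow_of_nonpos j0 hv (by linarith)
    have h5 : K₀ * (4 * ε₂) ≤ κ * V₀ ^ (-β) := by
      have h6 : (K₀ + 1) * (4 * ε₂) = κ * V₀ ^ (-β) := by
        rw [hε]
        field_simp
      nlinarith
    calc K₀ * z ≤ κ * V₀ ^ (-β) := h3.trans h5
      _ ≤ κ * jb v ^ (-β) := mul_le_mul_of_nonneg_left h4 hκ.le
      _ ≤ κ * yv e β v := mul_le_mul_of_nonneg_left hy hκ.le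

end Pool.Agent.H48.PW
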