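import Pool.Agent.H48.PW.EWDef
import Pool.Agent.H48.PI.EDer

/-!
# Module EWDer: lower bound for the derivative of the weight function, one time slice

Copy of PI/EDer.lean (256 lines; its private lemmas `EDerA`, `EDer_bd`, `EDer_wc`, `EDer_int`, `EDer_nu`, `EDer_pl`, `EDer_loc`, `EDer_kl`, `EDer_src` are generic) with `Ph4 ↦ PhS`, `Pg ↦ PgB`, `Psi ↦ PsS`, `g1 ↦ gw`, and the additional average terms:
`- M₁ (K₀ avn[PhE] G - avn[PsE] (bet' G)) ≥ - M₁ ∫ y, (K₀ |∫ w, PhE v w G y w| + |∫ w, PsE v w (bet' G) y w|) dμ ≥ - M₁ ∫ m dμ` (`nu_integral` turns `avn` into an iterated integral).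
-/

set_option autoImplicit false

open MeasureTheory Set Filter Topology Pool.Agent.H25.Kin Pool.Agent.H48.PL Pool.Agent.H48.PI

namespace Pool.Agent.H48.PW

variable {d : ℕ} {q : Pm} {e : Fin d} {F G : Vec d → Vec d → ℝ}

/-- continuous planar periodic functions with rapid decay in the velocity -/
private structure EWDerA (e : Fin d) (A : Vec d → Vec d → ℝ) : Prop where
  cont : Continuous fun p : Vec d × Vec d => A p.1 p.2
  dec : RX A
  per : ∀ x v i, A (x + Pi.single i 1) v = A x v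
  pl : ∀ x y v, x e = y e → A x v = A y v

private lemma EWDer_bd {A : Vec d → Vec d → ℝ} (hA : EWDerA e A) {Φ : Vec d → Vec d → ℝ} (hΦ : PGW Φ)
    (v : Vec d) : ∃ C, ∀ x w, |Φ v w * A x w| ≤ C * wt d w := by
  obtain ⟨N, K, hK0, hK⟩ := hΦ.le
  obtain ⟨C, hC⟩ := hA.dec (N + (d + 1))
  refine ⟨K * (1 + ‖v‖) ^ N * C, fun x w => ?_⟩
  have hw : 0 < 1 + ‖w‖ := w_pos w
  have hv : 0 < 1 + ‖v‖ := w_pos v
  have h2 := hC x w
  rw [abs_mul]
  unfold wt
  rw [← div_eq_mul_inv, le_div_iff₀ (by positivity)]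
  calc |Φ v w| * |A x w| * (1 + ‖w‖) ^ (d + 1)
      ≤ (K * ((1 + ‖v‖) ^ N * (1 + ‖w‖) ^ N)) * |A x w| * (1 + ‖w‖) ^ (d + 1) := by
        have := hK v w
        gcongr
    _ = K * (1 + ‖v‖) ^ N * ((1 + ‖w‖) ^ (N + (d + 1)) * |A x w|) := by rw [pow_add]; ring
    _ ≤ K * (1 + ‖v‖) ^ N * C := by gcongr

private lemma EWDer_wc {A : Vec d → Vec d → ℝ} (hA : EWDerA e A) {Φ : Vec d → Vec d → ℝ} (hΦ : PGW Φ)
    (x v : Vec d) : Continuous fun w => Φ v w * A x w :=
  (hΦ.cont.comp (by fun_prop : Continuous fun w : Vec d => (v, w))).mul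
    (hA.cont.comp (by fun_prop : Continuous fun w : Vec d => (x, w)))

private lemma EWDer_int {A : Vec d → Vec d → ℝ} (hA : EWDerA e A) {Φ : Vec d → Vec d → ℝ} (hΦ : PGW Φ)
    (x v : Vec d) : Integrable fun w => Φ v w * A x w := by
  obtain ⟨C, hC⟩ := EWDer_bd hA hΦ v
  exact (integrable_wt.const_mul C).mono' (EWDer_wc hA hΦ x v).aestronglyMeasurable
    (Eventually.of_forall fun w => hC x w)

private lemma EWDer_nu {A : Vec d → Vec d → ℝ} (hA : EWDerA e A) {Φ : Vec d → Vec d → ℝ} (hΦ : PGW Φ)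
    (v : Vec d) : Integrable (fun p : Vec d × Vec d => Φ v p.1 * A p.2 p.1) (nu d) := by
  obtain ⟨C, hC⟩ := EWDer_bd hA hΦ v
  have hc : Continuous fun p : Vec d × Vec d => Φ v p.1 * A p.2 p.1 :=
    (hΦ.cont.comp (by fun_prop : Continuous fun p : Vec d × Vec d => (v, p.1))).mul
      (hA.cont.comp (by fun_prop : Continuous fun p : Vec d × Vec d => (p.2, p.1)))
  exact integrable_nu hc.aestronglyMeasurable fun p => hC p.2 p.1

private lemma EWDer_pl {A : Vec d → Vec d → ℝ} (hA : EWDerA e A) {Φ : Vec d → Vec d → ℝ} (hΦ : PGW Φ)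
    (v : Vec d) : PlF e fun x => ∫ w, Φ v w * A x w := by
  obtain ⟨C, hC⟩ := EWDer_bd hA hΦ v
  refine ⟨?_, ?_, ?_⟩
  · refine continuous_of_dominated (bound := fun w => C * wt d w) ?_ ?_
      (integrable_wt.const_mul _) ?_
    · intro x
      exact (EWDer_wc hA hΦ x v).aestronglyMeasurable
    · intro x
      exact Eventually.of_forall fun w => hC x w
    · refine Eventually.of_forall fun w => ?_
      exact continuous_const.mul
        (hA.cont.comp (by fun_prop : Continuous fun x : Vec d => (x, w)))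
  · intro x i
    congr 1
    funext w
    rw [hA.per]
  · intro x y hxy
    congr 1
    funext w
    rw [hA.pl x y w hxy]

private lemma EWDer_loc {B : Vec d → ℝ} (hB : PlF e B) (x : Vec d) :
    loc e 1 B x = ∫ y, B y ∂(muD d) := by
  obtain ⟨C, hC⟩ := pl_bdd hB
  have hfin : IsFiniteMeasure ((volume : Measure ℝ).restrict (Ioo (-(1 / 2)) (1 / 2))) :=
    ⟨by rw [Measure.restrict_apply_univ]; exact measure_Ioo_lt_top⟩
  have hi : Integrable (fun z : ℝ => B (x - Pi.single e z))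
      (volume.restrict (Ioo (-(1 / 2)) (1 / 2))) := by
    have hc : Continuous fun z : ℝ => x - (Pi.single e z : Vec d) :=
      continuous_const.sub (continuous_single (A := fun _ : Fin d => ℝ) e)
    exact Integrable.of_bound (hB.cont.comp hc).aestronglyMeasurable C
      (Eventually.of_forall fun z => hC _)
  have hv : (∫ _z in Ioo (-(1 / 2) : ℝ) (1 / 2), C) = C := by
    rw [setIntegral_const, Real.volume_real_Ioo_of_le (by norm_num)]
    norm_num
  have hm : (∫ _y : Vec d, C ∂(muD d)) = C := by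
    rw [integral_const, measureReal_def, muD_univ]
    simp
  have h1 : PlF e fun y => C - B y :=
    ⟨continuous_const.sub hB.cont, fun x i => by rw [hB.per], fun x y h => by rw [hB.pl x y h]⟩
  have h2 : PlF e fun y => C + B y :=
    ⟨continuous_const.add hB.cont, fun x i => by rw [hB.per], fun x y h => by rw [hB.pl x y h]⟩
  have e1 := loc_le h1 (fun y => by have := (abs_le.mp (hC y)).2; linarith) one_pos le_rfl x
  have e2 := loc_le h2 (fun y => by have := (abs_le.mp (hC y)).1; linarith) one_pos le_rfl x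
  unfold loc at e1 e2 ⊢
  rw [integral_sub (integrable_const _) hi, integral_sub (integrable_const _) (pl_int hB), hv,
    hm] at e1
  rw [integral_add (integrable_const _) hi, integral_add (integrable_const _) (pl_int hB), hv,
    hm] at e2
  linarith

private lemma EWDer_kl {B : Vec d → ℝ} (hB : PlF e B) (x : Vec d) :
    Integrable (fun z : ℝ => kl 1 z * B (x - Pi.single e z))
      (volume.restrict (Ioo (-(1 / 2)) (1 / 2))) := by
  obtain ⟨C, hC⟩ := pl_bdd hB
  have hfin : IsFiniteMeasure ((volume : Measure ℝ).restrict (Ioo (-(1 / 2)) (1 / 2))) :=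
    ⟨by rw [Measure.restrict_apply_univ]; exact measure_Ioo_lt_top⟩
  have hc : Continuous fun z : ℝ => x - (Pi.single e z : Vec d) :=
    continuous_const.sub (continuous_single (A := fun _ : Fin d => ℝ) e)
  refine Integrable.of_bound ((kl_meas 1).aestronglyMeasurable.mul
    (hB.cont.comp hc).aestronglyMeasurable) (1 / 2 * C) ?_
  filter_upwards [ae_restrict_mem measurableSet_Ioo] with z hz
  rw [norm_mul, Real.norm_eq_abs, Real.norm_eq_abs]
  exact mul_le_mul (kl_abs one_pos hz) (hC _) (abs_nonneg _) (by norm_num)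

private lemma EWDer_src {a b m : Vec d → ℝ} {K : ℝ} (hK : 0 ≤ K) (ha : PlF e a) (hb : PlF e b)
    (hm : PlF e m) (h : ∀ x, K * |a x| + |b x| ≤ m x) (x : Vec d) :
    -(1 / 2 * ∫ y, m y ∂(muD d)) ≤
      K * (∫ z in Ioo (-(1 / 2) : ℝ) (1 / 2), kl 1 z * a (x - Pi.single e z)) -
        ∫ z in Ioo (-(1 / 2) : ℝ) (1 / 2), kl 1 z * b (x - Pi.single e z) := by
  have hc : Continuous fun z : ℝ => x - (Pi.single e z : Vec d) :=
    continuous_const.sub (continuous_single (A := fun _ : Fin d => ℝ) e)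
  have hfin : IsFiniteMeasure ((volume : Measure ℝ).restrict (Ioo (-(1 / 2)) (1 / 2))) :=
    ⟨by rw [Measure.restrict_apply_univ]; exact measure_Ioo_lt_top⟩
  obtain ⟨C, hC⟩ := pl_bdd hm
  have him : Integrable (fun z : ℝ => m (x - Pi.single e z))
      (volume.restrict (Ioo (-(1 / 2)) (1 / 2))) :=
    Integrable.of_bound (hm.cont.comp hc).aestronglyMeasurable C
      (Eventually.of_forall fun z => hC _)
  rw [← EWDer_loc hm x, ← integral_const_mul, ← integral_sub ((EWDer_kl ha x).const_mul K)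
    (EWDer_kl hb x)]
  have h1 : ‖∫ z in Ioo (-(1 / 2) : ℝ) (1 / 2), (K * (kl 1 z * a (x - Pi.single e z)) -
      kl 1 z * b (x - Pi.single e z))‖ ≤
        ∫ z in Ioo (-(1 / 2) : ℝ) (1 / 2), 1 / 2 * m (x - Pi.single e z) := by
    refine norm_integral_le_of_norm_le (him.const_mul _) ?_
    filter_upwards [ae_restrict_mem measurableSet_Ioo] with z hz
    have h2 := h (x - Pi.single e z)
    have h3 : |kl 1 z| ≤ 1 / 2 := kl_abs one_pos hz
    have h4 : K * (kl 1 z * a (x - Pi.single e z)) - kl 1 z * b (x - Pi.single e z) =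
        kl 1 z * (K * a (x - Pi.single e z) - b (x - Pi.single e z)) := by ring
    have h5 : |K * a (x - Pi.single e z) - b (x - Pi.single e z)| ≤ m (x - Pi.single e z) := by
      refine (abs_sub _ _).trans ?_
      rw [abs_mul, abs_of_nonneg hK]
      exact h2
    rw [h4, norm_mul, Real.norm_eq_abs, Real.norm_eq_abs]
    exact mul_le_mul h3 h5 (abs_nonneg _) (by norm_num)
  rw [integral_const_mul] at h1
  have h6 := neg_le_of_abs_le h1
  exact h6

theorem EW_der (hq : q.Ok) (h : FS e F G)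
    (hb : FS e (fun x v => bet q.C₀ (F x v)) (fun x v => bet' q.C₀ (F x v) * G x v)) {μ : Vec d → ℝ}
    (hμ : PlF e μ) (v : Vec d)
    (herr : ∀ x, q.K₀ * |∫ w, PhS e q.a v w * G x w| +
      |∫ w, PsS e q v w * (bet' q.C₀ (F x w) * G x w)| + (q.K₀ * |∫ w, PhE q.a v w * G x w| +
      |∫ w, PsE q v w * (bet' q.C₀ (F x w) * G x w)|) ≤ μ x) (x : Vec d) :
    (q.K₀ * ∫ w, (v e - w e) * PhS e q.a v w * (F x w - gw q F x w)) -
      q.A' * (∫ w, (v e - w e) * PgB e q.a q.β q.R₀ v w * gw q F x w) - q.K₀ * av2w q e F v +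
      q.A' * av1w q e F v - (1 / 2 + q.M₁) * ∫ y, μ y ∂(muD d) ≤ dEW q e F G x v := by
  have ha1 : q.a ≤ 1 := by linarith [hq.haβ, hq.hβ]
  have hβ1 : q.β ≤ 1 := by linarith [hq.haβ, hq.ha]
  have aF : EWDerA e F := ⟨h.contF, h.decF, h.perF, h.plF⟩
  have aG : EWDerA e G := ⟨h.contG, h.decG, h.perG, h.plG⟩
  have aB : EWDerA e fun x w => bet q.C₀ (F x w) := ⟨hb.contF, hb.decF, hb.perF, hb.plF⟩
  have aH : EWDerA e fun x w => bet' q.C₀ (F x w) * G x w := ⟨hb.contG, hb.decG, hb.perG, hb.plG⟩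
  have a1 : EWDerA e (gw q F) := by
    refine ⟨?_, ?_, ?_, ?_⟩
    · exact ((chi_cont q.R).comp continuous_snd).mul hb.contF
    · intro N
      obtain ⟨C, hC⟩ := hb.decF N
      refine ⟨C, fun x w => le_trans ?_ (hC x w)⟩
      have hw : 0 < 1 + ‖w‖ := w_pos w
      refine mul_le_mul_of_nonneg_left ?_ (by positivity)
      unfold gw
      rw [abs_mul, abs_of_nonneg (chi_nonneg _ _)]
      exact mul_le_of_le_one_left (abs_nonneg _) (chi_le_one _ _)
    · intro x w i
      unfold gw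
      rw [h.perF]
    · intro x y w hxy
      unfold gw
      rw [h.plF x y w hxy]
  have a2 : EWDerA e fun x w => F x w - gw q F x w := by
    refine ⟨aF.cont.sub a1.cont, ?_, ?_, ?_⟩
    · intro N
      obtain ⟨C, hC⟩ := aF.dec N
      obtain ⟨C', hC'⟩ := a1.dec N
      refine ⟨C + C', fun x w => ?_⟩
      have hw : 0 < 1 + ‖w‖ := w_pos w
      calc (1 + ‖w‖) ^ N * |F x w - gw q F x w|
          ≤ (1 + ‖w‖) ^ N * (|F x w| + |gw q F x w|) :=
            mul_le_mul_of_nonneg_left (abs_sub _ _) (by positivity)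
        _ = (1 + ‖w‖) ^ N * |F x w| + (1 + ‖w‖) ^ N * |gw q F x w| := by ring
        _ ≤ C + C' := add_le_add (hC x w) (hC' x w)
    · intro x w i
      simp only [aF.per, a1.per]
    · intro x y w hxy
      simp only [aF.pl x y w hxy, a1.pl x y w hxy]
  have p4 := PhS_PGW (d := d) hq.ha ha1 e
  have pE := PhE_PGW (d := d) hq.ha ha1
  have pg := PgB_PGW (d := d) hq.ha ha1 hq.hβ hβ1 hq.hR₀ e
  have pp := PsS_PGW (d := d) hq e
  have pq := PsE_PGW (d := d) hq
  have v4 := p4.vmul e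
  have vg := pg.vmul e
  have vp := pp.vmul e
  -- the identity for the fluxes
  have hid : ∀ y, (q.K₀ * ∫ w, (v e - w e) * PhS e q.a v w * F y w) -
      (∫ w, (v e - w e) * PsS e q v w * bet q.C₀ (F y w)) =
      (q.K₀ * ∫ w, (v e - w e) * PhS e q.a v w * (F y w - gw q F y w)) -
        q.A' * ∫ w, (v e - w e) * PgB e q.a q.β q.R₀ v w * gw q F y w := by
    intro y
    rw [← integral_const_mul, ← integral_const_mul, ← integral_const_mul,
      ← integral_sub ((EWDer_int aF v4 y v).const_mul _) (EWDer_int aB vp y v),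
      ← integral_sub ((EWDer_int a2 v4 y v).const_mul _) ((EWDer_int a1 vg y v).const_mul _)]
    congr 1
    funext w
    unfold gw PsS
    ring
  have q1 := EWDer_pl aF v4 v
  have q2 := EWDer_pl aB vp v
  have q3 := EWDer_pl a2 v4 v
  have q4 := EWDer_pl a1 vg v
  have hav : q.K₀ * av2w q e F v - q.A' * av1w q e F v =
      (q.K₀ * ∫ y, (∫ w, (v e - w e) * PhS e q.a v w * F y w) ∂(muD d)) -
        ∫ y, (∫ w, (v e - w e) * PsS e q v w * bet q.C₀ (F y w)) ∂(muD d) := by
    have e1 : av2w q e F v =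
        ∫ y, (∫ w, (v e - w e) * PhS e q.a v w * (F y w - gw q F y w)) ∂(muD d) :=
      Pool.Agent.H15.AV.nu_integral (EWDer_nu a2 v4 v)
    have e2 : av1w q e F v =
        ∫ y, (∫ w, (v e - w e) * PgB e q.a q.β q.R₀ v w * gw q F y w) ∂(muD d) :=
      Pool.Agent.H15.AV.nu_integral (EWDer_nu a1 vg v)
    rw [e1, e2, ← integral_const_mul, ← integral_const_mul, ← integral_const_mul,
      ← integral_sub ((pl_int q3).const_mul _) ((pl_int q4).const_mul _),
      ← integral_sub ((pl_int q1).const_mul _) (pl_int q2)]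
    congr 1
    funext y
    exact (hid y).symm
  have l1 := EWDer_loc q1 x
  have l2 := EWDer_loc q2 x
  have her1 : ∀ y, q.K₀ * |∫ w, PhS e q.a v w * G y w| +
      |∫ w, PsS e q v w * (bet' q.C₀ (F y w) * G y w)| ≤ μ y := by
    intro y
    have := herr y
    have h1 : 0 ≤ q.K₀ * |∫ w, PhE q.a v w * G y w| := mul_nonneg hq.hK (abs_nonneg _)
    have h2 : 0 ≤ |∫ w, PsE q v w * (bet' q.C₀ (F y w) * G y w)| := abs_nonneg _
    linarith
  have her2 : ∀ y, q.K₀ * |∫ w, PhE q.a v w * G y w| +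
      |∫ w, PsE q v w * (bet' q.C₀ (F y w) * G y w)| ≤ μ y := by
    intro y
    have := herr y
    have h1 : 0 ≤ q.K₀ * |∫ w, PhS e q.a v w * G y w| := mul_nonneg hq.hK (abs_nonneg _)
    have h2 : 0 ≤ |∫ w, PsS e q v w * (bet' q.C₀ (F y w) * G y w)| := abs_nonneg _
    linarith
  have hs := EWDer_src hq.hK (EWDer_pl aG p4 v) (EWDer_pl aH pp v) hμ her1 x
  have hx := hid x
  -- the average terms
  have r1 := EWDer_pl aG pE v
  have r2 := EWDer_pl aH pq v
  have hA : q.K₀ * avn (PhE q.a) G v - avn (PsE q) (fun y w => bet' q.C₀ (F y w) * G y w) v ≤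
      ∫ y, μ y ∂(muD d) := by
    have e1 : avn (PhE q.a) G v = ∫ y, (∫ w, PhE q.a v w * G y w) ∂(muD d) :=
      Pool.Agent.H15.AV.nu_integral (EWDer_nu aG pE v)
    have e2 : avn (PsE q) (fun y w => bet' q.C₀ (F y w) * G y w) v =
        ∫ y, (∫ w, PsE q v w * (bet' q.C₀ (F y w) * G y w)) ∂(muD d) :=
      Pool.Agent.H15.AV.nu_integral (EWDer_nu aH pq v)
    rw [e1, e2, ← integral_const_mul, ← integral_sub ((pl_int r1).const_mul _) (pl_int r2)]
    refine integral_mono (((pl_int r1).const_mul _).sub (pl_int r2)) (pl_int hμ) fun y => ?_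
    have h0 := her2 y
    have h1 : q.K₀ * (∫ w, PhE q.a v w * G y w) ≤ q.K₀ * |∫ w, PhE q.a v w * G y w| :=
      mul_le_mul_of_nonneg_left (le_abs_self _) hq.hK
    have h2 := neg_abs_le (∫ w, PsE q v w * (bet' q.C₀ (F y w) * G y w))
    show q.K₀ * (∫ w, PhE q.a v w * G y w) -
      (∫ w, PsE q v w * (bet' q.C₀ (F y w) * G y w)) ≤ μ y
    linarith
  have hM := mul_le_mul_of_nonneg_left hA hq.hM
  unfold loc at l1 l2
  unfold dEW dpot
  rw [one_div_one, one_mul, one_mul, l1, l2]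
  linarith

end Pool.Agent.H48.PW
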