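import Pool.Agent.H48.PW.WtA
import Pool.Agent.H48.PI.OmA

/-!
# Module WtB: the weights `PhS v ·`, `PhE v ·` are cusp test functions

`ψ(w) = om4 v w * φ(v-w)` or `om4 v w * |v-w|^a`. `ρ = len (w-v)`, `h = w-w'`, `r = len h`, `W = max (jb w) (jb w')`, `s' = sP s a ∈ [a, m]` (`a ≤ s'`; `s + a/2 ≤ m`: if `a ≤ 2s` it is `≤ 2s < β ≤ m`, otherwise `< a ≤ m`).
Difference of the second factors (`phi_lip` with `y = v-w`, `h = w-w'`): `≤ K r max(ρ,r)^(a-1)`, hence `≤ K r^a` and, for `ρ > 0`, `≤ 2K r^(s') ρ^(a-s')` (`r ≤ ρ`: `r ρ^(a-1) ≤ r^(s') ρ^(a-s')`, `s' ≤ 1`; `r > ρ`: `r^a = r^(s') r^(a-s') ≤ r^(s') ρ^(a-s')`).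
* `W ≥ jb v`: `om m (jb v) W = 1`; `om4 ≤ 1` times the above; `|om4 v w - om4 v w'| ≤ 4 min(1, r/jb v)`, zero unless `min (jb w) (jb w') < jb v`; take the second factor at the slower of the two velocities, there it is `≤ (2 jb v)^a`:
  `min(1,r/jb v) (2 jb v)^a ≤ 2 r^a`, and `min(1, r/jb v)(2 jb v)^a ≤ 2 r^(s') jb v^(a-s')`; since `len (w-v) ≤ 2 jb v` or (if `w` is the faster one) `ρ^(a-s')` may be small: then use the factor `1 + ρ^(a-s') ≥ 1` and `jb v^(a-s') ≤ 1`.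
* `W < jb v`: `om m (jb v) W = (W/jb v)^(4-m)`. With `w'` the faster one (`jb w' = W`; the other case is symmetric): `|om4 v w' φ' - om4 v w φ| ≤ (W/jb v)^4 |φ'-φ| + 4 (W/jb v)^3 (r/jb v)(2 jb v)^a`. First term: `(W/jb v)^4 ≤ om`. Second: `r ≤ 2W`:
  `(W/jb v)^3 (r/jb v) jb v^a = (W/jb v)^(4-a) r^a (r/W)^(1-a) ≤ 2 (W/jb v)^(4-m) r^a` (`a ≤ m`), and `= (W/jb v)^(4-s') r^(s') jb v^(a-s') (r/W)^(1-s') ≤ 2 (W/jb v)^(4-m) r^(s') · 1`.
So `K` is a multiple of the constant of `phi_lip`. Measurability: continuity.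
-/

set_option autoImplicit false

open MeasureTheory Set Filter Topology Pool.Agent.H25.Kin Pool.Agent.H48.PL Pool.Agent.H48.PI

namespace Pool.Agent.H48.PW

variable {d : ℕ} {s a β m : ℝ}

private lemma wtb_q {V x y r g : ℝ} (ha : 0 < a) (ha1 : a ≤ 1) (hV : 1 ≤ V) (hx : 0 < x) (hxy : x ≤ y)
    (hr : y - x ≤ r) (hg : |g| ≤ (V + x) ^ a) :
    |(min 1 (x / V) ^ 4 - min 1 (y / V) ^ 4) * g| ≤
      8 * (min 1 (y / V) ^ 3 * min (min 1 (y / V)) (r / V) * V ^ a) := by
  have hV0 : 0 < V := by linarith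
  have hy : 0 < y := by linarith
  have hr0 : 0 ≤ r := by linarith
  have hq' : 0 ≤ min 1 (y / V) := le_min zero_le_one (div_nonneg hy.le hV0.le)
  have hmin : 0 ≤ min (min 1 (y / V)) (r / V) := le_min hq' (div_nonneg hr0 hV0.le)
  have hVa : 0 ≤ V ^ a := Real.rpow_nonneg hV0.le _
  have hR : 0 ≤ 8 * (min 1 (y / V) ^ 3 * min (min 1 (y / V)) (r / V) * V ^ a) := by positivity
  rcases le_or_gt V x with h | h
  · have e1 : min 1 (x / V) = 1 := min_eq_left ((one_le_div hV0).2 h)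
    have e2 : min 1 (y / V) = 1 := min_eq_left ((one_le_div hV0).2 (h.trans hxy))
    rw [e2] at hR
    rw [e1, e2, sub_self, zero_mul, abs_zero]
    exact hR
  · have e1 : min 1 (x / V) = x / V := min_eq_right ((div_le_one hV0).2 h.le)
    have hq0 : 0 ≤ x / V := div_nonneg hx.le hV0.le
    have hqq : x / V ≤ min 1 (y / V) :=
      le_min ((div_le_one hV0).2 h.le) (div_le_div_of_nonneg_right hxy hV0.le)
    rw [e1]
    obtain ⟨q, hq⟩ : ∃ q, q = x / V := ⟨_, rfl⟩
    obtain ⟨p, hp⟩ : ∃ p, p = min 1 (y / V) := ⟨_, rfl⟩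
    rw [← hq] at hq0 hqq ⊢
    rw [← hp] at hq' hmin hR hqq ⊢
    have h1 : p - q ≤ min p (r / V) := by
      refine le_min (by linarith) ?_
      have h2 : p ≤ y / V := by rw [hp]; exact min_le_right _ _
      have h3 : y / V - x / V ≤ r / V := by
        rw [← sub_div]
        exact div_le_div_of_nonneg_right hr hV0.le
      rw [hq]
      linarith
    have h4 : p ^ 4 - q ^ 4 ≤ 4 * p ^ 3 * (p - q) := by
      have h5 : p ^ 4 - q ^ 4 = (p ^ 3 + p ^ 2 * q + p * q ^ 2 + q ^ 3) * (p - q) := by ring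
      rw [h5]
      refine mul_le_mul_of_nonneg_right ?_ (by linarith)
      have h6 : p ^ 2 * q ≤ p ^ 3 := by
        have : p ^ 3 = p ^ 2 * p := by ring
        rw [this]
        exact mul_le_mul_of_nonneg_left hqq (by positivity)
      have h7 : p * q ^ 2 ≤ p ^ 3 := by
        have : p ^ 3 = p * p ^ 2 := by ring
        rw [this]
        exact mul_le_mul_of_nonneg_left (pow_le_pow_left₀ hq0 hqq 2) hq'
      have h8 : q ^ 3 ≤ p ^ 3 := pow_le_pow_left₀ hq0 hqq 3
      linarith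
    have h9 : 0 ≤ p ^ 4 - q ^ 4 := sub_nonneg.2 (pow_le_pow_left₀ hq0 hqq 4)
    have h10 : |g| ≤ 2 * V ^ a := by
      refine hg.trans ?_
      calc (V + x) ^ a ≤ (2 * V) ^ a := Real.rpow_le_rpow (by linarith) (by linarith) ha.le
        _ = 2 ^ a * V ^ a := Real.mul_rpow (by norm_num) hV0.le
        _ ≤ 2 * V ^ a := by
          refine mul_le_mul_of_nonneg_right ?_ hVa
          calc (2 : ℝ) ^ a ≤ 2 ^ (1 : ℝ) := Real.rpow_le_rpow_of_exponent_le (by norm_num) ha1
            _ = 2 := Real.rpow_one _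
    rw [abs_mul, abs_sub_comm, abs_of_nonneg h9]
    calc (p ^ 4 - q ^ 4) * |g| ≤ (4 * p ^ 3 * min p (r / V)) * (2 * V ^ a) := by
          refine mul_le_mul (h4.trans ?_) h10 (abs_nonneg _) (by positivity)
          exact mul_le_mul_of_nonneg_left h1 (by positivity)
      _ = 8 * (p ^ 3 * min p (r / V) * V ^ a) := by ring

private lemma wtb_min {Q δ θ : ℝ} (hQ : 0 ≤ Q) (hδ : 0 ≤ δ) (h0 : 0 ≤ θ) (h1 : θ ≤ 1) :
    min Q δ ≤ Q ^ (1 - θ) * δ ^ θ := by
  rcases (le_min hQ hδ).eq_or_lt with h | h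
  · rw [← h]
    exact mul_nonneg (Real.rpow_nonneg hQ _) (Real.rpow_nonneg hδ _)
  · have e : min Q δ = min Q δ ^ (1 - θ) * min Q δ ^ θ := by
      rw [← Real.rpow_add h]
      simp
    calc min Q δ = min Q δ ^ (1 - θ) * min Q δ ^ θ := e
      _ ≤ Q ^ (1 - θ) * δ ^ θ :=
        mul_le_mul (Real.rpow_le_rpow h.le (min_le_left _ _) (by linarith))
          (Real.rpow_le_rpow h.le (min_le_right _ _) h0) (Real.rpow_nonneg h.le _)
          (Real.rpow_nonneg hQ _)

private lemma wtb_T {Q V r θ : ℝ} (hQ : 0 < Q) (hQ1 : Q ≤ 1) (hV : 1 ≤ V) (hr : 0 ≤ r) (hθ0 : 0 ≤ θ)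
    (hθ1 : θ ≤ 1) (haθ : a ≤ θ) (hθm : θ ≤ m) :
    Q ^ 3 * min Q (r / V) * V ^ a ≤ Q ^ (4 - m) * r ^ θ := by
  have hV0 : 0 < V := by linarith
  have h1 := wtb_min hQ.le (div_nonneg hr hV0.le) hθ0 hθ1
  have h2 : Q ^ 3 * Q ^ (1 - θ) = Q ^ (4 - θ) := by
    rw [← Real.rpow_natCast, ← Real.rpow_add hQ]
    congr 1
    push_cast
    ring
  have h3 : Q ^ (4 - θ) ≤ Q ^ (4 - m) := Real.rpow_le_rpow_of_exponent_ge hQ hQ1 (by linarith)
  have h4 : (r / V) ^ θ * V ^ a ≤ r ^ θ := by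
    rw [Real.div_rpow hr hV0.le]
    have h5 : V ^ a ≤ V ^ θ := Real.rpow_le_rpow_of_exponent_le hV haθ
    have h6 : 0 < V ^ θ := Real.rpow_pos_of_pos hV0 _
    rw [div_mul_eq_mul_div, div_le_iff₀ h6]
    exact mul_le_mul_of_nonneg_left h5 (Real.rpow_nonneg hr _)
  calc Q ^ 3 * min Q (r / V) * V ^ a ≤ Q ^ 3 * (Q ^ (1 - θ) * (r / V) ^ θ) * V ^ a :=
        mul_le_mul_of_nonneg_right (mul_le_mul_of_nonneg_left h1 (by positivity))
          (Real.rpow_nonneg hV0.le _)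
    _ = (Q ^ 3 * Q ^ (1 - θ)) * ((r / V) ^ θ * V ^ a) := by ring
    _ = Q ^ (4 - θ) * ((r / V) ^ θ * V ^ a) := by rw [h2]
    _ ≤ Q ^ (4 - m) * r ^ θ :=
        mul_le_mul h3 h4 (mul_nonneg (Real.rpow_nonneg (div_nonneg hr hV0.le) _)
          (Real.rpow_nonneg hV0.le _)) (Real.rpow_nonneg hQ.le _)

private lemma wtb_lin {ρ r : ℝ} (ha1 : a ≤ 1) (hr : 0 ≤ r) :
    r * max ρ r ^ (a - 1) ≤ r ^ a := by
  rcases hr.eq_or_lt with h | h
  · rw [← h, zero_mul]
    exact Real.rpow_nonneg le_rfl _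
  · have h1 : max ρ r ^ (a - 1) ≤ r ^ (a - 1) :=
      Real.rpow_le_rpow_of_nonpos h (le_max_right _ _) (by linarith)
    calc r * max ρ r ^ (a - 1) ≤ r * r ^ (a - 1) := mul_le_mul_of_nonneg_left h1 hr
      _ = r ^ (1 : ℝ) * r ^ (a - 1) := by rw [Real.rpow_one]
      _ = r ^ a := by rw [← Real.rpow_add h]; congr 1; ring

private lemma wtb_lin2 {ρ r θ : ℝ} (ha1 : a ≤ 1) (haθ : a ≤ θ) (hθ1 : θ ≤ 1) (hρ : 0 < ρ) (hr : 0 ≤ r) :
    r * max ρ r ^ (a - 1) ≤ r ^ θ * ρ ^ (a - θ) := by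
  rcases hr.eq_or_lt with h | h
  · rw [← h, zero_mul]
    exact mul_nonneg (Real.rpow_nonneg le_rfl _) (Real.rpow_nonneg hρ.le _)
  · rcases le_total r ρ with h1 | h1
    · rw [max_eq_left h1]
      have e1 : r = r ^ θ * r ^ (1 - θ) := by
        rw [← Real.rpow_add h]
        simp
      have e2 : r ^ (1 - θ) ≤ ρ ^ (1 - θ) := Real.rpow_le_rpow hr h1 (by linarith)
      calc r * ρ ^ (a - 1) = r ^ θ * r ^ (1 - θ) * ρ ^ (a - 1) := by rw [← e1]
        _ ≤ r ^ θ * ρ ^ (1 - θ) * ρ ^ (a - 1) :=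
          mul_le_mul_of_nonneg_right (mul_le_mul_of_nonneg_left e2 (Real.rpow_nonneg hr _))
            (Real.rpow_nonneg hρ.le _)
        _ = r ^ θ * ρ ^ (a - θ) := by
          rw [mul_assoc, ← Real.rpow_add hρ]
          congr 2
          ring
    · calc r * max ρ r ^ (a - 1) ≤ r ^ a := wtb_lin ha1 hr
        _ = r ^ θ * r ^ (a - θ) := by rw [← Real.rpow_add h]; congr 1; ring
        _ ≤ r ^ θ * ρ ^ (a - θ) :=
          mul_le_mul_of_nonneg_left (Real.rpow_le_rpow_of_nonpos hρ h1 (by linarith))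
            (Real.rpow_nonneg hr _)

private lemma wtb_core (W : WP s a β m) {f : Vec d → ℝ} {K : ℝ} (hK : 0 ≤ K) {v : Vec d}
    (hmeas : Measurable f) (hf : ∀ w, |f w| ≤ len (v - w) ^ a)
    (hD : ∀ w w', |f w - f w'| ≤ K * (len (w - w') * max (len (v - w)) (len (w - w')) ^ (a - 1))) :
    Cusp s a m v (jb v) (K + 8) (fun w => min 1 (jb w / jb v) ^ 4 * f w) := by
  have ha := W.ha
  have ha1 : a ≤ 1 := by linarith [W.ham, W.hm]
  have hm0 : 0 < m := by linarith [W.ham]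
  have hs' : a ≤ sP s a := le_max_left _ _
  have hs'm : sP s a ≤ m := by
    unfold sP
    refine max_le W.ham ?_
    rcases le_total a (2 * s) with h | h
    · linarith [W.hβ, W.hβm]
    · linarith [W.ham]
  have hs'1 : sP s a ≤ 1 := by linarith [W.hm]
  have hs'0 : 0 ≤ sP s a := by linarith
  have hV := one_le_jb v
  have hV0 := jb_pos v
  have key : ∀ w w' : Vec d, ∀ θ : ℝ, 0 ≤ θ → θ ≤ 1 → a ≤ θ → θ ≤ m → ∀ B : ℝ, 0 ≤ B →
      len (w - w') * max (len (v - w)) (len (w - w')) ^ (a - 1) ≤ B →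
      |min 1 (jb w / jb v) ^ 4 * f w - min 1 (jb w' / jb v) ^ 4 * f w'| ≤
        om m (jb v) (max (jb w) (jb w')) * (K * B + 8 * len (w - w') ^ θ) := by
    intro w w' θ h0 h1 h2 h3 B hB hBB
    have hr := len_nonneg (w - w')
    have hx := jb_pos w
    have hy := jb_pos w'
    have hl := jb_lip w w'
    rw [abs_le] at hl
    have hDD : |f w - f w'| ≤ K * B := (hD w w').trans (mul_le_mul_of_nonneg_left hBB hK)
    have hM : 0 < max (jb w) (jb w') := lt_max_of_lt_left hx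
    obtain ⟨Q, hQ⟩ : ∃ Q, Q = min 1 (max (jb w) (jb w') / jb v) := ⟨_, rfl⟩
    have hQ0 : 0 < Q := by rw [hQ]; exact lt_min one_pos (div_pos hM hV0)
    have hQ1 : Q ≤ 1 := by rw [hQ]; exact min_le_left _ _
    have hom : om m (jb v) (max (jb w) (jb w')) = Q ^ (4 - m) := by rw [hQ]; rfl
    have hQ4 : Q ^ 4 ≤ Q ^ (4 - m) := by
      have e : Q ^ 4 = Q ^ (4 : ℝ) := by rw [← Real.rpow_natCast]; norm_num
      rw [e]
      exact Real.rpow_le_rpow_of_exponent_ge hQ0 hQ1 (by linarith)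
    have hT := wtb_T (a := a) (m := m) hQ0 hQ1 hV hr h0 h1 h2 h3
    have hmain : |min 1 (jb w / jb v) ^ 4 * f w - min 1 (jb w' / jb v) ^ 4 * f w'| ≤
        Q ^ 4 * (K * B) + 8 * (Q ^ 3 * min Q (len (w - w') / jb v) * jb v ^ a) := by
      rcases le_total (jb w) (jb w') with h | h
      · have hQe : min 1 (jb w' / jb v) = Q := by rw [hQ, max_eq_right h]
        have e1 : min 1 (jb w / jb v) ^ 4 * f w - min 1 (jb w' / jb v) ^ 4 * f w' =
            min 1 (jb w' / jb v) ^ 4 * (f w - f w') +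
              (min 1 (jb w / jb v) ^ 4 - min 1 (jb w' / jb v) ^ 4) * f w := by ring
        have e2 := wtb_q (a := a) (g := f w) ha ha1 hV hx h (r := len (w - w')) (by linarith)
          ((hf w).trans (Real.rpow_le_rpow (len_nonneg _)
            ((len_sub_le v w).trans (add_le_add (len_le_jb v) (len_le_jb w))) ha.le))
        rw [e1]
        refine (abs_add_le _ _).trans (add_le_add ?_ ?_)
        · rw [hQe, abs_mul, abs_of_nonneg (by positivity : (0 : ℝ) ≤ Q ^ 4)]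
          exact mul_le_mul_of_nonneg_left hDD (by positivity)
        · rw [hQe] at e2 ⊢
          exact e2
      · have hQe : min 1 (jb w / jb v) = Q := by rw [hQ, max_eq_left h]
        have e1 : min 1 (jb w / jb v) ^ 4 * f w - min 1 (jb w' / jb v) ^ 4 * f w' =
            min 1 (jb w / jb v) ^ 4 * (f w - f w') -
              (min 1 (jb w' / jb v) ^ 4 - min 1 (jb w / jb v) ^ 4) * f w' := by ring
        have e2 := wtb_q (a := a) (g := f w') ha ha1 hV hy h (r := len (w - w')) (by linarith)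
          ((hf w').trans (Real.rpow_le_rpow (len_nonneg _)
            ((len_sub_le v w').trans (add_le_add (len_le_jb v) (len_le_jb w'))) ha.le))
        rw [e1]
        refine (abs_sub _ _).trans (add_le_add ?_ ?_)
        · rw [hQe, abs_mul, abs_of_nonneg (by positivity : (0 : ℝ) ≤ Q ^ 4)]
          exact mul_le_mul_of_nonneg_left hDD (by positivity)
        · rw [hQe] at e2 ⊢
          exact e2
    rw [hom]
    calc _ ≤ Q ^ 4 * (K * B) + 8 * (Q ^ 3 * min Q (len (w - w') / jb v) * jb v ^ a) := hmain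
      _ ≤ Q ^ (4 - m) * (K * B) + 8 * (Q ^ (4 - m) * len (w - w') ^ θ) :=
        add_le_add (mul_le_mul_of_nonneg_right hQ4 (mul_nonneg hK hB))
          (mul_le_mul_of_nonneg_left hT (by norm_num))
      _ = Q ^ (4 - m) * (K * B + 8 * len (w - w') ^ θ) := by ring
  have homn : ∀ w w' : Vec d, 0 ≤ om m (jb v) (max (jb w) (jb w')) := fun w w' =>
    om_nonneg hV0 (le_max_of_le_left (jb_pos w).le)
  refine ⟨?_, ?_, ?_⟩
  · exact (((measurable_const.min (jb_cont.measurable.div_const _))).pow_const 4).mul hmeas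
  · intro w w'
    have hr := len_nonneg (w - w')
    have h := key w w' a ha.le ha1 le_rfl W.ham (len (w - w') ^ a) (Real.rpow_nonneg hr _)
      (wtb_lin ha1 hr)
    refine h.trans (le_of_eq ?_)
    ring
  · intro w w' hwv
    have hr := len_nonneg (w - w')
    have hρ : 0 < len (v - w) := len_pos (sub_ne_zero.2 (Ne.symm hwv))
    have hρe : len (w - v) = len (v - w) := len_comm w v
    have h := key w w' (sP s a) hs'0 hs'1 hs' hs'm (len (w - w') ^ sP s a * len (v - w) ^ (a - sP s a))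
      (mul_nonneg (Real.rpow_nonneg hr _) (Real.rpow_nonneg hρ.le _))
      (wtb_lin2 ha1 hs' hs'1 hρ hr)
    refine h.trans ?_
    rw [hρe]
    have h1 : 0 ≤ len (w - w') ^ sP s a := Real.rpow_nonneg hr _
    have h2 : 0 ≤ len (v - w) ^ (a - sP s a) := Real.rpow_nonneg hρ.le _
    have h3 : K * (len (w - w') ^ sP s a * len (v - w) ^ (a - sP s a)) + 8 * len (w - w') ^ sP s a ≤
        (K + 8) * (len (w - w') ^ sP s a * (1 + len (v - w) ^ (a - sP s a))) := by
      have h4 : 0 ≤ K * len (w - w') ^ sP s a := mul_nonneg hK h1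
      have h5 : 0 ≤ len (w - w') ^ sP s a * len (v - w) ^ (a - sP s a) := mul_nonneg h1 h2
      nlinarith
    calc om m (jb v) (max (jb w) (jb w')) *
          (K * (len (w - w') ^ sP s a * len (v - w) ^ (a - sP s a)) + 8 * len (w - w') ^ sP s a)
        ≤ om m (jb v) (max (jb w) (jb w')) *
          ((K + 8) * (len (w - w') ^ sP s a * (1 + len (v - w) ^ (a - sP s a)))) :=
          mul_le_mul_of_nonneg_left h3 (homn w w')
      _ = (K + 8) * (om m (jb v) (max (jb w) (jb w')) *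
          (len (w - w') ^ sP s a * (1 + len (v - w) ^ (a - sP s a)))) := by ring

theorem Ph_cusp (W : WP s a β m) : ∃ K : ℝ, 0 ≤ K ∧ ∀ (e : Fin d) (v : Vec d),
    Cusp s a m v (jb v) K (PhS e a v) ∧ Cusp s a m v (jb v) K (PhE a v) := by
  have ha := W.ha
  have ha1 : a ≤ 1 := by linarith [W.ham, W.hm]
  obtain ⟨K, hK, h⟩ := phi_lip (d := d) ha ha1
  have harg : ∀ v w w' : Vec d, v - w + (w - w') = v - w' := fun v w w' => by abel
  refine ⟨K + 8, by linarith, fun e v => ⟨?_, ?_⟩⟩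
  · have h1 := wtb_core (f := fun w => phi e a (v - w)) (v := v) W hK
      ((phi_cont ha ha1 e).measurable.comp (measurable_const.sub measurable_id))
      (fun w => phi_abs ha e (v - w)) (fun w w' => by
        have h2 := (h e (v - w) (w - w')).1
        rw [harg] at h2
        rw [abs_sub_comm]
        exact h2)
    exact h1
  · have h1 := wtb_core (f := fun w => len (v - w) ^ a) (v := v) W hK
      ((continuous_len.measurable.comp (measurable_const.sub measurable_id)).pow_const a)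
      (fun w => le_of_eq (abs_of_nonneg (Real.rpow_nonneg (len_nonneg _) _))) (fun w w' => by
        have h2 := (h e (v - w) (w - w')).2
        rw [harg] at h2
        rw [abs_sub_comm]
        exact h2)
    exact h1

end Pool.Agent.H48.PW
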