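import Pool.Agent.H48.PW.EWDef
import Pool.Agent.H48.PW.WtB
import Pool.Agent.H48.PI.YvA

/-!
# Module WtD: the weights `PsS`, `PsE` of the bounded part are bounded cusp test functions

Only `jb w ≤ 2R` matters (`chi_eq_zero`). `y = yv e β v ≥ jb v^(-β)` (`yv_ge`).
* `|PhS v w|`, `|PhE v w| ≤ min(1, 2R/jb v)^4 (jb v + 2R)^a ≤ C_R jb v^(-β)` (`4 - a ≥ β`): so `≤ C y`; `PgB_w` for `PgB`. This is `h0`.
* `h2`: `r = len (w-w')`. `r > 1`: twice `h0` (`r^(s') ≥ 1`). `r ≤ 1`: both `jb ≤ 2R + 1` (otherwise both values vanish or use `chi_holder`): differences of `PhS`, `PhE` (`Ph_cusp`, `h2`): `K om m (jb v) (2R+1) r^(s') (1+len (w-v)^(a-s'))`, `om m (jb v) (2R+1) ≤ C_R jb v^(-(4-m)) ≤ C_R y` (`4 - m ≥ β`);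
  of `PgB`: `K y r^(max a β) ≤ K y r^(s')` (`s' = max a (s+a/2) ≤ max a β`: `s + a/2 ≤ max a β` because it is `≤ 2s < β` if `a ≤ 2s` and `< a` otherwise); of `chi`: `chi_holder` with the exponent `s'`, times the `h0`-bounds.
-/

set_option autoImplicit false

open MeasureTheory Set Filter Topology Pool.Agent.H25.Kin Pool.Agent.H48.PL Pool.Agent.H48.PI

namespace Pool.Agent.H48.PW

variable {d : ℕ} {s a β m : ℝ}

private lemma wtd_sP (W : WP s a β m) : 0 < sP s a ∧ sP s a ≤ max a β ∧ sP s a ≤ 1 := by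
  have h1 := W.hs
  have h2 := W.ha
  have h3 := W.hβ
  have h4 := W.haβ
  have h5 : sP s a ≤ max a β := by
    unfold sP
    refine max_le (le_max_left _ _) ?_
    rcases le_total a (2 * s) with h | h
    · exact (by linarith : s + a / 2 ≤ β).trans (le_max_right _ _)
    · exact (by linarith : s + a / 2 ≤ a).trans (le_max_left _ _)
  refine ⟨?_, h5, h5.trans (max_le (by linarith) (by linarith))⟩
  unfold sP
  exact lt_max_of_lt_left h2

/-- the bounded region: decay in `jb v` -/
private lemma wtd_base (ha : 0 < a) (hβ : 0 < β) (haβ : a + β < 1) {D : ℝ} (hD : 1 ≤ D) (e : Fin d)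
    (v : Vec d) {w : Vec d} (hw : jb w ≤ D) {x : ℝ} (hx : 0 ≤ x) (hx2 : x ≤ len (v - w)) :
    min 1 (jb w / jb v) ^ 4 * x ^ a ≤ 2 * D ^ 4 * yv e β v := by
  have hv := jb_pos v
  have hv1 := one_le_jb v
  have hwp := jb_pos w
  obtain ⟨z, hz⟩ : ∃ z, z = max (jb v) D := ⟨_, rfl⟩
  have hzv : jb v ≤ z := by rw [hz]; exact le_max_left _ _
  have hzD : D ≤ z := by rw [hz]; exact le_max_right _ _
  have hz0 : 0 < z := by linarith
  have hz1 : 1 ≤ z := by linarith
  have hm0 : 0 ≤ min 1 (jb w / jb v) := le_min zero_le_one (div_nonneg hwp.le hv.le)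
  have hm : min 1 (jb w / jb v) ≤ D / z := by
    rw [hz]
    rcases le_total (jb v) D with h | h
    · rw [max_eq_right h, div_self (by linarith)]
      exact min_le_left _ _
    · rw [max_eq_left h]
      exact (min_le_right _ _).trans (div_le_div_of_nonneg_right hw hv.le)
  have hl : x ≤ 2 * z := by
    have h1 := len_sub_le v w
    have h2 := len_le_jb v
    have h3 := len_le_jb w
    linarith
  have h4 : x ^ a ≤ 2 * z ^ a := by
    calc x ^ a ≤ (2 * z) ^ a := Real.rpow_le_rpow hx hl ha.le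
      _ = 2 ^ a * z ^ a := Real.mul_rpow (by norm_num) hz0.le
      _ ≤ 2 * z ^ a := by
          refine mul_le_mul_of_nonneg_right ?_ (Real.rpow_nonneg hz0.le a)
          calc (2 : ℝ) ^ a ≤ 2 ^ (1 : ℝ) :=
                Real.rpow_le_rpow_of_exponent_le (by norm_num) (by linarith)
            _ = 2 := Real.rpow_one 2
  have h5 : z ^ a / z ^ 4 ≤ z ^ (-β) := by
    have e1 : z ^ a / z ^ 4 = z ^ (a - 4) := by
      rw [Real.rpow_sub hz0]
      congr 1
      rw [← Real.rpow_natCast]
      norm_num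
    rw [e1]
    exact Real.rpow_le_rpow_of_exponent_le hz1 (by linarith)
  have h6 : z ^ (-β) ≤ yv e β v :=
    (Real.rpow_le_rpow_of_nonpos hv hzv (by linarith)).trans (yv_ge hβ e v)
  have hD4 : 0 ≤ D ^ 4 := by positivity
  calc min 1 (jb w / jb v) ^ 4 * x ^ a ≤ (D / z) ^ 4 * (2 * z ^ a) :=
        mul_le_mul (pow_le_pow_left₀ hm0 hm 4) h4 (Real.rpow_nonneg hx a) (by positivity)
    _ = 2 * D ^ 4 * (z ^ a / z ^ 4) := by
        field_simp
    _ ≤ 2 * D ^ 4 * yv e β v := mul_le_mul_of_nonneg_left (h5.trans h6) (by positivity)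

private lemma wtd_om (W : WP s a β m) {D : ℝ} (hD : 1 ≤ D) (e : Fin d) (v : Vec d) {r : ℝ} (hr : 0 ≤ r)
    (hrD : r ≤ D) : om m (jb v) r ≤ D * yv e β v := by
  have hv := jb_pos v
  have h1 := W.hs
  have h2 := W.ha
  have h3 := W.hβ
  have h4 := W.haβ
  have h5 := W.hm
  have hβ0 : 0 < β := by linarith
  have hD0 : 0 < D := by linarith
  have hy := (yv_pos e β v).le
  refine (om_mono h5.le hv hr hrD).trans ?_
  have hx : 0 < min 1 (D / jb v) := lt_min one_pos (div_pos hD0 hv)
  have g1 : om m (jb v) D ≤ min 1 (D / jb v) ^ β :=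
    Real.rpow_le_rpow_of_exponent_ge hx (min_le_left _ _) (by linarith)
  have g2 : min 1 (D / jb v) ^ β ≤ (D / jb v) ^ β := Real.rpow_le_rpow hx.le (min_le_right _ _) hβ0.le
  have g3 : (D / jb v) ^ β = D ^ β * jb v ^ (-β) := by
    rw [Real.div_rpow hD0.le hv.le, Real.rpow_neg hv.le, div_eq_mul_inv]
  have g4 : D ^ β ≤ D := by
    calc D ^ β ≤ D ^ (1 : ℝ) := Real.rpow_le_rpow_of_exponent_le hD (by linarith)
      _ = D := Real.rpow_one D
  rw [g3] at g2
  refine g1.trans (g2.trans ?_)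
  exact mul_le_mul g4 (yv_ge hβ0 e v) (Real.rpow_nonneg hv.le _) hD0.le

/-- product of the cut-off with a cusp function -/
private lemma wtd_mul {R y E₀ E₁ : ℝ} (hR : 1 ≤ R) (hs0 : 0 < sP s a) (hs1 : sP s a ≤ 1) (hy : 0 ≤ y)
    (hE₀ : 0 ≤ E₀) (hE₁ : 0 ≤ E₁) (v : Vec d) {G : Vec d → ℝ} (hG : Measurable G)
    (h0 : ∀ w, jb w ≤ 2 * R + 1 → |G w| ≤ E₀ * y)
    (h2 : ∀ w w', w ≠ v → len (w - w') ≤ 1 → jb w ≤ 2 * R + 1 → jb w' ≤ 2 * R + 1 →
      |G w - G w'| ≤ E₁ * y * (len (w - w') ^ sP s a * (1 + len (w - v) ^ (a - sP s a)))) :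
    CuspB s a v ((2 * E₀ + E₁) * y) (fun w => chi R w * G w) := by
  have hb : ∀ w, |chi R w * G w| ≤ E₀ * y := by
    intro w
    rcases le_total (jb w) (2 * R) with h | h
    · rw [abs_mul, abs_of_nonneg (chi_nonneg R w)]
      exact (mul_le_of_le_one_left (abs_nonneg _) (chi_le_one R w)).trans (h0 w (by linarith))
    · rw [chi_eq_zero hR h, zero_mul, abs_zero]
      exact mul_nonneg hE₀ hy
  refine ⟨(chi_cont R).measurable.mul hG, fun w => ?_, fun w w' hwv => ?_⟩
  · refine (hb w).trans ?_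
    have h3 : 0 ≤ E₀ * y := mul_nonneg hE₀ hy
    have h4 : 0 ≤ E₁ * y := mul_nonneg hE₁ hy
    linarith
  · have hl := len_nonneg (w - w')
    have hl2 := len_nonneg (w - v)
    have hA : 0 ≤ len (w - w') ^ sP s a := Real.rpow_nonneg hl _
    have hB : 0 ≤ len (w - v) ^ (a - sP s a) := Real.rpow_nonneg hl2 _
    have hT : 0 ≤ len (w - w') ^ sP s a * (1 + len (w - v) ^ (a - sP s a)) :=
      mul_nonneg hA (by linarith)
    have hAT : len (w - w') ^ sP s a ≤ len (w - w') ^ sP s a * (1 + len (w - v) ^ (a - sP s a)) :=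
      le_mul_of_one_le_right hA (by linarith)
    have h3 : 0 ≤ E₀ * y := mul_nonneg hE₀ hy
    have h4 : 0 ≤ E₁ * y := mul_nonneg hE₁ hy
    have hE : (2 * E₀ + E₁) * y * (len (w - w') ^ sP s a * (1 + len (w - v) ^ (a - sP s a))) =
        2 * (E₀ * y * (len (w - w') ^ sP s a * (1 + len (w - v) ^ (a - sP s a)))) +
        E₁ * y * (len (w - w') ^ sP s a * (1 + len (w - v) ^ (a - sP s a))) := by ring
    have h5 : 0 ≤ E₀ * y * (len (w - w') ^ sP s a * (1 + len (w - v) ^ (a - sP s a))) := mul_nonneg h3 hT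
    have h6 : 0 ≤ E₁ * y * (len (w - w') ^ sP s a * (1 + len (w - v) ^ (a - sP s a))) := mul_nonneg h4 hT
    rw [hE]
    rcases lt_or_ge 1 (len (w - w')) with h | h
    · have h7 : 1 ≤ len (w - w') ^ sP s a := Real.one_le_rpow h.le hs0.le
      have h8 : E₀ * y ≤ E₀ * y * (len (w - w') ^ sP s a * (1 + len (w - v) ^ (a - sP s a))) :=
        le_mul_of_one_le_right h3 (h7.trans hAT)
      have h9 := abs_sub (chi R w * G w) (chi R w' * G w')
      have h10 := hb w
      have h11 := hb w'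
      linarith
    · have hj := jb_lip w w'
      rw [abs_le] at hj
      rcases le_total (jb w) (2 * R) with h7 | h7
      · -- both in the ball
        have hw : jb w ≤ 2 * R + 1 := by linarith
        have hw' : jb w' ≤ 2 * R + 1 := by linarith [hj.1]
        have e1 : chi R w * G w - chi R w' * G w' =
            chi R w * (G w - G w') + (chi R w - chi R w') * G w' := by ring
        have g1 : |chi R w * (G w - G w')| ≤
            E₁ * y * (len (w - w') ^ sP s a * (1 + len (w - v) ^ (a - sP s a))) := by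
          rw [abs_mul, abs_of_nonneg (chi_nonneg R w)]
          exact (mul_le_of_le_one_left (abs_nonneg _) (chi_le_one R w)).trans (h2 w w' hwv h hw hw')
        have g2 : |(chi R w - chi R w') * G w'| ≤
            E₀ * y * (len (w - w') ^ sP s a * (1 + len (w - v) ^ (a - sP s a))) := by
          rw [abs_mul, mul_comm]
          exact mul_le_mul (h0 w' hw') ((chi_holder hR hs0 hs1 w w').trans hAT) (abs_nonneg _) h3
        rw [e1]
        refine (abs_add_le _ _).trans ?_
        linarith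
      · rcases le_total (jb w') (2 * R) with h8 | h8
        · have hw : jb w ≤ 2 * R + 1 := by linarith [hj.2]
          have hw' : jb w' ≤ 2 * R + 1 := by linarith
          have g2 : |(chi R w - chi R w') * G w'| ≤
              E₀ * y * (len (w - w') ^ sP s a * (1 + len (w - v) ^ (a - sP s a))) := by
            rw [abs_mul, mul_comm]
            exact mul_le_mul (h0 w' hw') ((chi_holder hR hs0 hs1 w w').trans hAT) (abs_nonneg _) h3
          rw [chi_eq_zero hR h7, zero_sub, neg_mul, abs_neg] at g2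
          rw [chi_eq_zero hR h7, zero_mul, zero_sub, abs_neg]
          linarith
        · rw [chi_eq_zero hR h7, chi_eq_zero hR h8, zero_mul, zero_mul, sub_zero, abs_zero]
          linarith

theorem Ps_cusp (W : WP s a β m) {q : Pm} (hq : q.Ok) (ha : q.a = a) (hβ : q.β = β) :
    ∃ K : ℝ, 0 ≤ K ∧ ∀ (e : Fin d) (v : Vec d), CuspB s a v (K * yv e β v) (PsS e q v) ∧
      CuspB s a v (K * yv e β v) (PsE q v) := by
  obtain ⟨Kc, hKc, HC⟩ := Ph_cusp (d := d) W
  have q1 := W.hs
  have q2 := W.ha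
  have q3 := W.hβ
  have q4 := W.haβ
  have hβ0 : 0 < β := by linarith
  obtain ⟨hs0, hsm, hs1⟩ := wtd_sP W
  obtain ⟨Kg, hKg, HG⟩ := PgB_w (d := d) (a := a) (β := β) (R₀ := q.R₀) q2 (by linarith) hβ0
    (by linarith) hq.hR₀
  obtain ⟨D, hD⟩ : ∃ D, D = 2 * q.R + 1 := ⟨_, rfl⟩
  have hR := hq.hR
  have hK := hq.hK
  have hA := hq.hA
  have hD1 : 1 ≤ D := by rw [hD]; linarith
  have hD0 : 0 ≤ D := by linarith
  -- differences of the unbounded weights
  have hdiff : ∀ (e : Fin d) (v : Vec d) (ψ : Vec d → ℝ), Cusp s a m v (jb v) Kc ψ → ∀ w w', w ≠ v →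
      jb w ≤ D → jb w' ≤ D → |ψ w - ψ w'| ≤
      Kc * D * yv e β v * (len (w - w') ^ sP s a * (1 + len (w - v) ^ (a - sP s a))) := by
    intro e v ψ hψ w w' hwv hw hw'
    have hT : 0 ≤ len (w - w') ^ sP s a * (1 + len (w - v) ^ (a - sP s a)) :=
      mul_nonneg (Real.rpow_nonneg (len_nonneg _) _)
        (by linarith [Real.rpow_nonneg (len_nonneg (w - v)) (a - sP s a)])
    have h1 := hψ.h2 w w' hwv
    have h2 := wtd_om W hD1 e v ((jb_pos w).le.trans (le_max_left (jb w) (jb w'))) (max_le hw hw')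
    refine h1.trans ?_
    have h3 := mul_le_mul_of_nonneg_left (mul_le_mul_of_nonneg_right h2 hT) hKc
    refine h3.trans (le_of_eq ?_)
    ring
  have hS0 : ∀ (e : Fin d) (v w : Vec d), jb w ≤ D → |PhS e a v w| ≤ 2 * D ^ 4 * yv e β v := by
    intro e v w hw
    unfold PhS
    have hm0 : 0 ≤ min 1 (jb w / jb v) := le_min zero_le_one (div_nonneg (jb_pos w).le (jb_pos v).le)
    rw [abs_mul, abs_of_nonneg (pow_nonneg hm0 4)]
    exact (mul_le_mul_of_nonneg_left (phi_abs q2 e (v - w)) (pow_nonneg hm0 4)).trans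
      (wtd_base q2 hβ0 q4 hD1 e v hw (len_nonneg _) le_rfl)
  have hE0 : ∀ (e : Fin d) (v w : Vec d), jb w ≤ D → |PhE a v w| ≤ 2 * D ^ 4 * yv e β v := by
    intro e v w hw
    unfold PhE
    have hm0 : 0 ≤ min 1 (jb w / jb v) := le_min zero_le_one (div_nonneg (jb_pos w).le (jb_pos v).le)
    rw [abs_of_nonneg (mul_nonneg (pow_nonneg hm0 4) (Real.rpow_nonneg (len_nonneg _) _))]
    exact wtd_base q2 hβ0 q4 hD1 e v hw (len_nonneg _) le_rfl
  have hKA : 0 ≤ q.A' * Kg := mul_nonneg hA hKg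
  have hD4 : 0 ≤ q.K₀ * (2 * D ^ 4) := by positivity
  have hKD : 0 ≤ q.K₀ * (Kc * D) := by positivity
  refine ⟨2 * (q.K₀ * (2 * D ^ 4) + q.A' * Kg) + (q.K₀ * (Kc * D) + q.A' * Kg), by positivity,
    fun e v => ⟨?_, ?_⟩⟩
  · -- odd weight
    have hy := (yv_pos e β v).le
    have hgm : Measurable (PgB e a β q.R₀ v) :=
      ((PgB_PGW (d := d) q2 (by linarith) hβ0 (by linarith) hq.hR₀ e).cont.comp
        (continuous_const.prodMk continuous_id)).measurable
    have key := wtd_mul (s := s) (a := a) (R := q.R) (y := yv e β v)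
      (E₀ := q.K₀ * (2 * D ^ 4) + q.A' * Kg) (E₁ := q.K₀ * (Kc * D) + q.A' * Kg) hR hs0 hs1 hy
      (by positivity) (by positivity) v
      (G := fun w => q.K₀ * PhS e a v w + q.A' * PgB e a β q.R₀ v w)
      ((((HC e v).1.meas).const_mul _).add (hgm.const_mul _))
      (by
        intro w hw
        rw [← hD] at hw
        have h1 := hS0 e v w hw
        have h2 := (HG e v w w).1
        have h3 := abs_add_le (q.K₀ * PhS e a v w) (q.A' * PgB e a β q.R₀ v w)
        rw [abs_mul, abs_mul, abs_of_nonneg hK, abs_of_nonneg hA] at h3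
        refine h3.trans ((add_le_add (mul_le_mul_of_nonneg_left h1 hK)
          (mul_le_mul_of_nonneg_left h2 hA)).trans (le_of_eq ?_))
        ring)
      (by
        intro w w' hwv hl hw hw'
        rw [← hD] at hw hw'
        have h1 := hdiff e v _ (HC e v).1 w w' hwv hw hw'
        have h2 := (HG e v w w').2 hl
        have hl0 := len_nonneg (w - w')
        have h4 : len (w - w') ^ max a β ≤
            len (w - w') ^ sP s a * (1 + len (w - v) ^ (a - sP s a)) := by
          refine (Real.rpow_le_rpow_of_exponent_ge' hl0 hl hs0.le hsm).trans ?_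
          exact le_mul_of_one_le_right (Real.rpow_nonneg hl0 _)
            (by linarith [Real.rpow_nonneg (len_nonneg (w - v)) (a - sP s a)])
        have h5 := h2.trans (mul_le_mul_of_nonneg_left h4 (mul_nonneg hKg hy))
        have e1 : q.K₀ * PhS e a v w + q.A' * PgB e a β q.R₀ v w -
            (q.K₀ * PhS e a v w' + q.A' * PgB e a β q.R₀ v w') =
            q.K₀ * (PhS e a v w - PhS e a v w') +
              q.A' * (PgB e a β q.R₀ v w - PgB e a β q.R₀ v w') := by ring
        show |q.K₀ * PhS e a v w + q.A' * PgB e a β q.R₀ v w -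
            (q.K₀ * PhS e a v w' + q.A' * PgB e a β q.R₀ v w')| ≤ _
        rw [e1]
        have h3 := abs_add_le (q.K₀ * (PhS e a v w - PhS e a v w'))
          (q.A' * (PgB e a β q.R₀ v w - PgB e a β q.R₀ v w'))
        rw [abs_mul, abs_mul, abs_of_nonneg hK, abs_of_nonneg hA] at h3
        refine h3.trans ((add_le_add (mul_le_mul_of_nonneg_left h1 hK)
          (mul_le_mul_of_nonneg_left h5 hA)).trans (le_of_eq ?_))
        ring)
    have e2 : PsS e q v = fun w => chi q.R w * (q.K₀ * PhS e a v w + q.A' * PgB e a β q.R₀ v w) := by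
      funext w
      unfold PsS
      rw [ha, hβ]
    rw [e2]
    exact key
  · -- even weight
    have hy := (yv_pos e β v).le
    have key := wtd_mul (s := s) (a := a) (R := q.R) (y := yv e β v)
      (E₀ := q.K₀ * (2 * D ^ 4) + q.A' * Kg) (E₁ := q.K₀ * (Kc * D) + q.A' * Kg) hR hs0 hs1 hy
      (by positivity) (by positivity) v
      (G := fun w => q.K₀ * PhE a v w)
      (((HC e v).2.meas).const_mul _)
      (by
        intro w hw
        rw [← hD] at hw
        have h1 := hE0 e v w hw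
        rw [abs_mul, abs_of_nonneg hK]
        have h2 := mul_le_mul_of_nonneg_left h1 hK
        have h3 : 0 ≤ q.A' * Kg * yv e β v := mul_nonneg hKA hy
        refine h2.trans (le_of_sub_nonneg ?_)
        have e3 : (q.K₀ * (2 * D ^ 4) + q.A' * Kg) * yv e β v - q.K₀ * (2 * D ^ 4 * yv e β v) =
            q.A' * Kg * yv e β v := by ring
        rw [e3]
        exact h3)
      (by
        intro w w' hwv hl hw hw'
        rw [← hD] at hw hw'
        have h1 := hdiff e v _ (HC e v).2 w w' hwv hw hw'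
        have hT : 0 ≤ len (w - w') ^ sP s a * (1 + len (w - v) ^ (a - sP s a)) :=
          mul_nonneg (Real.rpow_nonneg (len_nonneg _) _)
            (by linarith [Real.rpow_nonneg (len_nonneg (w - v)) (a - sP s a)])
        show |q.K₀ * PhE a v w - q.K₀ * PhE a v w'| ≤ _
        rw [← mul_sub, abs_mul, abs_of_nonneg hK]
        have h2 := mul_le_mul_of_nonneg_left h1 hK
        have h3 : 0 ≤ q.A' * Kg * yv e β v *
            (len (w - w') ^ sP s a * (1 + len (w - v) ^ (a - sP s a))) := mul_nonneg (mul_nonneg hKA hy) hT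
        refine h2.trans (le_of_sub_nonneg ?_)
        have e3 : (q.K₀ * (Kc * D) + q.A' * Kg) * yv e β v *
            (len (w - w') ^ sP s a * (1 + len (w - v) ^ (a - sP s a))) -
            q.K₀ * (Kc * D * yv e β v * (len (w - w') ^ sP s a * (1 + len (w - v) ^ (a - sP s a)))) =
            q.A' * Kg * yv e β v *
            (len (w - w') ^ sP s a * (1 + len (w - v) ^ (a - sP s a))) := by ring
        rw [e3]
        exact h3)
    have e2 : (PsE q v : Vec d → ℝ) = fun w => chi q.R w * (q.K₀ * PhE a v w) := by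
      funext w
      unfold PsE
      rw [ha]
    rw [e2]
    exact key

end Pool.Agent.H48.PW
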