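import Pool.Agent.H48.PW.Blk
import Pool.Agent.H48.PW.EWDer
import Pool.Agent.H48.PW.WtD
import Pool.Agent.H48.PW.XTc
import Pool.Agent.H48.PI.ErrI

/-!
# Module ErrW: lower bound for the derivative of the weight

Compare PI/ErrI.lean (same structure). Fix `t ∈ [t₀,t₁]`, `v`. `sol_unice` on `[t₀,t₁]` gives `Cl` with `UNice Cl (f t x)`. `Q t x = boltzQ (1+a) b (f t x)`.
* `Ph_cusp`: constant `A₁`; `err_cusp HL W A₁` gives `Kh`, for `R₁` the constant `K1`, with `ψ = PhS e a v`, `PhE a v`, `v₀ = v`, `V₁ = jb v`: `|∫ Q ψ| ≤ K1/ε Dn + ε K1 om m (jb v) R₁ XT 1 + Kh XT (max (jb v) R₁) + η'`, and `om m (jb v) R₁ ≤ R₁ yv e β v`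
  (`min(1,R₁/jb v)^(4-m) ≤ (R₁/jb v)^β ≤ R₁ jb v^(-β)`, `yv_ge`).
* `Ps_cusp`: `PsS`, `PsE` with `A = K yv e β v ≤ 2K` (`yv_le`): `err_renc`: `≤ K yv ((1/ε+K') Dn + ε K' XT 1) + η'`; `yv Dn ≤ 2 Dn + 2η'` since `Dn ≥ -η'` (`Dn_low`).
* `μ x = ` the sum of the right sides is a `PlF` function of `x` (`Dn_cont`, `XT_pl`; as in ErrI). `EW_der` with this `μ`; `(1/2 + M₁) ∫ μ dμ ≤ Cε ∫x Dn + ε Cy yv Zw 1 + K₁ Zw (max (jb v) R₁) + η`, `K₁ = (1/2+M₁) 2 K₀ Kh` does not depend on `q`, `R₁`.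
-/

set_option autoImplicit false

open MeasureTheory Set Filter Topology Pool.Agent.H25.Kin Pool.Agent.H82.BK Pool.Agent.H82.CM
open Pool.Agent.H48.PL Pool.Agent.H48.PI
open Pool.Agent.H15.AV (UNice gau)

namespace Pool.Agent.H48.PW

variable {d : ℕ} {s a β m C Ca cb : ℝ} {b : ℝ → ℝ}

private lemma ew_om (W : WP s a β m) (e : Fin d) {R₁ : ℝ} (hR₁ : 1 ≤ R₁) (v : Vec d) :
    om m (jb v) R₁ ≤ R₁ * yv e β v := by
  have hβ : 0 < β := by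
    have e1 := W.hβ
    have e2 := W.hs
    linarith
  have hβ1 : β < 1 := by
    have e1 := W.haβ
    have e2 := W.ha
    linarith
  have hj := one_le_jb v
  have hj0 : 0 < jb v := by linarith
  have hR0 : 0 < R₁ := by linarith
  have hu0 : 0 < R₁ / jb v := div_pos hR0 hj0
  have hm0 : 0 < min 1 (R₁ / jb v) := lt_min one_pos hu0
  have hm1 : min 1 (R₁ / jb v) ≤ 1 := min_le_left _ _
  have hm2 := W.hm
  calc om m (jb v) R₁ = min 1 (R₁ / jb v) ^ (4 - m) := rfl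
    _ ≤ min 1 (R₁ / jb v) ^ β := Real.rpow_le_rpow_of_exponent_ge hm0 hm1 (by linarith)
    _ ≤ (R₁ / jb v) ^ β := Real.rpow_le_rpow hm0.le (min_le_right _ _) hβ.le
    _ = R₁ ^ β * jb v ^ (-β) := by
        rw [Real.div_rpow hR0.le hj0.le, Real.rpow_neg hj0.le, div_eq_mul_inv]
    _ ≤ R₁ * yv e β v := by
        have e1 : R₁ ^ β ≤ R₁ := by
          have := Real.rpow_le_rpow_of_exponent_le hR₁ hβ1.le
          rwa [Real.rpow_one] at this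
        have e2 := yv_ge hβ e v
        have e3 : 0 ≤ jb v ^ (-β) := Real.rpow_nonneg hj0.le _
        exact mul_le_mul e1 e2 e3 hR0.le

private lemma ew_dn_pl (HL : HypL d (1 + a) s b C Ca cb) {T : ℝ} {f : ℝ → Vec d → Vec d → ℝ}
    (hf : IsBoltzmannSol (1 + a) b T f) {e : Fin d} (hpl : Planar e T f) {δ : ℝ} (hδ : 0 < δ) {t : ℝ}
    (ht : t ∈ Ioo 0 T) : PlF e (fun y => Dn (1 + a) b δ (f t y)) := by
  have ht' : t ∈ Ico 0 T := ⟨ht.1.le, ht.2⟩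
  refine ⟨?_, fun x i => ?_, fun x y h => ?_⟩
  · have h1 : Continuous fun y : Vec d => (t, y) := by fun_prop
    have h2 := (Dn_cont HL hf hδ).1
    have h3 := h2.comp_continuous h1 fun y => Set.mk_mem_prod ht (mem_univ y)
    exact h3
  · have h1 : f t (x + Pi.single i 1) = f t x := by
      funext v
      exact hf.periodic t ht' x v i
    show Dn (1 + a) b δ (f t (x + Pi.single i 1)) = Dn (1 + a) b δ (f t x)
    rw [h1]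
  · have h1 : f t x = f t y := by
      funext v
      exact hpl t ht' x y v h
    show Dn (1 + a) b δ (f t x) = Dn (1 + a) b δ (f t y)
    rw [h1]

private lemma ew_lin {e : Fin d} {A B D : Vec d → ℝ} (hA : PlF e A) (hB : PlF e B) (hD : PlF e D)
    (c₁ c₂ c₃ c₄ : ℝ) : PlF e (fun y => c₁ * A y + (c₂ * B y + (c₃ * D y + c₄))) ∧
      ∫ y, (c₁ * A y + (c₂ * B y + (c₃ * D y + c₄))) ∂(muD d) =
        c₁ * (∫ y, A y ∂(muD d)) + (c₂ * (∫ y, B y ∂(muD d)) + (c₃ * (∫ y, D y ∂(muD d)) + c₄)) := by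
  have iA := (pl_int hA).const_mul c₁
  have iB := (pl_int hB).const_mul c₂
  have iD := (pl_int hD).const_mul c₃
  have i4 : Integrable (fun _ : Vec d => c₄) (muD d) := integrable_const c₄
  have iDs : Integrable (fun y => c₃ * D y + c₄) (muD d) := iD.add i4
  have iBs : Integrable (fun y => c₂ * B y + (c₃ * D y + c₄)) (muD d) := iB.add iDs
  refine ⟨⟨?_, fun x i => ?_, fun x y h => ?_⟩, ?_⟩
  · exact (continuous_const.mul hA.cont).add ((continuous_const.mul hB.cont).add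
      ((continuous_const.mul hD.cont).add continuous_const))
  · simp only [hA.per, hB.per, hD.per]
  · simp only [hA.pl x y h, hB.pl x y h, hD.pl x y h]
  · rw [integral_add iA iBs, integral_add iB iDs, integral_add iD i4,
      integral_const_mul, integral_const_mul, integral_const_mul, integral_const]
    have h1 : (muD d).real univ = 1 := by
      rw [Measure.real, muD_univ]
      rfl
    rw [h1, one_smul]

private lemma ew_alg {ε K₀ K1 Kh Kp K' R₁ y D X Z o η₁ a₁ a₂ b₁ b₂ : ℝ} (hK₀ : 0 ≤ K₀) (hK1 : 0 ≤ K1)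
    (hKp : 0 ≤ Kp) (hK' : 0 ≤ K') (hε : 0 < ε) (hX : 0 ≤ X) (hy : 0 ≤ y) (hy2 : y ≤ 2)
    (ho : o ≤ R₁ * y) (hη : 0 ≤ η₁) (hD : -η₁ ≤ D)
    (hA1 : a₁ ≤ K1 / ε * D + ε * K1 * o * X + Kh * Z + η₁)
    (hA2 : a₂ ≤ K1 / ε * D + ε * K1 * o * X + Kh * Z + η₁)
    (hB1 : b₁ ≤ Kp * y * ((1 / ε + K') * D + ε * K' * X) + η₁)
    (hB2 : b₂ ≤ Kp * y * ((1 / ε + K') * D + ε * K' * X) + η₁) :
    K₀ * a₁ + b₁ + (K₀ * a₂ + b₂) ≤
      2 * (K₀ * (K1 / ε) + 2 * (Kp * (1 / ε + K'))) * D +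
      (2 * ε * (K₀ * K1 * R₁ + Kp * K') * y * X +
      (2 * (K₀ * Kh) * Z + 2 * ((K₀ + 1 + 2 * (Kp * (1 / ε + K'))) * η₁))) := by
  have e1 : ε * K1 * o * X ≤ ε * K1 * (R₁ * y) * X := by
    refine mul_le_mul_of_nonneg_right (mul_le_mul_of_nonneg_left ho ?_) hX
    positivity
  have e2 : y * D ≤ 2 * D + 2 * η₁ := by
    have f1 : 0 ≤ D + η₁ := by linarith
    have f2 := mul_le_mul_of_nonneg_right hy2 f1
    have f3 : 0 ≤ y * η₁ := mul_nonneg hy hη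
    linarith
  have hc : 0 ≤ Kp * (1 / ε + K') := by positivity
  have e3 := mul_le_mul_of_nonneg_left e2 hc
  have A1 := mul_le_mul_of_nonneg_left hA1 hK₀
  have A2 := mul_le_mul_of_nonneg_left hA2 hK₀
  have e4 := mul_le_mul_of_nonneg_left e1 hK₀
  linarith [A1, A2, e3, e4, hB1, hB2]

theorem dEW_low (HL : HypL d (1 + a) s b C Ca cb) (W : WP s a β m) {K₀ M₁ : ℝ} (hK₀ : 0 ≤ K₀)
    (hM₁ : 0 ≤ M₁) :
    ∃ K₁ : ℝ, 0 ≤ K₁ ∧ ∀ q : Pm, q.Ok → q.a = a → q.β = β → q.K₀ = K₀ → q.M₁ = M₁ → ∀ R₁ : ℝ, 1 ≤ R₁ →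
    ∃ Cy : ℝ, 0 ≤ Cy ∧ ∀ ε : ℝ, 0 < ε → ε ≤ 1 → ∃ Cε : ℝ, 0 ≤ Cε ∧
    ∀ (e : Fin d) (T : ℝ) (f : ℝ → Vec d → Vec d → ℝ),
      IsBoltzmannSol (1 + a) b T f → Planar e T f → ∀ t₀ t₁ : ℝ, 0 < t₀ → t₀ ≤ t₁ → t₁ < T → ∀ η > 0,
      ∃ δ₀ > 0, ∀ δ ∈ Ioc (0 : ℝ) δ₀, ∀ t ∈ Icc t₀ t₁, ∀ x v : Vec d,
      (K₀ * ∫ w, (v e - w e) * PhS e a v w * (f t x w - gw q (f t) x w)) -
        q.A' * (∫ w, (v e - w e) * PgB e a β q.R₀ v w * gw q (f t) x w) - K₀ * av2w q e (f t) v +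
        q.A' * av1w q e (f t) v -
        (Cε * (∫ y, Dn (1 + a) b δ (f t y) ∂(muD d)) + ε * Cy * yv e β v * Zw a m f t 1 +
          K₁ * Zw a m f t (max (jb v) R₁) + η) ≤
        dEW q e (f t) (fun y => boltzQ (1 + a) b (f t y)) x v := by
  have hs := W.hs
  have ha := W.ha
  have hβs := W.hβ
  have hβ0 : 0 < β := by linarith
  have haβ := W.haβ
  have hβ1 : β ≤ 1 := by linarith
  have ha1 : a ≤ 1 := by linarith
  have hm0 : 0 ≤ m := hβ0.le.trans W.hβm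
  have hm1 : m ≤ 1 := W.hm.le
  obtain ⟨A₁, hA₁, hCu⟩ := Ph_cusp (d := d) W
  obtain ⟨Kh, hKh, hErr⟩ := err_cusp HL W A₁ hA₁
  obtain ⟨K', hK', hRen⟩ := err_renc HL W
  have hM' : 0 < 1 / 2 + M₁ := by linarith
  refine ⟨(1 / 2 + M₁) * (2 * (K₀ * Kh)), by positivity, fun q hq hqa hqβ hqK hqM R₁ hR₁ => ?_⟩
  obtain ⟨Kp, hKp, hPs⟩ := Ps_cusp (d := d) W hq hqa hqβ
  subst hqa hqβ hqK hqM
  obtain ⟨K1, hK1, hErr'⟩ := hErr R₁ hR₁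
  have hR₁0 : 0 < R₁ := by linarith
  refine ⟨(1 / 2 + q.M₁) * (2 * (q.K₀ * K1 * R₁ + Kp * K')), by positivity, fun ε hε hε1 => ?_⟩
  have hεi : 0 ≤ 1 / ε := by positivity
  have hεi' : 0 ≤ K1 / ε := by positivity
  refine ⟨(1 / 2 + q.M₁) * (2 * (q.K₀ * (K1 / ε) + 2 * (Kp * (1 / ε + K')))), by positivity, ?_⟩
  intro e T f hf hpl t₀ t₁ ht₀ ht₀₁ ht₁ η hη
  obtain ⟨Cl, hCl⟩ := Pool.Agent.H15.AV.sol_unice hf ht₀ ht₁
  set D : ℝ := q.K₀ + 1 + 2 * (Kp * (1 / ε + K')) with hD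
  have hD0 : 0 < D := by positivity
  set D' : ℝ := (1 / 2 + q.M₁) * (2 * D) with hD'
  have hD'0 : 0 < D' := by positivity
  set η₁ : ℝ := η / D' with hη₁def
  have hη₁ : 0 < η₁ := div_pos hη hD'0
  have hηD : D' * η₁ = η := by
    rw [hη₁def]
    field_simp
  obtain ⟨δ₁, hδ₁, H1⟩ := hErr' ε hε hε1 Cl η₁ hη₁
  obtain ⟨δ₂, hδ₂, H2⟩ := hRen ε hε hε1 (2 * Kp) q.C₀ Cl hq.hC η₁ hη₁
  obtain ⟨δ₃, hδ₃, H3⟩ := Dn_low HL Cl hη₁
  refine ⟨min δ₁ (min δ₂ δ₃), lt_min hδ₁ (lt_min hδ₂ hδ₃), fun δ hδ t ht x v => ?_⟩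
  have hδ1 : δ ∈ Ioc (0 : ℝ) δ₁ := ⟨hδ.1, hδ.2.trans (min_le_left _ _)⟩
  have hδ2 : δ ∈ Ioc (0 : ℝ) δ₂ := ⟨hδ.1, hδ.2.trans ((min_le_right _ _).trans (min_le_left _ _))⟩
  have hδ3 : δ ∈ Ioc (0 : ℝ) δ₃ := ⟨hδ.1, hδ.2.trans ((min_le_right _ _).trans (min_le_right _ _))⟩
  have htt : t ∈ Ioo 0 T := ⟨ht₀.trans_le ht.1, ht.2.trans_lt ht₁⟩
  have htt' : t ∈ Ico 0 T := ⟨htt.1.le, htt.2⟩
  have hfs := fs_of hf hpl htt
  have hbs := bet_fs hq.hC hf hpl htt hfs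
  have hjb := one_le_jb v
  have hV : 0 < max (jb v) R₁ := lt_of_lt_of_le hR₁0 (le_max_right _ _)
  have hX1 := XT_pl ha.le ha1 hm0 hm1 hf hpl htt' one_pos
  have hXV := XT_pl ha.le ha1 hm0 hm1 hf hpl htt' hV
  have hDn := ew_dn_pl HL hf hpl hδ.1 htt
  have hy0 : 0 ≤ yv e q.β v := (yv_pos e q.β v).le
  have hy2 : yv e q.β v ≤ 2 := yv_le hβ0 hβ1 e v
  obtain ⟨hmu, hmi⟩ := ew_lin hDn hX1 hXV (2 * (q.K₀ * (K1 / ε) + 2 * (Kp * (1 / ε + K'))))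
    (2 * ε * (q.K₀ * K1 * R₁ + Kp * K') * yv e q.β v) (2 * (q.K₀ * Kh)) (2 * (D * η₁))
  have herr : ∀ y, q.K₀ * |∫ w, PhS e q.a v w * boltzQ (1 + q.a) b (f t y) w| +
      |∫ w, PsS e q v w * (bet' q.C₀ (f t y w) * boltzQ (1 + q.a) b (f t y) w)| +
      (q.K₀ * |∫ w, PhE q.a v w * boltzQ (1 + q.a) b (f t y) w| +
      |∫ w, PsE q v w * (bet' q.C₀ (f t y w) * boltzQ (1 + q.a) b (f t y) w)|) ≤
      2 * (q.K₀ * (K1 / ε) + 2 * (Kp * (1 / ε + K'))) * Dn (1 + q.a) b δ (f t y) +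
      (2 * ε * (q.K₀ * K1 * R₁ + Kp * K') * yv e q.β v * XT q.a m 1 (f t y) +
      (2 * (q.K₀ * Kh) * XT q.a m (max (jb v) R₁) (f t y) + 2 * (D * η₁))) := by
    intro y
    have hu := hCl t ht y
    have hX0 : 0 ≤ XT q.a m 1 (f t y) := XT_nonneg one_pos fun w => hf.nonneg t htt' y w
    have hD3 := H3 δ hδ3 (f t y) hu
    have hcm : ∀ ψ : Vec d → ℝ, ∫ w, ψ w * boltzQ (1 + q.a) b (f t y) w =
        ∫ w, boltzQ (1 + q.a) b (f t y) w * ψ w := fun ψ =>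
      integral_congr_ae (Eventually.of_forall fun w => mul_comm _ _)
    have hcm' : ∀ ψ : Vec d → ℝ, ∫ w, ψ w * (bet' q.C₀ (f t y w) * boltzQ (1 + q.a) b (f t y) w) =
        ∫ w, bet' q.C₀ (f t y w) * boltzQ (1 + q.a) b (f t y) w * ψ w := fun ψ =>
      integral_congr_ae (Eventually.of_forall fun w => mul_comm _ _)
    have A1 := H1 δ hδ1 (f t y) hu v (jb v) hjb (PhS e q.a v) (hCu e v).1
    have A2 := H1 δ hδ1 (f t y) hu v (jb v) hjb (PhE q.a v) (hCu e v).2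
    have hA0 : 0 ≤ Kp * yv e q.β v := mul_nonneg hKp hy0
    have hA2 : Kp * yv e q.β v ≤ 2 * Kp := by
      rw [mul_comm 2 Kp]
      exact mul_le_mul_of_nonneg_left hy2 hKp
    have B1 := H2 δ hδ2 (f t y) hu v (Kp * yv e q.β v) hA0 hA2 (PsS e q v) (hPs e v).1
    have B2 := H2 δ hδ2 (f t y) hu v (Kp * yv e q.β v) hA0 hA2 (PsE q v) (hPs e v).2
    rw [← hcm] at A1 A2
    rw [← hcm'] at B1 B2
    exact ew_alg hK₀ hK1 hKp hK' hε hX0 hy0 hy2 (ew_om W e hR₁ v) hη₁.le hD3 A1 A2 B1 B2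
  have hfinal := EW_der hq hfs hbs hmu v herr x
  rw [hmi] at hfinal
  refine le_trans ?_ hfinal
  have hη' : (1 / 2 + q.M₁) * (2 * (D * η₁)) = η := by
    rw [← hηD, hD']
    ring
  unfold Zw
  have hid : (1 / 2 + q.M₁) * (2 * (q.K₀ * (K1 / ε) + 2 * (Kp * (1 / ε + K'))) *
        (∫ y, Dn (1 + q.a) b δ (f t y) ∂(muD d)) +
      (2 * ε * (q.K₀ * K1 * R₁ + Kp * K') * yv e q.β v * (∫ y, XT q.a m 1 (f t y) ∂(muD d)) +
      (2 * (q.K₀ * Kh) * (∫ y, XT q.a m (max (jb v) R₁) (f t y) ∂(muD d)) + 2 * (D * η₁)))) =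
      (1 / 2 + q.M₁) * (2 * (q.K₀ * (K1 / ε) + 2 * (Kp * (1 / ε + K')))) *
        (∫ y, Dn (1 + q.a) b δ (f t y) ∂(muD d)) +
      ε * ((1 / 2 + q.M₁) * (2 * (q.K₀ * K1 * R₁ + Kp * K'))) * yv e q.β v *
        (∫ y, XT q.a m 1 (f t y) ∂(muD d)) +
      (1 / 2 + q.M₁) * (2 * (q.K₀ * Kh)) * (∫ y, XT q.a m (max (jb v) R₁) (f t y) ∂(muD d)) + η := by
    rw [← hη']
    ring
  rw [hid]

end Pool.Agent.H48.PW
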