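import Pool.Agent.H48.PW.WinC
import Pool.Agent.H48.PW.AvIW
import Pool.Agent.H48.PW.ErrW
import Pool.Agent.H48.PI.Win
import Pool.Agent.H48.PI.BadW

/-!
# Module AnyW: growth by a constant factor on any window, `t₀ > 0`

As WinW / PI/Win.lean but simpler: no time weight. `K₀, M₁, κ, δ` from `win_core`; `q, N₁` from `win_core` with `A' = 0`, `R₀ = R' = C' = ε' = 1`. `K₁, Cy (R₁ = 1), Cε (ε = 1)` from `dEW_low`. `g t = f (t₀ + t)` on `[0, min 1 (T-t₀))` (`boltz_shift`, `sol_restrict`).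
`E t x v = EW q e (g t) x v`, `DE = dEW ..`. At a touching point of height `≥ 3 N₁` (`high_E`): `Q ≤ g K₀ ∫ V PhS (g - gw) ≤ g [dEW + K₀ av2w + Cε D + (2 Cy + K₁) Zw 1 + η]` (`yv_le`, `Zw_anti`: `max (jb v) 1 ≥ 1`), `K₀ av2w ≤ 4 K₀` (`av2w_up`, `ε' = 1`).
`m t = 4 K₀ + Cε (D t + η) + (2Cy+K₁) Zw a m g t 1 + η ≥ 0`, `η = 1`; continuous on `(0, ..)`, and `∫_0^t m ≤ 4K₀ + Cε (drop + 2) + (2Cy+K₁) K_T (2 + drop) + 1 ≤ L` (`drop_lim`, `TailT` with `V = 1`; `drop = Hs(f t₀) - Hs(f(t₀+t)) ≤ M + C₁` by `Hs_low`). `max_high` with `A₀ = e A + 3 N₁`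
(`f t₀ W exp(-E) ≤ e A`): `f W ≤ e (e A + 3N₁) exp L ≤ K'(A+1)`. If `T - t₀ ≤ 1` use `t < T - t₀`; the value at `t = t₀ + 1` by continuity of `f` and `EW` (or apply the maximum principle on `[0, t')` for `t'` slightly larger than `t - t₀`, `t' < T - t₀`, with the window bounds for length `≤ 2`; simplest: restrict to `[0,T'')`,
`t - t₀ < T'' < min 2 (T - t₀)`, and take the constant for length 2).
-/

set_option autoImplicit false

open MeasureTheory Set Filter Topology Pool.Agent.H25.Kin Pool.Agent.H82.BK Pool.Agent.H82.CM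
open Pool.Agent.H48.PL Pool.Agent.H48.PI

namespace Pool.Agent.H48.PW

variable {d : ℕ} {s a β m C Ca cb : ℝ} {b : ℝ → ℝ}

/-- the average of the entropy production is at least `-η` -/
private lemma anyw_avg (HL : HypL d (1 + a) s b C Ca cb) {T : ℝ} {f : ℝ → Vec d → Vec d → ℝ}
    (hf : IsBoltzmannSol (1 + a) b T f) {δ : ℝ} (hδ : 0 < δ) {t : ℝ} (ht : t ∈ Ioo 0 T) {η : ℝ}
    (h : ∀ y, -η ≤ Dn (1 + a) b δ (f t y)) : -η ≤ ∫ y, Dn (1 + a) b δ (f t y) ∂(muD d) := by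
  have h1 : Continuous fun y : Vec d => (t, y) := by fun_prop
  have h2 : Continuous ((fun q : ℝ × Vec d => Dn (1 + a) b δ (f q.1 q.2)) ∘ fun y : Vec d => (t, y)) :=
    ContinuousOn.comp_continuous (Dn_cont HL hf hδ).1 h1 fun y => ⟨ht, mem_univ _⟩
  have h2' : Continuous fun y : Vec d => Dn (1 + a) b δ (f t y) := h2
  have h3 : Integrable (fun y : Vec d => Dn (1 + a) b δ (f t y)) (muD d) := by
    unfold muD
    exact h2'.continuousOn.integrableOn_compact isCompact_Icc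
  have h4 := integral_mono (integrable_const (-η)) h3 h
  have h5 : (muD d).real univ = 1 := by
    rw [Measure.real, muD_univ]
    rfl
  rw [integral_const, h5, one_smul] at h4
  exact h4

/-- the error function of the window -/
private noncomputable def anyM (d : ℕ) (a m : ℝ) (b : ℝ → ℝ) (δ Ce Cz K₂ t₀ : ℝ) (f : ℝ → Vec d → Vec d → ℝ)
    (t : ℝ) : ℝ :=
  Ce * ((∫ x, Dn (1 + a) b δ (f (t₀ + t) x) ∂(muD d)) + 1) + Cz * Zw a m f (t₀ + t) 1 + K₂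

/-- its integral over a part of the window -/
private lemma anyw_m (HL : HypL d (1 + a) s b C Ca cb) (W : WP s a β m) {T : ℝ}
    {f : ℝ → Vec d → Vec d → ℝ} (hf : IsBoltzmannSol (1 + a) b T f) {δ : ℝ} (hδ : 0 < δ) {t₀ S : ℝ}
    (h0 : 0 < t₀) (hS : 0 < S) (hS2 : S ≤ 2) (h1 : t₀ + S < T) {Ce Cz K₂ D₁ Z₁ : ℝ} (hCe : 0 ≤ Ce)
    (hCz : 0 ≤ Cz) (hK₂ : 0 ≤ K₂) (h : ∀ t ∈ Icc t₀ (t₀ + S), ∀ y, -1 ≤ Dn (1 + a) b δ (f t y))
    (hD : ∫ τ in t₀..(t₀ + S), (∫ x, Dn (1 + a) b δ (f τ x) ∂(muD d)) ≤ D₁)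
    (hZ : ∫ τ in t₀..(t₀ + S), Zw a m f τ 1 ≤ Z₁) :
    IntegrableOn (anyM d a m b δ Ce Cz K₂ t₀ f) (Ioo 0 S) ∧
    (∀ t ∈ Ioo (0 : ℝ) S, 0 ≤ anyM d a m b δ Ce Cz K₂ t₀ f t) ∧
    ∀ t ∈ Ico (0 : ℝ) S, ∫ r in Ioc 0 t, anyM d a m b δ Ce Cz K₂ t₀ f r ≤
      Ce * (D₁ + 2) + Cz * Z₁ + 2 * K₂ := by
  have ha0 := W.ha
  have ha1 : a ≤ 1 := by linarith [W.haβ, W.hβ, W.hs]
  have hm0 : 0 ≤ m := by linarith [W.ham]
  have hm1 : m ≤ 1 := W.hm.le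
  have hfc : IsClassicalSol T (fun t x => boltzQ (1 + a) b (f t x)) f := hf
  have hcD : ContinuousOn (fun t : ℝ => ∫ x, Dn (1 + a) b δ (f (t₀ + t) x) ∂(muD d)) (Icc 0 S) := by
    have h2 := (Dn_cont HL hf hδ).2
    exact h2.comp (f := fun t : ℝ => t₀ + t) (by fun_prop) fun t ht => ⟨by linarith [ht.1], by linarith [ht.2]⟩
  have hcZ : ContinuousOn (fun t : ℝ => Zw a m f (t₀ + t) 1) (Icc 0 S) := by
    have h2 := Zw_cont ha0.le ha1 hm0 hm1 hfc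
    exact h2.comp (f := fun t : ℝ => (t₀ + t, (1 : ℝ))) (by fun_prop) fun t ht =>
      ⟨⟨by linarith [ht.1], by linarith [ht.2]⟩, zero_lt_one' ℝ⟩
  have hcm : ContinuousOn (anyM d a m b δ Ce Cz K₂ t₀ f) (Icc 0 S) := by
    unfold anyM
    exact (((hcD.add continuousOn_const).const_smul Ce).add (hcZ.const_smul Cz)).add continuousOn_const
  have hint : IntegrableOn (anyM d a m b δ Ce Cz K₂ t₀ f) (Icc 0 S) := hcm.integrableOn_compact isCompact_Icc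
  have hnn : ∀ t ∈ Icc (0 : ℝ) S, 0 ≤ anyM d a m b δ Ce Cz K₂ t₀ f t := by
    intro t ht
    have h3 := anyw_avg HL hf hδ (t := t₀ + t) ⟨by linarith [ht.1], by linarith [ht.2]⟩
      (h (t₀ + t) ⟨by linarith [ht.1], by linarith [ht.2]⟩)
    have h4 : 0 ≤ (∫ x, Dn (1 + a) b δ (f (t₀ + t) x) ∂(muD d)) + 1 := by linarith
    have h5 : 0 ≤ Zw a m f (t₀ + t) 1 :=
      Zw_nonneg hfc (t := t₀ + t) ⟨by linarith [ht.1], by linarith [ht.2]⟩ one_pos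
    have h6 := mul_nonneg hCe h4
    have h7 := mul_nonneg hCz h5
    unfold anyM
    linarith
  refine ⟨hint.mono_set Ioo_subset_Icc_self, fun t ht => hnn t (Ioo_subset_Icc_self ht), fun t ht => ?_⟩
  have e1 : ∫ r in Ioc 0 t, anyM d a m b δ Ce Cz K₂ t₀ f r ≤
      ∫ r in Ioc 0 S, anyM d a m b δ Ce Cz K₂ t₀ f r := by
    refine setIntegral_mono_set (hint.mono_set Ioc_subset_Icc_self) ?_ ?_
    · refine (ae_restrict_iff' measurableSet_Ioc).2 (Eventually.of_forall fun r hr => ?_)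
      exact hnn r (Ioc_subset_Icc_self hr)
    · exact (Ioc_subset_Ioc_right ht.2.le).eventuallyLE
  have hDi : IntervalIntegrable (fun t : ℝ => ∫ x, Dn (1 + a) b δ (f (t₀ + t) x) ∂(muD d)) volume 0 S := by
    refine ContinuousOn.intervalIntegrable ?_
    rw [uIcc_of_le hS.le]
    exact hcD
  have hZi : IntervalIntegrable (fun t : ℝ => Zw a m f (t₀ + t) 1) volume 0 S := by
    refine ContinuousOn.intervalIntegrable ?_
    rw [uIcc_of_le hS.le]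
    exact hcZ
  have e2 : ∫ r in Ioc 0 S, anyM d a m b δ Ce Cz K₂ t₀ f r =
      Ce * ((∫ r in (0 : ℝ)..S, (∫ x, Dn (1 + a) b δ (f (t₀ + r) x) ∂(muD d))) + S) +
        Cz * (∫ r in (0 : ℝ)..S, Zw a m f (t₀ + r) 1) + K₂ * S := by
    rw [← intervalIntegral.integral_of_le hS.le]
    unfold anyM
    rw [intervalIntegral.integral_add (((hDi.add intervalIntegrable_const).const_mul Ce).add (hZi.const_mul Cz))
      intervalIntegrable_const, intervalIntegral.integral_add ((hDi.add intervalIntegrable_const).const_mul Ce)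
      (hZi.const_mul Cz), intervalIntegral.integral_const_mul, intervalIntegral.integral_const_mul,
      intervalIntegral.integral_add hDi intervalIntegrable_const]
    simp only [intervalIntegral.integral_const, sub_zero, smul_eq_mul, mul_one]
    ring
  have e3 : ∫ r in (0 : ℝ)..S, (∫ x, Dn (1 + a) b δ (f (t₀ + r) x) ∂(muD d)) =
      ∫ τ in t₀..(t₀ + S), (∫ x, Dn (1 + a) b δ (f τ x) ∂(muD d)) := by
    have h5 := intervalIntegral.integral_comp_add_left (a := (0 : ℝ)) (b := S)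
      (fun τ : ℝ => ∫ x, Dn (1 + a) b δ (f τ x) ∂(muD d)) t₀
    rw [add_zero] at h5
    exact h5
  have e4 : ∫ r in (0 : ℝ)..S, Zw a m f (t₀ + r) 1 = ∫ τ in t₀..(t₀ + S), Zw a m f τ 1 := by
    have h5 := intervalIntegral.integral_comp_add_left (a := (0 : ℝ)) (b := S)
      (fun τ : ℝ => Zw a m f τ 1) t₀
    rw [add_zero] at h5
    exact h5
  rw [e2, e3, e4] at e1
  refine e1.trans ?_
  have h7 : (∫ τ in t₀..(t₀ + S), (∫ x, Dn (1 + a) b δ (f τ x) ∂(muD d))) + S ≤ D₁ + 2 := by linarith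
  have h8 := mul_le_mul_of_nonneg_left h7 hCe
  have h9 := mul_le_mul_of_nonneg_left hZ hCz
  have h10 := mul_le_mul_of_nonneg_left hS2 hK₂
  linarith

private lemma anyw_exp {x : ℝ} (h : x ≤ 1) : Real.exp x ≤ 3 := by
  have h1 := Real.exp_le_exp.2 h
  have h2 := Real.exp_one_lt_d9
  linarith

theorem any_windowW (HL : HypL d (1 + a) s b C Ca cb) (W : WP s a β m) (hd : 3 ≤ d ∨ β ≤ a)
    (hT : TailT d a β m b) (e : Fin d) {M : ℝ} (hM : 0 ≤ M) {p : ℕ}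
    (hp : (d : ℝ) + (1 + a) + 4 ≤ 2 * p) :
    ∃ K' : ℝ, 1 ≤ K' ∧ ∀ (T : ℝ) (f : ℝ → Vec d → Vec d → ℝ), IsBoltzmannSol (1 + a) b T f →
      Planar e T f → GB M (f 0) → ∀ t₀ t : ℝ, 0 < t₀ → t₀ ≤ t → t ≤ t₀ + 1 → t < T → ∀ A : ℝ, 0 ≤ A →
      (∀ x v, f t₀ x v * (1 + nsq v) ^ p ≤ A) → ∀ x v, f t x v * (1 + nsq v) ^ p ≤ K' * (A + 1) := by
  have ha0 := W.ha
  have hβ0 : 0 < β := by linarith [W.hβ, W.hs]
  have hβ1 : β ≤ 1 := by linarith [W.haβ]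
  have ha1 : a ≤ 1 := by linarith [W.haβ]
  have hm0 : 0 ≤ m := by linarith [W.ham]
  have hm1 : m ≤ 1 := W.hm.le
  obtain ⟨K₀, M₁, κ, δ, hK₀, hM₁, hκ, hδ, hδ4, hcore⟩ := win_core HL W hd hp e hM
  obtain ⟨q, N₁, hq, hqa, hqβ, hqK, hqM, hqA, hqR, -, -, hN₁, hsl, hop⟩ :=
    hcore 0 1 1 1 1 le_rfl le_rfl (by linarith) (by linarith) one_pos
  obtain ⟨K₁, hK₁, hdE1⟩ := dEW_low HL W hK₀ hM₁
  obtain ⟨Cy, hCy, hdE2⟩ := hdE1 q hq hqa hqβ hqK hqM 1 le_rfl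
  obtain ⟨Ce, hCe, hdE⟩ := hdE2 1 one_pos le_rfl
  obtain ⟨r, KT, hr, hKT, hTT⟩ := hT e M
  obtain ⟨C₁, hC₁, hHs⟩ := Hs_low HL M
  obtain ⟨L, hL⟩ : ∃ L : ℝ, L = Ce * ((M + C₁ + 1) + 2) + (2 * Cy + K₁) * (KT * (3 + (M + C₁))) +
    2 * (4 * K₀ + 1) := ⟨_, rfl⟩
  have hCz : 0 ≤ 2 * Cy + K₁ := by linarith
  refine ⟨max 1 (9 * (1 + N₁) * Real.exp L), le_max_left _ _, ?_⟩
  intro T f hf hpl hG0 t₀ t ht₀ htt ht1 htT A hA0 hA x v
  have hfc : IsClassicalSol T (fun t x => boltzQ (1 + a) b (f t x)) f := hf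
  have hgb : ∀ τ ∈ Ico 0 T, GB M (f τ) := fun τ hτ => glob_bounds HL.H hf hG0 hτ
  have hfs : ∀ τ ∈ Ioo 0 T, FS e (f τ) (fun x => boltzQ (1 + a) b (f τ x)) := fun τ hτ =>
    fs_of hf hpl hτ
  -- the length of the window
  obtain ⟨S, hS0, htS, hS2, hST⟩ : ∃ S : ℝ, 0 < S ∧ t - t₀ < S ∧ S ≤ 2 ∧ t₀ + S < T := by
    have h1 : t - t₀ < min 2 (T - t₀) := lt_min (by linarith) (by linarith)
    refine ⟨(t - t₀ + min 2 (T - t₀)) / 2, by linarith, by linarith, ?_, ?_⟩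
    · have := min_le_left 2 (T - t₀)
      linarith
    · have := min_le_right 2 (T - t₀)
      linarith
  have hsl' := fun τ (hτ : τ ∈ Ioo 0 T) => hsl (f τ) _ (hfs τ hτ) (hgb τ ⟨hτ.1.le, hτ.2⟩)
  obtain ⟨g, hgd⟩ : ∃ g : ℝ → Vec d → Vec d → ℝ, g = fun t => f (t₀ + t) := ⟨_, rfl⟩
  have hgt : ∀ t, g t = f (t₀ + t) := fun t => by rw [hgd]
  have hgs : IsBoltzmannSol (1 + a) b (T - t₀) g := by
    rw [hgd]
    exact boltz_shift hf ht₀.le
  have hgc : IsClassicalSol (T - t₀) (fun t x => boltzQ (1 + a) b (g t x)) g := hgs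
  have hgpl : Planar e (T - t₀) g := by
    rw [hgd]
    exact planar_shift hpl ht₀.le
  have hST' : S < T - t₀ := by linarith
  have hg1 : IsClassicalSol S (fun t x => boltzQ (1 + a) b (g t x)) g := sol_restrict hgc hST'.le
  obtain ⟨E, hEd⟩ : ∃ E : ℝ → Vec d → Vec d → ℝ, E = fun t x v => EW q e (g t) x v := ⟨_, rfl⟩
  obtain ⟨DE, hDEd⟩ : ∃ DE : ℝ → Vec d → Vec d → ℝ, DE = fun t x v =>
    dEW q e (g t) (fun y => boltzQ (1 + a) b (g t y)) x v := ⟨_, rfl⟩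
  have hEc1 : ContinuousOn (unc E) (Ico 0 S ×ˢ univ) := by
    rw [hEd]
    exact (EW_cont hq hgc e).mono fun z hz => ⟨⟨hz.1.1, hz.1.2.trans hST'⟩, hz.2⟩
  have hIoo : ∀ t ∈ Icc (0 : ℝ) S, t₀ + t ∈ Ioo 0 T := fun t ht =>
    ⟨by linarith [ht.1], by linarith [ht.2]⟩
  have hEb : ∀ t ∈ Icc (0 : ℝ) S, ∀ x v, |E t x v| ≤ 1 / 2 := by
    intro t ht y u
    have e1 := (hsl' (t₀ + t) (hIoo t ht)).2.1 y u
    rw [← hgt] at e1
    simp only [hEd]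
    linarith
  have hEp : ∀ t ∈ Ico (0 : ℝ) S, ∀ x v i, E t (x + Pi.single i 1) v = E t x v := by
    intro t ht y u i
    simp only [hEd]
    rw [EW_per (hg1.periodic t ht) e y u i]
  have hED : ∀ t ∈ Ioo (0 : ℝ) S, ∀ x v,
      HasDerivAt (fun r => E r (x + r • v) v) (DE t (x + t • v) v) t := by
    intro t ht y u
    have ht' : t ∈ Ioo 0 (T - t₀) := ⟨ht.1, ht.2.trans hST'⟩
    rw [hEd, hDEd]
    exact EW_char hq hgc hgpl ht' y u
  obtain ⟨δa, hδa, HA⟩ := hdE e T f hf hpl t₀ (t₀ + S) ht₀ (by linarith) hST 1 one_pos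
  obtain ⟨Cl, hCl⟩ := Pool.Agent.H15.AV.sol_unice hf ht₀ hST
  obtain ⟨δb, hδb, HB⟩ := Dn_low HL Cl (one_pos (α := ℝ))
  obtain ⟨δc, hδc, HC⟩ := drop_lim HL hf ht₀ (by linarith : t₀ ≤ t₀ + S) hST (one_pos (α := ℝ))
  obtain ⟨δ', hδ', hda, hdb, hdc⟩ : ∃ δ' : ℝ, 0 < δ' ∧ δ' ≤ δa ∧ δ' ≤ δb ∧ δ' ≤ δc :=
    ⟨min δa (min δb δc), lt_min hδa (lt_min hδb hδc), min_le_left _ _,
      (min_le_right _ _).trans (min_le_left _ _), (min_le_right _ _).trans (min_le_right _ _)⟩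
  have hDn : ∀ t ∈ Icc t₀ (t₀ + S), ∀ y, -1 ≤ Dn (1 + a) b δ' (f t y) := fun t ht y =>
    HB δ' ⟨hδ', hdb⟩ (f t y) (hCl t ht y)
  have hdrop : Hs (f t₀) - Hs (f (t₀ + S)) ≤ M + C₁ := by
    have h1 := (hHs T f hf hG0 t₀ ⟨ht₀.le, by linarith⟩).2
    have h2 := (hHs T f hf hG0 (t₀ + S) ⟨by linarith, hST⟩).1
    linarith
  have hD1 : ∫ τ in t₀..(t₀ + S), (∫ x, Dn (1 + a) b δ' (f τ x) ∂(muD d)) ≤ M + C₁ + 1 := by
    have h1 := (abs_le.1 (HC δ' ⟨hδ', hdc⟩)).2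
    linarith
  have hZ1 : ∫ τ in t₀..(t₀ + S), Zw a m f τ 1 ≤ KT * (3 + (M + C₁)) := by
    have h1 := hTT T f hf hpl hG0 1 le_rfl t₀ (t₀ + S) ht₀ (by linarith) hST
    rw [Real.one_rpow] at h1
    refine h1.trans (mul_le_mul_of_nonneg_left ?_ hKT)
    linarith
  obtain ⟨hmi, hmn, hmI⟩ := anyw_m HL W hf hδ' ht₀ hS0 hS2 hST hCe hCz
    (show 0 ≤ 4 * K₀ + 1 by linarith) hDn hD1 hZ1
  rw [← hL] at hmI
  have hQ : ∀ t ∈ Ioo (0 : ℝ) S, ∀ x v, 3 * N₁ ≤ g t x v * (1 + nsq v) ^ p * Real.exp (-E t x v) →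
      (∀ u, g t x u * (1 + nsq u) ^ p * Real.exp (-E t x u) ≤
        g t x v * (1 + nsq v) ^ p * Real.exp (-E t x v)) →
      boltzQ (1 + a) b (g t x) v ≤ g t x v * (DE t x v +
        anyM d a m b δ' Ce (2 * Cy + K₁) (4 * K₀ + 1) t₀ f t) := by
    intro t ht y u hhigh htch
    have htI : t ∈ Icc (0 : ℝ) S := ⟨ht.1.le, ht.2.le⟩
    have ht' : t ∈ Ioo 0 (T - t₀) := ⟨ht.1, ht.2.trans hST'⟩
    have htT' : t₀ + t ∈ Ioo 0 T := hIoo t htI
    have hg0 : ∀ w, 0 ≤ g t y w := hgc.nonneg t ⟨ht'.1.le, ht'.2⟩ y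
    obtain ⟨hsm, -, htou⟩ := hsl' (t₀ + t) htT'
    rw [← hgt] at htou hsm
    have hTo : TouchS (4 * δ) β p (g t y) u := by
      refine htou y u (fun _ => 0) continuous_const (fun w => ?_) (fun w => ?_)
      · rw [sub_self, abs_zero]
        have h1 : 0 ≤ len (w - u) / jb u := div_nonneg (len_nonneg _) (jb_pos u).le
        exact mul_nonneg hδ.le (Real.rpow_nonneg (le_min zero_le_one h1) _)
      · have h1 := htch w
        simp only [hEd] at h1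
        simpa only [add_zero] using h1
    have hHi : N₁ ≤ g t y u * (1 + nsq u) ^ p := high_E hN₁ (hEb t htI y u) hhigh
    have hQ1 := hop (g t y) (hgc.nice ht' y) hg0 u hTo hHi
    have hA := HA δ' ⟨hδ', hda⟩ (t₀ + t) ⟨by linarith [ht.1], by linarith [ht.2]⟩ y u
    have hF := hfs (t₀ + t) htT'
    have hM2 : ∫ p, f (t₀ + t) p.2 p.1 * jb p.1 ^ 2 ∂(nu d) ≤ 2 * M :=
      jb2_bound hf ⟨htT'.1.le, htT'.2⟩ (hgb (t₀ + t) ⟨htT'.1.le, htT'.2⟩)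
    rw [← hqa, hgt] at hsm
    have hav := (av2w_up hq hF hsm hM2 u).2.1
    have hyv := yv_le hβ0 hβ1 e u
    have hy0 := yv_pos e β u
    have hZ0 : 0 ≤ Zw a m f (t₀ + t) 1 := Zw_nonneg hfc ⟨htT'.1.le, htT'.2⟩ one_pos
    have hZa : Zw a m f (t₀ + t) (max (jb u) 1) ≤ Zw a m f (t₀ + t) 1 :=
      Zw_anti ha0.le ha1 hm0 hm1 hfc ⟨htT'.1.le, htT'.2⟩ one_pos (le_max_right _ _)
    have h1 : 1 * Cy * yv e β u * Zw a m f (t₀ + t) 1 ≤ 2 * Cy * Zw a m f (t₀ + t) 1 := by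
      refine mul_le_mul_of_nonneg_right ?_ hZ0
      have := mul_le_mul_of_nonneg_left hyv hCy
      linarith
    have h2 := mul_le_mul_of_nonneg_left hZa hK₁
    have h3 := mul_le_mul_of_nonneg_left hav hK₀
    refine hQ1.trans (mul_le_mul_of_nonneg_left ?_ (hg0 u))
    rw [hqA] at hA
    have hA' : (K₀ * ∫ w, (u e - w e) * PhS e a u w * (g t y w - chi q.R w * bet q.C₀ (g t y w))) -
        0 * (∫ w, (u e - w e) * PgB e a β q.R₀ u w * gw q (f (t₀ + t)) y w) - K₀ * av2w q e (f (t₀ + t)) u +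
        0 * av1w q e (f (t₀ + t)) u -
        (Ce * (∫ y, Dn (1 + a) b δ' (f (t₀ + t) y) ∂(muD d)) + 1 * Cy * yv e β u * Zw a m f (t₀ + t) 1 +
          K₁ * Zw a m f (t₀ + t) (max (jb u) 1) + 1) ≤
        dEW q e (g t) (fun y => boltzQ (1 + a) b (g t y)) y u := by
      rw [hgt]
      exact hA
    simp only [hDEd]
    unfold anyM
    rw [zero_mul, zero_mul] at hA'
    rw [zero_mul]
    linarith
  have hA₀ : ∀ x v, g 0 x v * (1 + nsq v) ^ p * Real.exp (-E 0 x v) ≤ 3 * A + 3 * N₁ := by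
    intro y u
    have e1 := hA y u
    have e2 := hEb 0 ⟨le_rfl, hS0.le⟩ y u
    have e3 : Real.exp (-E 0 y u) ≤ 3 := anyw_exp (by linarith [(abs_le.1 e2).1])
    rw [hgt, add_zero]
    calc f t₀ y u * (1 + nsq u) ^ p * Real.exp (-E 0 y u) ≤ A * 3 :=
          mul_le_mul e1 e3 (Real.exp_pos _).le hA0
      _ ≤ 3 * A + 3 * N₁ := by linarith
  have htI : t - t₀ ∈ Ico (0 : ℝ) S := ⟨by linarith, htS⟩
  have key := max_high hg1 p hEc1 hEp (fun T₁ hT₁ => ⟨1 / 2, fun τ hτ y u =>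
    hEb τ ⟨hτ.1, hτ.2.trans hT₁.le⟩ y u⟩) hED hmi hmn hQ (by linarith) hA₀ (t - t₀) htI x v
  have hN0 : 0 ≤ 3 * A + 3 * N₁ := by linarith
  have key2 : g (t - t₀) x v * (1 + nsq v) ^ p * Real.exp (-E (t - t₀) x v) ≤
      (3 * A + 3 * N₁) * Real.exp L :=
    key.trans (mul_le_mul_of_nonneg_left (Real.exp_le_exp.2 (hmI (t - t₀) htI)) hN0)
  have hEt := hEb (t - t₀) ⟨htI.1, htI.2.le⟩ x v
  have hex : Real.exp (E (t - t₀) x v) ≤ 3 := anyw_exp (by linarith [(abs_le.1 hEt).2])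
  have e5 : g (t - t₀) x v * (1 + nsq v) ^ p =
      g (t - t₀) x v * (1 + nsq v) ^ p * Real.exp (-E (t - t₀) x v) * Real.exp (E (t - t₀) x v) := by
    rw [mul_assoc _ (Real.exp (-E (t - t₀) x v)), ← Real.exp_add, neg_add_cancel, Real.exp_zero, mul_one]
  have e6 : t₀ + (t - t₀) = t := by ring
  have e7 : f t x v = g (t - t₀) x v := by rw [hgt, e6]
  rw [e7, e5]
  have hL0 := (Real.exp_pos L).le
  calc g (t - t₀) x v * (1 + nsq v) ^ p * Real.exp (-E (t - t₀) x v) * Real.exp (E (t - t₀) x v)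
      ≤ (3 * A + 3 * N₁) * Real.exp L * 3 :=
        mul_le_mul key2 hex (Real.exp_pos _).le (mul_nonneg hN0 hL0)
    _ ≤ 9 * (1 + N₁) * Real.exp L * (A + 1) := by
        have h1 : 3 * A + 3 * N₁ ≤ 3 * (1 + N₁) * (A + 1) := by
          have h9 := mul_nonneg hN₁.le hA0
          have e9 : 3 * (1 + N₁) * (A + 1) = 3 * A + 3 * N₁ + 3 + 3 * (N₁ * A) := by ring
          rw [e9]
          linarith only [h9]
        have h2 := mul_le_mul_of_nonneg_right h1 hL0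
        linarith
    _ ≤ max 1 (9 * (1 + N₁) * Real.exp L) * (A + 1) :=
        mul_le_mul_of_nonneg_right (le_max_right _ _) (by linarith)

end Pool.Agent.H48.PW
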