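import Pool.Agent.H48.PW.EWDef
import Pool.Agent.H48.PI.AvgL

/-!
# Module AvLW: lower bound for the average of the bounded part

Copy of PI/AvgL.lean (458 lines) with `(v_e-w_e) PgB v w = chi_{R₀}(w) jb v^(-β) |x| τ(|x|)`, `x = v_e - w_e`, `τ(r) = min(r^β, r^max(a,β))` (`sS`), instead of `jb v^(-a) |x|^(1+a)`, and the exponent `β` in `yv`.
Choose `R_d, C_d, k, δ` (`δ ≤ 1`) as there; `R₀ = R_d`: on `{jb w ≤ R_d, |v_e-w_e| ≥ δ}` both `chi_{R₀} = 1` and `chi_{q.R} = 1` (`q.R ≥ R₀`), and `|x| τ(|x|) ≥ c (1+|v_e|)^β`: if `|v_e| ≤ 2R_d`: `≥ δ^2` (`δ ≤ 1`, exponents `≤ 1`), `(1+|v_e|)^β ≤ 1+2R_d`;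
if `|v_e| > 2R_d`: `|x| ≥ |v_e|/2 ≥ 1`, `|x| τ(|x|) ≥ |x|^β ≥ 4^(-β) (1+|v_e|)^β`. Everything else (nonnegativity: `VPgB_nonneg`) is unchanged.
-/

set_option autoImplicit false

open MeasureTheory Set Filter Topology Pool.Agent.H25.Kin Pool.Agent.H48.PL Pool.Agent.H48.PI

namespace Pool.Agent.H48.PW

variable {d : ℕ}

private lemma RX_wt {F : Vec d → Vec d → ℝ} (hd : RX F) (k : ℕ) :
    ∃ C, 0 ≤ C ∧ ∀ x v, (1 + ‖v‖) ^ k * |F x v| ≤ C * wt d v := by
  obtain ⟨C, hC⟩ := hd (k + (d + 1))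
  refine ⟨C, le_trans (mul_nonneg (by positivity) (abs_nonneg _)) (hC 0 0), fun x v => ?_⟩
  have h := hC x v
  have h4 : 0 < (1 + ‖v‖) ^ (d + 1) := by positivity
  unfold wt
  rw [← div_eq_mul_inv, le_div_iff₀ h4]
  calc (1 + ‖v‖) ^ k * |F x v| * (1 + ‖v‖) ^ (d + 1) = (1 + ‖v‖) ^ (k + (d + 1)) * |F x v| := by
        rw [pow_add]; ring
    _ ≤ C := h

private lemma int_jb2 {e : Fin d} {F G : Vec d → Vec d → ℝ} (h : FS e F G) (N : ℕ) :
    Integrable (fun q : Vec d × Vec d => F q.2 q.1 * jb q.1 ^ N) (nu d) := by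
  obtain ⟨C, hC0, hC⟩ := RX_wt h.decF N
  have hb : ∀ x v, |F x v * jb v ^ N| ≤ (((d : ℝ) + 1) ^ N * C) * wt d v := by
    intro x v
    have j0 := jb_pos v
    have e1 : jb v ^ N ≤ (((d : ℝ) + 1) * (1 + ‖v‖)) ^ N := pow_le_pow_left₀ j0.le (jb_le_w v) N
    rw [abs_mul, abs_of_nonneg (pow_nonneg j0.le N)]
    calc |F x v| * jb v ^ N ≤ |F x v| * (((d : ℝ) + 1) * (1 + ‖v‖)) ^ N :=
          mul_le_mul_of_nonneg_left e1 (abs_nonneg _)
      _ = ((d : ℝ) + 1) ^ N * ((1 + ‖v‖) ^ N * |F x v|) := by rw [mul_pow]; ring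
      _ ≤ ((d : ℝ) + 1) ^ N * (C * wt d v) := mul_le_mul_of_nonneg_left (hC x v) (by positivity)
      _ = _ := by ring
  have hc : Continuous fun q : Vec d × Vec d => F q.2 q.1 * jb q.1 ^ N :=
    (h.contF.comp (continuous_snd.prodMk continuous_fst)).mul ((jb_cont.comp continuous_fst).pow N)
  exact integrable_nu hc.aestronglyMeasurable fun q => hb q.2 q.1

private lemma pt_sub {C₀ K r : ℝ} (hK : 0 < K) (hC : Real.exp (2 * K) ≤ C₀) (hr : 0 ≤ r) :
    r - bet C₀ r ≤ 1 / K * (r + r * max (Real.log r) 0) := by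
  have hC0 : 0 < C₀ := lt_of_lt_of_le (Real.exp_pos _) hC
  have hmx : 0 ≤ r * max (Real.log r) 0 := mul_nonneg hr (le_max_right _ _)
  rw [sub_bet hC0 hr, div_le_iff₀ (by positivity)]
  rcases le_or_gt r (Real.exp K) with h | h
  · have h1 : K * r ≤ C₀ := by
      have h2 : K ≤ Real.exp K := by linarith [Real.add_one_le_exp K]
      have h3 : K * r ≤ Real.exp K * Real.exp K :=
        mul_le_mul h2 h hr (Real.exp_pos _).le
      rw [← Real.exp_add] at h3
      have h4 : K + K = 2 * K := by ring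
      rw [h4] at h3
      exact h3.trans hC
    have h5 : r ^ 2 ≤ 1 / K * r * C₀ := by
      rw [div_mul_eq_mul_div, div_mul_eq_mul_div, le_div_iff₀ hK]
      nlinarith
    have h6 : 1 / K * r * C₀ ≤ 1 / K * (r + r * max (Real.log r) 0) * (C₀ + r) := by
      have h7 : 0 < 1 / K := by positivity
      have h8 : r ≤ r + r * max (Real.log r) 0 := by linarith
      have h9 : C₀ ≤ C₀ + r := by linarith
      calc 1 / K * r * C₀ ≤ 1 / K * (r + r * max (Real.log r) 0) * C₀ := by gcongr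
        _ ≤ _ := mul_le_mul_of_nonneg_left h9 (by positivity)
    exact h5.trans h6
  · have hr0 : 0 < r := (Real.exp_pos K).trans h
    have hl : K ≤ Real.log r := by
      rw [← Real.log_exp K]
      exact Real.log_le_log (Real.exp_pos K) h.le
    have h1 : r ≤ 1 / K * (r + r * max (Real.log r) 0) := by
      rw [div_mul_eq_mul_div, one_mul, le_div_iff₀ hK]
      have : r * K ≤ r * max (Real.log r) 0 := mul_le_mul_of_nonneg_left (hl.trans (le_max_left _ _)) hr
      linarith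
    calc r ^ 2 = r * r := by ring
      _ ≤ r * (C₀ + r) := mul_le_mul_of_nonneg_left (by linarith) hr
      _ ≤ _ := mul_le_mul_of_nonneg_right h1 (by positivity)

private lemma pt_strip {K r : ℝ} (hK : 0 < K) (hr : 0 ≤ r) :
    r ≤ Real.exp K + 1 / K * (r * max (Real.log r) 0) := by
  have hmx : 0 ≤ r * max (Real.log r) 0 := mul_nonneg hr (le_max_right _ _)
  rcases le_or_gt r (Real.exp K) with h | h
  · have : 0 ≤ 1 / K * (r * max (Real.log r) 0) := by positivity
    linarith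
  · have hl : K ≤ Real.log r := by
      rw [← Real.log_exp K]
      exact Real.log_le_log (Real.exp_pos K) h.le
    have h1 : r ≤ 1 / K * (r * max (Real.log r) 0) := by
      rw [div_mul_eq_mul_div, one_mul, le_div_iff₀ hK]
      exact mul_le_mul_of_nonneg_left (hl.trans (le_max_left _ _)) hr
    linarith [Real.exp_pos K]

/-- the strip -/
private def St (e : Fin d) (v : Vec d) (δ R : ℝ) : Set (Vec d) := {w | |v e - w e| < δ ∧ jb w ≤ R}

private lemma St_meas (e : Fin d) (v : Vec d) (δ R : ℝ) : MeasurableSet (St e v δ R) := by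
  have h1 : Measurable fun w : Vec d => |v e - w e| :=
    (continuous_abs.comp (continuous_const.sub (continuous_apply e))).measurable
  exact (measurableSet_lt h1 measurable_const).inter
    (measurableSet_le jb_cont.measurable measurable_const)

private lemma St_sub (e : Fin d) (v : Vec d) {δ R : ℝ} :
    St e v δ R ⊆ Set.pi univ fun i => if i = e then Icc (v e - δ) (v e + δ) else Icc (-R) R := by
  intro w hw i _
  obtain ⟨h1, h2⟩ := hw
  by_cases hi : i = e
  · subst hi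
    simp only [if_true]
    rw [abs_lt] at h1
    exact ⟨by linarith [h1.2], by linarith [h1.1]⟩
  · simp only [hi, if_false]
    have h3 := (abs_coord_le w i).trans ((len_le_jb w).trans h2)
    rw [abs_le] at h3
    exact h3

private lemma St_vol (e : Fin d) (v : Vec d) {δ R : ℝ} (hδ : 0 ≤ δ) (hR : 1 ≤ R) :
    (volume : Measure (Vec d)).real (St e v δ R) ≤ 2 * δ * (2 * R) ^ d := by
  have h1 : (volume : Measure (Vec d)) (St e v δ R) ≤ ENNReal.ofReal (2 * δ * (2 * R) ^ d) := by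
    refine (measure_mono (St_sub e v)).trans ?_
    rw [volume_pi_pi, ← Finset.mul_prod_erase Finset.univ _ (Finset.mem_univ e), if_pos rfl,
      Real.volume_Icc]
    have h2 : ∏ i ∈ Finset.univ.erase e, (volume : Measure ℝ)
        (if i = e then Icc (v e - δ) (v e + δ) else Icc (-R) R) =
        ENNReal.ofReal (2 * R) ^ (d - 1) := by
      rw [Finset.prod_congr rfl (g := fun _ => ENNReal.ofReal (2 * R))]
      · rw [Finset.prod_const, Finset.card_erase_of_mem (Finset.mem_univ e), Finset.card_univ,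
          Fintype.card_fin]
      · intro i hi
        rw [if_neg (Finset.ne_of_mem_erase hi), Real.volume_Icc]
        congr 1; ring
    rw [h2, ← ENNReal.ofReal_pow (by linarith), ← ENNReal.ofReal_mul (by linarith)]
    apply ENNReal.ofReal_le_ofReal
    have h3 : (2 * R) ^ (d - 1) ≤ (2 * R) ^ d := pow_le_pow_right₀ (by linarith) (Nat.sub_le d 1)
    calc (v e + δ - (v e - δ)) * (2 * R) ^ (d - 1) = 2 * δ * (2 * R) ^ (d - 1) := by ring
      _ ≤ _ := mul_le_mul_of_nonneg_left h3 (by linarith)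
  rw [Measure.real]
  exact ENNReal.toReal_le_of_le_ofReal (by positivity) h1

private lemma St_int (e : Fin d) (v : Vec d) {δ R : ℝ} (hδ : 0 ≤ δ) (hR : 1 ≤ R) :
    Integrable (fun p : Vec d × Vec d => (St e v δ R).indicator (fun _ => (1 : ℝ)) p.1) (nu d) ∧
      ∫ p : Vec d × Vec d, (St e v δ R).indicator (fun _ => (1 : ℝ)) p.1 ∂(nu d) ≤
        2 * δ * (2 * R) ^ d := by
  have hfin : (volume : Measure (Vec d)) (St e v δ R) ≠ ⊤ := by
    have h1 : (volume : Measure (Vec d)) (St e v δ R) ≤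
        volume (Set.pi univ fun i : Fin d => if i = e then Icc (v e - δ) (v e + δ) else Icc (-R) R) :=
      measure_mono (St_sub e v)
    refine ne_top_of_le_ne_top ?_ h1
    rw [volume_pi_pi]
    refine ENNReal.prod_ne_top fun i _ => ?_
    split_ifs <;> · rw [Real.volume_Icc]; exact ENNReal.ofReal_ne_top
  have hi : Integrable (fun w : Vec d => (St e v δ R).indicator (fun _ => (1 : ℝ)) w) := by
    rw [integrable_indicator_iff (St_meas e v δ R)]
    exact integrableOn_const hfin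
  refine ⟨?_, ?_⟩
  · exact hi.comp_fst (muD d)
  · unfold nu
    rw [integral_fun_fst (μ := (volume : Measure (Vec d))) (ν := muD d)
      (fun w => (St e v δ R).indicator (fun _ => (1 : ℝ)) w)]
    have h2 : (muD d).real univ = 1 := by
      unfold muD
      rw [Measure.real, Measure.restrict_apply_univ, Real.volume_Icc_pi]
      simp
    rw [h2, one_smul, integral_indicator (St_meas e v δ R), setIntegral_const, smul_eq_mul, mul_one]
    exact St_vol e v hδ hR

private lemma pt_low {a : ℝ} (ha : 0 < a) {δ R : ℝ} (hδ : 0 < δ) (hR : 1 ≤ R) {e : Fin d}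
    {v w : Vec d} (hw : jb w ≤ R) (hD : δ ≤ |v e - w e|) {μ : ℝ} (hμ : 0 ≤ μ) :
    δ * ((1 + R) / δ + 1) ^ (-a) * min 1 (δ ^ μ) * (1 + |v e|) ^ a ≤
      |v e - w e| ^ (1 + a) * min 1 (|v e - w e| ^ μ) := by
  set D := |v e - w e| with hDdef
  have hD0 : 0 < D := lt_of_lt_of_le hδ hD
  have hq : 0 < (1 + R) / δ + 1 := by positivity
  have hwe : |w e| ≤ R := (abs_coord_le w e).trans ((len_le_jb w).trans hw)
  have h1 : |v e| ≤ |w e| + D := by
    have : v e = w e + (v e - w e) := by ring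
    calc |v e| = |w e + (v e - w e)| := by rw [← this]
      _ ≤ _ := abs_add_le _ _
  have h2 : 1 + |v e| ≤ D * ((1 + R) / δ + 1) := by
    have h3 : 1 + R ≤ D * ((1 + R) / δ) := by
      rw [mul_div_assoc', le_div_iff₀ hδ]
      nlinarith
    linarith
  have h4 : (1 + |v e|) ^ a ≤ D ^ a * ((1 + R) / δ + 1) ^ a := by
    rw [← Real.mul_rpow hD0.le hq.le]
    exact Real.rpow_le_rpow (by positivity) h2 ha.le
  have h5 : ((1 + R) / δ + 1) ^ (-a) * ((1 + R) / δ + 1) ^ a = 1 := by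
    rw [← Real.rpow_add hq, neg_add_cancel, Real.rpow_zero]
  have h6 : D ^ (1 + a) = D * D ^ a := by
    rw [Real.rpow_add hD0, Real.rpow_one]
  have hp : 0 < ((1 + R) / δ + 1) ^ (-a) := Real.rpow_pos_of_pos hq _
  have hDa : 0 ≤ D ^ a := Real.rpow_nonneg hD0.le _
  have h7 : min 1 (δ ^ μ) ≤ min 1 (D ^ μ) :=
    min_le_min le_rfl (Real.rpow_le_rpow hδ.le hD hμ)
  have h8 : 0 ≤ min 1 (δ ^ μ) := le_min zero_le_one (Real.rpow_nonneg hδ.le _)
  have h9 : δ * ((1 + R) / δ + 1) ^ (-a) * (1 + |v e|) ^ a ≤ D ^ (1 + a) := by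
    rw [h6]
    calc δ * ((1 + R) / δ + 1) ^ (-a) * (1 + |v e|) ^ a
        ≤ δ * ((1 + R) / δ + 1) ^ (-a) * (D ^ a * ((1 + R) / δ + 1) ^ a) :=
          mul_le_mul_of_nonneg_left h4 (by positivity)
      _ = δ * D ^ a * (((1 + R) / δ + 1) ^ (-a) * ((1 + R) / δ + 1) ^ a) := by ring
      _ = δ * D ^ a := by rw [h5, mul_one]
      _ ≤ D * D ^ a := mul_le_mul_of_nonneg_right hD hDa
  calc δ * ((1 + R) / δ + 1) ^ (-a) * min 1 (δ ^ μ) * (1 + |v e|) ^ a
      = δ * ((1 + R) / δ + 1) ^ (-a) * (1 + |v e|) ^ a * min 1 (δ ^ μ) := by ring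
    _ ≤ D ^ (1 + a) * min 1 (D ^ μ) :=
      mul_le_mul h9 h7 h8 (Real.rpow_nonneg hD0.le _)

private lemma pow1a_le {a x : ℝ} (ha : 0 < a) (ha1 : a < 1) : |x| ^ (1 + a) ≤ 1 + x ^ 2 := by
  rcases le_or_gt |x| 1 with h | h
  · have : |x| ^ (1 + a) ≤ 1 := Real.rpow_le_one (abs_nonneg x) h (by linarith)
    nlinarith [sq_nonneg x]
  · have h1 : |x| ^ (1 + a) ≤ |x| ^ (2 : ℝ) := Real.rpow_le_rpow_of_exponent_le h.le (by linarith)
    rw [Real.rpow_two, sq_abs] at h1
    linarith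

private lemma avlw_eq {β : ℝ} (hβ : 0 < β) {q : Pm} (hq : q.β = β) (e : Fin d)
    (F : Vec d → Vec d → ℝ) (v : Vec d) (p : Vec d × Vec d) :
    (v e - p.1 e) * PgB e q.a q.β q.R₀ v p.1 * gw q F p.2 p.1 =
      jb v ^ (-β) * (|v e - p.1 e| ^ (1 + β) * min 1 (|v e - p.1 e| ^ (max q.a β - β))) *
        (chi q.R₀ p.1 * (chi q.R p.1 * bet q.C₀ (F p.2 p.1))) := by
  unfold PgB gw sS
  rw [hq, ← mul_sp hβ]
  ring

private lemma av1_int {β : ℝ} (ha : 0 < β) (ha1 : β < 1) {q : Pm} (hq : q.β = β)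
    (hC : 0 < q.C₀) {e : Fin d} {F G : Vec d → Vec d → ℝ} (h : FS e F G) (v : Vec d) :
    Integrable (fun p : Vec d × Vec d => (v e - p.1 e) * PgB e q.a q.β q.R₀ v p.1 *
      gw q F p.2 p.1) (nu d) := by
  have i0 := int_jb2 h 0
  have i2 := int_jb2 h 2
  have hμ : 0 ≤ max q.a β - β := sub_nonneg.2 (le_max_right _ _)
  have ib : Integrable (fun p : Vec d × Vec d => jb v ^ (-β) * ((1 + 2 * jb v ^ 2) *
      (F p.2 p.1 * jb p.1 ^ 0) + 2 * (F p.2 p.1 * jb p.1 ^ 2))) (nu d) :=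
    ((i0.const_mul _).add (i2.const_mul _)).const_mul _
  have he := fun p : Vec d × Vec d => avlw_eq ha hq e F v p
  have hcont : Continuous fun p : Vec d × Vec d =>
      jb v ^ (-β) * (|v e - p.1 e| ^ (1 + β) * min 1 (|v e - p.1 e| ^ (max q.a β - β))) *
        (chi q.R₀ p.1 * (chi q.R p.1 * bet q.C₀ (F p.2 p.1))) := by
    have c0 : Continuous fun p : Vec d × Vec d => |v e - p.1 e| :=
      continuous_abs.comp (continuous_const.sub ((continuous_apply e).comp continuous_fst))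
    have c1 : Continuous fun p : Vec d × Vec d => |v e - p.1 e| ^ (1 + β) :=
      c0.rpow_const fun _ => Or.inr (by linarith)
    have c1' : Continuous fun p : Vec d × Vec d => min 1 (|v e - p.1 e| ^ (max q.a β - β)) :=
      continuous_const.min (c0.rpow_const fun _ => Or.inr hμ)
    have c2 : Continuous fun p : Vec d × Vec d => chi q.R p.1 := (chi_cont q.R).comp continuous_fst
    have c2' : Continuous fun p : Vec d × Vec d => chi q.R₀ p.1 :=
      (chi_cont q.R₀).comp continuous_fst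
    have c3 : Continuous fun p : Vec d × Vec d => F p.2 p.1 :=
      h.contF.comp (continuous_snd.prodMk continuous_fst)
    have c4 : Continuous fun p : Vec d × Vec d => bet q.C₀ (F p.2 p.1) := by
      unfold bet
      refine (continuous_const.mul c3).div (continuous_const.add c3) fun p => ?_
      have := h.nonneg p.2 p.1
      positivity
    exact (continuous_const.mul (c1.mul c1')).mul (c2'.mul (c2.mul c4))
  refine ib.mono' ?_ (Eventually.of_forall fun p => ?_)
  · exact (hcont.congr fun p => (he p).symm).aestronglyMeasurable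
  · rw [he p]
    have hF := h.nonneg p.2 p.1
    have hj : 0 ≤ jb v ^ (-β) := Real.rpow_nonneg (jb_pos v).le _
    have hD : 0 ≤ |v e - p.1 e| ^ (1 + β) := Real.rpow_nonneg (abs_nonneg _) _
    have hm0 : 0 ≤ min 1 (|v e - p.1 e| ^ (max q.a β - β)) :=
      le_min zero_le_one (Real.rpow_nonneg (abs_nonneg _) _)
    have hm1 : min 1 (|v e - p.1 e| ^ (max q.a β - β)) ≤ 1 := min_le_left _ _
    have hb0 := bet_nonneg hC hF
    have hb1 := bet_le hC hF
    have hc0 := chi_nonneg q.R p.1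
    have hc1 := chi_le_one q.R p.1
    have hc0' := chi_nonneg q.R₀ p.1
    have hc1' := chi_le_one q.R₀ p.1
    rw [Real.norm_eq_abs, abs_of_nonneg (by positivity)]
    have h1 : |v e - p.1 e| ^ (1 + β) * min 1 (|v e - p.1 e| ^ (max q.a β - β)) ≤
        1 + 2 * jb v ^ 2 + 2 * jb p.1 ^ 2 := by
      refine (mul_le_of_le_one_right hD hm1).trans ?_
      have h2 := pow1a_le (x := v e - p.1 e) ha ha1
      have h3 : (v e) ^ 2 ≤ jb v ^ 2 := by
        rw [← sq_abs]
        exact pow_le_pow_left₀ (abs_nonneg _) ((abs_coord_le v e).trans (len_le_jb v)) 2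
      have h4 : (p.1 e) ^ 2 ≤ jb p.1 ^ 2 := by
        rw [← sq_abs]
        exact pow_le_pow_left₀ (abs_nonneg _) ((abs_coord_le p.1 e).trans (len_le_jb p.1)) 2
      nlinarith [sq_nonneg (v e + p.1 e)]
    have h5 : chi q.R₀ p.1 * (chi q.R p.1 * bet q.C₀ (F p.2 p.1)) ≤ F p.2 p.1 := by
      calc chi q.R₀ p.1 * (chi q.R p.1 * bet q.C₀ (F p.2 p.1)) ≤ 1 * (1 * F p.2 p.1) :=
            mul_le_mul hc1' (mul_le_mul hc1 hb1 hb0 zero_le_one) (mul_nonneg hc0 hb0) zero_le_one
        _ = _ := by ring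
    calc jb v ^ (-β) * (|v e - p.1 e| ^ (1 + β) * min 1 (|v e - p.1 e| ^ (max q.a β - β))) *
          (chi q.R₀ p.1 * (chi q.R p.1 * bet q.C₀ (F p.2 p.1)))
        ≤ jb v ^ (-β) * (1 + 2 * jb v ^ 2 + 2 * jb p.1 ^ 2) * F p.2 p.1 :=
          mul_le_mul (mul_le_mul_of_nonneg_left h1 hj) h5 (by positivity) (by positivity)
      _ = _ := by ring

theorem av1w_low (M : ℝ) {m : ℝ} (hm : 0 < m) {a β : ℝ} (ha : 0 < a) (hβ : 0 < β) (haβ : a + β < 1) :
    ∃ R₀ C₁ c : ℝ, 1 ≤ R₀ ∧ 1 ≤ C₁ ∧ 0 < c ∧ ∀ q : Pm, q.a = a → q.β = β → q.R₀ = R₀ → R₀ ≤ q.R →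
      C₁ ≤ q.C₀ → ∀ (e : Fin d) (F G : Vec d → Vec d → ℝ), FS e F G → GB M F →
        m ≤ ∫ p, F p.2 p.1 ∂(nu d) → ∀ v, c * yv e β v ≤ av1w q e F v := by
  obtain ⟨C, hC0, hC⟩ := ent_lower d M
  set K : ℝ := 8 * (|M| + 2 * C) / m + 1 with hKdef
  have hK : 0 < K := by positivity
  have hKm : 1 / K * (|M| + 2 * C) ≤ m / 8 := by
    rw [div_mul_eq_mul_div, one_mul, div_le_iff₀ hK, hKdef]
    have : m / 8 * (8 * (|M| + 2 * C) / m + 1) = |M| + 2 * C + m / 8 := by field_simp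
    rw [this]
    linarith
  set R : ℝ := 16 * |M| / m + 1 with hRdef
  have hR : 1 ≤ R := by
    have : 0 ≤ 16 * |M| / m := by positivity
    linarith
  have hRm : 1 / R ^ 2 * (2 * |M|) ≤ m / 8 := by
    have h1 : R ≤ R ^ 2 := by nlinarith
    have h2 : 2 * |M| ≤ m / 8 * R := by
      rw [hRdef]
      have : m / 8 * (16 * |M| / m + 1) = 2 * |M| + m / 8 := by field_simp; ring
      rw [this]
      linarith
    rw [div_mul_eq_mul_div, one_mul, div_le_iff₀ (by positivity)]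
    exact h2.trans (mul_le_mul_of_nonneg_left h1 (by positivity))
  set W : ℝ := Real.exp K * (2 * (2 * R) ^ d) with hWdef
  have hW : 0 < W := by
    have := Real.exp_pos K
    positivity
  set δ : ℝ := m / (8 * W) with hδdef
  have hδ : 0 < δ := by positivity
  have hδW : Real.exp K * (2 * δ * (2 * R) ^ d) ≤ m / 8 := by
    have : Real.exp K * (2 * δ * (2 * R) ^ d) = W * δ := by rw [hWdef]; ring
    rw [this, hδdef]
    have : W * (m / (8 * W)) = m / 8 := by field_simp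
    rw [this]
  have hμ : 0 ≤ max a β - β := sub_nonneg.2 (le_max_right _ _)
  set c₀ : ℝ := δ * ((1 + R) / δ + 1) ^ (-β) * min 1 (δ ^ (max a β - β)) with hc₀
  have hc₀pos : 0 < c₀ := by
    have h1 : 0 < (1 + R) / δ + 1 := by positivity
    have h2 := Real.rpow_pos_of_pos h1 (-β)
    have h3 : 0 < min 1 (δ ^ (max a β - β)) := lt_min one_pos (Real.rpow_pos_of_pos hδ _)
    positivity
  refine ⟨R, Real.exp (2 * K), c₀ * (m / 2), hR, Real.one_le_exp (by linarith), by positivity, ?_⟩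
  intro q hqa hqβ hqR₀ hqR hqC e F G hF hG hmass v
  have hqC0 : 0 < q.C₀ := lt_of_lt_of_le (Real.exp_pos _) hqC
  have hqR1 : 1 ≤ q.R := hR.trans hqR
  have hy : 0 < yv e β v := yv_pos e β v
  have hye : yv e β v = (1 + |v e|) ^ β * jb v ^ (-β) := by
    unfold yv
    rw [Real.div_rpow (by positivity) (jb_pos v).le, Real.rpow_neg (jb_pos v).le]
    rfl
  -- integrable pieces
  have i0 : Integrable (fun p : Vec d × Vec d => F p.2 p.1) (nu d) := by
    have := int_jb2 hF 0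
    simpa using this
  have i2 := int_jb2 hF 2
  have iL := (ent_int hF.nonneg hF.contF hF.decF).1
  obtain ⟨iS, hS⟩ := St_int e v hδ.le hR
  have hL : ∫ p, F p.2 p.1 * max (Real.log (F p.2 p.1)) 0 ∂(nu d) ≤ C :=
    (hC F hF.nonneg hF.contF hF.decF hG.energy).2 hG.entropy
  have h2M : ∫ p, F p.2 p.1 * jb p.1 ^ 2 ∂(nu d) ≤ 2 * |M| := by
    have a1 : ∀ p : Vec d × Vec d, F p.2 p.1 * jb p.1 ^ 2 = F p.2 p.1 + F p.2 p.1 * nsq p.1 := by
      intro p
      rw [jb_sq]; ring
    have b2 : Integrable (fun p : Vec d × Vec d => F p.2 p.1 * nsq p.1) (nu d) := by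
      have := i2.sub i0
      refine this.congr (Eventually.of_forall fun p => ?_)
      simp only [Pi.sub_apply, a1]
      ring
    simp_rw [a1]
    rw [integral_add i0 b2]
    have := hG.mass
    have := hG.energy
    linarith [le_abs_self M]
  have hI0 : ∫ p, F p.2 p.1 ∂(nu d) ≤ |M| := hG.mass.trans (le_abs_self M)
  -- the minorant
  have iB : Integrable (fun p : Vec d × Vec d => c₀ * yv e β v * (F p.2 p.1 -
      (1 / K * (F p.2 p.1 + 2 * (F p.2 p.1 * max (Real.log (F p.2 p.1)) 0)) +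
        1 / R ^ 2 * (F p.2 p.1 * jb p.1 ^ 2) +
        Real.exp K * (St e v δ R).indicator (fun _ => (1 : ℝ)) p.1))) (nu d) :=
    (i0.sub ((((i0.add (iL.const_mul 2)).const_mul _).add (i2.const_mul _)).add
      (iS.const_mul _))).const_mul _
  have hval : ∫ p : Vec d × Vec d, c₀ * yv e β v * (F p.2 p.1 -
      (1 / K * (F p.2 p.1 + 2 * (F p.2 p.1 * max (Real.log (F p.2 p.1)) 0)) +
        1 / R ^ 2 * (F p.2 p.1 * jb p.1 ^ 2) +
        Real.exp K * (St e v δ R).indicator (fun _ => (1 : ℝ)) p.1)) ∂(nu d) =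
      c₀ * yv e β v * (∫ p, F p.2 p.1 ∂(nu d) -
        (1 / K * (∫ p, F p.2 p.1 ∂(nu d) +
          2 * ∫ p, F p.2 p.1 * max (Real.log (F p.2 p.1)) 0 ∂(nu d)) +
        1 / R ^ 2 * ∫ p, F p.2 p.1 * jb p.1 ^ 2 ∂(nu d) +
        Real.exp K * ∫ p : Vec d × Vec d, (St e v δ R).indicator (fun _ => (1 : ℝ)) p.1 ∂(nu d))) := by
    have j1 : Integrable (fun p : Vec d × Vec d =>
        1 / K * (F p.2 p.1 + 2 * (F p.2 p.1 * max (Real.log (F p.2 p.1)) 0))) (nu d) :=
      (i0.add (iL.const_mul 2)).const_mul _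
    have j2 : Integrable (fun p : Vec d × Vec d => 1 / R ^ 2 * (F p.2 p.1 * jb p.1 ^ 2)) (nu d) :=
      i2.const_mul _
    have j3 : Integrable (fun p : Vec d × Vec d =>
        Real.exp K * (St e v δ R).indicator (fun _ => (1 : ℝ)) p.1) (nu d) := iS.const_mul _
    have j12 : Integrable (fun p : Vec d × Vec d =>
        1 / K * (F p.2 p.1 + 2 * (F p.2 p.1 * max (Real.log (F p.2 p.1)) 0)) +
          1 / R ^ 2 * (F p.2 p.1 * jb p.1 ^ 2)) (nu d) := j1.add j2
    have j123 : Integrable (fun p : Vec d × Vec d =>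
        1 / K * (F p.2 p.1 + 2 * (F p.2 p.1 * max (Real.log (F p.2 p.1)) 0)) +
          1 / R ^ 2 * (F p.2 p.1 * jb p.1 ^ 2) +
          Real.exp K * (St e v δ R).indicator (fun _ => (1 : ℝ)) p.1) (nu d) := j12.add j3
    rw [integral_const_mul, integral_sub i0 j123, integral_add j12 j3, integral_add j1 j2,
      integral_const_mul, integral_const_mul, integral_const_mul,
      integral_add i0 (iL.const_mul 2), integral_const_mul]
  have hlow : m / 2 ≤ ∫ p, F p.2 p.1 ∂(nu d) -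
        (1 / K * (∫ p, F p.2 p.1 ∂(nu d) +
          2 * ∫ p, F p.2 p.1 * max (Real.log (F p.2 p.1)) 0 ∂(nu d)) +
        1 / R ^ 2 * ∫ p, F p.2 p.1 * jb p.1 ^ 2 ∂(nu d) +
        Real.exp K * ∫ p : Vec d × Vec d, (St e v δ R).indicator (fun _ => (1 : ℝ)) p.1 ∂(nu d)) := by
    have k1 : 1 / K * (∫ p, F p.2 p.1 ∂(nu d) +
          2 * ∫ p, F p.2 p.1 * max (Real.log (F p.2 p.1)) 0 ∂(nu d)) ≤ m / 8 := by
      refine le_trans (mul_le_mul_of_nonneg_left ?_ (by positivity)) hKm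
      linarith
    have k2 : 1 / R ^ 2 * ∫ p, F p.2 p.1 * jb p.1 ^ 2 ∂(nu d) ≤ m / 8 :=
      le_trans (mul_le_mul_of_nonneg_left h2M (by positivity)) hRm
    have k3 : Real.exp K * ∫ p : Vec d × Vec d,
        (St e v δ R).indicator (fun _ => (1 : ℝ)) p.1 ∂(nu d) ≤ m / 8 :=
      le_trans (mul_le_mul_of_nonneg_left hS (Real.exp_pos K).le) hδW
    linarith
  -- pointwise bound
  have hpt : ∀ p : Vec d × Vec d, c₀ * yv e β v * (F p.2 p.1 -
      (1 / K * (F p.2 p.1 + 2 * (F p.2 p.1 * max (Real.log (F p.2 p.1)) 0)) +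
        1 / R ^ 2 * (F p.2 p.1 * jb p.1 ^ 2) +
        Real.exp K * (St e v δ R).indicator (fun _ => (1 : ℝ)) p.1)) ≤
      (v e - p.1 e) * PgB e q.a q.β q.R₀ v p.1 * gw q F p.2 p.1 := by
    intro p
    rw [avlw_eq hβ hqβ e F v p, hqa]
    set r := F p.2 p.1 with hr
    have hr0 : 0 ≤ r := hF.nonneg p.2 p.1
    have hmx : 0 ≤ r * max (Real.log r) 0 := mul_nonneg hr0 (le_max_right _ _)
    have hj : 0 ≤ jb v ^ (-β) := Real.rpow_nonneg (jb_pos v).le _
    have hD : 0 ≤ |v e - p.1 e| ^ (1 + β) * min 1 (|v e - p.1 e| ^ (max a β - β)) :=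
      mul_nonneg (Real.rpow_nonneg (abs_nonneg _) _)
        (le_min zero_le_one (Real.rpow_nonneg (abs_nonneg _) _))
    have hb0 := bet_nonneg hqC0 hr0
    have hc0' := chi_nonneg q.R p.1
    have hc0'' := chi_nonneg q.R₀ p.1
    have hint0 : 0 ≤ jb v ^ (-β) *
        (|v e - p.1 e| ^ (1 + β) * min 1 (|v e - p.1 e| ^ (max a β - β))) *
        (chi q.R₀ p.1 * (chi q.R p.1 * bet q.C₀ r)) :=
      mul_nonneg (mul_nonneg hj hD) (mul_nonneg hc0'' (mul_nonneg hc0' hb0))
    have hK1 : 0 < 1 / K := by positivity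
    have t1 : 0 ≤ 1 / K * (r + 2 * (r * max (Real.log r) 0)) := by positivity
    have t1' : 1 / K * (r * max (Real.log r) 0) ≤ 1 / K * (r + 2 * (r * max (Real.log r) 0)) :=
      mul_le_mul_of_nonneg_left (by linarith) hK1.le
    have t2 : 0 ≤ 1 / R ^ 2 * (r * jb p.1 ^ 2) := by positivity
    have t3 : 0 ≤ Real.exp K * (St e v δ R).indicator (fun _ => (1 : ℝ)) p.1 :=
      mul_nonneg (Real.exp_pos K).le (indicator_nonneg (fun _ _ => zero_le_one) _)
    rcases lt_or_ge R (jb p.1) with h1 | h1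
    · -- large velocity
      have h2 : r ≤ 1 / R ^ 2 * (r * jb p.1 ^ 2) := by
        rw [div_mul_eq_mul_div, one_mul, le_div_iff₀ (by positivity)]
        exact mul_le_mul_of_nonneg_left (pow_le_pow_left₀ (by linarith) h1.le 2) hr0
      refine le_trans (mul_nonpos_of_nonneg_of_nonpos (by positivity) (by linarith)) hint0
    · rcases lt_or_ge |v e - p.1 e| δ with h2 | h2
      · have h3 : (St e v δ R).indicator (fun _ => (1 : ℝ)) p.1 = 1 :=
          indicator_of_mem (s := St e v δ R) ⟨h2, h1⟩ _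
        rw [h3, mul_one]
        have h4 := pt_strip hK hr0
        refine le_trans (mul_nonpos_of_nonneg_of_nonpos (by positivity) (by linarith)) hint0
      · have h3 := pt_sub hK hqC hr0
        have h4 : 1 / K * (r + r * max (Real.log r) 0) ≤ 1 / K * (r + 2 * (r * max (Real.log r) 0)) :=
          mul_le_mul_of_nonneg_left (by linarith) hK1.le
        have h5 : r - (1 / K * (r + 2 * (r * max (Real.log r) 0)) +
            1 / R ^ 2 * (r * jb p.1 ^ 2) +
            Real.exp K * (St e v δ R).indicator (fun _ => (1 : ℝ)) p.1) ≤ bet q.C₀ r := by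
          linarith
        have h6 : chi q.R p.1 = 1 := chi_eq_one hqR1 (h1.trans hqR)
        have h6' : chi q.R₀ p.1 = 1 := by
          rw [hqR₀]
          exact chi_eq_one hR h1
        have h7 := pt_low hβ hδ hR h1 h2 hμ
        rw [h6, h6', one_mul, one_mul]
        calc c₀ * yv e β v * (r - (1 / K * (r + 2 * (r * max (Real.log r) 0)) +
            1 / R ^ 2 * (r * jb p.1 ^ 2) +
            Real.exp K * (St e v δ R).indicator (fun _ => (1 : ℝ)) p.1))
            ≤ c₀ * yv e β v * bet q.C₀ r := mul_le_mul_of_nonneg_left h5 (by positivity)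
          _ = jb v ^ (-β) * (c₀ * (1 + |v e|) ^ β) * bet q.C₀ r := by rw [hye]; ring
          _ ≤ jb v ^ (-β) *
              (|v e - p.1 e| ^ (1 + β) * min 1 (|v e - p.1 e| ^ (max a β - β))) * bet q.C₀ r :=
            mul_le_mul_of_nonneg_right (mul_le_mul_of_nonneg_left h7 hj) hb0
  have hmono := integral_mono iB (av1_int hβ (by linarith) hqβ hqC0 hF v) hpt
  rw [hval] at hmono
  unfold av1w
  refine le_trans ?_ hmono
  calc c₀ * (m / 2) * yv e β v = c₀ * yv e β v * (m / 2) := by ring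
    _ ≤ _ := mul_le_mul_of_nonneg_left hlow (by positivity)

end Pool.Agent.H48.PW
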