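import Pool.Agent.H48.PW.Defs

/-!
# Module CircA: the mean of `|1 + τ e^{it}|^a` over the circle

Proof. `circleAverage (log ‖· - a‖) 0 1 = log⁺ ‖a‖` (`circleAverage_log_norm_sub_const_eq_posLog`, Mathlib.Analysis.SpecialFunctions.Integrals.PosLogEqCircleAverage) gives
`circleAverage (fun z => log ‖1 + τ z‖) 0 1 = 0` for `0 ≤ τ ≤ 1` (`τ = 0` trivial; else `‖1 + τ z‖ = τ ‖z - (-1/τ)‖`, `log τ + log⁺ (1/τ) = 0`).
With `x = a log ‖1+τz‖`: `e^x ≥ 1 + x + min (x²) 1 / 4` for all real `x`, so `mean ‖1+τz‖^a ≥ 1 + mean min ((a L)²) 1 / 4`, and for `cos t ≥ 1/2` (`t ∈ [0,π/3]`)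
`‖1+τe^{it}‖² = 1 + 2τ cos t + τ² ≥ 1 + τ`, `L ≥ (1/2) log (1+τ) ≥ τ/4`, so `min ((aL)²) 1 ≥ a²τ²/16` (`a ≤ 1`). The set `[0,π/3]` has weight `1/6`: `c = a²/384`.
Stated for the real integral over `[0, 2π]`; `‖1+τe^{it}‖^a = (1 + 2τ cos t + τ²)^(a/2)` (Real.rpow; at the zero of the modulus, `τ = 1`, `t = π`, the value is `0^a = 0`; `log 0 = 0` in Mathlib, a null set).
-/

set_option autoImplicit false

open MeasureTheory Set Filter Topology Real

namespace Pool.Agent.H48.PW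

private theorem ca_exp (x : ℝ) : 1 + x + min (x ^ 2) 1 / 4 ≤ exp x := by
  rcases le_or_gt (-2) x with h | h
  · have h1 : 0 ≤ 1 + x / 2 := by linarith
    have h2 : 1 + x / 2 ≤ exp (x / 2) := by
      have := add_one_le_exp (x / 2)
      linarith
    have h3 : exp x = exp (x / 2) * exp (x / 2) := by
      rw [← exp_add]
      congr 1
      ring
    have h4 : (1 + x / 2) * (1 + x / 2) ≤ exp (x / 2) * exp (x / 2) :=
      mul_le_mul h2 h2 h1 (h1.trans h2)
    have h5 : min (x ^ 2) 1 ≤ x ^ 2 := min_le_left _ _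
    rw [h3]
    nlinarith
  · have h1 : min (x ^ 2) 1 ≤ 1 := min_le_right _ _
    have h2 := exp_pos x
    linarith

private theorem ca_norm (τ t : ℝ) : ‖circleMap 1 τ t - 0‖ ^ 2 = 1 + 2 * τ * cos t + τ ^ 2 := by
  rw [sub_zero, ← Complex.normSq_eq_norm_sq, circleMap, Complex.normSq_apply]
  have h1 : (1 + (τ : ℂ) * Complex.exp (t * Complex.I)).re = 1 + τ * cos t := by
    rw [Complex.exp_mul_I]
    simp [← Complex.ofReal_cos, ← Complex.ofReal_sin]
  have h2 : (1 + (τ : ℂ) * Complex.exp (t * Complex.I)).im = τ * sin t := by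
    rw [Complex.exp_mul_I]
    simp [← Complex.ofReal_cos, ← Complex.ofReal_sin]
  rw [h1, h2]
  have := sin_sq_add_cos_sq t
  nlinarith

private theorem ca_log (τ t : ℝ) : log ‖circleMap 1 τ t - 0‖ = log (1 + 2 * τ * cos t + τ ^ 2) / 2 := by
  rw [← ca_norm, log_pow]
  push_cast
  ring

private theorem ca_int {τ : ℝ} (hτ : 0 ≤ τ) (hτ1 : τ ≤ 1) :
    IntervalIntegrable (fun t => log (1 + 2 * τ * cos t + τ ^ 2) / 2) volume 0 (2 * π) ∧
    ∫ t in (0 : ℝ)..(2 * π), log (1 + 2 * τ * cos t + τ ^ 2) / 2 = 0 := by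
  rcases eq_or_lt_of_le hτ with h0 | h0
  · subst h0
    simp
  · have h1 : CircleIntegrable (fun z : ℂ => log ‖z - 0‖) 1 τ := circleIntegrable_log_norm_sub_const τ
    have h2 : circleAverage (fun z : ℂ => log ‖z - 0‖) 1 τ = log τ + log⁺ (τ⁻¹ * ‖(1 : ℂ) - 0‖) :=
      circleAverage_log_norm_sub_const_eq_log_radius_add_posLog h0.ne'
    have h3 : log⁺ (τ⁻¹ * ‖(1 : ℂ) - 0‖) = - log τ := by
      rw [sub_zero, norm_one, mul_one, posLog_eq_log, log_inv]
      rw [abs_inv, abs_of_pos h0]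
      exact (one_le_inv₀ h0).2 hτ1
    have h4 : (fun t => log (1 + 2 * τ * cos t + τ ^ 2) / 2) =
        fun t => (fun z : ℂ => log ‖z - 0‖) (circleMap 1 τ t) := by
      funext t
      exact (ca_log τ t).symm
    rw [h3, circleAverage_def, add_neg_cancel] at h2
    rw [h4]
    refine ⟨h1, ?_⟩
    have h5 : (2 * π)⁻¹ ≠ 0 := by positivity
    exact (smul_eq_zero.1 h2).resolve_left h5

theorem circ_one {a : ℝ} (ha : 0 < a) (ha1 : a ≤ 1) {τ : ℝ} (hτ : 0 ≤ τ) (hτ1 : τ ≤ 1) :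
    1 + a ^ 2 / 384 * τ ^ 2 ≤
      (2 * π)⁻¹ * ∫ t in (0 : ℝ)..(2 * π), (1 + 2 * τ * cos t + τ ^ 2) ^ (a / 2) := by
  obtain ⟨hi, h0⟩ := ca_int hτ hτ1
  have hπ := pi_pos
  have hN : ∀ t, 0 ≤ 1 + 2 * τ * cos t + τ ^ 2 := fun t => by
    rw [← ca_norm]
    positivity
  -- the lower bound
  set G : ℝ → ℝ := fun t => 1 + a * (log (1 + 2 * τ * cos t + τ ^ 2) / 2) +
    (Icc (0 : ℝ) (π / 3)).indicator (fun _ => a ^ 2 * τ ^ 2 / 64) t with hG
  have hind : IntervalIntegrable ((Icc (0 : ℝ) (π / 3)).indicator fun _ => a ^ 2 * τ ^ 2 / 64)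
      volume 0 (2 * π) := by
    refine IntegrableOn.intervalIntegrable ?_
    refine Integrable.indicator ?_ measurableSet_Icc
    exact integrableOn_const ((isCompact_uIcc.measure_lt_top).ne) (by simp)
  have hGi : IntervalIntegrable G volume 0 (2 * π) :=
    ((intervalIntegrable_const).add (hi.const_mul a)).add hind
  have hfc : Continuous fun t : ℝ => (1 + 2 * τ * cos t + τ ^ 2) ^ (a / 2) := by
    refine Continuous.rpow_const (by fun_prop) fun t => Or.inr (by positivity)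
  have hfi : IntervalIntegrable (fun t : ℝ => (1 + 2 * τ * cos t + τ ^ 2) ^ (a / 2)) volume 0 (2 * π) :=
    hfc.intervalIntegrable _ _
  have hGval : ∫ t in (0 : ℝ)..(2 * π), G t = 2 * π + a ^ 2 * τ ^ 2 / 64 * (π / 3) := by
    have e1 : ∫ t in (0 : ℝ)..(2 * π), G t =
        (∫ t in (0 : ℝ)..(2 * π), (1 + a * (log (1 + 2 * τ * cos t + τ ^ 2) / 2))) +
        ∫ t in (0 : ℝ)..(2 * π), (Icc (0 : ℝ) (π / 3)).indicator (fun _ => a ^ 2 * τ ^ 2 / 64) t :=
      intervalIntegral.integral_add ((intervalIntegrable_const).add (hi.const_mul a)) hind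
    have e2 : ∫ t in (0 : ℝ)..(2 * π), (1 + a * (log (1 + 2 * τ * cos t + τ ^ 2) / 2)) = 2 * π := by
      rw [intervalIntegral.integral_add intervalIntegrable_const (hi.const_mul a),
        intervalIntegral.integral_const_mul, h0]
      simp
    have e3 : ∫ t in (0 : ℝ)..(2 * π), (Icc (0 : ℝ) (π / 3)).indicator
        (fun _ => a ^ 2 * τ ^ 2 / 64) t = a ^ 2 * τ ^ 2 / 64 * (π / 3) := by
      rw [intervalIntegral.integral_of_le (by positivity), ← integral_Icc_eq_integral_Ioc,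
        setIntegral_indicator measurableSet_Icc]
      have e4 : Icc (0 : ℝ) (2 * π) ∩ Icc 0 (π / 3) = Icc 0 (π / 3) :=
        inter_eq_right.2 (Icc_subset_Icc le_rfl (by linarith))
      rw [e4, setIntegral_const]
      simp [Real.volume_real_Icc, smul_eq_mul]
      rw [max_eq_left (by positivity)]
      ring
    rw [e1, e2, e3]
  have hle : ∫ t in (0 : ℝ)..(2 * π), G t ≤
      ∫ t in (0 : ℝ)..(2 * π), (1 + 2 * τ * cos t + τ ^ 2) ^ (a / 2) := by
    refine intervalIntegral.integral_mono_ae (by positivity) hGi hfi ?_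
    have hnull : ∀ᵐ t : ℝ, 1 + 2 * τ * cos t + τ ^ 2 ≠ 0 := by
      have hc : (Set.range fun n : ℤ => π + n * (2 * π)).Countable := Set.countable_range _
      refine (hc.ae_notMem volume).mono fun t ht h => ht ?_
      have h2 : -1 ≤ cos t := neg_one_le_cos t
      have h3 : (τ - 1) ^ 2 + 2 * τ * (1 + cos t) = 0 := by linarith
      have h4 : 0 ≤ 2 * τ * (1 + cos t) := mul_nonneg (by linarith) (by linarith)
      have h5 : (τ - 1) ^ 2 = 0 := by nlinarith [sq_nonneg (τ - 1)]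
      have h6 : τ = 1 := by
        have := pow_eq_zero_iff (two_ne_zero) |>.1 h5
        linarith
      subst h6
      have h7 : cos t = -1 := by linarith
      obtain ⟨n, hn⟩ := cos_eq_neg_one_iff.1 h7
      exact ⟨n, hn⟩
    filter_upwards [hnull] with t ht
    have hpos : 0 < 1 + 2 * τ * cos t + τ ^ 2 := lt_of_le_of_ne (hN t) (Ne.symm ht)
    set l := log (1 + 2 * τ * cos t + τ ^ 2) / 2 with hl
    have e1 : (1 + 2 * τ * cos t + τ ^ 2) ^ (a / 2) = exp (a * l) := by
      rw [rpow_def_of_pos hpos, hl]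
      congr 1
      ring
    have e2 := ca_exp (a * l)
    have e3 : G t = 1 + a * l + (Icc (0 : ℝ) (π / 3)).indicator (fun _ => a ^ 2 * τ ^ 2 / 64) t := rfl
    rw [e1, e3]
    refine le_trans ?_ e2
    have e4 : (Icc (0 : ℝ) (π / 3)).indicator (fun _ => a ^ 2 * τ ^ 2 / 64) t ≤
        min ((a * l) ^ 2) 1 / 4 := by
      by_cases htm : t ∈ Icc (0 : ℝ) (π / 3)
      · rw [indicator_of_mem htm]
        have hc : 1 / 2 ≤ cos t := by
          rw [← cos_pi_div_three]
          exact cos_le_cos_of_nonneg_of_le_pi htm.1 (by linarith) htm.2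
        have h1 : 1 + τ ≤ 1 + 2 * τ * cos t + τ ^ 2 := by nlinarith [sq_nonneg τ, mul_nonneg hτ (sub_nonneg.2 hc)]
        have h2 : τ / 2 ≤ log (1 + τ) := by
          have h3 := one_sub_inv_le_log_of_pos (show 0 < 1 + τ by linarith)
          have h4 : τ / 2 ≤ 1 - (1 + τ)⁻¹ := by
            have h5 : 1 - (1 + τ)⁻¹ = τ / (1 + τ) := by
              field_simp
              ring
            rw [h5]
            exact div_le_div_of_nonneg_left hτ (by linarith) (by linarith)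
          linarith
        have h6 : log (1 + τ) ≤ log (1 + 2 * τ * cos t + τ ^ 2) := log_le_log (by linarith) h1
        have h7 : τ / 4 ≤ l := by
          rw [hl]
          linarith
        have h8 : a * τ / 4 ≤ a * l := by nlinarith
        have h9 : (a * τ / 4) ^ 2 ≤ (a * l) ^ 2 := pow_le_pow_left₀ (by positivity) h8 2
        have h10 : (a * τ / 4) ^ 2 ≤ 1 := by
          have h11 : a * τ ≤ 1 := by nlinarith
          have h12 : 0 ≤ a * τ := by positivity
          nlinarith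
        have h13 : (a * τ / 4) ^ 2 ≤ min ((a * l) ^ 2) 1 := le_min h9 h10
        calc a ^ 2 * τ ^ 2 / 64 = (a * τ / 4) ^ 2 / 4 := by ring
          _ ≤ _ := by linarith
      · rw [indicator_of_notMem htm]
        positivity
    linarith
  rw [hGval] at hle
  have h1 : (2 * π)⁻¹ * (2 * π + a ^ 2 * τ ^ 2 / 64 * (π / 3)) ≤
      (2 * π)⁻¹ * ∫ t in (0 : ℝ)..(2 * π), (1 + 2 * τ * cos t + τ ^ 2) ^ (a / 2) :=
    mul_le_mul_of_nonneg_left hle (by positivity)
  refine le_trans (le_of_eq ?_) h1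
  field_simp
  ring

end Pool.Agent.H48.PW
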