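import Pool.Agent.H48.PI.Defs
import Pool.Agent.H82.BK.Defs

/-!
# Plane symmetric solutions, `γ = 1 + a`, all very hard potentials (MP_c15324_an): definitions

Paper: /team-store/h48_pwide_paper.md. `β > 2s` is the exponent of the damping, `m ≥ max(a,β)` the exponent of the collision density `XT`.
-/

set_option autoImplicit false

open MeasureTheory Set Filter Topology Pool.Agent.H25.Kin Pool.Agent.H48.PL Pool.Agent.H48.PI
open Pool.Agent.H82.BK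

namespace Pool.Agent.H48.PW

variable {d : ℕ}

/-- the conditions on the exponents: `γ = 1 + a`, `β` the exponent of the damping, `m` the exponent of the density -/
structure WP (s a β m : ℝ) : Prop where
  hs : 0 < s
  ha : 0 < a
  hβ : 2 * s < β
  haβ : a + β < 1
  hβm : β ≤ m
  ham : a ≤ m
  hm : m < 1

/-- the exponent `s' = max(a, s + a/2)` -/
noncomputable def sP (s a : ℝ) : ℝ := max a (s + a / 2)

/-- `φ(y) = y_e |y|^(a-1)` -/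
noncomputable def phi (e : Fin d) (a : ℝ) (y : Vec d) : ℝ := y e * len y ^ (a - 1)

/-- `min(1,⟨w⟩/⟨v⟩)^4 φ(v-w)` -/
noncomputable def PhS (e : Fin d) (a : ℝ) (v w : Vec d) : ℝ :=
  min 1 (jb w / jb v) ^ 4 * phi e a (v - w)

/-- `min(1,⟨w⟩/⟨v⟩)^4 |v-w|^a` -/
noncomputable def PhE (a : ℝ) (v w : Vec d) : ℝ := min 1 (jb w / jb v) ^ 4 * len (v - w) ^ a

/-- `sgn(x) min(|x|^β, |x|^max(a,β))` -/
noncomputable def sS (a β x : ℝ) : ℝ := sp β x * min 1 (|x| ^ (max a β - β))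

/-- `chi_{R₀}(w) ⟨v⟩^(-β) sS(v_e-w_e)` -/
noncomputable def PgB (e : Fin d) (a β R₀ : ℝ) (v w : Vec d) : ℝ :=
  chi R₀ w * (jb v ^ (-β) * sS a β (v e - w e))

/-- radial weights for the integral over `h = hh σ m ⟂ m`, `|h| ≤ ⟨v⟩/2` -/
structure RadK (v m : Vec d) (k : ℝ → ℝ) : Prop where
  meas : Measurable k
  nonneg : ∀ c, 0 ≤ k c
  bdd : ∃ B, ∀ c, k c ≤ B
  supp : ∀ c, k c ≠ 0 → 0 < c ∧ nsq m * (1 - c ^ 2) ≤ 1 / 4 * (1 + nsq v) * c ^ 2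

/-- the one-sided touching condition -/
def TouchS (δ β : ℝ) (p : ℕ) (g : Vec d → ℝ) (v : Vec d) : Prop :=
  ∃ P : Vec d → ℝ, Measurable P ∧
    (∀ u, g u * (1 + nsq u) ^ p ≤ g v * (1 + nsq v) ^ p * (1 + P u)) ∧ (∀ u, |P u| ≤ δ) ∧
    ∀ m : Vec d, m ≠ 0 → ∀ k : ℝ → ℝ, RadK v m k →
      ∫ σ in {σ : Vec d | 0 < dot m σ}, k (co m σ) * P (v + hh σ m) ∂(surf d) ≤
        δ * ∫ σ in {σ : Vec d | 0 < dot m σ}, k (co m σ) * mm β v (v + hh σ m) ∂(surf d)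

/-- `∫∫ g g_* |V|^(1+a) ⟨V⟩^m min(1,R/V₁)^(4-m)` -/
noncomputable def XT (a m V₁ : ℝ) (g : Vec d → ℝ) : ℝ :=
  ∫ p : Vec d × Vec d, g p.1 * g p.2 * (len (p.1 - p.2) ^ (1 + a) * jb (p.1 - p.2) ^ m) *
    om m V₁ (RR p.1 p.2)

/-- test functions with a cusp at `v₀` -/
structure Cusp (s a m : ℝ) (v₀ : Vec d) (V₁ A : ℝ) (ψ : Vec d → ℝ) : Prop where
  meas : Measurable ψ
  h1 : ∀ w w', |ψ w - ψ w'| ≤ A * (om m V₁ (max (jb w) (jb w')) * len (w - w') ^ a)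
  h2 : ∀ w w', w ≠ v₀ → |ψ w - ψ w'| ≤
    A * (om m V₁ (max (jb w) (jb w')) * (len (w - w') ^ sP s a * (1 + len (w - v₀) ^ (a - sP s a))))

/-- bounded test functions with a cusp at `v₀` -/
structure CuspB (s a : ℝ) (v₀ : Vec d) (A : ℝ) (ψ : Vec d → ℝ) : Prop where
  meas : Measurable ψ
  h0 : ∀ w, |ψ w| ≤ A
  h2 : ∀ w w', w ≠ v₀ → |ψ w - ψ w'| ≤ A * (len (w - w') ^ sP s a * (1 + len (w - v₀) ^ (a - sP s a)))

end Pool.Agent.H48.PW
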