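import Pool.Agent.H48.PW.UniW
import Pool.Agent.H48.PW.FinG

/-!
# Module FinW: the uniform pointwise bound from the tail property
-/

set_option autoImplicit false

open MeasureTheory Set Filter Topology Pool.Agent.H25.Kin Pool.Agent.H82.BK Pool.Agent.H82.CM
open Pool.Agent.H48.PL Pool.Agent.H48.PI Pool.Agent.H93.CM

namespace Pool.Agent.H48.PW

variable {d : ℕ}

/-- `Reg` from the tail property -/
theorem reg_of_tail (hd : 2 ≤ d) {s a β m : ℝ} {b : ℝ → ℝ} (hb : IsKernel d s b) (W : WP s a β m)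
    (h : 3 ≤ d ∨ β ≤ a) (hT : TailT d a β m b) : Reg d s (1 + a) b := by
  have h1 := W.hs
  have h2 := W.ha
  have h3 := W.hβ
  have h4 := W.haβ
  refine ⟨hd, h1, by linarith, by linarith, by linarith, hb, fun e p hp M hM m₀ hm₀ => ?_⟩
  obtain ⟨C, Ca, cb, HL⟩ := exists_hypL hd h1 (by linarith : s < 1) (by linarith : (0 : ℝ) ≤ 1 + a + 2 * s)
    (by linarith : 1 + a + 2 * s ≤ 2) hb
  exact planar_uniformW HL W h hT e hM hm₀ hp

end Pool.Agent.H48.PW
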