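import Pool.Agent.H48.PW.Defs
import Pool.Agent.H82.BK.Geo

/-!
# Module RadI: integrals with radial weights

`RadK v m k`: `k (co m σ) ≠ 0` implies `nsq (hh σ m) ≤ (1+nsq v)/4` (`nsq_hh`: `nsq (hh) = nsq m (1-c²)/c²`), `surf` is finite.
* `radk_hh`, `radk_int` (continuous functions are bounded on the ball; measurability `measurable_co`, `measurable_hh`), `radk_mono`.
* `radk_sym`: the reflection `refl (dir m)` preserves `surf`, the half sphere and `co`, and maps `hh` to `-hh` (`hh_refl`, `dot_refl_dir`), so the integrals of `F (hh)` and of `F (-hh)` agree.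
-/

set_option autoImplicit false

open MeasureTheory Set Filter Topology Pool.Agent.H25.Kin Pool.Agent.H82.BK Pool.Agent.H48.PL

namespace Pool.Agent.H48.PW

variable {d : ℕ} {v m : Vec d} {k : ℝ → ℝ}

lemma radk_hh (hk : RadK v m k) {σ : Vec d} (hσ : nsq σ = 1) (h : 0 < dot m σ)
    (hc : k (co m σ) ≠ 0) : len (hh σ m) ≤ 1 / 2 * jb v := by
  obtain ⟨h1, h2⟩ := hk.supp _ hc
  have hv : 0 ≤ nsq v := Finset.sum_nonneg fun i _ => sq_nonneg _
  unfold len jb
  rw [Real.sqrt_le_iff]
  refine ⟨by positivity, ?_⟩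
  rw [mul_pow, Real.sq_sqrt (by linarith), nsq_hh hσ h, ← mul_div_assoc, div_le_iff₀ (by positivity)]
  linarith

private lemma meas_co (m : Vec d) : Measurable fun σ : Vec d => co m σ := by
  have h1 : Measurable fun σ : Vec d => dot m σ := (dot_cont m).measurable
  unfold co
  exact h1.div_const _

private lemma meas_hh (m : Vec d) : Measurable fun σ : Vec d => hh σ m := by
  have h1 : Measurable fun σ : Vec d => nsq m / dot m σ :=
    (dot_cont m).measurable.const_div _
  have h2 : Measurable fun σ : Vec d => (nsq m / dot m σ) • σ := h1.smul measurable_id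
  unfold hh
  exact h2.sub_const m

private lemma radk_meas (hk : RadK v m k) {F : Vec d → ℝ} (hF : Measurable F) :
    Measurable fun σ : Vec d => k (co m σ) * F (hh σ m) := by
  have h1 : Measurable fun σ : Vec d => k (co m σ) := hk.meas.comp (meas_co m)
  have h2 : Measurable fun σ : Vec d => F (hh σ m) := hF.comp (meas_hh m)
  exact h1.mul h2

/-- integrability for functions bounded on the ball `|h| ≤ ⟨v⟩/2` -/
lemma radk_int (hk : RadK v m k) {F : Vec d → ℝ} (hF : Measurable F) {B : ℝ}
    (hB : ∀ h, len h ≤ 1 / 2 * jb v → |F h| ≤ B) :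
    IntegrableOn (fun σ : Vec d => k (co m σ) * F (hh σ m)) {σ : Vec d | 0 < dot m σ} (surf d) := by
  obtain ⟨C, hC⟩ := hk.bdd
  refine Measure.integrableOn_of_bounded (M := |C| * |B|) (measure_ne_top _ _)
    (radk_meas hk hF).aestronglyMeasurable ?_
  refine (ae_restrict_iff' (measurableSet_half m)).2 ?_
  filter_upwards [surf_ae] with σ hσ hmem
  rw [Real.norm_eq_abs, abs_mul]
  by_cases hc : k (co m σ) = 0
  · rw [hc, abs_zero, zero_mul]
    positivity
  · have h1 : |k (co m σ)| ≤ |C| := by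
      rw [abs_of_nonneg (hk.nonneg _)]
      exact (hC _).trans (le_abs_self _)
    have h2 : |F (hh σ m)| ≤ |B| := (hB _ (radk_hh hk hσ hmem hc)).trans (le_abs_self _)
    exact mul_le_mul h1 h2 (abs_nonneg _) (abs_nonneg _)

lemma radk_int_cont (hk : RadK v m k) {F : Vec d → ℝ} (hF : Continuous F) :
    IntegrableOn (fun σ : Vec d => k (co m σ) * F (hh σ m)) {σ : Vec d | 0 < dot m σ} (surf d) := by
  obtain ⟨B, hB⟩ := (isCompact_closedBall (0 : Vec d) (1 / 2 * jb v)).exists_bound_of_continuousOn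
    hF.continuousOn
  refine radk_int hk hF.measurable (B := B) fun h hh' => ?_
  have h1 := hB h (by
    rw [mem_closedBall_zero_iff]
    refine le_trans ?_ hh'
    rw [pi_norm_le_iff_of_nonneg (len_nonneg h)]
    intro i
    rw [Real.norm_eq_abs]
    unfold len
    refine Real.abs_le_sqrt ?_
    unfold nsq
    exact Finset.single_le_sum (f := fun i => h i ^ 2) (fun j _ => sq_nonneg _)
      (Finset.mem_univ i))
  rwa [Real.norm_eq_abs] at h1

/-- monotonicity, only the ball `|h| ≤ ⟨v⟩/2` matters -/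
lemma radk_mono (hk : RadK v m k) {F G : Vec d → ℝ} (hF : Continuous F) (hG : Continuous G)
    (h : ∀ x, len x ≤ 1 / 2 * jb v → F x ≤ G x) :
    ∫ σ in {σ : Vec d | 0 < dot m σ}, k (co m σ) * F (hh σ m) ∂(surf d) ≤
      ∫ σ in {σ : Vec d | 0 < dot m σ}, k (co m σ) * G (hh σ m) ∂(surf d) := by
  refine integral_mono_ae (radk_int_cont hk hF) (radk_int_cont hk hG) ?_
  refine (ae_restrict_iff' (measurableSet_half m)).2 ?_
  filter_upwards [surf_ae] with σ hσ hmem
  by_cases hc : k (co m σ) = 0
  · rw [hc, zero_mul, zero_mul]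
  · exact mul_le_mul_of_nonneg_left (h _ (radk_hh hk hσ hmem hc)) (hk.nonneg _)

/-- symmetry `h ↦ -h` -/
lemma radk_sym (hd : 1 ≤ d) (hm : m ≠ 0) (k : ℝ → ℝ) (F : Vec d → ℝ) :
    ∫ σ in {σ : Vec d | 0 < dot m σ}, k (co m σ) * F (-(hh σ m)) ∂(surf d) =
      ∫ σ in {σ : Vec d | 0 < dot m σ}, k (co m σ) * F (hh σ m) ∂(surf d) := by
  have hk1 := nsq_dir hm
  have hmeas : Measurable (refl (dir m)) := (refl_preserving hd hk1).measurable
  let e : Vec d ≃ᵐ Vec d :=
    { toFun := refl (dir m)
      invFun := refl (dir m)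
      left_inv := refl_refl hk1
      right_inv := refl_refl hk1
      measurable_toFun := hmeas
      measurable_invFun := hmeas }
  have hemb : MeasurableEmbedding (refl (dir m)) := e.measurableEmbedding
  have h1 := (refl_preserving hd hk1).setIntegral_preimage_emb hemb
    (fun σ : Vec d => k (co m σ) * F (hh σ m)) {σ : Vec d | 0 < dot m σ}
  have hpre : (refl (dir m)) ⁻¹' {σ : Vec d | 0 < dot m σ} = {σ : Vec d | 0 < dot m σ} := by
    ext σ
    simp only [mem_preimage, Set.mem_ofPred_eq, dot_refl_dir hm]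
  rw [hpre] at h1
  rw [← h1]
  refine setIntegral_congr_fun (measurableSet_half m) fun σ hσ => ?_
  have h2 : co m (refl (dir m) σ) = co m σ := by
    unfold co
    rw [dot_refl_dir hm]
  have h3 : hh (refl (dir m) σ) m = -(hh σ m) := hh_refl hσ
  change k (co m σ) * F (-(hh σ m)) = k (co m (refl (dir m) σ)) * F (hh (refl (dir m) σ) m)
  rw [h2, h3]

end Pool.Agent.H48.PW
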