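import Pool.Agent.H48.PW.Defs
import Pool.Agent.H48.PL.Glob
import Pool.Agent.H82.CM.LowK
import Pool.Agent.H15.AV.Defs

/-!
# Module TailDef: the tail property
-/

set_option autoImplicit false

open MeasureTheory Set Filter Topology Pool.Agent.H25.Kin Pool.Agent.H82.BK Pool.Agent.H82.CM
open Pool.Agent.H48.PL Pool.Agent.H48.PI
open Pool.Agent.H15.AV (UNice gau)

namespace Pool.Agent.H48.PW

/-- **the tail property**: the time integral of the collision density `XT`, with the decay `V^(-r)`, `r > β` -/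
def TailT (d : ℕ) (a β m : ℝ) (b : ℝ → ℝ) : Prop := ∀ (e : Fin d) (M : ℝ),
  ∃ r K : ℝ, β < r ∧ 0 ≤ K ∧ ∀ (T : ℝ) (f : ℝ → Vec d → Vec d → ℝ), IsBoltzmannSol (1 + a) b T f →
    Planar e T f → GB M (f 0) → ∀ V : ℝ, 1 ≤ V → ∀ t₀ t : ℝ, 0 < t₀ → t₀ ≤ t → t < T →
    ∫ τ in t₀..t, (∫ x, XT a m V (f τ x) ∂(muD d)) ≤
      K * (V ^ (-r) * (1 + (t - t₀)) + (Hs (f t₀) - Hs (f t)))

end Pool.Agent.H48.PW
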