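import Pool.Agent.H48.PW.FinW
import Pool.Agent.H71.PX.Fin

/-!
# Module RegW: the region `1 < γ ≤ 1 + 2s`, `γ + 2s < 2`, `d ≥ 3`
-/

set_option autoImplicit false

open MeasureTheory Set Filter Topology Pool.Agent.H25.Kin Pool.Agent.H82.BK Pool.Agent.H82.CM
open Pool.Agent.H48.PL Pool.Agent.H48.PI Pool.Agent.H93.CM

namespace Pool.Agent.H48.PW

variable {d : ℕ}

/-- choice of the exponent `β`: continuity at `β = 2s`, where `a + β < 1` and `β/(2s)(1+β) + a = 1 + 2s + a < 2` -/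
lemma exists_WP {s a : ℝ} (hs : 0 < s) (ha : 0 < a) (has : a ≤ 2 * s) (h : a + 2 * s < 1) :
    ∃ β : ℝ, WP s a β β ∧ β / (2 * s) * (1 + β) + a < 2 := by
  have hc : Tendsto (fun β : ℝ => β / (2 * s) * (1 + β) + a) (𝓝[>] (2 * s)) (𝓝 (1 + 2 * s + a)) := by
    have h1 : Continuous fun β : ℝ => β / (2 * s) * (1 + β) + a := by fun_prop
    have h2 := h1.tendsto (2 * s)
    have h3 : (2 * s) / (2 * s) * (1 + 2 * s) + a = 1 + 2 * s + a := by
      rw [div_self (by positivity), one_mul]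
    rw [h3] at h2
    exact h2.mono_left nhdsWithin_le_nhds
  have e1 : ∀ᶠ β in 𝓝[>] (2 * s), β / (2 * s) * (1 + β) + a < 2 :=
    hc.eventually (gt_mem_nhds (by linarith))
  have e2 : ∀ᶠ β in 𝓝[>] (2 * s), β < 1 - a :=
    (gt_mem_nhds (by linarith : 2 * s < 1 - a)).filter_mono nhdsWithin_le_nhds
  have e3 : ∀ᶠ β in 𝓝[>] (2 * s), 2 * s < β := eventually_mem_nhdsWithin
  obtain ⟨β, h1, h2, h3⟩ := (e1.and (e2.and e3)).exists
  exact ⟨β, ⟨hs, ha, h3, by linarith, le_rfl, by linarith, by linarith⟩, h1⟩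

/-- `d ≥ 3`, `1 < γ ≤ 1 + 2s`, `γ + 2s < 2` -/
theorem reg_low {s γ : ℝ} (hd : 3 ≤ d) (hs : 0 < s) (h1 : 1 < γ) (h2 : γ ≤ 1 + 2 * s) (h3 : γ + 2 * s < 2)
    {b : ℝ → ℝ} (hb : IsKernel d s b) : Reg d s γ b := by
  obtain ⟨β, W, hQ⟩ := exists_WP (s := s) (a := γ - 1) hs (by linarith) (by linarith) (by linarith)
  have e : γ = 1 + (γ - 1) := by ring
  obtain ⟨C, Ca, cb, HL⟩ := exists_hypL (by omega : 2 ≤ d) hs (by linarith : s < 1) (by linarith) h3.le hb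
  rw [e] at HL
  rw [e]
  exact reg_of_tail (by omega) hb W (Or.inl hd) (Pool.Agent.H71.PX.tail_T HL W hQ)

end Pool.Agent.H48.PW
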