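import Pool.Agent.H48.PW.Defs
import Pool.Agent.H82.BK.Geo

/-!
# Module RotP: averaging over the rotations of a plane perpendicular to `m`

`rot p q t` is the rotation by `t` in the plane of the orthonormal vectors `p`, `q`.
* `dot_rot_p`, `nsq_rot`: direct computation (`nsq_add`, `dot_add`, ...).
* `rot_preserving`: `rot p q t = refl (cos (t/2) p + sin (t/2) q) ∘ refl p` (check it on `z`: both sides are linear combinations of `z`, `p`, `q`), `refl_preserving` (H25/Kin/Cap).
* `hh_rot`: `rot p q t m = m` (`p, q ⟂ m`), so `dot m (rot σ) = dot (rot m) (rot σ) = dot m σ`, `co m (rot σ) = co m σ`, `hh (rot σ) m = rot (hh σ m)` (linearity).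
* `rot_avg`: for each `t` the integral over the half sphere of `k (co) F (hh)` is the one of `k(co) F (rot t (hh))` (`rot_preserving`, `setIntegral` by indicator or `MeasurePreserving.setIntegral_preimage_emb`; or
  through `MeasurePreserving.integral_comp` with the continuous equivalence); integrate over `t` and exchange (Fubini; `k (co) ≠ 0` only for `nsq (hh) ≤ (1+nsq v)/4` (`nsq_hh`, `RadK.supp`), there `F` is bounded
  (continuous on a compact ball), `k ≤ B`, the half sphere has finite measure).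
-/

set_option autoImplicit false

open MeasureTheory Set Filter Topology Real Pool.Agent.H25.Kin Pool.Agent.H82.BK Pool.Agent.H48.PL

namespace Pool.Agent.H48.PW

variable {d : ℕ}

/-- rotation by the angle `t` in the plane of `p`, `q` -/
noncomputable def rot (p q : Vec d) (t : ℝ) (z : Vec d) : Vec d :=
  z + ((cos t - 1) * dot z p - sin t * dot z q) • p + (sin t * dot z p + (cos t - 1) * dot z q) • q

/-- an orthonormal pair perpendicular to `m` -/
structure OPair (m p q : Vec d) : Prop where
  p1 : nsq p = 1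
  q1 : nsq q = 1
  pq : dot p q = 0
  mp : dot m p = 0
  mq : dot m q = 0

private lemma dot_rot (p q : Vec d) (t : ℝ) (y z : Vec d) :
    dot y (rot p q t z) = dot y z + ((cos t - 1) * dot z p - sin t * dot z q) * dot y p +
      (sin t * dot z p + (cos t - 1) * dot z q) * dot y q := by
  unfold rot
  rw [dot_add, dot_add, dot_smul, dot_smul]

lemma dot_rot_p {m p q : Vec d} (h : OPair m p q) (t : ℝ) (z : Vec d) :
    dot (rot p q t z) p = cos t * dot z p - sin t * dot z q := by
  have hp : dot p p = 1 := by rw [dot_self, h.p1]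
  rw [dot_comm, dot_rot, hp, h.pq, dot_comm p z]
  ring

private lemma dot_rot_q {m p q : Vec d} (h : OPair m p q) (t : ℝ) (z : Vec d) :
    dot (rot p q t z) q = sin t * dot z p + cos t * dot z q := by
  have hq : dot q q = 1 := by rw [dot_self, h.q1]
  rw [dot_comm, dot_rot, hq, dot_comm q p, h.pq, dot_comm q z]
  ring

lemma dot_rot_of_perp {m p q : Vec d} (h : OPair m p q) (t : ℝ) {y : Vec d} (hp : dot y p = 0)
    (hq : dot y q = 0) (z : Vec d) : dot y (rot p q t z) = dot y z := by
  rw [dot_rot, hp, hq]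
  ring

lemma nsq_rot {m p q : Vec d} (h : OPair m p q) (t : ℝ) (z : Vec d) : nsq (rot p q t z) = nsq z := by
  rw [← dot_self, dot_rot, dot_comm (rot p q t z) z, dot_rot_p h, dot_rot_q h, dot_rot, dot_self]
  linear_combination (dot z p ^ 2 + dot z q ^ 2) * Real.sin_sq_add_cos_sq t

lemma rot_cont (p q : Vec d) : Continuous fun x : ℝ × Vec d => rot p q x.1 x.2 := by
  have h1 : ∀ r : Vec d, Continuous fun x : ℝ × Vec d => dot x.2 r := by
    intro r
    unfold dot
    fun_prop
  have hp := h1 p
  have hq := h1 q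
  unfold rot
  fun_prop

private lemma rot_smul (p q : Vec d) (t c : ℝ) (z : Vec d) :
    rot p q t (c • z) = c • rot p q t z := by
  unfold rot
  rw [smul_dot, smul_dot]
  ext i
  simp only [Pi.add_apply, Pi.smul_apply, smul_eq_mul]
  ring

private lemma rot_sub (p q : Vec d) (t : ℝ) (y z : Vec d) :
    rot p q t (y - z) = rot p q t y - rot p q t z := by
  unfold rot
  rw [dot_comm (y - z) p, dot_comm (y - z) q, dot_sub, dot_sub, dot_comm p y, dot_comm p z,
    dot_comm q y, dot_comm q z]
  ext i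
  simp only [Pi.add_apply, Pi.sub_apply, Pi.smul_apply, smul_eq_mul]
  ring

private lemma rot_self {m p q : Vec d} (h : OPair m p q) (t : ℝ) : rot p q t m = m := by
  unfold rot
  rw [h.mp, h.mq]
  simp

private lemma rot_eq_refl {m p q : Vec d} (h : OPair m p q) (t : ℝ) (z : Vec d) :
    refl (cos (t / 2) • p + sin (t / 2) • q) (refl p z) = rot p q t z := by
  have hp : dot p p = 1 := by rw [dot_self, h.p1]
  have e1 : cos t = 2 * cos (t / 2) ^ 2 - 1 := by
    rw [← Real.cos_two_mul]; congr 1; ring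
  have e2 : sin t = 2 * sin (t / 2) * cos (t / 2) := by
    rw [← Real.sin_two_mul]; congr 1; ring
  have e3 := Real.sin_sq_add_cos_sq (t / 2)
  have k1 : ∀ y : Vec d, dot (cos (t / 2) • p + sin (t / 2) • q) y =
      cos (t / 2) * dot y p + sin (t / 2) * dot y q := by
    intro y
    rw [dot_comm, dot_add, dot_smul, dot_smul]
  rw [refl_apply, refl_apply, k1]
  have k2 : dot ((2 * dot p z) • p - z) p = dot z p := by
    rw [dot_comm, dot_sub, dot_smul, hp, dot_comm p z]
    ring
  have k3 : dot ((2 * dot p z) • p - z) q = - dot z q := by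
    rw [dot_comm, dot_sub, dot_smul, dot_comm q p, h.pq, dot_comm q z]
    ring
  rw [k2, k3]
  unfold rot
  rw [dot_comm p z, e1, e2]
  ext i
  simp only [Pi.add_apply, Pi.sub_apply, Pi.smul_apply, smul_eq_mul]
  linear_combination (-2 * dot z q * q i) * e3

private lemma rot_preserving (hd : 1 ≤ d) {m p q : Vec d} (h : OPair m p q) (t : ℝ) :
    MeasurePreserving (rot p q t) (surf d) (surf d) := by
  have hk : nsq (cos (t / 2) • p + sin (t / 2) • q) = 1 := by
    rw [nsq_add, nsq_smul, nsq_smul, smul_dot, dot_smul, h.pq, h.p1, h.q1]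
    linear_combination Real.sin_sq_add_cos_sq (t / 2)
  have h1 := (refl_preserving hd hk).comp (refl_preserving hd h.p1)
  have h2 : (refl (cos (t / 2) • p + sin (t / 2) • q) : Vec d → Vec d) ∘ (refl p : Vec d → Vec d) =
      rot p q t := by
    funext z
    exact rot_eq_refl h t z
  rw [h2] at h1
  exact h1

private lemma co_rot {m p q : Vec d} (h : OPair m p q) (t : ℝ) (σ : Vec d) :
    co m (rot p q t σ) = co m σ := by
  unfold co
  rw [dot_rot_of_perp h t h.mp h.mq]

private lemma hh_rot {m p q : Vec d} (h : OPair m p q) (t : ℝ) (σ : Vec d) :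
    hh (rot p q t σ) m = rot p q t (hh σ m) := by
  unfold hh
  rw [dot_rot_of_perp h t h.mp h.mq, rot_sub, rot_smul, rot_self h]

private lemma ball_bdd {F : Vec d → ℝ} (hF : Continuous F) (R : ℝ) :
    ∃ M, 0 ≤ M ∧ ∀ z, nsq z ≤ R → |F z| ≤ M := by
  obtain ⟨M, hM⟩ := (isCompact_closedBall (0 : Vec d) (Real.sqrt R)).exists_bound_of_continuousOn
    hF.continuousOn
  refine ⟨max M 0, le_max_right _ _, fun z hz => ?_⟩
  have h1 : z ∈ Metric.closedBall (0 : Vec d) (Real.sqrt R) := by
    rw [mem_closedBall_zero_iff, pi_norm_le_iff_of_nonneg (Real.sqrt_nonneg _)]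
    intro i
    have h2 : z i ^ 2 ≤ nsq z := by
      unfold nsq
      exact Finset.single_le_sum (f := fun i => z i ^ 2) (fun j _ => sq_nonneg (z j))
        (Finset.mem_univ i)
    rw [Real.norm_eq_abs]
    exact Real.abs_le_sqrt (h2.trans hz)
  exact (hM z h1).trans (le_max_left _ _)

private lemma bnd {v m : Vec d} {k : ℝ → ℝ} (hk : RadK v m k) {B M : ℝ} (hB : ∀ c, k c ≤ B)
    (hM : 0 ≤ M) {F : Vec d → ℝ} (hF : ∀ z, nsq z ≤ (1 + nsq v) / 4 → |F z| ≤ M) {σ z : Vec d}
    (hσ : nsq σ = 1) (hσm : 0 < dot m σ) (hz : nsq z = nsq (hh σ m)) :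
    ‖k (co m σ) * F z‖ ≤ B * M := by
  have hB0 : 0 ≤ B := (hk.nonneg 0).trans (hB 0)
  rcases eq_or_ne (k (co m σ)) 0 with h0 | h0
  · rw [h0, zero_mul, norm_zero]
    positivity
  · obtain ⟨h1, h2⟩ := hk.supp _ h0
    rw [norm_mul, Real.norm_of_nonneg (hk.nonneg _), Real.norm_eq_abs]
    refine mul_le_mul (hB _) (hF z ?_) (abs_nonneg _) hB0
    rw [hz, nsq_hh hσ hσm, ← mul_div_assoc, div_le_iff₀ (by positivity)]
    linarith

private lemma meas_hh (m : Vec d) : Measurable fun σ : Vec d => hh σ m := by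
  unfold hh
  exact ((measurable_const.div (dot_cont m).measurable).smul measurable_id).sub measurable_const

private lemma inv_t (hd1 : 1 ≤ d) {v m p q : Vec d} (h : OPair m p q) {k : ℝ → ℝ} (hk : RadK v m k)
    {F : Vec d → ℝ} (hF : Continuous F) (t : ℝ) :
    ∫ σ in {σ : Vec d | 0 < dot m σ}, k (co m σ) * F (rot p q t (hh σ m)) ∂(surf d) =
      ∫ σ in {σ : Vec d | 0 < dot m σ}, k (co m σ) * F (hh σ m) ∂(surf d) := by
  have hS : MeasurableSet {σ : Vec d | 0 < dot m σ} := measurableSet_half m
  have mco : Measurable fun σ : Vec d => co m σ :=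
    measurable_co.comp (measurable_const.prodMk measurable_id)
  have mhh : Measurable fun σ : Vec d => hh σ m := meas_hh m
  have hmp := rot_preserving hd1 h t
  rw [← integral_indicator hS, ← integral_indicator hS]
  have hmeas : Measurable ({σ : Vec d | 0 < dot m σ}.indicator
      fun σ => k (co m σ) * F (hh σ m)) :=
    ((hk.meas.comp mco).mul (hF.measurable.comp mhh)).indicator hS
  conv_rhs => rw [← hmp.map_eq]
  rw [integral_map hmp.measurable.aemeasurable hmeas.aestronglyMeasurable]
  refine integral_congr_ae (Eventually.of_forall fun σ => ?_)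
  have hdot : dot m (rot p q t σ) = dot m σ := dot_rot_of_perp h t h.mp h.mq σ
  by_cases hσ : 0 < dot m σ
  · have h1 : σ ∈ {σ : Vec d | 0 < dot m σ} := hσ
    have h2 : rot p q t σ ∈ {σ : Vec d | 0 < dot m σ} := by
      rw [mem_ofPred_eq, hdot]
      exact hσ
    simp only [indicator_of_mem h1, indicator_of_mem h2, co_rot h, hh_rot h]
  · have h1 : σ ∉ {σ : Vec d | 0 < dot m σ} := hσ
    have h2 : rot p q t σ ∉ {σ : Vec d | 0 < dot m σ} := by
      rw [mem_ofPred_eq, hdot]
      exact hσ
    simp only [indicator_of_notMem h1, indicator_of_notMem h2]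

private lemma integ {v m p q : Vec d} (h : OPair m p q) {k : ℝ → ℝ} (hk : RadK v m k)
    {F : Vec d → ℝ} (hF : Continuous F) :
    Integrable (Function.uncurry fun (t : ℝ) (σ : Vec d) =>
      k (co m σ) * F (rot p q t (hh σ m))) ((volume.restrict (Set.uIoc 0 (2 * π))).prod
        ((surf d).restrict {σ : Vec d | 0 < dot m σ})) := by
  have hS : MeasurableSet {σ : Vec d | 0 < dot m σ} := measurableSet_half m
  have mco : Measurable fun σ : Vec d => co m σ :=
    measurable_co.comp (measurable_const.prodMk measurable_id)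
  have mhh : Measurable fun σ : Vec d => hh σ m := meas_hh m
  obtain ⟨B, hB⟩ := hk.bdd
  obtain ⟨M, hM0, hM⟩ := ball_bdd hF ((1 + nsq v) / 4)
  have mF : Measurable fun x : ℝ × Vec d => k (co m x.2) * F (rot p q x.1 (hh x.2 m)) := by
    refine (hk.meas.comp (mco.comp measurable_snd)).mul (hF.measurable.comp ?_)
    exact (rot_cont p q).measurable.comp (measurable_fst.prodMk (mhh.comp measurable_snd))
  have hfin : IsFiniteMeasure ((volume : Measure ℝ).restrict (Set.uIoc 0 (2 * π))) := by
    rw [Set.uIoc_of_le (by positivity)]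
    infer_instance
  refine Integrable.of_bound (C := B * M) mF.aestronglyMeasurable ?_
  have hae : ∀ᵐ σ ∂((surf d).restrict {σ : Vec d | 0 < dot m σ}), nsq σ = 1 ∧ 0 < dot m σ :=
    (ae_restrict_of_ae surf_ae).and (ae_restrict_mem hS)
  have hae2 := (Measure.quasiMeasurePreserving_snd
    (μ := (volume : Measure ℝ).restrict (Set.uIoc 0 (2 * π)))
    (ν := (surf d).restrict {σ : Vec d | 0 < dot m σ})).ae hae
  filter_upwards [hae2] with x hx
  exact bnd hk hB hM0 hM hx.1 hx.2 (nsq_rot h _ _)

theorem rot_avg (hd : 2 ≤ d) {v m p q : Vec d} (h : OPair m p q) {k : ℝ → ℝ} (hk : RadK v m k)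
    {F : Vec d → ℝ} (hF : Continuous F) :
    ∫ σ in {σ : Vec d | 0 < dot m σ}, k (co m σ) * F (hh σ m) ∂(surf d) =
      ∫ σ in {σ : Vec d | 0 < dot m σ}, k (co m σ) *
        ((2 * π)⁻¹ * ∫ t in (0 : ℝ)..(2 * π), F (rot p q t (hh σ m))) ∂(surf d) := by
  have hd1 : 1 ≤ d := by omega
  have h1 := inv_t hd1 h hk hF
  have h2 := intervalIntegral_integral_swap (integ h hk hF)
  have h3 : ∫ t in (0 : ℝ)..(2 * π), ∫ σ in {σ : Vec d | 0 < dot m σ},
      k (co m σ) * F (rot p q t (hh σ m)) ∂(surf d) =
      (2 * π) * ∫ σ in {σ : Vec d | 0 < dot m σ}, k (co m σ) * F (hh σ m) ∂(surf d) := by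
    simp_rw [h1]
    rw [intervalIntegral.integral_const, sub_zero, smul_eq_mul]
  rw [h3] at h2
  have hpi : (2 * π) ≠ 0 := by positivity
  have h4 : ∀ I J : ℝ, (2 * π) * I = J → I = (2 * π)⁻¹ * J := by
    intro I J hIJ
    rw [← hIJ, ← mul_assoc, inv_mul_cancel₀ hpi, one_mul]
  rw [h4 _ _ h2, ← integral_const_mul]
  refine integral_congr_ae (Eventually.of_forall fun σ => ?_)
  have h5 : ∫ t in (0 : ℝ)..(2 * π), k (co m σ) * F (rot p q t (hh σ m)) =
      k (co m σ) * ∫ t in (0 : ℝ)..(2 * π), F (rot p q t (hh σ m)) :=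
    intervalIntegral.integral_const_mul _ _
  simp only [h5]
  ring

end Pool.Agent.H48.PW
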