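import Pool.Agent.H48.PW.SpE
import Pool.Agent.H48.PW.PhiD
import Pool.Agent.H48.PW.OmD

/-!
# Module SpC: the one-sided condition for the cusps

`y = v - w`, `x = hh σ m` (`len x ≤ ⟨v⟩/2` where `k (co) ≠ 0`), `u = v + x`, `Ω = om4 v w = min 1 (jb w/jb v)^4`. `PhS(u,w) - PhS(v,w) = Ω(v) (φ(y+x) - φ(y)) + (Ω(u)-Ω(v)) φ(y+x)`, the same for `PhE` with `|·|^a`; the second
terms are `≤ K⟨w⟩^a |x|/⟨v⟩` (`om4_lip`, `om4_abs`).
* odd part: `∫ k (φ(y+x) - φ(y)) = (1/2) ∫ k (φ(y+x)+φ(y-x)-2φ(y)) ≤ (K/2) ∫ k mu` (`radk_sym`, `phi_snd`); times `|t| ≤ 1/2` and `Ω(v)`.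
* even part: `sp_even`: `-M₁ Ω(v) ∫ k (..) ≤ -M₁ c Ω(v) ∫ k mu`.
* squares: `(|ΔPhS|+|ΔPhE|)² ≤ 8 Ω(v)² K² |x|² max^(2a-2) + 8 K²⟨w⟩^(2a) (|x|/⟨v⟩)²` (`phi_lip`), and `⟨w⟩^(-a) Ω(v)² |x|² max^(2a-2) = Ω(v) mu · (Ω(v) max^a ⟨w⟩^(-a)) ≤ K Ω(v) mu` (`om4_max`, `max = max (len y) (len x)`).
Take `M₁ = (K/4 + 1)/c` and `c₂` so small that the coefficient of `Ω(v) ∫ k mu`, `K/4 - M₁ c + c₂ K'`, is `≤ 0`. Everything is continuous in `x`, so `radk_int_cont` applies.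
-/

set_option autoImplicit false

open MeasureTheory Set Filter Topology Pool.Agent.H25.Kin Pool.Agent.H82.BK Pool.Agent.H48.PL

namespace Pool.Agent.H48.PW

variable {d : ℕ} {a : ℝ}

private lemma PhS_eq (e : Fin d) (a : ℝ) (v w : Vec d) : PhS e a v w = om4 v w * phi e a (v - w) := rfl

private lemma PhE_eq (a : ℝ) (v w : Vec d) : PhE a v w = om4 v w * len (v - w) ^ a := rfl

private lemma lin4 {α : Type*} [MeasurableSpace α] {ν : Measure α} {f₁ f₂ f₃ f₄ : α → ℝ}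
    (h₁ : Integrable f₁ ν) (h₂ : Integrable f₂ ν) (h₃ : Integrable f₃ ν) (h₄ : Integrable f₄ ν)
    (A B C D : ℝ) : ∫ x, (A * f₁ x - B * f₂ x + C * f₃ x + D * f₄ x) ∂ν =
      A * ∫ x, f₁ x ∂ν - B * ∫ x, f₂ x ∂ν + C * ∫ x, f₃ x ∂ν + D * ∫ x, f₄ x ∂ν := by
  have i1 := h₁.const_mul A
  have i2 := h₂.const_mul B
  have i3 := h₃.const_mul C
  have i4 := h₄.const_mul D
  have e1 : ∫ x, (A * f₁ x - B * f₂ x + C * f₃ x + D * f₄ x) ∂ν =
      ∫ x, (A * f₁ x - B * f₂ x + C * f₃ x) ∂ν + ∫ x, D * f₄ x ∂ν :=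
    integral_add ((i1.sub i2).add i3) i4
  have e2 : ∫ x, (A * f₁ x - B * f₂ x + C * f₃ x) ∂ν =
      ∫ x, (A * f₁ x - B * f₂ x) ∂ν + ∫ x, C * f₃ x ∂ν := integral_add (i1.sub i2) i3
  have e3 : ∫ x, (A * f₁ x - B * f₂ x) ∂ν = ∫ x, A * f₁ x ∂ν - ∫ x, B * f₂ x ∂ν :=
    integral_sub i1 i2
  rw [e1, e2, e3, integral_const_mul, integral_const_mul, integral_const_mul, integral_const_mul]

/-- the pointwise bound of the squares -/
private lemma sq_bound {a : ℝ} (ha : 0 < a) {Ω Φ ρ r J q B K₂ K₃ : ℝ} (hΩ : 0 ≤ Ω)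
    (hρ : 0 ≤ ρ) (hr : 0 ≤ r) (hJ : 0 < J) (hq : 0 ≤ q) (hq1 : q ≤ 1) (hB : 0 ≤ B) (hK₃ : 0 ≤ K₃)
    (hΦ0 : 0 ≤ Φ) (hΦ : Φ ≤ 2 * (Ω * (K₃ * (r * max ρ r ^ (a - 1))) + B * J ^ a * q))
    (hmax : Ω * max ρ r ^ a ≤ K₂ * J ^ a) :
    J ^ (-a) * Φ ^ 2 ≤ 8 * K₃ ^ 2 * K₂ * (Ω * mu a ρ r) + 8 * B ^ 2 * (J ^ a * q) := by
  have hJa : 0 < J ^ a := Real.rpow_pos_of_pos hJ a
  have hJn : 0 < J ^ (-a) := Real.rpow_pos_of_pos hJ _
  have hJJ : J ^ (-a) * J ^ a = 1 := by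
    rw [← Real.rpow_add hJ, neg_add_cancel, Real.rpow_zero]
  set A := Ω * (K₃ * (r * max ρ r ^ (a - 1))) with hA
  set D := B * J ^ a * q with hD
  have hm0 : 0 ≤ max ρ r := le_max_of_le_left hρ
  have hA0 : 0 ≤ A := by
    rw [hA]
    have := Real.rpow_nonneg hm0 (a - 1)
    positivity
  have hD0 : 0 ≤ D := by rw [hD]; positivity
  have h1 : Φ ^ 2 ≤ 8 * A ^ 2 + 8 * D ^ 2 := by
    have h2 : Φ ^ 2 ≤ (2 * (A + D)) ^ 2 := pow_le_pow_left₀ hΦ0 hΦ 2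
    nlinarith [sq_nonneg (A - D)]
  have h3 : J ^ (-a) * A ^ 2 ≤ K₃ ^ 2 * K₂ * (Ω * mu a ρ r) := by
    have h4 : A ^ 2 = K₃ ^ 2 * Ω * (Ω * max ρ r ^ a) * mu a ρ r := by
      rw [hA]
      unfold mu
      rcases hm0.eq_or_lt with h5 | h5
      · have h6 : r = 0 := le_antisymm (by rw [h5]; exact le_max_right _ _) hr
        rw [h6]
        ring
      · have h7 : (max ρ r ^ (a - 1)) ^ 2 = max ρ r ^ a * max ρ r ^ (a - 2) := by
          rw [← Real.rpow_natCast, ← Real.rpow_mul h5.le, ← Real.rpow_add h5]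
          congr 1
          push_cast
          ring
        calc (Ω * (K₃ * (r * max ρ r ^ (a - 1)))) ^ 2
            = K₃ ^ 2 * Ω ^ 2 * r ^ 2 * (max ρ r ^ (a - 1)) ^ 2 := by ring
          _ = _ := by rw [h7]; ring
    have hmu : 0 ≤ mu a ρ r := mu_nonneg a hρ
    calc J ^ (-a) * A ^ 2 = J ^ (-a) * (K₃ ^ 2 * Ω * mu a ρ r) * (Ω * max ρ r ^ a) := by
          rw [h4]; ring
      _ ≤ J ^ (-a) * (K₃ ^ 2 * Ω * mu a ρ r) * (K₂ * J ^ a) := by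
          refine mul_le_mul_of_nonneg_left hmax ?_
          positivity
      _ = (J ^ (-a) * J ^ a) * (K₃ ^ 2 * K₂ * (Ω * mu a ρ r)) := by ring
      _ = _ := by rw [hJJ, one_mul]
  have h5 : J ^ (-a) * D ^ 2 ≤ B ^ 2 * (J ^ a * q) := by
    have h6 : J ^ (-a) * D ^ 2 = (J ^ (-a) * J ^ a) * (B ^ 2 * J ^ a * q ^ 2) := by
      rw [hD]; ring
    rw [h6, hJJ, one_mul]
    have h7 : q ^ 2 ≤ q := by nlinarith
    calc B ^ 2 * J ^ a * q ^ 2 ≤ B ^ 2 * J ^ a * q := mul_le_mul_of_nonneg_left h7 (by positivity)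
      _ = _ := by ring
  calc J ^ (-a) * Φ ^ 2 ≤ J ^ (-a) * (8 * A ^ 2 + 8 * D ^ 2) :=
        mul_le_mul_of_nonneg_left h1 hJn.le
    _ = 8 * (J ^ (-a) * A ^ 2) + 8 * (J ^ (-a) * D ^ 2) := by ring
    _ ≤ 8 * (K₃ ^ 2 * K₂ * (Ω * mu a ρ r)) + 8 * (B ^ 2 * (J ^ a * q)) := by linarith
    _ = _ := by ring

/-- the pointwise bound -/
private lemma point_bound {a : ℝ} (ha : 0 < a) {Ω Ω' φ φ' ψ ψ' t M₁ c₂ ρ r J q K₁ K₂ K₃ : ℝ}
    (hΩ : 0 ≤ Ω) (hρ : 0 ≤ ρ) (hr : 0 ≤ r) (hJ : 0 < J) (hq : 0 ≤ q) (hq1 : q ≤ 1)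
    (hK₁ : 0 ≤ K₁) (hK₂ : 0 ≤ K₂) (hK₃ : 0 ≤ K₃) (hM : 0 ≤ M₁) (hc₂ : 0 ≤ c₂) (ht : |t| ≤ 1 / 2)
    (hlip : |Ω' - Ω| ≤ K₁ * (Ω * q)) (hmax : Ω * max ρ r ^ a ≤ K₂ * J ^ a)
    (hφ' : |φ'| ≤ ψ') (hψ' : 0 ≤ ψ') (hψ : Ω * ψ' ≤ K₂ * J ^ a)
    (hφd : |φ' - φ| ≤ K₃ * (r * max ρ r ^ (a - 1))) (hψd : |ψ' - ψ| ≤ K₃ * (r * max ρ r ^ (a - 1))) :
    t * (Ω' * φ' - Ω * φ) - M₁ * (Ω' * ψ' - Ω * ψ) +
        c₂ * J ^ (-a) * (|Ω' * φ' - Ω * φ| + |Ω' * ψ' - Ω * ψ|) ^ 2 ≤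
      t * Ω * (φ' - φ) - M₁ * Ω * (ψ' - ψ) + c₂ * (8 * K₃ ^ 2 * K₂) * Ω * mu a ρ r +
        ((1 / 2 + M₁) * (K₁ * K₂) + c₂ * (8 * (K₁ * K₂) ^ 2)) * J ^ a * q := by
  have hJa : 0 < J ^ a := Real.rpow_pos_of_pos hJ a
  have e1 : Ω' * φ' - Ω * φ = Ω * (φ' - φ) + (Ω' - Ω) * φ' := by ring
  have e2 : Ω' * ψ' - Ω * ψ = Ω * (ψ' - ψ) + (Ω' - Ω) * ψ' := by ring
  have b2 : |(Ω' - Ω) * ψ'| ≤ K₁ * K₂ * J ^ a * q := by
    rw [abs_mul, abs_of_nonneg hψ']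
    calc |Ω' - Ω| * ψ' ≤ K₁ * (Ω * q) * ψ' := mul_le_mul_of_nonneg_right hlip hψ'
      _ = K₁ * q * (Ω * ψ') := by ring
      _ ≤ K₁ * q * (K₂ * J ^ a) := mul_le_mul_of_nonneg_left hψ (by positivity)
      _ = _ := by ring
  have b1 : |(Ω' - Ω) * φ'| ≤ K₁ * K₂ * J ^ a * q := by
    refine le_trans ?_ b2
    rw [abs_mul, abs_mul, abs_of_nonneg hψ']
    exact mul_le_mul_of_nonneg_left hφ' (abs_nonneg _)
  have c1 : t * ((Ω' - Ω) * φ') ≤ 1 / 2 * (K₁ * K₂ * J ^ a * q) := by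
    calc t * ((Ω' - Ω) * φ') ≤ |t * ((Ω' - Ω) * φ')| := le_abs_self _
      _ = |t| * |(Ω' - Ω) * φ'| := abs_mul _ _
      _ ≤ 1 / 2 * (K₁ * K₂ * J ^ a * q) := mul_le_mul ht b1 (abs_nonneg _) (by norm_num)
  have c2 : -(M₁ * ((Ω' - Ω) * ψ')) ≤ M₁ * (K₁ * K₂ * J ^ a * q) := by
    rw [← mul_neg]
    exact mul_le_mul_of_nonneg_left ((neg_le_abs _).trans b2) hM
  have d1 : |Ω' * φ' - Ω * φ| ≤ Ω * (K₃ * (r * max ρ r ^ (a - 1))) + K₁ * K₂ * J ^ a * q := by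
    rw [e1]
    refine (abs_add_le _ _).trans (add_le_add ?_ b1)
    rw [abs_mul, abs_of_nonneg hΩ]
    exact mul_le_mul_of_nonneg_left hφd hΩ
  have d2 : |Ω' * ψ' - Ω * ψ| ≤ Ω * (K₃ * (r * max ρ r ^ (a - 1))) + K₁ * K₂ * J ^ a * q := by
    rw [e2]
    refine (abs_add_le _ _).trans (add_le_add ?_ b2)
    rw [abs_mul, abs_of_nonneg hΩ]
    exact mul_le_mul_of_nonneg_left hψd hΩ
  have h1 := sq_bound ha hΩ hρ hr hJ hq hq1 (mul_nonneg hK₁ hK₂) hK₃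
    (add_nonneg (abs_nonneg (Ω' * φ' - Ω * φ)) (abs_nonneg (Ω' * ψ' - Ω * ψ)))
    (by linarith) hmax
  have h2 : c₂ * J ^ (-a) * (|Ω' * φ' - Ω * φ| + |Ω' * ψ' - Ω * ψ|) ^ 2 ≤
      c₂ * (8 * K₃ ^ 2 * K₂ * (Ω * mu a ρ r) + 8 * (K₁ * K₂) ^ 2 * (J ^ a * q)) := by
    rw [mul_assoc]
    exact mul_le_mul_of_nonneg_left h1 hc₂
  have e3 : t * (Ω' * φ' - Ω * φ) = t * Ω * (φ' - φ) + t * ((Ω' - Ω) * φ') := by rw [e1]; ring
  have e4 : M₁ * (Ω' * ψ' - Ω * ψ) = M₁ * Ω * (ψ' - ψ) + M₁ * ((Ω' - Ω) * ψ') := by rw [e2]; ring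
  rw [e3, e4]
  have e5 : ((1 / 2 + M₁) * (K₁ * K₂) + c₂ * (8 * (K₁ * K₂) ^ 2)) * J ^ a * q =
      1 / 2 * (K₁ * K₂ * J ^ a * q) + M₁ * (K₁ * K₂ * J ^ a * q) +
        c₂ * (8 * (K₁ * K₂) ^ 2 * (J ^ a * q)) := by ring
  have e6 : c₂ * (8 * K₃ ^ 2 * K₂ * (Ω * mu a ρ r) + 8 * (K₁ * K₂) ^ 2 * (J ^ a * q)) =
      c₂ * (8 * K₃ ^ 2 * K₂) * Ω * mu a ρ r + c₂ * (8 * (K₁ * K₂) ^ 2 * (J ^ a * q)) := by ring
  rw [e6] at h2
  rw [e5]
  linarith

/-- block P: the one-sided condition for the cusps, `d ≥ 3` -/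
theorem sp_cusp3 (hd : 3 ≤ d) (ha : 0 < a) (ha1 : a < 1) (e : Fin d) :
    ∃ M₁ c₂ K : ℝ, 0 ≤ M₁ ∧ 0 < c₂ ∧ 0 ≤ K ∧ ∀ v w m : Vec d, m ≠ 0 → ∀ k : ℝ → ℝ, RadK v m k →
      ∀ t : ℝ, |t| ≤ 1 / 2 →
      ∫ σ in {σ : Vec d | 0 < dot m σ}, k (co m σ) *
        (t * (PhS e a (v + hh σ m) w - PhS e a v w) - M₁ * (PhE a (v + hh σ m) w - PhE a v w) +
          c₂ * jb w ^ (-a) * (|PhS e a (v + hh σ m) w - PhS e a v w| +
            |PhE a (v + hh σ m) w - PhE a v w|) ^ 2) ∂(surf d) ≤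
        K * jb w ^ a * ∫ σ in {σ : Vec d | 0 < dot m σ},
          k (co m σ) * min 1 (len (hh σ m) / jb v) ∂(surf d) := by
  obtain ⟨c, hc0, hc⟩ := sp_even hd ha ha1.le
  obtain ⟨K₁, hK₁, hlip⟩ := om4_lip (d := d)
  obtain ⟨K₂, hK₂, hmax⟩ := om4_max (d := d) ha.le ha1.le
  obtain ⟨K₃, hK₃, hphi⟩ := phi_lip (d := d) ha ha1.le
  obtain ⟨K₄, hK₄, hsnd⟩ := phi_snd (d := d) ha ha1.le
  refine ⟨(K₄ / 4 + 1) / c, 1 / (8 * K₃ ^ 2 * K₂ + 1),
    (1 / 2 + (K₄ / 4 + 1) / c) * (K₁ * K₂) + 1 / (8 * K₃ ^ 2 * K₂ + 1) * (8 * (K₁ * K₂) ^ 2),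
    by positivity, by positivity, by positivity, ?_⟩
  set M₁ := (K₄ / 4 + 1) / c with hM₁
  set c₂ := 1 / (8 * K₃ ^ 2 * K₂ + 1) with hc₂
  set K := (1 / 2 + M₁) * (K₁ * K₂) + c₂ * (8 * (K₁ * K₂) ^ 2) with hK
  have hM₁0 : 0 ≤ M₁ := by positivity
  have hc₂0 : 0 ≤ c₂ := by positivity
  have hM₁c : M₁ * c = K₄ / 4 + 1 := by
    rw [hM₁]
    field_simp
  have hc₂1 : c₂ * (8 * K₃ ^ 2 * K₂) ≤ 1 := by
    rw [hc₂, one_div, inv_mul_le_iff₀ (by positivity)]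
    linarith
  intro v w m hm k hk t ht
  have hJ := jb_pos w
  have hJv := jb_pos v
  -- continuity
  have cφ : Continuous fun x : Vec d => phi e a (v - w + x) :=
    (phi_cont ha ha1.le e).comp (continuous_const.add continuous_id)
  have cψ : Continuous fun x : Vec d => len (v - w + x) ^ a :=
    (continuous_len.comp (continuous_const.add continuous_id)).rpow_const fun x => Or.inr ha.le
  have cΩ : Continuous fun x : Vec d => om4 (v + x) w :=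
    (om4_cont w).comp (continuous_const.add continuous_id)
  have cmu : Continuous fun x : Vec d => mu a (len (v - w)) (len x) := mu_cont ha ha1.le _
  have cq : Continuous fun x : Vec d => min 1 (len x / jb v) :=
    continuous_const.min (continuous_len.div_const _)
  have hsub : ∀ x : Vec d, v + x - w = v - w + x := fun x => by abel
  have cS : Continuous fun x : Vec d => PhS e a (v + x) w - PhS e a v w := by
    simp only [PhS_eq, hsub]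
    exact (cΩ.mul cφ).sub continuous_const
  have cE : Continuous fun x : Vec d => PhE a (v + x) w - PhE a v w := by
    simp only [PhE_eq, hsub]
    exact (cΩ.mul cψ).sub continuous_const
  have cF : Continuous fun x : Vec d => t * (PhS e a (v + x) w - PhS e a v w) -
      M₁ * (PhE a (v + x) w - PhE a v w) + c₂ * jb w ^ (-a) *
        (|PhS e a (v + x) w - PhS e a v w| + |PhE a (v + x) w - PhE a v w|) ^ 2 :=
    ((continuous_const.mul cS).sub (continuous_const.mul cE)).add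
      (continuous_const.mul ((cS.abs.add cE.abs).pow 2))
  have cdφ : Continuous fun x : Vec d => phi e a (v - w + x) - phi e a (v - w) :=
    cφ.sub continuous_const
  have cdψ : Continuous fun x : Vec d => len (v - w + x) ^ a - len (v - w) ^ a :=
    cψ.sub continuous_const
  have cG : Continuous fun x : Vec d => t * om4 v w * (phi e a (v - w + x) - phi e a (v - w)) -
      M₁ * om4 v w * (len (v - w + x) ^ a - len (v - w) ^ a) +
      c₂ * (8 * K₃ ^ 2 * K₂) * om4 v w * mu a (len (v - w)) (len x) +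
      K * jb w ^ a * min 1 (len x / jb v) :=
    (((continuous_const.mul cdφ).sub (continuous_const.mul cdψ)).add
      (continuous_const.mul cmu)).add (continuous_const.mul cq)
  have h1 := radk_mono hk cF cG (fun x hx => by
    have hx' : len x ≤ 1 / 2 * jb v := hx
    have q0 : 0 ≤ len x / jb v := div_nonneg (len_nonneg x) hJv.le
    have q1 : len x / jb v ≤ 1 := by
      rw [div_le_one hJv]
      linarith
    rw [min_eq_right q1]
    have p1 := hphi e (v - w) x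
    have p2 := hmax v w x hx'
    have h2 := point_bound (t := t) (M₁ := M₁) (c₂ := c₂) ha (om4_nonneg v w) (len_nonneg (v - w)) (len_nonneg x) hJ q0 q1
      hK₁ hK₂ hK₃ hM₁0 hc₂0 ht (hlip v w x hx') p2.1 (phi_abs ha e (v - w + x))
      (Real.rpow_nonneg (len_nonneg _) _) p2.2 p1.1 p1.2
    simp only [PhS_eq, PhE_eq, hsub]
    exact h2)
  refine h1.trans ?_
  -- the integrals
  have iφ := radk_int_cont hk cdφ
  have iψ := radk_int_cont hk cdψ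
  have imu := radk_int_cont hk cmu
  have iq := radk_int_cont hk cq
  have h3 : ∫ σ in {σ : Vec d | 0 < dot m σ}, k (co m σ) *
      (t * om4 v w * (phi e a (v - w + hh σ m) - phi e a (v - w)) -
      M₁ * om4 v w * (len (v - w + hh σ m) ^ a - len (v - w) ^ a) +
      c₂ * (8 * K₃ ^ 2 * K₂) * om4 v w * mu a (len (v - w)) (len (hh σ m)) +
      K * jb w ^ a * min 1 (len (hh σ m) / jb v)) ∂(surf d) =
      t * om4 v w * (∫ σ in {σ : Vec d | 0 < dot m σ}, k (co m σ) *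
        (phi e a (v - w + hh σ m) - phi e a (v - w)) ∂(surf d)) -
      M₁ * om4 v w * (∫ σ in {σ : Vec d | 0 < dot m σ}, k (co m σ) *
        (len (v - w + hh σ m) ^ a - len (v - w) ^ a) ∂(surf d)) +
      c₂ * (8 * K₃ ^ 2 * K₂) * om4 v w * (∫ σ in {σ : Vec d | 0 < dot m σ}, k (co m σ) *
        mu a (len (v - w)) (len (hh σ m)) ∂(surf d)) +
      K * jb w ^ a * (∫ σ in {σ : Vec d | 0 < dot m σ}, k (co m σ) *
        min 1 (len (hh σ m) / jb v) ∂(surf d)) := by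
    rw [← lin4 iφ iψ imu iq (t * om4 v w) (M₁ * om4 v w) (c₂ * (8 * K₃ ^ 2 * K₂) * om4 v w)
      (K * jb w ^ a)]
    refine integral_congr_ae (Eventually.of_forall fun σ => ?_)
    beta_reduce
    ring
  rw [h3]
  -- odd part
  have h4 : |∫ σ in {σ : Vec d | 0 < dot m σ}, k (co m σ) *
        (phi e a (v - w + hh σ m) - phi e a (v - w)) ∂(surf d)| ≤
      K₄ / 2 * ∫ σ in {σ : Vec d | 0 < dot m σ}, k (co m σ) *
        mu a (len (v - w)) (len (hh σ m)) ∂(surf d) := by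
    have h5 := radk_sym (by omega : 1 ≤ d) hm k
      (fun x : Vec d => phi e a (v - w + x) - phi e a (v - w))
    have cn : Continuous fun x : Vec d => phi e a (v - w + -x) - phi e a (v - w) :=
      cdφ.comp continuous_neg
    have iN := radk_int_cont hk cn
    have h6 : ∫ σ in {σ : Vec d | 0 < dot m σ}, k (co m σ) *
        (phi e a (v - w + hh σ m) - phi e a (v - w)) ∂(surf d) =
        1 / 2 * ∫ σ in {σ : Vec d | 0 < dot m σ}, k (co m σ) *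
          (phi e a (v - w + hh σ m) + phi e a (v - w - hh σ m) - 2 * phi e a (v - w)) ∂(surf d) := by
      have h7 : ∫ σ in {σ : Vec d | 0 < dot m σ}, k (co m σ) *
          (phi e a (v - w + hh σ m) + phi e a (v - w - hh σ m) - 2 * phi e a (v - w)) ∂(surf d) =
          (∫ σ in {σ : Vec d | 0 < dot m σ}, k (co m σ) *
            (phi e a (v - w + hh σ m) - phi e a (v - w)) ∂(surf d)) +
          ∫ σ in {σ : Vec d | 0 < dot m σ}, k (co m σ) *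
            (phi e a (v - w + -(hh σ m)) - phi e a (v - w)) ∂(surf d) := by
        rw [← integral_add iφ iN]
        refine integral_congr_ae (Eventually.of_forall fun σ => ?_)
        beta_reduce
        rw [← sub_eq_add_neg (v - w) (hh σ m)]
        ring
      rw [h7, h5]
      ring
    rw [h6, abs_mul, abs_of_pos (by norm_num : (0 : ℝ) < 1 / 2)]
    have c2 : Continuous fun x : Vec d =>
        phi e a (v - w + x) + phi e a (v - w - x) - 2 * phi e a (v - w) :=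
      (cφ.add ((phi_cont ha ha1.le e).comp (continuous_const.sub continuous_id))).sub
        continuous_const
    have i2 := radk_int_cont hk c2
    have h8 : |∫ σ in {σ : Vec d | 0 < dot m σ}, k (co m σ) *
          (phi e a (v - w + hh σ m) + phi e a (v - w - hh σ m) - 2 * phi e a (v - w)) ∂(surf d)| ≤
        K₄ * ∫ σ in {σ : Vec d | 0 < dot m σ}, k (co m σ) *
          mu a (len (v - w)) (len (hh σ m)) ∂(surf d) := by
      rw [← integral_const_mul]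
      refine (abs_integral_le_integral_abs).trans ?_
      refine integral_mono i2.abs (imu.const_mul _) fun σ => ?_
      beta_reduce
      rw [abs_mul, abs_of_nonneg (hk.nonneg _)]
      calc k (co m σ) * |phi e a (v - w + hh σ m) + phi e a (v - w - hh σ m) -
            2 * phi e a (v - w)| ≤ k (co m σ) * (K₄ * mu a (len (v - w)) (len (hh σ m))) :=
            mul_le_mul_of_nonneg_left (hsnd e (v - w) (hh σ m)) (hk.nonneg _)
        _ = _ := by ring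
    linarith
  have h9 := hc v (v - w) m hm k hk
  set I := ∫ σ in {σ : Vec d | 0 < dot m σ}, k (co m σ) *
        mu a (len (v - w)) (len (hh σ m)) ∂(surf d) with hI
  have hI0 : 0 ≤ I := integral_nonneg fun σ =>
    mul_nonneg (hk.nonneg _) (mu_nonneg a (len_nonneg _))
  set P := ∫ σ in {σ : Vec d | 0 < dot m σ}, k (co m σ) *
        (phi e a (v - w + hh σ m) - phi e a (v - w)) ∂(surf d) with hP
  set Q := ∫ σ in {σ : Vec d | 0 < dot m σ}, k (co m σ) *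
        (len (v - w + hh σ m) ^ a - len (v - w) ^ a) ∂(surf d) with hQ
  have hΩ := om4_nonneg v w
  have g1 : t * om4 v w * P ≤ om4 v w * (K₄ / 4 * I) := by
    have g2 : t * P ≤ 1 / 2 * (K₄ / 2 * I) := by
      calc t * P ≤ |t * P| := le_abs_self _
        _ = |t| * |P| := abs_mul _ _
        _ ≤ 1 / 2 * (K₄ / 2 * I) := mul_le_mul ht h4 (abs_nonneg _) (by norm_num)
    calc t * om4 v w * P = om4 v w * (t * P) := by ring
      _ ≤ om4 v w * (1 / 2 * (K₄ / 2 * I)) := mul_le_mul_of_nonneg_left g2 hΩ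
      _ = _ := by ring
  have g3 : om4 v w * ((K₄ / 4 + 1) * I) ≤ M₁ * om4 v w * Q := by
    calc om4 v w * ((K₄ / 4 + 1) * I) = M₁ * om4 v w * (c * I) := by rw [← hM₁c]; ring
      _ ≤ M₁ * om4 v w * Q := mul_le_mul_of_nonneg_left h9 (by positivity)
  have g4 : c₂ * (8 * K₃ ^ 2 * K₂) * om4 v w * I ≤ om4 v w * I := by
    have g5 : 0 ≤ om4 v w * I := mul_nonneg hΩ hI0
    calc c₂ * (8 * K₃ ^ 2 * K₂) * om4 v w * I = c₂ * (8 * K₃ ^ 2 * K₂) * (om4 v w * I) := by ring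
      _ ≤ 1 * (om4 v w * I) := mul_le_mul_of_nonneg_right hc₂1 g5
      _ = _ := one_mul _
  have g6 : om4 v w * ((K₄ / 4 + 1) * I) = om4 v w * (K₄ / 4 * I) + om4 v w * I := by ring
  linarith

end Pool.Agent.H48.PW
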