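import Pool.Agent.H48.PW.CircB
import Pool.Agent.H48.PW.RotP
import Pool.Agent.H48.PW.RadI
import Pool.Agent.H48.PL.JB

/-!
# Module SpE: `|y|^a` is subharmonic in the hyperplanes, `d ≥ 3`

`y = v - w` arbitrary. Proof: choose an orthonormal pair `p, q ⟂ m` (`OPair m p q`) such that the projection of `y` to `m^⊥` is `λ p`, i.e. `y - λ p` is a multiple of `m` (`exists_opair`: if the projection
`y - (m·y/|m|²) m` is not `0` normalize it, otherwise any unit vector `⟂ m`; then `q` a unit vector `⟂ m, p`, exists since `d ≥ 3`: a linear system of two equations, e.g. by the rank of the map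
`z ↦ (m·z, p·z)`: `LinearMap.exists_ne_zero..`/finrank, then normalize). Then for `x ⟂ m`: `y·x = λ p·x`, and `x` of the form `hh σ m` (`dot_hh`); `rot p q t x ⟂ m`, so
`|y + rot_t x|² = |y|² + |x|² + 2 λ (cos t (x·p) - sin t (x·q))`, with `λ²((x·p)²+(x·q)²) ≤ |y|² |x|²` (Bessel). `rot_avg` with `F x = len (y+x)^a` and `circ_mean` (pointwise in `σ`),
`RadI` for integrability and monotonicity (`x ↦ mu a (len y) (len x)` is continuous for `a > 0`: it is `≤ len x ^ a`... prove `mu_cont` here).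
-/

set_option autoImplicit false

open MeasureTheory Set Filter Topology Pool.Agent.H25.Kin Pool.Agent.H82.BK Pool.Agent.H48.PL

namespace Pool.Agent.H48.PW

variable {d : ℕ}

private lemma exists_unit_perp (hd : 3 ≤ d) (u w : Vec d) :
    ∃ q : Vec d, nsq q = 1 ∧ dot u q = 0 ∧ dot w q = 0 := by
  let T : Vec d →ₗ[ℝ] (Fin 2 → ℝ) :=
    { toFun := fun z => ![dot u z, dot w z]
      map_add' := by
        intro x z
        ext i
        fin_cases i <;> simp [dot_add]
      map_smul' := by
        intro b z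
        ext i
        fin_cases i <;> simp [dot_smul] }
  have h1 : LinearMap.ker T ≠ ⊥ := LinearMap.ker_ne_bot_of_finrank_lt (by
    rw [Module.finrank_fin_fun, Module.finrank_fin_fun]
    omega)
  obtain ⟨z, hz, hz0⟩ := (Submodule.ne_bot_iff _).1 h1
  have hz' : T z = 0 := hz
  have e1 : dot u z = 0 := congrFun hz' 0
  have e2 : dot w z = 0 := congrFun hz' 1
  refine ⟨dir z, nsq_dir hz0, ?_, ?_⟩
  · unfold dir
    rw [dot_smul, e1, mul_zero]
  · unfold dir
    rw [dot_smul, e2, mul_zero]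

lemma exists_opair (hd : 3 ≤ d) {m : Vec d} (hm : m ≠ 0) (y : Vec d) :
    ∃ (p q : Vec d) (l μ : ℝ), OPair m p q ∧ y = l • p + μ • m := by
  have hn : nsq m ≠ 0 := (sq_pos_of_ne hm).ne'
  have hz : dot m (y - (dot m y / nsq m) • m) = 0 := by
    rw [dot_sub, dot_smul, dot_self]
    field_simp
    ring
  obtain ⟨p, l, hp1, hmp, hzp⟩ : ∃ (p : Vec d) (l : ℝ), nsq p = 1 ∧ dot m p = 0 ∧
      y - (dot m y / nsq m) • m = l • p := by
    by_cases h0 : y - (dot m y / nsq m) • m = 0
    · obtain ⟨p, h1, h2, _⟩ := exists_unit_perp hd m m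
      exact ⟨p, 0, h1, h2, by rw [h0, zero_smul]⟩
    · refine ⟨dir (y - (dot m y / nsq m) • m), len (y - (dot m y / nsq m) • m), nsq_dir h0, ?_, ?_⟩
      · unfold dir
        rw [dot_smul, hz, mul_zero]
      · unfold dir
        rw [smul_smul, mul_inv_cancel₀ (len_pos h0).ne', one_smul]
  obtain ⟨q, hq1, hmq, hpq⟩ := exists_unit_perp hd m p
  exact ⟨p, q, l, dot m y / nsq m, ⟨hp1, hq1, hpq, hmp, hmq⟩, by rw [← hzp, sub_add_cancel]⟩

lemma mu_cont {a : ℝ} (ha : 0 < a) (ha1 : a ≤ 1) (y : Vec d) :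
    Continuous fun x : Vec d => mu a (len y) (len x) := by
  rcases (len_nonneg y).eq_or_lt with h | h
  · have e : (fun x : Vec d => mu a (len y) (len x)) = fun x => len x ^ a := by
      funext x
      unfold mu
      rw [← h, max_eq_right (len_nonneg x)]
      rcases (len_nonneg x).eq_or_lt with h2 | h2
      · rw [← h2, Real.zero_rpow ha.ne']
        ring
      · rw [← Real.rpow_natCast, ← Real.rpow_add h2]
        congr 1
        push_cast
        ring
    rw [e]
    exact continuous_len.rpow_const fun x => Or.inr ha.le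
  · unfold mu
    refine (continuous_len.pow 2).mul ?_
    refine (continuous_const.max continuous_len).rpow_const fun x => Or.inl ?_
    exact (lt_of_lt_of_le h (le_max_left _ _)).ne'

private lemma len_rpow (z : Vec d) (a : ℝ) : len z ^ a = nsq z ^ (a / 2) := by
  unfold len
  rw [Real.sqrt_eq_rpow, ← Real.rpow_mul (sq_nonneg' z)]
  congr 1
  ring

private lemma bessel {m p q : Vec d} (h : OPair m p q) (x : Vec d) :
    dot x p ^ 2 + dot x q ^ 2 ≤ nsq x := by
  have h1 := sq_nonneg' (x - (dot x p • p + dot x q • q))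
  rw [nsq_sub, nsq_add, nsq_smul, nsq_smul, dot_add, dot_smul, dot_smul, smul_dot, dot_smul, h.pq,
    h.p1, h.q1] at h1
  nlinarith

private lemma pointwise {a c : ℝ} 
    (hc : ∀ ρ r X Y : ℝ, 0 ≤ ρ → 0 ≤ r → X ^ 2 + Y ^ 2 ≤ ρ ^ 2 * r ^ 2 →
      ρ ^ a + c * mu a ρ r ≤ (2 * Real.pi)⁻¹ * ∫ t in (0 : ℝ)..(2 * Real.pi),
        (ρ ^ 2 + r ^ 2 + 2 * (X * Real.cos t - Y * Real.sin t)) ^ (a / 2))
    {m p q y : Vec d} {l μ : ℝ} (h : OPair m p q) (hy : y = l • p + μ • m) {x : Vec d}
    (hx : dot x m = 0) :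
    len y ^ a + c * mu a (len y) (len x) ≤ (2 * Real.pi)⁻¹ * ∫ t in (0 : ℝ)..(2 * Real.pi),
      len (y + rot p q t x) ^ a := by
  have hl : l ^ 2 ≤ nsq y := by
    have h1 : nsq y = l ^ 2 + μ ^ 2 * nsq m := by
      rw [hy, nsq_add, nsq_smul, nsq_smul, smul_dot, dot_smul, dot_comm p m, h.mp, h.p1]
      ring
    have h2 := mul_nonneg (sq_nonneg μ) (sq_nonneg' m)
    linarith
  have hb := bessel h x
  have h1 := hc (len y) (len x) (l * dot x p) (l * dot x q) (len_nonneg _) (len_nonneg _) (by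
    rw [len_sq, len_sq]
    have h3 : (l * dot x p) ^ 2 + (l * dot x q) ^ 2 = l ^ 2 * (dot x p ^ 2 + dot x q ^ 2) := by ring
    rw [h3]
    exact mul_le_mul hl hb (by positivity) (sq_nonneg' y))
  refine h1.trans (le_of_eq ?_)
  congr 1
  refine intervalIntegral.integral_congr fun t _ => ?_
  show _ = len (y + rot p q t x) ^ a
  rw [len_rpow]
  congr 1
  have h4 : dot y (rot p q t x) = l * (Real.cos t * dot x p - Real.sin t * dot x q) := by
    rw [dot_comm, hy, dot_add, dot_smul, dot_smul, dot_rot_p h, dot_comm _ m,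
      dot_rot_of_perp h t h.mp h.mq, dot_comm m x, hx]
    ring
  rw [nsq_add, nsq_rot h, h4, len_sq, len_sq]
  ring

theorem sp_even (hd : 3 ≤ d) {a : ℝ} (ha : 0 < a) (ha1 : a ≤ 1) : ∃ c : ℝ, 0 < c ∧
    ∀ (v y m : Vec d), m ≠ 0 → ∀ k : ℝ → ℝ, RadK v m k →
      c * ∫ σ in {σ : Vec d | 0 < dot m σ}, k (co m σ) * mu a (len y) (len (hh σ m)) ∂(surf d) ≤
        ∫ σ in {σ : Vec d | 0 < dot m σ}, k (co m σ) * (len (y + hh σ m) ^ a - len y ^ a) ∂(surf d) := by
  obtain ⟨c, hc0, hc⟩ := circ_mean ha ha1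
  refine ⟨c, hc0, ?_⟩
  intro v y m hm k hk
  obtain ⟨p, q, l, μ, hO, hy⟩ := exists_opair hd hm y
  have cF : Continuous fun x : Vec d => len (y + x) ^ a - len y ^ a :=
    ((continuous_len.comp (continuous_const.add continuous_id)).rpow_const
      fun x => Or.inr ha.le).sub continuous_const
  have h1 := rot_avg (by omega) hO hk cF
  rw [h1, ← integral_const_mul]
  have cR : Continuous fun x : Vec d × ℝ => len (y + rot p q x.2 x.1) ^ a - len y ^ a :=
    cF.comp ((rot_cont p q).comp (continuous_snd.prodMk continuous_fst))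
  have cG : Continuous fun x : Vec d => (2 * Real.pi)⁻¹ * ∫ t in (0 : ℝ)..(2 * Real.pi),
      (len (y + rot p q t x) ^ a - len y ^ a) :=
    continuous_const.mul
      (intervalIntegral.continuous_parametric_intervalIntegral_of_continuous' (f := fun x t =>
        len (y + rot p q t x) ^ a - len y ^ a) cR 0 (2 * Real.pi))
  have i1 : IntegrableOn (fun σ : Vec d => c * (k (co m σ) * mu a (len y) (len (hh σ m))))
      {σ : Vec d | 0 < dot m σ} (surf d) := (radk_int_cont hk (mu_cont ha ha1 y)).const_mul c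
  refine setIntegral_mono_on i1 (radk_int_cont hk cG) (measurableSet_half m) fun σ hσ => ?_
  have hσ' : 0 < dot m σ := hσ
  have h2 := pointwise hc hO hy (dot_hh hσ')
  have h3 : c * (k (co m σ) * mu a (len y) (len (hh σ m))) =
      k (co m σ) * (c * mu a (len y) (len (hh σ m))) := by ring
  rw [h3]
  refine mul_le_mul_of_nonneg_left ?_ (hk.nonneg _)
  have h4 : ∫ t in (0 : ℝ)..(2 * Real.pi), (len (y + rot p q t (hh σ m)) ^ a - len y ^ a) =
      (∫ t in (0 : ℝ)..(2 * Real.pi), len (y + rot p q t (hh σ m)) ^ a) -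
        2 * Real.pi * len y ^ a := by
    rw [intervalIntegral.integral_sub]
    · rw [intervalIntegral.integral_const, sub_zero, smul_eq_mul]
    · refine Continuous.intervalIntegrable ?_ _ _
      exact (continuous_len.comp (continuous_const.add ((rot_cont p q).comp
        (continuous_id.prodMk continuous_const)))).rpow_const fun x => Or.inr ha.le
    · exact intervalIntegrable_const
  rw [h4, mul_sub, ← mul_assoc, inv_mul_cancel₀ (by positivity), one_mul]
  linarith

end Pool.Agent.H48.PW
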