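import Pool.Agent.H48.PW.WtA
import Pool.Agent.H48.PW.RadI
import Pool.Agent.H48.PL.TbL

/-!
# Module TchA: superposition of cusps

`(Ω, ν)` σ-finite, `ρ ≥ 0` a density with `∫ ρ jb(w)^a ≤ ε₂`, `T u = ∫ ρ (t PhS(u,w) - M₁ PhE(u,w)) dν`, `SPC` the one-sided condition for a single cusp.
Proof of `tch_sup`: for `x = hh σ m`: `T(v+x) - T v = ∫ ρ D dν`, `D = t ΔPhS - M₁ ΔPhE`, `|D| ≤ (1/2 + M₁)(|ΔPhS| + |ΔPhE|) =: (1/2+M₁) S`, `|S| ≤ 8 jb(w)^a`. Cauchy-Schwarz: `(∫ ρ |D|)² ≤ (1/2+M₁)² (∫ ρ jb^a)(∫ ρ jb^(-a) S²) ≤ (1/2+M₁)² ε₂ ∫ ρ jb^(-a) S²`.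
So `K₀ (T(v+x)-T v) + 2 (K₀ (T(v+x)-T v))² ≤ K₀ ∫ ρ [D + c₂ jb^(-a) S²] dν` because `2 K₀ (1/2+M₁)² ε₂ ≤ c₂`. Integrate `k (co) ·` over the half sphere, exchange the integrals (Fubini: `k ≤ B`, `surf` finite, `|[..]| ≤ C ρ jb^a`, jointly measurable: `PhS`, `PhE` are jointly continuous (`PGW.cont`),
`hh`, `co` measurable), apply `SPC` for each `ω`, and `∫ ρ K jb^a ≤ K ε₂`.
-/

set_option autoImplicit false

open MeasureTheory Set Filter Topology Pool.Agent.H25.Kin Pool.Agent.H82.BK Pool.Agent.H48.PL Pool.Agent.H48.PI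

namespace Pool.Agent.H48.PW

variable {d : ℕ}

/-- the one-sided condition for a single cusp (conclusion of `sp_cusp`) -/
def SPC (e : Fin d) (a β M₁ c₂ K : ℝ) : Prop := ∀ v w m : Vec d, m ≠ 0 → ∀ k : ℝ → ℝ, RadK v m k →
  ∀ t : ℝ, |t| ≤ 1 / 2 →
  ∫ σ in {σ : Vec d | 0 < dot m σ}, k (co m σ) *
    (t * (PhS e a (v + hh σ m) w - PhS e a v w) - M₁ * (PhE a (v + hh σ m) w - PhE a v w) +
      c₂ * jb w ^ (-a) * (|PhS e a (v + hh σ m) w - PhS e a v w| +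
        |PhE a (v + hh σ m) w - PhE a v w|) ^ 2) ∂(surf d) ≤
    K * jb w ^ a * ∫ σ in {σ : Vec d | 0 < dot m σ}, k (co m σ) * mm β v (v + hh σ m) ∂(surf d)

private lemma tchA_cs {Ω : Type*} [MeasurableSpace Ω] {ν : Measure Ω} {ρ J S : Ω → ℝ}
    (hρ0 : ∀ ω, 0 ≤ ρ ω) (hJ : ∀ ω, 0 < J ω) (i1 : Integrable (fun ω => ρ ω * J ω) ν)
    (i2 : Integrable (fun ω => ρ ω * S ω) ν)
    (i3 : Integrable (fun ω => ρ ω * ((J ω)⁻¹ * S ω ^ 2)) ν) :
    (∫ ω, ρ ω * S ω ∂ν) ^ 2 ≤ (∫ ω, ρ ω * J ω ∂ν) * ∫ ω, ρ ω * ((J ω)⁻¹ * S ω ^ 2) ∂ν := by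
  have h : ∀ r : ℝ, 0 ≤ (∫ ω, ρ ω * J ω ∂ν) * (r * r) + (-2 * ∫ ω, ρ ω * S ω ∂ν) * r +
      ∫ ω, ρ ω * ((J ω)⁻¹ * S ω ^ 2) ∂ν := by
    intro r
    have e1 : ∫ ω, ρ ω * (J ω * (r - S ω / J ω) ^ 2) ∂ν =
        (∫ ω, ρ ω * J ω ∂ν) * (r * r) + (-2 * ∫ ω, ρ ω * S ω ∂ν) * r +
        ∫ ω, ρ ω * ((J ω)⁻¹ * S ω ^ 2) ∂ν := by
      have e2 : ∀ ω, ρ ω * (J ω * (r - S ω / J ω) ^ 2) =
          (r * r) * (ρ ω * J ω) + (-2 * r) * (ρ ω * S ω) + ρ ω * ((J ω)⁻¹ * S ω ^ 2) := by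
        intro ω
        have h0 := (hJ ω).ne'
        field_simp
        ring
      have j1 : Integrable (fun ω => (r * r) * (ρ ω * J ω)) ν := i1.const_mul _
      have j2 : Integrable (fun ω => (-2 * r) * (ρ ω * S ω)) ν := i2.const_mul _
      have j3 : Integrable (fun ω => (r * r) * (ρ ω * J ω) + (-2 * r) * (ρ ω * S ω)) ν := j1.add j2
      have e3 : ∫ ω, ρ ω * (J ω * (r - S ω / J ω) ^ 2) ∂ν =
          ∫ ω, ((r * r) * (ρ ω * J ω) + (-2 * r) * (ρ ω * S ω) + ρ ω * ((J ω)⁻¹ * S ω ^ 2)) ∂ν :=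
        integral_congr_ae (Eventually.of_forall e2)
      rw [e3, integral_add j3 i3, integral_add j1 j2, integral_const_mul, integral_const_mul]
      ring
    rw [← e1]
    exact integral_nonneg fun ω => mul_nonneg (hρ0 ω) (mul_nonneg (hJ ω).le (sq_nonneg _))
  have h1 := discrim_le_zero h
  unfold discrim at h1
  nlinarith

private lemma tchA_p (m : Vec d) : Measurable fun σ : Vec d => ((m, σ) : Vec d × Vec d) :=
  measurable_const.prodMk measurable_id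

private lemma tchA_co (m : Vec d) : Measurable fun σ : Vec d => co m σ := by
  have h1 : Measurable fun q : Vec d × Vec d => co q.1 q.2 := measurable_co
  have h2 := h1.comp (tchA_p m)
  exact h2

private lemma tchA_hh (m : Vec d) : Measurable fun σ : Vec d => hh σ m := by
  have h1 : Measurable fun q : Vec d × Vec d => hh q.2 q.1 := measurable_hh
  have h2 := h1.comp (tchA_p m)
  exact h2

private lemma tchA_vh (v m : Vec d) : Measurable fun σ : Vec d => v + hh σ m := by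
  have h2 : Measurable fun x : Vec d => v + x := (continuous_const.add continuous_id).measurable
  have h3 := h2.comp (tchA_hh m)
  exact h3

private lemma tchA_comp {Ω : Type*} [MeasurableSpace Ω] {Φ : Vec d → Vec d → ℝ}
    (hΦ : Continuous fun p : Vec d × Vec d => Φ p.1 p.2) {f g : Ω → Vec d} (hf : Measurable f)
    (hg : Measurable g) : Measurable fun ω => Φ (f ω) (g ω) := by
  have h1 : Measurable fun p : Vec d × Vec d => Φ p.1 p.2 := hΦ.measurable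
  have h2 : Measurable fun ω => ((f ω, g ω) : Vec d × Vec d) := hf.prodMk hg
  have h3 := h1.comp h2
  exact h3

private lemma tchA_main {e : Fin d} {a β M₁ c₂ K : ℝ} (ha : 0 < a) (ha1 : a ≤ 1) (hM : 0 ≤ M₁)
    (hc : 0 ≤ c₂) (hK : 0 ≤ K) (hS : SPC e a β M₁ c₂ K) {Ω : Type*} [MeasurableSpace Ω]
    {ν : Measure Ω} [SFinite ν] {ρ t : Ω → ℝ} {w : Ω → Vec d} (hρ0 : ∀ ω, 0 ≤ ρ ω)
    (hρ : Measurable ρ) (ht : Measurable t) (ht1 : ∀ ω, |t ω| ≤ 1 / 2) (hw : Measurable w)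
    (hi : Integrable (fun ω => ρ ω * jb (w ω) ^ a) ν) {ε₂ K₀ : ℝ}
    (hε : ∫ ω, ρ ω * jb (w ω) ^ a ∂ν ≤ ε₂) (hK₀ : 0 ≤ K₀)
    (hsm : 2 * K₀ * (1 / 2 + M₁) ^ 2 * ε₂ ≤ c₂) {T : Vec d → ℝ}
    (hT : ∀ u, T u = ∫ ω, ρ ω * (t ω * PhS e a u (w ω) - M₁ * PhE a u (w ω)) ∂ν) {v m : Vec d}
    (hm : m ≠ 0) {k : ℝ → ℝ} (hk : RadK v m k) :
    ∫ σ in {σ : Vec d | 0 < dot m σ}, k (co m σ) * (K₀ * (T (v + hh σ m) - T v) +
      2 * (K₀ * (T (v + hh σ m) - T v)) ^ 2) ∂(surf d) ≤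
      K₀ * K * ε₂ * ∫ σ in {σ : Vec d | 0 < dot m σ}, k (co m σ) * mm β v (v + hh σ m) ∂(surf d) := by
  obtain ⟨B, hB⟩ := hk.bdd
  have hB0 : 0 ≤ B := (hk.nonneg 0).trans (hB 0)
  have hJ : ∀ ω, 0 < jb (w ω) ^ a := fun ω => Real.rpow_pos_of_pos (jb_pos _) _
  have hJn : ∀ ω, jb (w ω) ^ (-a) = (jb (w ω) ^ a)⁻¹ := fun ω => Real.rpow_neg (jb_pos _).le _
  have hJm : Measurable fun ω => jb (w ω) ^ a := (jb_cont.measurable.comp hw).pow_const a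
  -- measurability
  have cPS := (PhS_PGW ha ha1 e).cont
  have cPE := (PhE_PGW (d := d) ha ha1).cont
  have hkm : Measurable fun σ : Vec d => k (co m σ) := Measurable.comp (g := k) hk.meas (tchA_co m)
  have hv1 : Measurable fun p : Vec d × Ω => v + hh p.1 m :=
    Measurable.comp (g := fun σ : Vec d => v + hh σ m) (tchA_vh v m) measurable_fst
  have hw2 : Measurable fun p : Vec d × Ω => w p.2 := Measurable.comp (g := w) hw measurable_snd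
  have mS : Measurable fun p : Vec d × Ω => PhS e a (v + hh p.1 m) (w p.2) := tchA_comp cPS hv1 hw2
  have mE : Measurable fun p : Vec d × Ω => PhE a (v + hh p.1 m) (w p.2) := tchA_comp cPE hv1 hw2
  have mSv : ∀ u : Vec d, Measurable fun ω : Ω => PhS e a u (w ω) := fun u =>
    tchA_comp cPS measurable_const hw
  have mEv : ∀ u : Vec d, Measurable fun ω : Ω => PhE a u (w ω) := fun u =>
    tchA_comp cPE measurable_const hw
  have bS : ∀ (u : Vec d) (ω : Ω), |PhS e a u (w ω)| ≤ 2 * jb (w ω) ^ a := fun u ω =>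
    PhS_abs ha ha1 e u (w ω)
  have bE : ∀ (u : Vec d) (ω : Ω), |PhE a u (w ω)| ≤ 2 * jb (w ω) ^ a := fun u ω =>
    PhE_abs ha ha1 u (w ω)
  have bSd : ∀ (u : Vec d) (ω : Ω), |PhS e a u (w ω) - PhS e a v (w ω)| ≤ 4 * jb (w ω) ^ a := by
    intro u ω
    have h1 := abs_sub (PhS e a u (w ω)) (PhS e a v (w ω))
    linarith [bS u ω, bS v ω]
  have bEd : ∀ (u : Vec d) (ω : Ω), |PhE a u (w ω) - PhE a v (w ω)| ≤ 4 * jb (w ω) ^ a := by
    intro u ω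
    have h1 := abs_sub (PhE a u (w ω)) (PhE a v (w ω))
    linarith [bE u ω, bE v ω]
  -- the functions
  let S : Vec d → Ω → ℝ := fun u ω =>
    |PhS e a u (w ω) - PhS e a v (w ω)| + |PhE a u (w ω) - PhE a v (w ω)|
  let D : Vec d → Ω → ℝ := fun u ω =>
    t ω * (PhS e a u (w ω) - PhS e a v (w ω)) - M₁ * (PhE a u (w ω) - PhE a v (w ω))
  let G : Vec d → Ω → ℝ := fun u ω => D u ω + c₂ * jb (w ω) ^ (-a) * S u ω ^ 2
  have hS0 : ∀ u ω, 0 ≤ S u ω := fun u ω => add_nonneg (abs_nonneg _) (abs_nonneg _)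
  have hS8 : ∀ u ω, S u ω ≤ 8 * jb (w ω) ^ a := by
    intro u ω
    have h1 := bSd u ω
    have h2 := bEd u ω
    change |PhS e a u (w ω) - PhS e a v (w ω)| + |PhE a u (w ω) - PhE a v (w ω)| ≤ _
    linarith
  have hDS : ∀ u ω, |D u ω| ≤ (1 / 2 + M₁) * S u ω := by
    intro u ω
    have h1 : |t ω * (PhS e a u (w ω) - PhS e a v (w ω))| ≤
        1 / 2 * |PhS e a u (w ω) - PhS e a v (w ω)| := by
      rw [abs_mul]
      exact mul_le_mul_of_nonneg_right (ht1 ω) (abs_nonneg _)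
    have h2 : |M₁ * (PhE a u (w ω) - PhE a v (w ω))| = M₁ * |PhE a u (w ω) - PhE a v (w ω)| := by
      rw [abs_mul, abs_of_nonneg hM]
    have h3 := abs_sub (t ω * (PhS e a u (w ω) - PhS e a v (w ω)))
      (M₁ * (PhE a u (w ω) - PhE a v (w ω)))
    have h4 := abs_nonneg (PhS e a u (w ω) - PhS e a v (w ω))
    have h5 := abs_nonneg (PhE a u (w ω) - PhE a v (w ω))
    change |t ω * (PhS e a u (w ω) - PhS e a v (w ω)) - M₁ * (PhE a u (w ω) - PhE a v (w ω))| ≤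
      (1 / 2 + M₁) * (|PhS e a u (w ω) - PhS e a v (w ω)| + |PhE a u (w ω) - PhE a v (w ω)|)
    have h6 := mul_nonneg hM h4
    nlinarith
  have hSm : ∀ u, Measurable (S u) := fun u =>
    (((mSv u).sub (mSv v)).abs).add (((mEv u).sub (mEv v)).abs)
  have hDm : ∀ u, Measurable (D u) := fun u =>
    (ht.mul ((mSv u).sub (mSv v))).sub (((mEv u).sub (mEv v)).const_mul M₁)
  -- integrability in `ω`
  have iT : ∀ u, Integrable (fun ω => ρ ω * (t ω * PhS e a u (w ω) - M₁ * PhE a u (w ω))) ν := by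
    intro u
    refine (hi.const_mul (1 + 2 * M₁)).mono' ?_ (Eventually.of_forall fun ω => ?_)
    · exact (hρ.mul ((ht.mul (mSv u)).sub ((mEv u).const_mul M₁))).aestronglyMeasurable
    · rw [Real.norm_eq_abs, abs_mul, abs_of_nonneg (hρ0 ω)]
      have h1 : |t ω * PhS e a u (w ω)| ≤ 1 / 2 * (2 * jb (w ω) ^ a) := by
        rw [abs_mul]
        exact mul_le_mul (ht1 ω) (bS u ω) (abs_nonneg _) (by norm_num)
      have h2 : |M₁ * PhE a u (w ω)| ≤ M₁ * (2 * jb (w ω) ^ a) := by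
        rw [abs_mul, abs_of_nonneg hM]
        exact mul_le_mul_of_nonneg_left (bE u ω) hM
      have h3 := abs_sub (t ω * PhS e a u (w ω)) (M₁ * PhE a u (w ω))
      calc ρ ω * |t ω * PhS e a u (w ω) - M₁ * PhE a u (w ω)| ≤
          ρ ω * (1 / 2 * (2 * jb (w ω) ^ a) + M₁ * (2 * jb (w ω) ^ a)) :=
            mul_le_mul_of_nonneg_left (by linarith) (hρ0 ω)
        _ = (1 + 2 * M₁) * (ρ ω * jb (w ω) ^ a) := by ring
  have iS : ∀ u, Integrable (fun ω => ρ ω * S u ω) ν := by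
    intro u
    refine (hi.const_mul 8).mono' (hρ.mul (hSm u)).aestronglyMeasurable
      (Eventually.of_forall fun ω => ?_)
    rw [Real.norm_eq_abs, abs_mul, abs_of_nonneg (hρ0 ω), abs_of_nonneg (hS0 u ω)]
    calc ρ ω * S u ω ≤ ρ ω * (8 * jb (w ω) ^ a) := mul_le_mul_of_nonneg_left (hS8 u ω) (hρ0 ω)
      _ = 8 * (ρ ω * jb (w ω) ^ a) := by ring
  have iD : ∀ u, Integrable (fun ω => ρ ω * D u ω) ν := by
    intro u
    refine ((iS u).const_mul (1 / 2 + M₁)).mono' (hρ.mul (hDm u)).aestronglyMeasurable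
      (Eventually.of_forall fun ω => ?_)
    rw [Real.norm_eq_abs, abs_mul, abs_of_nonneg (hρ0 ω)]
    calc ρ ω * |D u ω| ≤ ρ ω * ((1 / 2 + M₁) * S u ω) :=
          mul_le_mul_of_nonneg_left (hDS u ω) (hρ0 ω)
      _ = (1 / 2 + M₁) * (ρ ω * S u ω) := by ring
  have hQ : ∀ u ω, (jb (w ω) ^ a)⁻¹ * S u ω ^ 2 ≤ 64 * jb (w ω) ^ a := by
    intro u ω
    rw [inv_mul_le_iff₀ (hJ ω)]
    have h1 := hS8 u ω
    have h2 := hS0 u ω
    nlinarith
  have hQ0 : ∀ u ω, 0 ≤ (jb (w ω) ^ a)⁻¹ * S u ω ^ 2 := fun u ω =>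
    mul_nonneg (inv_nonneg.2 (hJ ω).le) (sq_nonneg _)
  have iQ : ∀ u, Integrable (fun ω => ρ ω * ((jb (w ω) ^ a)⁻¹ * S u ω ^ 2)) ν := by
    intro u
    refine (hi.const_mul 64).mono' (hρ.mul (hJm.inv.mul ((hSm u).pow_const 2))).aestronglyMeasurable
      (Eventually.of_forall fun ω => ?_)
    rw [Real.norm_eq_abs, abs_mul, abs_of_nonneg (hρ0 ω), abs_of_nonneg (hQ0 u ω)]
    calc ρ ω * ((jb (w ω) ^ a)⁻¹ * S u ω ^ 2) ≤ ρ ω * (64 * jb (w ω) ^ a) :=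
          mul_le_mul_of_nonneg_left (hQ u ω) (hρ0 ω)
      _ = 64 * (ρ ω * jb (w ω) ^ a) := by ring
  have hTd : ∀ u, T u - T v = ∫ ω, ρ ω * D u ω ∂ν := by
    intro u
    rw [hT u, hT v, ← integral_sub (iT u) (iT v)]
    refine integral_congr_ae (Eventually.of_forall fun ω => ?_)
    change ρ ω * (t ω * PhS e a u (w ω) - M₁ * PhE a u (w ω)) -
      ρ ω * (t ω * PhS e a v (w ω) - M₁ * PhE a v (w ω)) =
      ρ ω * (t ω * (PhS e a u (w ω) - PhS e a v (w ω)) - M₁ * (PhE a u (w ω) - PhE a v (w ω)))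
    ring
  have hA0 : 0 ≤ ∫ ω, ρ ω * jb (w ω) ^ a ∂ν :=
    integral_nonneg fun ω => mul_nonneg (hρ0 ω) (hJ ω).le
  have hGeq : ∀ u, ∫ ω, ρ ω * G u ω ∂ν =
      (∫ ω, ρ ω * D u ω ∂ν) + c₂ * ∫ ω, ρ ω * ((jb (w ω) ^ a)⁻¹ * S u ω ^ 2) ∂ν := by
    intro u
    rw [← integral_const_mul, ← integral_add (iD u) ((iQ u).const_mul c₂)]
    refine integral_congr_ae (Eventually.of_forall fun ω => ?_)
    change ρ ω * (D u ω + c₂ * jb (w ω) ^ (-a) * S u ω ^ 2) =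
      ρ ω * D u ω + c₂ * (ρ ω * ((jb (w ω) ^ a)⁻¹ * S u ω ^ 2))
    rw [hJn]
    ring
  -- the pointwise inequality
  have hpt : ∀ u, K₀ * (T u - T v) + 2 * (K₀ * (T u - T v)) ^ 2 ≤ K₀ * ∫ ω, ρ ω * G u ω ∂ν := by
    intro u
    have hcs := tchA_cs hρ0 hJ hi (iS u) (iQ u)
    have hE0 : 0 ≤ ∫ ω, ρ ω * ((jb (w ω) ^ a)⁻¹ * S u ω ^ 2) ∂ν :=
      integral_nonneg fun ω => mul_nonneg (hρ0 ω) (hQ0 u ω)
    have hI0 : 0 ≤ ∫ ω, ρ ω * S u ω ∂ν := integral_nonneg fun ω => mul_nonneg (hρ0 ω) (hS0 u ω)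
    have h1 : |∫ ω, ρ ω * D u ω ∂ν| ≤ (1 / 2 + M₁) * ∫ ω, ρ ω * S u ω ∂ν := by
      rw [← integral_const_mul]
      have h2 := norm_integral_le_integral_norm (μ := ν) (fun ω => ρ ω * D u ω)
      rw [Real.norm_eq_abs] at h2
      refine h2.trans (integral_mono_ae (iD u).norm ((iS u).const_mul _)
        (Eventually.of_forall fun ω => ?_))
      change ‖ρ ω * D u ω‖ ≤ (1 / 2 + M₁) * (ρ ω * S u ω)
      rw [Real.norm_eq_abs, abs_mul, abs_of_nonneg (hρ0 ω)]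
      calc ρ ω * |D u ω| ≤ ρ ω * ((1 / 2 + M₁) * S u ω) :=
            mul_le_mul_of_nonneg_left (hDS u ω) (hρ0 ω)
        _ = (1 / 2 + M₁) * (ρ ω * S u ω) := by ring
    have h3 : (∫ ω, ρ ω * D u ω ∂ν) ^ 2 ≤ (1 / 2 + M₁) ^ 2 * (∫ ω, ρ ω * S u ω ∂ν) ^ 2 := by
      rw [← mul_pow, ← sq_abs]
      exact pow_le_pow_left₀ (abs_nonneg _) h1 2
    have h4 : (∫ ω, ρ ω * jb (w ω) ^ a ∂ν) * (∫ ω, ρ ω * ((jb (w ω) ^ a)⁻¹ * S u ω ^ 2) ∂ν) ≤
        ε₂ * ∫ ω, ρ ω * ((jb (w ω) ^ a)⁻¹ * S u ω ^ 2) ∂ν := mul_le_mul_of_nonneg_right hε hE0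
    rw [hTd u, hGeq u]
    have h5 : (∫ ω, ρ ω * D u ω ∂ν) ^ 2 ≤ (1 / 2 + M₁) ^ 2 *
        (ε₂ * ∫ ω, ρ ω * ((jb (w ω) ^ a)⁻¹ * S u ω ^ 2) ∂ν) :=
      h3.trans (mul_le_mul_of_nonneg_left (hcs.trans h4) (sq_nonneg _))
    have h6 : 2 * (K₀ * ∫ ω, ρ ω * D u ω ∂ν) ^ 2 ≤
        K₀ * (c₂ * ∫ ω, ρ ω * ((jb (w ω) ^ a)⁻¹ * S u ω ^ 2) ∂ν) := by
      calc 2 * (K₀ * ∫ ω, ρ ω * D u ω ∂ν) ^ 2 = 2 * K₀ ^ 2 * (∫ ω, ρ ω * D u ω ∂ν) ^ 2 := by ring
        _ ≤ 2 * K₀ ^ 2 * ((1 / 2 + M₁) ^ 2 *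
            (ε₂ * ∫ ω, ρ ω * ((jb (w ω) ^ a)⁻¹ * S u ω ^ 2) ∂ν)) :=
          mul_le_mul_of_nonneg_left h5 (by positivity)
        _ = K₀ * ((2 * K₀ * (1 / 2 + M₁) ^ 2 * ε₂) *
            ∫ ω, ρ ω * ((jb (w ω) ^ a)⁻¹ * S u ω ^ 2) ∂ν) := by ring
        _ ≤ K₀ * (c₂ * ∫ ω, ρ ω * ((jb (w ω) ^ a)⁻¹ * S u ω ^ 2) ∂ν) :=
          mul_le_mul_of_nonneg_left (mul_le_mul_of_nonneg_right hsm hE0) hK₀
    linarith
  -- bounds for `G`
  have hGb : ∀ u ω, |G u ω| ≤ (8 * (1 / 2 + M₁) + 64 * c₂) * jb (w ω) ^ a := by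
    intro u ω
    have h1 : |c₂ * jb (w ω) ^ (-a) * S u ω ^ 2| ≤ 64 * c₂ * jb (w ω) ^ a := by
      rw [hJn, mul_assoc, abs_mul, abs_of_nonneg hc, abs_of_nonneg (hQ0 u ω)]
      have := mul_le_mul_of_nonneg_left (hQ u ω) hc
      linarith
    have h2 := hDS u ω
    have h3 := mul_le_mul_of_nonneg_left (hS8 u ω) (by positivity : (0:ℝ) ≤ 1 / 2 + M₁)
    have h4 := abs_add_le (D u ω) (c₂ * jb (w ω) ^ (-a) * S u ω ^ 2)
    change |D u ω + c₂ * jb (w ω) ^ (-a) * S u ω ^ 2| ≤ _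
    linarith
  -- joint measurability
  have mG : Measurable fun p : Vec d × Ω => G (v + hh p.1 m) p.2 := by
    have h1 : Measurable fun p : Vec d × Ω => PhS e a v (w p.2) := (mSv v).comp measurable_snd
    have h2 : Measurable fun p : Vec d × Ω => PhE a v (w p.2) := (mEv v).comp measurable_snd
    have h3 : Measurable fun p : Vec d × Ω => t p.2 := ht.comp measurable_snd
    have h4 : Measurable fun p : Vec d × Ω => jb (w p.2) ^ (-a) :=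
      ((jb_cont.measurable.comp hw).pow_const (-a)).comp measurable_snd
    exact ((h3.mul (mS.sub h1)).sub ((mE.sub h2).const_mul M₁)).add
      ((h4.const_mul c₂).mul ((((mS.sub h1).abs).add ((mE.sub h2).abs)).pow_const 2))
  have iF : Integrable (fun p : Vec d × Ω => k (co m p.1) * (ρ p.2 * G (v + hh p.1 m) p.2))
      (((surf d).restrict {σ : Vec d | 0 < dot m σ}).prod ν) := by
    have h1 : Integrable (fun p : Vec d × Ω => (fun _ : Vec d => B * (8 * (1 / 2 + M₁) + 64 * c₂)) p.1 *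
        (fun ω => ρ ω * jb (w ω) ^ a) p.2) (((surf d).restrict {σ : Vec d | 0 < dot m σ}).prod ν) :=
      Integrable.mul_prod (integrable_const _) hi
    refine h1.mono' ?_ (Eventually.of_forall fun p => ?_)
    · exact ((hkm.comp measurable_fst).mul ((hρ.comp measurable_snd).mul mG)).aestronglyMeasurable
    · rw [Real.norm_eq_abs, abs_mul, abs_mul, abs_of_nonneg (hk.nonneg _), abs_of_nonneg (hρ0 _)]
      have h2 := hGb (v + hh p.1 m) p.2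
      have h3 := hB (co m p.1)
      have h4 : ρ p.2 * |G (v + hh p.1 m) p.2| ≤
          ρ p.2 * ((8 * (1 / 2 + M₁) + 64 * c₂) * jb (w p.2) ^ a) :=
        mul_le_mul_of_nonneg_left h2 (hρ0 _)
      calc k (co m p.1) * (ρ p.2 * |G (v + hh p.1 m) p.2|) ≤
          B * (ρ p.2 * ((8 * (1 / 2 + M₁) + 64 * c₂) * jb (w p.2) ^ a)) :=
            mul_le_mul h3 h4 (mul_nonneg (hρ0 _) (abs_nonneg _)) hB0
        _ = B * (8 * (1 / 2 + M₁) + 64 * c₂) * (ρ p.2 * jb (w p.2) ^ a) := by ring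
  -- integrability of the left hand side
  have hTm : Measurable fun σ : Vec d => T (v + hh σ m) := by
    have h1 : StronglyMeasurable fun σ : Vec d =>
        ∫ ω, ρ ω * (t ω * PhS e a (v + hh σ m) (w ω) - M₁ * PhE a (v + hh σ m) (w ω)) ∂ν := by
      refine StronglyMeasurable.integral_prod_right (f := fun (σ : Vec d) (ω : Ω) =>
        ρ ω * (t ω * PhS e a (v + hh σ m) (w ω) - M₁ * PhE a (v + hh σ m) (w ω))) ?_
      exact ((hρ.comp measurable_snd).mul (((ht.comp measurable_snd).mul mS).sub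
        (mE.const_mul M₁))).stronglyMeasurable
    have h2 : (fun σ : Vec d => T (v + hh σ m)) = fun σ : Vec d =>
        ∫ ω, ρ ω * (t ω * PhS e a (v + hh σ m) (w ω) - M₁ * PhE a (v + hh σ m) (w ω)) ∂ν := by
      funext σ
      exact hT _
    rw [h2]
    exact h1.measurable
  have hTb : ∀ u, |T u - T v| ≤ (1 / 2 + M₁) * (8 * ∫ ω, ρ ω * jb (w ω) ^ a ∂ν) := by
    intro u
    rw [hTd u, ← integral_const_mul, ← integral_const_mul]
    have h2 := norm_integral_le_integral_norm (μ := ν) (fun ω => ρ ω * D u ω)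
    rw [Real.norm_eq_abs] at h2
    refine h2.trans (integral_mono_ae (iD u).norm ((hi.const_mul _).const_mul _)
      (Eventually.of_forall fun ω => ?_))
    change ‖ρ ω * D u ω‖ ≤ (1 / 2 + M₁) * (8 * (ρ ω * jb (w ω) ^ a))
    rw [Real.norm_eq_abs, abs_mul, abs_of_nonneg (hρ0 ω)]
    have h3 := mul_le_mul_of_nonneg_left (hS8 u ω) (by positivity : (0:ℝ) ≤ 1 / 2 + M₁)
    calc ρ ω * |D u ω| ≤ ρ ω * ((1 / 2 + M₁) * (8 * jb (w ω) ^ a)) :=
          mul_le_mul_of_nonneg_left ((hDS u ω).trans h3) (hρ0 ω)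
      _ = (1 / 2 + M₁) * (8 * (ρ ω * jb (w ω) ^ a)) := by ring
  have iL : IntegrableOn (fun σ : Vec d => k (co m σ) * (K₀ * (T (v + hh σ m) - T v) +
      2 * (K₀ * (T (v + hh σ m) - T v)) ^ 2)) {σ : Vec d | 0 < dot m σ} (surf d) := by
    set CT : ℝ := (1 / 2 + M₁) * (8 * ∫ ω, ρ ω * jb (w ω) ^ a ∂ν) with hCT
    refine Measure.integrableOn_of_bounded (M := B * (K₀ * CT + 2 * (K₀ * CT) ^ 2))
      (measure_ne_top _ _) ?_ (Eventually.of_forall fun σ => ?_)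
    · exact (hkm.mul (((hTm.sub_const _).const_mul _).add
        ((((hTm.sub_const _).const_mul _).pow_const 2).const_mul _))).aestronglyMeasurable
    · rw [Real.norm_eq_abs, abs_mul, abs_of_nonneg (hk.nonneg _)]
      have h1 := hTb (v + hh σ m)
      have h2 : |K₀ * (T (v + hh σ m) - T v)| ≤ K₀ * CT := by
        rw [abs_mul, abs_of_nonneg hK₀]
        exact mul_le_mul_of_nonneg_left h1 hK₀
      have h3 : (K₀ * (T (v + hh σ m) - T v)) ^ 2 ≤ (K₀ * CT) ^ 2 := by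
        rw [← sq_abs]
        exact pow_le_pow_left₀ (abs_nonneg _) h2 2
      have h4 := abs_add_le (K₀ * (T (v + hh σ m) - T v)) (2 * (K₀ * (T (v + hh σ m) - T v)) ^ 2)
      have h5 : |2 * (K₀ * (T (v + hh σ m) - T v)) ^ 2| = 2 * (K₀ * (T (v + hh σ m) - T v)) ^ 2 :=
        abs_of_nonneg (by positivity)
      exact mul_le_mul (hB _) (by linarith) (abs_nonneg _) hB0
  have iR : IntegrableOn (fun σ : Vec d => k (co m σ) * (K₀ * ∫ ω, ρ ω * G (v + hh σ m) ω ∂ν))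
      {σ : Vec d | 0 < dot m σ} (surf d) := by
    have h1 := iF.integral_prod_left
    have h2 := h1.const_mul K₀
    refine h2.congr (Eventually.of_forall fun σ => ?_)
    change K₀ * (∫ ω, k (co m σ) * (ρ ω * G (v + hh σ m) ω) ∂ν) =
      k (co m σ) * (K₀ * ∫ ω, ρ ω * G (v + hh σ m) ω ∂ν)
    rw [integral_const_mul]
    ring
  have hI0 : 0 ≤ ∫ σ in {σ : Vec d | 0 < dot m σ}, k (co m σ) * mm β v (v + hh σ m) ∂(surf d) :=
    integral_nonneg fun σ => mul_nonneg (hk.nonneg _) (mm_nonneg _ _ _)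
  calc ∫ σ in {σ : Vec d | 0 < dot m σ}, k (co m σ) * (K₀ * (T (v + hh σ m) - T v) +
        2 * (K₀ * (T (v + hh σ m) - T v)) ^ 2) ∂(surf d)
      ≤ ∫ σ in {σ : Vec d | 0 < dot m σ}, k (co m σ) *
          (K₀ * ∫ ω, ρ ω * G (v + hh σ m) ω ∂ν) ∂(surf d) :=
        integral_mono iL iR fun σ => mul_le_mul_of_nonneg_left (hpt _) (hk.nonneg _)
    _ = K₀ * ∫ σ in {σ : Vec d | 0 < dot m σ}, (∫ ω, k (co m σ) *
          (ρ ω * G (v + hh σ m) ω) ∂ν) ∂(surf d) := by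
        rw [← integral_const_mul]
        refine integral_congr_ae (Eventually.of_forall fun σ => ?_)
        change k (co m σ) * (K₀ * ∫ ω, ρ ω * G (v + hh σ m) ω ∂ν) =
          K₀ * ∫ ω, k (co m σ) * (ρ ω * G (v + hh σ m) ω) ∂ν
        rw [integral_const_mul]
        ring
    _ = K₀ * ∫ ω, (∫ σ in {σ : Vec d | 0 < dot m σ}, k (co m σ) *
          (ρ ω * G (v + hh σ m) ω) ∂(surf d)) ∂ν := by
        rw [integral_integral_swap (f := fun (σ : Vec d) (ω : Ω) =>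
          k (co m σ) * (ρ ω * G (v + hh σ m) ω)) iF]
    _ ≤ K₀ * ∫ ω, (K * ∫ σ in {σ : Vec d | 0 < dot m σ}, k (co m σ) * mm β v (v + hh σ m) ∂(surf d)) *
          (ρ ω * jb (w ω) ^ a) ∂ν := by
        refine mul_le_mul_of_nonneg_left ?_ hK₀
        refine integral_mono iF.integral_prod_right (hi.const_mul _) fun ω => ?_
        have h1 := hS v (w ω) m hm k hk (t ω) (ht1 ω)
        have h2 : ∫ σ in {σ : Vec d | 0 < dot m σ}, k (co m σ) * (ρ ω * G (v + hh σ m) ω) ∂(surf d) =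
            ρ ω * ∫ σ in {σ : Vec d | 0 < dot m σ}, k (co m σ) * G (v + hh σ m) ω ∂(surf d) := by
          rw [← integral_const_mul]
          refine integral_congr_ae (Eventually.of_forall fun σ => ?_)
          change k (co m σ) * (ρ ω * G (v + hh σ m) ω) = ρ ω * (k (co m σ) * G (v + hh σ m) ω)
          ring
        change ∫ σ in {σ : Vec d | 0 < dot m σ}, k (co m σ) * (ρ ω * G (v + hh σ m) ω) ∂(surf d) ≤ _
        rw [h2]
        have h3 := mul_le_mul_of_nonneg_left h1 (hρ0 ω)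
        refine le_trans (le_of_eq ?_) (h3.trans (le_of_eq ?_))
        · rfl
        · ring
    _ = K₀ * K * (∫ ω, ρ ω * jb (w ω) ^ a ∂ν) *
          ∫ σ in {σ : Vec d | 0 < dot m σ}, k (co m σ) * mm β v (v + hh σ m) ∂(surf d) := by
        rw [integral_const_mul]
        ring
    _ ≤ K₀ * K * ε₂ * ∫ σ in {σ : Vec d | 0 < dot m σ}, k (co m σ) * mm β v (v + hh σ m) ∂(surf d) :=
        mul_le_mul_of_nonneg_right (mul_le_mul_of_nonneg_left hε (mul_nonneg hK₀ hK)) hI0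

theorem tch_sup {e : Fin d} {a β M₁ c₂ K : ℝ} (ha : 0 < a) (ha1 : a ≤ 1) (hM : 0 ≤ M₁) (hc : 0 ≤ c₂)
    (hK : 0 ≤ K) (hS : SPC e a β M₁ c₂ K) {Ω : Type*} [MeasurableSpace Ω] {ν : Measure Ω} [SFinite ν]
    {ρ t : Ω → ℝ} {w : Ω → Vec d} (hρ0 : ∀ ω, 0 ≤ ρ ω) (hρ : Measurable ρ) (ht : Measurable t)
    (ht1 : ∀ᵐ ω ∂ν, |t ω| ≤ 1 / 2) (hw : Measurable w) (hi : Integrable (fun ω => ρ ω * jb (w ω) ^ a) ν)
    {ε₂ K₀ : ℝ} (hε : ∫ ω, ρ ω * jb (w ω) ^ a ∂ν ≤ ε₂) (hK₀ : 0 ≤ K₀)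
    (hsm : 2 * K₀ * (1 / 2 + M₁) ^ 2 * ε₂ ≤ c₂) {T : Vec d → ℝ}
    (hT : ∀ u, T u = ∫ ω, ρ ω * (t ω * PhS e a u (w ω) - M₁ * PhE a u (w ω)) ∂ν) {v m : Vec d}
    (hm : m ≠ 0) {k : ℝ → ℝ} (hk : RadK v m k) :
    ∫ σ in {σ : Vec d | 0 < dot m σ}, k (co m σ) * (K₀ * (T (v + hh σ m) - T v) +
      2 * (K₀ * (T (v + hh σ m) - T v)) ^ 2) ∂(surf d) ≤
      K₀ * K * ε₂ * ∫ σ in {σ : Vec d | 0 < dot m σ}, k (co m σ) * mm β v (v + hh σ m) ∂(surf d) := by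
  have ht' : Measurable fun ω => max (-(1 / 2 : ℝ)) (min (1 / 2) (t ω)) :=
    measurable_const.max (measurable_const.min ht)
  have hb : ∀ ω, |max (-(1 / 2 : ℝ)) (min (1 / 2) (t ω))| ≤ 1 / 2 := by
    intro ω
    rw [abs_le]
    exact ⟨le_max_left _ _, max_le (by norm_num) (min_le_left _ _)⟩
  have hT' : ∀ u, T u = ∫ ω, ρ ω * (max (-(1 / 2 : ℝ)) (min (1 / 2) (t ω)) * PhS e a u (w ω) -
      M₁ * PhE a u (w ω)) ∂ν := by
    intro u
    rw [hT u]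
    refine integral_congr_ae ?_
    filter_upwards [ht1] with ω hω
    rw [abs_le] at hω
    rw [min_eq_right hω.2, max_eq_right hω.1]
  exact tchA_main ha ha1 hM hc hK hS hρ0 hρ ht' hb hw hi hε hK₀ hsm hT' hm hk

end Pool.Agent.H48.PW
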