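import Pool.Agent.H48.PW.EWDef
import Pool.Agent.H48.PI.ESli

/-!
# Module TchB: the weight function as one integral, bound

`Ω = ℝ × Vec d` with the measure `zw = (volume.restrict (Ioo (-1/2) (1/2))).prod volume`, density `ρ₂(z,w) = F (x - z e) w - gw q F (x - z e) w ≥ 0` (`bet_le`, `chi_le_one`), `ρ₁(z,w) = gw q F (x - z e) w ≥ 0`.
* `EW_split`: linearity, `PsS = chi (K₀ PhS + A' PgB)`, `PsE = chi K₀ PhE`; `avn Φ F v = ∫ y, ∫ w, .. dμ = ∫ z in Ioo (-1/2) (1/2), ∫ w, Φ v w F (x - z e) w` (`nu_integral` and the identity `loc e 1 B x = ∫ B dμ` for planar periodic continuous `B`: private lemma `EDer_loc` in PI/EDer.lean, copy),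
  iterated integral = integral over the product (`integral_prod`; everything is continuous, rapidly decaying in `w`, bounded in `z`: integrable).
* `rho_int`: the same identity for the densities: `∫ ρ₂ jb^(1+a) dzw = ∫ p, (F - gw) jb^(1+a) dν`, etc.
* `EW_abs`: from `EW_split`, `PhS_abs`, `PhE_abs`, `PgB_abs`, `|kl 1 z| ≤ 1/2` (`kl_abs`), `jb^a ≤ jb^(1+a)`, `jb^β ≤ jb²`: `≤ (1 + 2M₁) K₀ ε₂ + A' M₂`.
-/

set_option autoImplicit false

open MeasureTheory Set Filter Topology Pool.Agent.H25.Kin Pool.Agent.H48.PL Pool.Agent.H48.PI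

namespace Pool.Agent.H48.PW

variable {d : ℕ} {q : Pm} {e : Fin d} {F G : Vec d → Vec d → ℝ} {ε₂ M₂ : ℝ}

/-- the measure `dz dw`, `|z| < 1/2` -/
noncomputable def zw (d : ℕ) : Measure (ℝ × Vec d) :=
  ((volume : Measure ℝ).restrict (Ioo (-(1 / 2)) (1 / 2))).prod volume

/-- density of the unbounded part -/
noncomputable def ro2 (q : Pm) (e : Fin d) (F : Vec d → Vec d → ℝ) (x : Vec d) (p : ℝ × Vec d) : ℝ :=
  F (x - Pi.single e p.1) p.2 - gw q F (x - Pi.single e p.1) p.2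

/-- density of the bounded part -/
noncomputable def ro1 (q : Pm) (e : Fin d) (F : Vec d → Vec d → ℝ) (x : Vec d) (p : ℝ × Vec d) : ℝ :=
  gw q F (x - Pi.single e p.1) p.2

/-! ### auxiliary lemmas (copies of private lemmas of PI/EDer.lean and PI/ESli.lean) -/

/-- continuous planar periodic functions with rapid decay in the velocity -/
private structure TcA (e : Fin d) (A : Vec d → Vec d → ℝ) : Prop where
  cont : Continuous fun p : Vec d × Vec d => A p.1 p.2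
  dec : RX A
  per : ∀ x v i, A (x + Pi.single i 1) v = A x v
  pl : ∀ x y v, x e = y e → A x v = A y v

private lemma tc_bd {A : Vec d → Vec d → ℝ} (hA : TcA e A) {Φ : Vec d → Vec d → ℝ} (hΦ : PGW Φ)
    (v : Vec d) : ∃ C, ∀ x w, |Φ v w * A x w| ≤ C * wt d w := by
  obtain ⟨N, K, hK0, hK⟩ := hΦ.le
  obtain ⟨C, hC⟩ := hA.dec (N + (d + 1))
  refine ⟨K * (1 + ‖v‖) ^ N * C, fun x w => ?_⟩
  have hw : 0 < 1 + ‖w‖ := w_pos w
  have hv : 0 < 1 + ‖v‖ := w_pos v
  have h2 := hC x w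
  rw [abs_mul]
  unfold wt
  rw [← div_eq_mul_inv, le_div_iff₀ (by positivity)]
  calc |Φ v w| * |A x w| * (1 + ‖w‖) ^ (d + 1)
      ≤ (K * ((1 + ‖v‖) ^ N * (1 + ‖w‖) ^ N)) * |A x w| * (1 + ‖w‖) ^ (d + 1) := by
        have := hK v w
        gcongr
    _ = K * (1 + ‖v‖) ^ N * ((1 + ‖w‖) ^ (N + (d + 1)) * |A x w|) := by rw [pow_add]; ring
    _ ≤ K * (1 + ‖v‖) ^ N * C := by gcongr

private lemma tc_wc {A : Vec d → Vec d → ℝ} (hA : TcA e A) {Φ : Vec d → Vec d → ℝ} (hΦ : PGW Φ)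
    (x v : Vec d) : Continuous fun w => Φ v w * A x w :=
  (hΦ.cont.comp (by fun_prop : Continuous fun w : Vec d => (v, w))).mul
    (hA.cont.comp (by fun_prop : Continuous fun w : Vec d => (x, w)))

private lemma tc_int {A : Vec d → Vec d → ℝ} (hA : TcA e A) {Φ : Vec d → Vec d → ℝ} (hΦ : PGW Φ)
    (x v : Vec d) : Integrable fun w => Φ v w * A x w := by
  obtain ⟨C, hC⟩ := tc_bd hA hΦ v
  exact (integrable_wt.const_mul C).mono' (tc_wc hA hΦ x v).aestronglyMeasurable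
    (Eventually.of_forall fun w => hC x w)

private lemma tc_nu {A : Vec d → Vec d → ℝ} (hA : TcA e A) {Φ : Vec d → Vec d → ℝ} (hΦ : PGW Φ)
    (v : Vec d) : Integrable (fun p : Vec d × Vec d => Φ v p.1 * A p.2 p.1) (nu d) := by
  obtain ⟨C, hC⟩ := tc_bd hA hΦ v
  have hc : Continuous fun p : Vec d × Vec d => Φ v p.1 * A p.2 p.1 :=
    (hΦ.cont.comp (by fun_prop : Continuous fun p : Vec d × Vec d => (v, p.1))).mul
      (hA.cont.comp (by fun_prop : Continuous fun p : Vec d × Vec d => (p.2, p.1)))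
  exact integrable_nu hc.aestronglyMeasurable fun p => hC p.2 p.1

private lemma tc_pl {A : Vec d → Vec d → ℝ} (hA : TcA e A) {Φ : Vec d → Vec d → ℝ} (hΦ : PGW Φ)
    (v : Vec d) : PlF e fun x => ∫ w, Φ v w * A x w := by
  obtain ⟨C, hC⟩ := tc_bd hA hΦ v
  refine ⟨?_, ?_, ?_⟩
  · refine continuous_of_dominated (bound := fun w => C * wt d w) ?_ ?_
      (integrable_wt.const_mul _) ?_
    · intro x
      exact (tc_wc hA hΦ x v).aestronglyMeasurable
    · intro x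
      exact Eventually.of_forall fun w => hC x w
    · refine Eventually.of_forall fun w => ?_
      exact continuous_const.mul
        (hA.cont.comp (by fun_prop : Continuous fun x : Vec d => (x, w)))
  · intro x i
    congr 1
    funext w
    rw [hA.per]
  · intro x y hxy
    congr 1
    funext w
    rw [hA.pl x y w hxy]

private lemma tc_loc {B : Vec d → ℝ} (hB : PlF e B) (x : Vec d) :
    loc e 1 B x = ∫ y, B y ∂(muD d) := by
  obtain ⟨C, hC⟩ := pl_bdd hB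
  have hfin : IsFiniteMeasure ((volume : Measure ℝ).restrict (Ioo (-(1 / 2)) (1 / 2))) :=
    ⟨by rw [Measure.restrict_apply_univ]; exact measure_Ioo_lt_top⟩
  have hi : Integrable (fun z : ℝ => B (x - Pi.single e z))
      (volume.restrict (Ioo (-(1 / 2)) (1 / 2))) := by
    have hc : Continuous fun z : ℝ => x - (Pi.single e z : Vec d) :=
      continuous_const.sub (continuous_single (A := fun _ : Fin d => ℝ) e)
    exact Integrable.of_bound (hB.cont.comp hc).aestronglyMeasurable C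
      (Eventually.of_forall fun z => hC _)
  have hv : (∫ _z in Ioo (-(1 / 2) : ℝ) (1 / 2), C) = C := by
    rw [setIntegral_const, Real.volume_real_Ioo_of_le (by norm_num)]
    norm_num
  have hm : (∫ _y : Vec d, C ∂(muD d)) = C := by
    rw [integral_const, measureReal_def, muD_univ]
    simp
  have h1 : PlF e fun y => C - B y :=
    ⟨continuous_const.sub hB.cont, fun x i => by rw [hB.per], fun x y h => by rw [hB.pl x y h]⟩
  have h2 : PlF e fun y => C + B y :=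
    ⟨continuous_const.add hB.cont, fun x i => by rw [hB.per], fun x y h => by rw [hB.pl x y h]⟩
  have e1 := loc_le h1 (fun y => by have := (abs_le.mp (hC y)).2; linarith) one_pos le_rfl x
  have e2 := loc_le h2 (fun y => by have := (abs_le.mp (hC y)).1; linarith) one_pos le_rfl x
  unfold loc at e1 e2 ⊢
  rw [integral_sub (integrable_const _) hi, integral_sub (integrable_const _) (pl_int hB), hv,
    hm] at e1
  rw [integral_add (integrable_const _) hi, integral_add (integrable_const _) (pl_int hB), hv,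
    hm] at e2
  linarith

private lemma tc_sc (x : Vec d) : Continuous fun p : ℝ × Vec d => x - (Pi.single e p.1 : Vec d) :=
  continuous_const.sub ((continuous_single (A := fun _ : Fin d => ℝ) e).comp continuous_fst)

private lemma tc_zc {A : Vec d → Vec d → ℝ} (hA : TcA e A) {Φ : Vec d → Vec d → ℝ} (hΦ : PGW Φ)
    (x v : Vec d) : Continuous fun p : ℝ × Vec d => Φ v p.2 * A (x - Pi.single e p.1) p.2 :=
  (hΦ.cont.comp (by fun_prop : Continuous fun p : ℝ × Vec d => (v, p.2))).mul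
    (hA.cont.comp ((tc_sc x).prodMk continuous_snd))

private lemma tc_fst : ∀ᵐ p ∂(zw d), p.1 ∈ Ioo (-((1 : ℝ) / 2)) (1 / 2) :=
  Measure.quasiMeasurePreserving_fst.ae (ae_restrict_mem measurableSet_Ioo)

private lemma tc_kz {A : Vec d → Vec d → ℝ} (hA : TcA e A) {Φ : Vec d → Vec d → ℝ} (hΦ : PGW Φ)
    {k : ℝ → ℝ} (hk : Measurable k) {B : ℝ} (hB : 0 ≤ B)
    (hkB : ∀ z ∈ Ioo (-((1 : ℝ) / 2)) (1 / 2), |k z| ≤ B) (x v : Vec d) :
    Integrable (fun p : ℝ × Vec d => k p.1 * (Φ v p.2 * A (x - Pi.single e p.1) p.2)) (zw d) ∧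
    ∫ p, k p.1 * (Φ v p.2 * A (x - Pi.single e p.1) p.2) ∂(zw d) =
      ∫ z in Ioo (-((1 : ℝ) / 2)) (1 / 2), k z * ∫ w, Φ v w * A (x - Pi.single e z) w := by
  obtain ⟨C, hC⟩ := tc_bd hA hΦ v
  have hfin : IsFiniteMeasure ((volume : Measure ℝ).restrict (Ioo (-(1 / 2)) (1 / 2))) :=
    ⟨by rw [Measure.restrict_apply_univ]; exact measure_Ioo_lt_top⟩
  have h1 : Integrable (fun p : ℝ × Vec d => B * (C * wt d p.2)) (zw d) :=
    (((integrable_wt (d := d)).comp_snd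
      ((volume : Measure ℝ).restrict (Ioo (-(1 / 2)) (1 / 2)))).const_mul C).const_mul B
  have h2 : Integrable (fun p : ℝ × Vec d => k p.1 * (Φ v p.2 * A (x - Pi.single e p.1) p.2))
      (zw d) := by
    refine h1.mono' ((hk.comp measurable_fst).aestronglyMeasurable.mul
      (tc_zc hA hΦ x v).aestronglyMeasurable) ?_
    filter_upwards [tc_fst] with p hp
    rw [Real.norm_eq_abs, abs_mul]
    exact mul_le_mul (hkB p.1 hp) (hC _ _) (abs_nonneg _) hB
  refine ⟨h2, ?_⟩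
  unfold zw at h2 ⊢
  rw [integral_prod _ h2]
  congr 1
  funext z
  exact integral_const_mul (k z) fun w => Φ v w * A (x - Pi.single e z) w

/-- average over the torus as an integral over `zw` -/
private lemma tc_avg {A : Vec d → Vec d → ℝ} (hA : TcA e A) {Φ : Vec d → Vec d → ℝ} (hΦ : PGW Φ)
    (x v : Vec d) :
    Integrable (fun p : ℝ × Vec d => Φ v p.2 * A (x - Pi.single e p.1) p.2) (zw d) ∧
    ∫ p, Φ v p.2 * A (x - Pi.single e p.1) p.2 ∂(zw d) =
      ∫ p, Φ v p.1 * A p.2 p.1 ∂(nu d) := by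
  obtain ⟨h1, h2⟩ := tc_kz hA hΦ (k := fun _ => 1) measurable_const zero_le_one
    (fun z _ => by rw [abs_one]) x v
  simp only [one_mul] at h1 h2
  refine ⟨h1, ?_⟩
  have e1 : ∫ p, Φ v p.1 * A p.2 p.1 ∂(nu d) = ∫ y, (∫ w, Φ v w * A y w) ∂(muD d) :=
    Pool.Agent.H15.AV.nu_integral (tc_nu hA hΦ v)
  rw [h2, e1, ← tc_loc (tc_pl hA hΦ v) x]
  rfl

private lemma tc_jb {r : ℝ} : PGW fun (_ : Vec d) (w : Vec d) => jb w ^ r := by
  obtain ⟨N, hN⟩ := exists_nat_ge r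
  have hjc : Continuous fun v : Vec d => jb v ^ r :=
    jb_cont.rpow_const fun v => Or.inl (jb_pos v).ne'
  refine ⟨hjc.comp continuous_snd, N, ((d : ℝ) + 1) ^ N, by positivity, fun v w => ?_⟩
  have hv : (1 : ℝ) ≤ (1 + ‖v‖) ^ N := one_le_pow₀ (by linarith [norm_nonneg v])
  rw [abs_of_nonneg (Real.rpow_nonneg (jb_pos w).le r)]
  calc jb w ^ r ≤ jb w ^ (N : ℝ) := Real.rpow_le_rpow_of_exponent_le (one_le_jb w) hN
    _ = jb w ^ N := Real.rpow_natCast _ _
    _ ≤ (((d : ℝ) + 1) * (1 + ‖w‖)) ^ N := pow_le_pow_left₀ (jb_pos w).le (jb_le_w w) N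
    _ = ((d : ℝ) + 1) ^ N * (1 * (1 + ‖w‖) ^ N) := by rw [mul_pow]; ring
    _ ≤ ((d : ℝ) + 1) ^ N * ((1 + ‖v‖) ^ N * (1 + ‖w‖) ^ N) := by gcongr

private lemma tc_gw_nonneg (hq : q.Ok) (h : FS e F G) (x w : Vec d) : 0 ≤ gw q F x w :=
  mul_nonneg (chi_nonneg _ _) (bet_nonneg hq.hC (h.nonneg x w))

private lemma tc_gw_le (hq : q.Ok) (h : FS e F G) (x w : Vec d) : gw q F x w ≤ F x w := by
  have h1 := bet_le hq.hC (h.nonneg x w)
  have h2 := bet_nonneg hq.hC (h.nonneg x w)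
  unfold gw
  exact (mul_le_of_le_one_left h2 (chi_le_one q.R w)).trans h1

private lemma tc_RX (h : FS e F G) {H : Vec d → Vec d → ℝ} (hH : ∀ x v, |H x v| ≤ F x v) :
    RX H := by
  intro N
  obtain ⟨C, hC⟩ := h.decF N
  refine ⟨C, fun x v => le_trans ?_ (hC x v)⟩
  rw [abs_of_nonneg (h.nonneg x v)]
  exact mul_le_mul_of_nonneg_left (hH x v) (pow_nonneg (w_pos v).le N)

private lemma tc_bet_cont (hq : q.Ok) (h : FS e F G) :
    Continuous fun p : Vec d × Vec d => bet q.C₀ (F p.1 p.2) := by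
  rw [continuous_iff_continuousAt]
  intro p
  have h1 : ContinuousAt (bet q.C₀) (F p.1 p.2) := (bet_deriv hq.hC (h.nonneg p.1 p.2)).continuousAt
  exact ContinuousAt.comp (g := bet q.C₀) (f := fun p : Vec d × Vec d => F p.1 p.2) h1
    h.contF.continuousAt

private lemma tc_AF (h : FS e F G) : TcA e F := ⟨h.contF, h.decF, h.perF, h.plF⟩

private lemma tc_AB (hq : q.Ok) (h : FS e F G) : TcA e fun x w => bet q.C₀ (F x w) := by
  refine ⟨tc_bet_cont hq h, tc_RX h fun x v => ?_, fun x w i => ?_, fun x y w hxy => ?_⟩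
  · rw [abs_of_nonneg (bet_nonneg hq.hC (h.nonneg x v))]
    exact bet_le hq.hC (h.nonneg x v)
  · show bet q.C₀ (F (x + Pi.single i 1) w) = bet q.C₀ (F x w)
    rw [h.perF]
  · show bet q.C₀ (F x w) = bet q.C₀ (F y w)
    rw [h.plF x y w hxy]

private lemma tc_A1 (hq : q.Ok) (h : FS e F G) : TcA e (gw q F) := by
  refine ⟨((chi_cont q.R).comp continuous_snd).mul (tc_bet_cont hq h), tc_RX h fun x v => ?_,
    fun x w i => ?_, fun x y w hxy => ?_⟩
  · rw [abs_of_nonneg (tc_gw_nonneg hq h x v)]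
    exact tc_gw_le hq h x v
  · unfold gw
    rw [h.perF]
  · unfold gw
    rw [h.plF x y w hxy]

private lemma tc_A2 (hq : q.Ok) (h : FS e F G) : TcA e fun x w => F x w - gw q F x w := by
  refine ⟨h.contF.sub (tc_A1 hq h).cont, tc_RX h fun x v => ?_,
    fun x w i => ?_, fun x y w hxy => ?_⟩
  · have h1 := tc_gw_le hq h x v
    have h2 := tc_gw_nonneg hq h x v
    rw [abs_of_nonneg (by linarith)]
    linarith
  · show F (x + Pi.single i 1) w - gw q F (x + Pi.single i 1) w = F x w - gw q F x w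
    rw [h.perF, (tc_A1 hq h).per]
  · show F x w - gw q F x w = F y w - gw q F y w
    rw [h.plF x y w hxy, (tc_A1 hq h).pl x y w hxy]

private lemma tc_meas {A : Vec d → Vec d → ℝ} (hA : TcA e A) (x : Vec d) :
    Measurable fun p : ℝ × Vec d => A (x - Pi.single e p.1) p.2 :=
  (hA.cont.comp ((tc_sc x).prodMk continuous_snd)).measurable

private lemma tc_prop {A : Vec d → Vec d → ℝ} (hA : TcA e A) (x : Vec d) (r : ℝ) :
    Integrable (fun p : ℝ × Vec d => A (x - Pi.single e p.1) p.2 * jb p.2 ^ r) (zw d) ∧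
    ∫ p, A (x - Pi.single e p.1) p.2 * jb p.2 ^ r ∂(zw d) =
      ∫ p, A p.2 p.1 * jb p.1 ^ r ∂(nu d) := by
  obtain ⟨h1, h2⟩ := tc_avg hA (tc_jb (d := d) (r := r)) x 0
  have e1 : (fun p : ℝ × Vec d => A (x - Pi.single e p.1) p.2 * jb p.2 ^ r) =
      fun p => jb p.2 ^ r * A (x - Pi.single e p.1) p.2 := by
    funext p
    ring
  have e2 : (fun p : Vec d × Vec d => A p.2 p.1 * jb p.1 ^ r) =
      fun p => jb p.1 ^ r * A p.2 p.1 := by
    funext p
    ring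
  rw [e1, e2]
  exact ⟨h1, h2⟩

lemma ro2_props (hq : q.Ok) (h : FS e F G) (x : Vec d) (r : ℝ) :
    (∀ p, 0 ≤ ro2 q e F x p) ∧ Measurable (ro2 q e F x) ∧
    Integrable (fun p => ro2 q e F x p * jb p.2 ^ r) (zw d) ∧
    ∫ p, ro2 q e F x p * jb p.2 ^ r ∂(zw d) =
      ∫ p, (F p.2 p.1 - gw q F p.2 p.1) * jb p.1 ^ r ∂(nu d) := by
  obtain ⟨h1, h2⟩ := tc_prop (tc_A2 hq h) x r
  exact ⟨fun p => sub_nonneg.2 (tc_gw_le hq h _ _), tc_meas (tc_A2 hq h) x, h1, h2⟩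

lemma ro1_props (hq : q.Ok) (h : FS e F G) (x : Vec d) (r : ℝ) :
    (∀ p, 0 ≤ ro1 q e F x p) ∧ Measurable (ro1 q e F x) ∧
    Integrable (fun p => ro1 q e F x p * jb p.2 ^ r) (zw d) ∧
    ∫ p, ro1 q e F x p * jb p.2 ^ r ∂(zw d) = ∫ p, gw q F p.2 p.1 * jb p.1 ^ r ∂(nu d) := by
  obtain ⟨h1, h2⟩ := tc_prop (tc_A1 hq h) x r
  exact ⟨fun p => tc_gw_nonneg hq h _ _, tc_meas (tc_A1 hq h) x, h1, h2⟩

private lemma tc_kl (z : ℝ) (hz : z ∈ Ioo (-((1 : ℝ) / 2)) (1 / 2)) : |kl 1 z| ≤ 1 / 2 :=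
  kl_abs one_pos hz

private lemma Ok_a1 (hq : q.Ok) : q.a ≤ 1 := by linarith [hq.haβ, hq.hβ]
private lemma Ok_b1 (hq : q.Ok) : q.β ≤ 1 := by linarith [hq.haβ, hq.ha]

/-- integrals of the odd part -/
private lemma tc_k {A : Vec d → Vec d → ℝ} (hA : TcA e A) {Φ : Vec d → Vec d → ℝ} (hΦ : PGW Φ)
    (x v : Vec d) :
    Integrable (fun p : ℝ × Vec d => kl 1 p.1 * (Φ v p.2 * A (x - Pi.single e p.1) p.2)) (zw d) ∧
    ∫ p, kl 1 p.1 * (Φ v p.2 * A (x - Pi.single e p.1) p.2) ∂(zw d) = pot e 1 Φ A x v :=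
  tc_kz hA hΦ (kl_meas 1) (by norm_num) tc_kl x v

theorem EW_split (hq : q.Ok) (h : FS e F G) (x v : Vec d) :
    EW q e F x v = q.K₀ * (∫ p, ro2 q e F x p *
        (kl 1 p.1 * PhS e q.a v p.2 - q.M₁ * PhE q.a v p.2) ∂(zw d)) -
      q.A' * ∫ p, ro1 q e F x p * (kl 1 p.1 * PgB e q.a q.β q.R₀ v p.2) ∂(zw d) := by
  have ha1 := Ok_a1 hq
  have hb1 := Ok_b1 hq
  have pS := PhS_PGW hq.ha ha1 e
  have pE : PGW (PhE q.a : Vec d → Vec d → ℝ) := PhE_PGW hq.ha ha1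
  have pB := PgB_PGW hq.ha ha1 hq.hβ hb1 hq.hR₀ e
  have pSS := PsS_PGW hq e
  have pSE := PsE_PGW (d := d) hq
  have aF := tc_AF h
  have aB := tc_AB hq h
  have a1 := tc_A1 hq h
  have a2 := tc_A2 hq h
  obtain ⟨i1, e1⟩ := tc_k aF pS x v
  obtain ⟨i2, e2⟩ := tc_k aB pSS x v
  obtain ⟨i3, e3⟩ := tc_k a2 pS x v
  obtain ⟨i4, e4⟩ := tc_k a1 pB x v
  obtain ⟨j1, f1⟩ := tc_avg aF pE x v
  obtain ⟨j2, f2⟩ := tc_avg aB pSE x v
  obtain ⟨j3, f3⟩ := tc_avg a2 pE x v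
  -- the right side
  have r1 : ∫ p, ro2 q e F x p * (kl 1 p.1 * PhS e q.a v p.2 - q.M₁ * PhE q.a v p.2) ∂(zw d) =
      (∫ p, kl 1 p.1 * (PhS e q.a v p.2 * (F (x - Pi.single e p.1) p.2 -
        gw q F (x - Pi.single e p.1) p.2)) ∂(zw d)) -
      q.M₁ * ∫ p, PhE q.a v p.2 * (F (x - Pi.single e p.1) p.2 -
        gw q F (x - Pi.single e p.1) p.2) ∂(zw d) := by
    rw [← integral_const_mul, ← integral_sub i3 (j3.const_mul _)]
    congr 1
    funext p
    unfold ro2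
    ring
  have r2 : ∫ p, ro1 q e F x p * (kl 1 p.1 * PgB e q.a q.β q.R₀ v p.2) ∂(zw d) =
      ∫ p, kl 1 p.1 * (PgB e q.a q.β q.R₀ v p.2 * gw q F (x - Pi.single e p.1) p.2) ∂(zw d) := by
    congr 1
    funext p
    unfold ro1
    ring
  -- the odd part
  have o1 : q.K₀ * pot e 1 (PhS e q.a) F x v - pot e 1 (PsS e q) (fun y w => bet q.C₀ (F y w)) x v =
      q.K₀ * (∫ p, kl 1 p.1 * (PhS e q.a v p.2 * (F (x - Pi.single e p.1) p.2 -
        gw q F (x - Pi.single e p.1) p.2)) ∂(zw d)) -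
      q.A' * ∫ p, kl 1 p.1 * (PgB e q.a q.β q.R₀ v p.2 * gw q F (x - Pi.single e p.1) p.2)
        ∂(zw d) := by
    rw [← e1, ← e2, ← integral_const_mul, ← integral_const_mul, ← integral_const_mul,
      ← integral_sub (i1.const_mul _) i2, ← integral_sub (i3.const_mul _) (i4.const_mul _)]
    congr 1
    funext p
    unfold PsS gw
    ring
  -- the even part
  have o2 : q.K₀ * avn (PhE q.a) F v - avn (PsE q) (fun y w => bet q.C₀ (F y w)) v =
      q.K₀ * ∫ p, PhE q.a v p.2 * (F (x - Pi.single e p.1) p.2 -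
        gw q F (x - Pi.single e p.1) p.2) ∂(zw d) := by
    unfold avn
    rw [← f1, ← f2, ← integral_const_mul, ← integral_const_mul,
      ← integral_sub (j1.const_mul _) j2]
    congr 1
    funext p
    unfold PsE gw
    ring
  unfold EW
  rw [r1, r2, o1, o2]
  ring

theorem EW_abs (hq : q.Ok) (h : FS e F G)
    (h2 : ∫ p, (F p.2 p.1 - gw q F p.2 p.1) * jb p.1 ^ (1 + q.a) ∂(nu d) ≤ ε₂)
    (hM : ∫ p, F p.2 p.1 * jb p.1 ^ 2 ∂(nu d) ≤ M₂) (x v : Vec d) :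
    |EW q e F x v| ≤ (1 + 2 * q.M₁) * (q.K₀ * ε₂) + q.A' * M₂ := by
  have ha1 := Ok_a1 hq
  have hb1 := Ok_b1 hq
  obtain ⟨n2, m2, i2, s2⟩ := ro2_props hq h x (1 + q.a)
  obtain ⟨n1, m1, i1, s1⟩ := ro1_props hq h x 2
  have b2 : |∫ p, ro2 q e F x p * (kl 1 p.1 * PhS e q.a v p.2 - q.M₁ * PhE q.a v p.2) ∂(zw d)| ≤
      (1 + 2 * q.M₁) * ε₂ := by
    have k1 : ‖∫ p, ro2 q e F x p * (kl 1 p.1 * PhS e q.a v p.2 - q.M₁ * PhE q.a v p.2) ∂(zw d)‖ ≤
        ∫ p, (1 + 2 * q.M₁) * (ro2 q e F x p * jb p.2 ^ (1 + q.a)) ∂(zw d) := by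
      refine norm_integral_le_of_norm_le (i2.const_mul _) ?_
      filter_upwards [tc_fst] with p hp
      have c1 := tc_kl p.1 hp
      have c2 := PhS_abs hq.ha ha1 e v p.2
      have c3 := PhE_abs hq.ha ha1 v p.2
      have c4 : jb p.2 ^ q.a ≤ jb p.2 ^ (1 + q.a) :=
        Real.rpow_le_rpow_of_exponent_le (one_le_jb _) (by linarith)
      have c5 : 0 ≤ jb p.2 ^ q.a := Real.rpow_nonneg (jb_pos _).le _
      have c6 : |kl 1 p.1 * PhS e q.a v p.2| ≤ 1 / 2 * (2 * jb p.2 ^ q.a) := by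
        rw [abs_mul]
        exact mul_le_mul c1 c2 (abs_nonneg _) (by norm_num)
      have c7 : |q.M₁ * PhE q.a v p.2| ≤ q.M₁ * (2 * jb p.2 ^ q.a) := by
        rw [abs_mul, abs_of_nonneg hq.hM]
        exact mul_le_mul_of_nonneg_left c3 hq.hM
      have c8 : |kl 1 p.1 * PhS e q.a v p.2 - q.M₁ * PhE q.a v p.2| ≤
          (1 + 2 * q.M₁) * jb p.2 ^ (1 + q.a) := by
        refine (abs_sub _ _).trans ((add_le_add c6 c7).trans ?_)
        have c9 := mul_le_mul_of_nonneg_left c4 (show 0 ≤ 1 + 2 * q.M₁ by linarith [hq.hM])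
        linarith
      rw [Real.norm_eq_abs, abs_mul, abs_of_nonneg (n2 p)]
      calc ro2 q e F x p * |kl 1 p.1 * PhS e q.a v p.2 - q.M₁ * PhE q.a v p.2|
          ≤ ro2 q e F x p * ((1 + 2 * q.M₁) * jb p.2 ^ (1 + q.a)) :=
            mul_le_mul_of_nonneg_left c8 (n2 p)
        _ = _ := by ring
    rw [integral_const_mul, s2, Real.norm_eq_abs] at k1
    exact k1.trans (mul_le_mul_of_nonneg_left h2 (by linarith [hq.hM]))
  have b1 : |∫ p, ro1 q e F x p * (kl 1 p.1 * PgB e q.a q.β q.R₀ v p.2) ∂(zw d)| ≤ M₂ := by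
    have k1 : ‖∫ p, ro1 q e F x p * (kl 1 p.1 * PgB e q.a q.β q.R₀ v p.2) ∂(zw d)‖ ≤
        ∫ p, ro1 q e F x p * jb p.2 ^ (2 : ℝ) ∂(zw d) := by
      refine norm_integral_le_of_norm_le i1 ?_
      filter_upwards [tc_fst] with p hp
      have c1 := tc_kl p.1 hp
      have c2 := PgB_abs (a := q.a) (R₀ := q.R₀) hq.hβ hb1 e v p.2
      have c4 : jb p.2 ^ q.β ≤ jb p.2 ^ (2 : ℝ) :=
        Real.rpow_le_rpow_of_exponent_le (one_le_jb _) (by linarith)
      have c6 : |kl 1 p.1 * PgB e q.a q.β q.R₀ v p.2| ≤ 1 / 2 * (2 * jb p.2 ^ q.β) := by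
        rw [abs_mul]
        exact mul_le_mul c1 c2 (abs_nonneg _) (by norm_num)
      rw [Real.norm_eq_abs, abs_mul, abs_of_nonneg (n1 p)]
      exact mul_le_mul_of_nonneg_left (by linarith) (n1 p)
    rw [s1, Real.norm_eq_abs] at k1
    refine k1.trans (le_trans ?_ hM)
    have g1 := tc_nu (tc_A1 hq h) (tc_jb (d := d) (r := 2)) 0
    have g2 := tc_nu (tc_AF h) (tc_jb (d := d) (r := 2)) 0
    have g1' : Integrable (fun p : Vec d × Vec d => gw q F p.2 p.1 * jb p.1 ^ (2 : ℝ)) (nu d) := by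
      refine g1.congr (Eventually.of_forall fun p => ?_)
      show jb p.1 ^ (2 : ℝ) * gw q F p.2 p.1 = gw q F p.2 p.1 * jb p.1 ^ (2 : ℝ)
      ring
    have g2' : Integrable (fun p : Vec d × Vec d => F p.2 p.1 * jb p.1 ^ 2) (nu d) := by
      refine g2.congr (Eventually.of_forall fun p => ?_)
      show jb p.1 ^ (2 : ℝ) * F p.2 p.1 = F p.2 p.1 * jb p.1 ^ 2
      rw [Real.rpow_two]
      ring
    refine integral_mono g1' g2' fun p => ?_
    show gw q F p.2 p.1 * jb p.1 ^ (2 : ℝ) ≤ F p.2 p.1 * jb p.1 ^ 2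
    rw [Real.rpow_two]
    exact mul_le_mul_of_nonneg_right (tc_gw_le hq h _ _) (by positivity)
  rw [EW_split hq h x v]
  refine (abs_sub _ _).trans ?_
  rw [abs_mul, abs_mul, abs_of_nonneg hq.hK, abs_of_nonneg hq.hA]
  have t1 := mul_le_mul_of_nonneg_left b2 hq.hK
  have t2 := mul_le_mul_of_nonneg_left b1 hq.hA
  calc _ ≤ q.K₀ * ((1 + 2 * q.M₁) * ε₂) + q.A' * M₂ := add_le_add t1 t2
    _ = _ := by ring

end Pool.Agent.H48.PW
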