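import Pool.Agent.H48.PW.TchA
import Pool.Agent.H48.PW.TchB

/-!
# Module TchC: the one-sided touching condition at a maximum point

`E u = EW q e F x u + Y u`, `P u = exp(E u - E v) - 1`. The maximum property is `g u W_u ≤ g v W_v exp(E u - E v)` (`W = (1+nsq)^p`). `|E u - E v| ≤ 2δ ≤ 1/2` gives `|P u| ≤ 4δ` (`Real.abs_exp_sub_one_le`-type bound: `|exp x - 1| ≤ 2|x|` for `|x| ≤ 1`).
`E` is continuous in `u` (`EW`: by `EW_split`, or `pot_cont`-type; hypothesis `hEc`). `EW u - EW v = K₀ (T u - T v) + D₁`, `T u` the integral in `EW_split` (`tch_sup` with `Ω = ℝ × Vec d`, `ν = zw d`, `ρ = ro2`, `t = kl 1 ·`, `w = Prod.snd`, `ε₂`: `jb^a ≤ jb^(1+a)`),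
`|D₁ u| ≤ A' 32 M₂ min(1, len(u-v)/jb v)^β + η₁ min(..)^β` (`PgB_osc`, `|kl| ≤ 1/2`, `ro1_props`, `jb^β ≤ jb²`; `hY`). `min(1, len(u-v)/jb v)^β = mm β v u` (private lemma `fmm_eq` in PL/FinP.lean).
`exp z - 1 ≤ z + z²` for `|z| ≤ 1` and `z = K₀ΔT + D₁`: `P ≤ K₀ΔT + 2(K₀ΔT)² + |D₁| + 2 D₁²`, `D₁² ≤ |D₁|` as `|D₁| ≤ 1`. Integrate with `k (co)` (`RadI`): `∫ k P ≤ (K₀ K ε₂ + 3 (32 A' M₂ + η₁)) ∫ k mm ≤ 4δ ∫ k mm`.
-/

set_option autoImplicit false

open MeasureTheory Set Filter Topology Pool.Agent.H25.Kin Pool.Agent.H82.BK Pool.Agent.H48.PL Pool.Agent.H48.PI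

namespace Pool.Agent.H48.PW

variable {d : ℕ} {q : Pm} {e : Fin d} {F G : Vec d → Vec d → ℝ} {ε₂ M₂ : ℝ}

private instance tcC_sf : SFinite (zw d) := by
  unfold zw
  infer_instance

private lemma tcC_fst : ∀ᵐ p ∂(zw d), p.1 ∈ Ioo (-((1 : ℝ) / 2)) (1 / 2) :=
  Measure.quasiMeasurePreserving_fst.ae (ae_restrict_mem measurableSet_Ioo)

private lemma tcC_kl : ∀ᵐ p ∂(zw d), |kl 1 p.1| ≤ 1 / 2 := by
  filter_upwards [tcC_fst] with p hp
  exact kl_abs one_pos hp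

private lemma tcC_gw_nonneg (hq : q.Ok) (h : FS e F G) (x w : Vec d) : 0 ≤ gw q F x w :=
  mul_nonneg (chi_nonneg _ _) (bet_nonneg hq.hC (h.nonneg x w))

private lemma tcC_gw_le (hq : q.Ok) (h : FS e F G) (x w : Vec d) : gw q F x w ≤ F x w := by
  have h1 := bet_le hq.hC (h.nonneg x w)
  have h2 := bet_nonneg hq.hC (h.nonneg x w)
  unfold gw
  exact (mul_le_of_le_one_left h2 (chi_le_one q.R w)).trans h1

private lemma tcC_M (hq : q.Ok) (h : FS e F G)
    (hM : ∫ p, F p.2 p.1 * jb p.1 ^ 2 ∂(nu d) ≤ M₂) (x : Vec d) :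
    ∫ p, ro1 q e F x p * jb p.2 ^ (2 : ℝ) ∂(zw d) ≤ M₂ := by
  obtain ⟨n1, m1, i1, s1⟩ := ro1_props hq h x 2
  rw [s1]
  refine le_trans ?_ hM
  obtain ⟨C, hC⟩ := h.decF (2 + (d + 1))
  have hF : Integrable (fun p : Vec d × Vec d => F p.2 p.1 * jb p.1 ^ 2) (nu d) := by
    have hc : Continuous fun p : Vec d × Vec d => F p.2 p.1 * jb p.1 ^ 2 :=
      (h.contF.comp (by fun_prop : Continuous fun p : Vec d × Vec d => (p.2, p.1))).mul
        ((jb_cont.comp continuous_fst).pow 2)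
    refine integrable_nu (C := ((d : ℝ) + 1) ^ 2 * C) hc.aestronglyMeasurable fun p => ?_
    have h1 := hC p.2 p.1
    have h2 : jb p.1 ^ 2 ≤ (((d : ℝ) + 1) * (1 + ‖p.1‖)) ^ 2 :=
      pow_le_pow_left₀ (jb_pos _).le (jb_le_w _) 2
    have hw : 0 < 1 + ‖p.1‖ := w_pos p.1
    have h3 := abs_nonneg (F p.2 p.1)
    rw [abs_mul, abs_of_nonneg (by positivity : (0:ℝ) ≤ jb p.1 ^ 2)]
    unfold wt
    rw [← div_eq_mul_inv, le_div_iff₀ (by positivity)]
    calc |F p.2 p.1| * jb p.1 ^ 2 * (1 + ‖p.1‖) ^ (d + 1)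
        ≤ |F p.2 p.1| * (((d : ℝ) + 1) * (1 + ‖p.1‖)) ^ 2 * (1 + ‖p.1‖) ^ (d + 1) := by gcongr
      _ = ((d : ℝ) + 1) ^ 2 * ((1 + ‖p.1‖) ^ (2 + (d + 1)) * |F p.2 p.1|) := by
          rw [pow_add, mul_pow]; ring
      _ ≤ ((d : ℝ) + 1) ^ 2 * C := by gcongr
  refine integral_mono_of_nonneg (Eventually.of_forall fun p => ?_) hF
    (Eventually.of_forall fun p => ?_)
  · exact mul_nonneg (tcC_gw_nonneg hq h _ _) (Real.rpow_nonneg (jb_pos _).le _)
  · show gw q F p.2 p.1 * jb p.1 ^ (2 : ℝ) ≤ F p.2 p.1 * jb p.1 ^ 2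
    rw [Real.rpow_two]
    exact mul_le_mul_of_nonneg_right (tcC_gw_le hq h _ _) (by positivity)

private lemma tcC_comp {Ω : Type*} [MeasurableSpace Ω] {Φ : Vec d → Vec d → ℝ}
    (hΦ : Continuous fun p : Vec d × Vec d => Φ p.1 p.2) {f g : Ω → Vec d} (hf : Measurable f)
    (hg : Measurable g) : Measurable fun ω => Φ (f ω) (g ω) := by
  have h1 : Measurable fun p : Vec d × Vec d => Φ p.1 p.2 := hΦ.measurable
  have h2 : Measurable fun ω => ((f ω, g ω) : Vec d × Vec d) := hf.prodMk hg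
  have h3 := h1.comp h2
  exact h3

private lemma tcC_kf : Measurable fun p : Vec d × (ℝ × Vec d) => kl 1 p.2.1 :=
  (kl_meas 1).comp (measurable_fst.comp measurable_snd)

private lemma tcC_Tm (hq : q.Ok) (h : FS e F G) (x : Vec d) : Measurable fun u : Vec d =>
    ∫ p, ro2 q e F x p * (kl 1 p.1 * PhS e q.a u p.2 - q.M₁ * PhE q.a u p.2) ∂(zw d) := by
  have ha1 : q.a ≤ 1 := by linarith [hq.haβ, hq.hβ]
  obtain ⟨n2, m2, i2, s2⟩ := ro2_props hq h x q.a
  have cPS := (PhS_PGW hq.ha ha1 e).cont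
  have cPE := (PhE_PGW (d := d) hq.ha ha1).cont
  have m3 : Measurable fun p : Vec d × (ℝ × Vec d) => p.2.2 := measurable_snd.comp measurable_snd
  have mS : Measurable fun p : Vec d × (ℝ × Vec d) => PhS e q.a p.1 p.2.2 :=
    tcC_comp cPS measurable_fst m3
  have mE : Measurable fun p : Vec d × (ℝ × Vec d) => PhE q.a p.1 p.2.2 :=
    tcC_comp cPE measurable_fst m3
  have h1 : StronglyMeasurable fun u : Vec d =>
      ∫ p, ro2 q e F x p * (kl 1 p.1 * PhS e q.a u p.2 - q.M₁ * PhE q.a u p.2) ∂(zw d) := by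
    refine StronglyMeasurable.integral_prod_right (f := fun (u : Vec d) (p : ℝ × Vec d) =>
      ro2 q e F x p * (kl 1 p.1 * PhS e q.a u p.2 - q.M₁ * PhE q.a u p.2)) ?_
    exact ((m2.comp measurable_snd).mul ((tcC_kf.mul mS).sub (mE.const_mul q.M₁))).stronglyMeasurable
  exact h1.measurable

private lemma tcC_Im (hq : q.Ok) (h : FS e F G) (x : Vec d) : Measurable fun u : Vec d =>
    ∫ p, ro1 q e F x p * (kl 1 p.1 * PgB e q.a q.β q.R₀ u p.2) ∂(zw d) := by
  have ha1 : q.a ≤ 1 := by linarith [hq.haβ, hq.hβ]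
  have hb1 : q.β ≤ 1 := by linarith [hq.haβ, hq.ha]
  obtain ⟨n1, m1, i1, s1⟩ := ro1_props hq h x 2
  have cPB := (PgB_PGW hq.ha ha1 hq.hβ hb1 hq.hR₀ e).cont
  have m3 : Measurable fun p : Vec d × (ℝ × Vec d) => p.2.2 := measurable_snd.comp measurable_snd
  have mB : Measurable fun p : Vec d × (ℝ × Vec d) => PgB e q.a q.β q.R₀ p.1 p.2.2 :=
    tcC_comp cPB measurable_fst m3
  have h1 : StronglyMeasurable fun u : Vec d =>
      ∫ p, ro1 q e F x p * (kl 1 p.1 * PgB e q.a q.β q.R₀ u p.2) ∂(zw d) := by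
    refine StronglyMeasurable.integral_prod_right (f := fun (u : Vec d) (p : ℝ × Vec d) =>
      ro1 q e F x p * (kl 1 p.1 * PgB e q.a q.β q.R₀ u p.2)) ?_
    exact ((m1.comp measurable_snd).mul (tcC_kf.mul mB)).stronglyMeasurable
  exact h1.measurable

private lemma tcC_mm (β : ℝ) (v u : Vec d) : mm β v u = min 1 (len (u - v) / jb v) ^ β := by
  have hj := jb_pos v
  have hn : 0 ≤ nsq (u - v) := by
    unfold nsq
    exact Finset.sum_nonneg fun i _ => sq_nonneg _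
  have hl : 0 ≤ len (u - v) := Real.sqrt_nonneg _
  have h1 : nsq (u - v) / (1 + nsq v) = (len (u - v) / jb v) ^ 2 := by
    rw [div_pow, jb_sq]
    unfold len
    rw [Real.sq_sqrt hn]
  have hr : 0 ≤ len (u - v) / jb v := by positivity
  have h2 : min 1 ((len (u - v) / jb v) ^ 2) = (min 1 (len (u - v) / jb v)) ^ 2 := by
    rcases le_total (len (u - v) / jb v) 1 with h | h
    · rw [min_eq_right h, min_eq_right (by nlinarith)]
    · rw [min_eq_left h, min_eq_left (by nlinarith)]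
      norm_num
  have h3 : 0 ≤ min 1 (len (u - v) / jb v) := le_min zero_le_one hr
  unfold mm
  rw [h1, h2, ← Real.rpow_natCast, ← Real.rpow_mul h3]
  congr 1
  push_cast
  ring

private lemma tcC_osc (hq : q.Ok) (h : FS e F G)
    (hM : ∫ p, F p.2 p.1 * jb p.1 ^ 2 ∂(nu d) ≤ M₂) (x u v : Vec d) :
    |(∫ p, ro1 q e F x p * (kl 1 p.1 * PgB e q.a q.β q.R₀ u p.2) ∂(zw d)) -
      ∫ p, ro1 q e F x p * (kl 1 p.1 * PgB e q.a q.β q.R₀ v p.2) ∂(zw d)| ≤
      32 * M₂ * mm q.β v u := by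
  have ha1 : q.a ≤ 1 := by linarith [hq.haβ, hq.hβ]
  have hb1 : q.β ≤ 1 := by linarith [hq.haβ, hq.ha]
  obtain ⟨n1, m1, i1, s1⟩ := ro1_props hq h x 2
  have cPB := (PgB_PGW hq.ha ha1 hq.hβ hb1 hq.hR₀ e).cont
  have mB : ∀ y : Vec d, Measurable fun p : ℝ × Vec d => PgB e q.a q.β q.R₀ y p.2 := fun y =>
    tcC_comp cPB measurable_const measurable_snd
  have mk : Measurable fun p : ℝ × Vec d => kl 1 p.1 := (kl_meas 1).comp measurable_fst
  have c4 : ∀ w : Vec d, jb w ^ q.β ≤ jb w ^ (2 : ℝ) := fun w =>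
    Real.rpow_le_rpow_of_exponent_le (one_le_jb _) (by linarith)
  have hi : ∀ y : Vec d, Integrable (fun p : ℝ × Vec d =>
      ro1 q e F x p * (kl 1 p.1 * PgB e q.a q.β q.R₀ y p.2)) (zw d) := by
    intro y
    refine i1.mono' (m1.mul (mk.mul (mB y))).aestronglyMeasurable ?_
    filter_upwards [tcC_kl] with p hp
    have c2 := PgB_abs (a := q.a) (R₀ := q.R₀) hq.hβ hb1 e y p.2
    have c6 : |kl 1 p.1 * PgB e q.a q.β q.R₀ y p.2| ≤ 1 / 2 * (2 * jb p.2 ^ q.β) := by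
      rw [abs_mul]
      exact mul_le_mul hp c2 (abs_nonneg _) (by norm_num)
    rw [Real.norm_eq_abs, abs_mul, abs_of_nonneg (n1 p)]
    exact mul_le_mul_of_nonneg_left (by linarith [c4 p.2]) (n1 p)
  rw [← integral_sub (hi u) (hi v)]
  have k1 : ‖∫ p, (ro1 q e F x p * (kl 1 p.1 * PgB e q.a q.β q.R₀ u p.2) -
      ro1 q e F x p * (kl 1 p.1 * PgB e q.a q.β q.R₀ v p.2)) ∂(zw d)‖ ≤
      ∫ p, (32 * mm q.β v u) * (ro1 q e F x p * jb p.2 ^ (2 : ℝ)) ∂(zw d) := by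
    refine norm_integral_le_of_norm_le (i1.const_mul _) ?_
    filter_upwards [tcC_kl] with p hp
    have c2 := PgB_osc (R₀ := q.R₀) hq.ha ha1 hq.hβ hb1 e u v p.2
    rw [← tcC_mm] at c2
    have hm0 := mm_nonneg q.β v u
    have c6 : |kl 1 p.1 * (PgB e q.a q.β q.R₀ u p.2 - PgB e q.a q.β q.R₀ v p.2)| ≤
        1 / 2 * (64 * (jb p.2 ^ q.β * mm q.β v u)) := by
      rw [abs_mul]
      exact mul_le_mul hp c2 (abs_nonneg _) (by norm_num)
    have c7 : 1 / 2 * (64 * (jb p.2 ^ q.β * mm q.β v u)) ≤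
        32 * mm q.β v u * jb p.2 ^ (2 : ℝ) := by
      have := mul_le_mul_of_nonneg_right (c4 p.2) hm0
      linarith
    rw [Real.norm_eq_abs]
    calc |ro1 q e F x p * (kl 1 p.1 * PgB e q.a q.β q.R₀ u p.2) -
          ro1 q e F x p * (kl 1 p.1 * PgB e q.a q.β q.R₀ v p.2)|
        = |ro1 q e F x p * (kl 1 p.1 * (PgB e q.a q.β q.R₀ u p.2 -
            PgB e q.a q.β q.R₀ v p.2))| := by
          congr 1
          ring
      _ = ro1 q e F x p * |kl 1 p.1 * (PgB e q.a q.β q.R₀ u p.2 -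
            PgB e q.a q.β q.R₀ v p.2)| := by
          rw [abs_mul, abs_of_nonneg (n1 p)]
      _ ≤ ro1 q e F x p * (32 * mm q.β v u * jb p.2 ^ (2 : ℝ)) :=
          mul_le_mul_of_nonneg_left (c6.trans c7) (n1 p)
      _ = (32 * mm q.β v u) * (ro1 q e F x p * jb p.2 ^ (2 : ℝ)) := by ring
  rw [integral_const_mul, Real.norm_eq_abs] at k1
  refine k1.trans ?_
  have k2 := mul_le_mul_of_nonneg_left (tcC_M hq h hM x)
    (mul_nonneg (by norm_num : (0:ℝ) ≤ 32) (mm_nonneg q.β v u))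
  linarith

private lemma tcC_add (v : Vec d) : Measurable fun x : Vec d => v + x :=
  (continuous_const.add continuous_id).measurable

theorem touch_W (hq : q.Ok) (h : FS e F G) {c₂ K : ℝ} (hc : 0 ≤ c₂) (hK : 0 ≤ K)
    (hS : SPC e q.a q.β q.M₁ c₂ K)
    (h2 : ∫ p, (F p.2 p.1 - gw q F p.2 p.1) * jb p.1 ^ (1 + q.a) ∂(nu d) ≤ ε₂)
    (hM : ∫ p, F p.2 p.1 * jb p.1 ^ 2 ∂(nu d) ≤ M₂)
    (hsm : 2 * q.K₀ * (1 / 2 + q.M₁) ^ 2 * ε₂ ≤ c₂) {δ η₁ : ℝ} (hδ : 0 < δ) (hδ1 : δ ≤ 1 / 4)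
    (hη : 0 ≤ η₁) (hsum : q.K₀ * K * ε₂ + 3 * (32 * (q.A' * M₂) + η₁) ≤ 4 * δ) {p : ℕ} {x v : Vec d}
    {Y : Vec d → ℝ} (hYc : Continuous Y)
    (hY : ∀ u, |Y u - Y v| ≤ η₁ * min 1 (len (u - v) / jb v) ^ q.β)
    (hE : ∀ u, |EW q e F x u + Y u - (EW q e F x v + Y v)| ≤ 2 * δ)
    (hmax : ∀ u, F x u * (1 + nsq u) ^ p * Real.exp (-(EW q e F x u + Y u)) ≤
      F x v * (1 + nsq v) ^ p * Real.exp (-(EW q e F x v + Y v))) :
    TouchS (4 * δ) q.β p (F x) v := by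
  have ha1 : q.a ≤ 1 := by linarith [hq.haβ, hq.hβ]
  obtain ⟨n2, m2, i2, s2⟩ := ro2_props hq h x (1 + q.a)
  obtain ⟨-, -, i3, -⟩ := ro2_props hq h x q.a
  obtain ⟨T, hTd⟩ : ∃ T : Vec d → ℝ, ∀ u, T u = ∫ p, ro2 q e F x p *
      (kl 1 p.1 * PhS e q.a u p.2 - q.M₁ * PhE q.a u p.2) ∂(zw d) := ⟨_, fun u => rfl⟩
  obtain ⟨I, hId⟩ : ∃ I : Vec d → ℝ, ∀ u, I u = ∫ p, ro1 q e F x p *
      (kl 1 p.1 * PgB e q.a q.β q.R₀ u p.2) ∂(zw d) := ⟨_, fun u => rfl⟩
  have hTm : Measurable T := by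
    rw [show T = _ from funext hTd]
    exact tcC_Tm hq h x
  have hIm : Measurable I := by
    rw [show I = _ from funext hId]
    exact tcC_Im hq h x
  have hT : ∀ u, EW q e F x u = q.K₀ * T u - q.A' * I u := by
    intro u
    rw [EW_split hq h x u, hTd u, hId u]
  have hI : ∀ u, |I u - I v| ≤ 32 * M₂ * mm q.β v u := by
    intro u
    rw [hId u, hId v]
    exact tcC_osc hq h hM x u v
  -- the constants
  have hε : ∫ p, ro2 q e F x p * jb p.2 ^ q.a ∂(zw d) ≤ ε₂ := by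
    refine le_trans ?_ (s2.le.trans h2)
    refine integral_mono i3 i2 fun p => ?_
    exact mul_le_mul_of_nonneg_left
      (Real.rpow_le_rpow_of_exponent_le (one_le_jb _) (by linarith)) (n2 p)
  have hε0 : 0 ≤ ε₂ := le_trans (integral_nonneg fun p =>
    mul_nonneg (n2 p) (Real.rpow_nonneg (jb_pos _).le _)) hε
  have hM0 : 0 ≤ M₂ := by
    refine le_trans (integral_nonneg fun p => ?_) (tcC_M hq h hM x)
    exact mul_nonneg ((ro1_props hq h x 2).1 p) (Real.rpow_nonneg (jb_pos _).le _)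
  -- the constant of the bounded part
  set C₁ : ℝ := 32 * (q.A' * M₂) + η₁ with hC₁
  have hA := hq.hA
  have hKn := hq.hK
  have hC0 : 0 ≤ C₁ := by positivity
  have hC3 : 3 * C₁ ≤ 1 := by
    have h1 : 0 ≤ q.K₀ * K * ε₂ := by positivity
    linarith
  have hD : ∀ u, |-(q.A' * (I u - I v)) + (Y u - Y v)| ≤ C₁ * mm q.β v u := by
    intro u
    have h1 := hY u
    rw [← tcC_mm] at h1
    have h2 : |q.A' * (I u - I v)| ≤ q.A' * (32 * M₂ * mm q.β v u) := by
      rw [abs_mul, abs_of_nonneg hA]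
      exact mul_le_mul_of_nonneg_left (hI u) hA
    have h3 := abs_add_le (-(q.A' * (I u - I v))) (Y u - Y v)
    rw [abs_neg] at h3
    rw [hC₁]
    linarith
  have hz : ∀ u, EW q e F x u + Y u - (EW q e F x v + Y v) =
      q.K₀ * (T u - T v) + (-(q.A' * (I u - I v)) + (Y u - Y v)) := by
    intro u
    rw [hT u, hT v]
    ring
  have hEm : Measurable fun u => EW q e F x u := by
    have h1 : (fun u => EW q e F x u) = fun u => q.K₀ * T u - q.A' * I u := funext hT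
    rw [h1]
    exact (hTm.const_mul _).sub (hIm.const_mul _)
  have hPm : Measurable fun u =>
      Real.exp (EW q e F x u + Y u - (EW q e F x v + Y v)) - 1 :=
    (Real.measurable_exp.comp ((hEm.add hYc.measurable).sub_const _)).sub_const 1
  have hPb : ∀ u, |Real.exp (EW q e F x u + Y u - (EW q e F x v + Y v)) - 1| ≤ 4 * δ := by
    intro u
    have h1 := hE u
    have h3 := Real.abs_exp_sub_one_le (h1.trans (by linarith))
    linarith
  -- the pointwise bound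
  have hpt : ∀ u, Real.exp (EW q e F x u + Y u - (EW q e F x v + Y v)) - 1 ≤
      (q.K₀ * (T u - T v) + 2 * (q.K₀ * (T u - T v)) ^ 2) + 3 * C₁ * mm q.β v u := by
    intro u
    have h1 := hE u
    have h3 := Real.abs_exp_sub_one_sub_id_le (h1.trans (by linarith))
    have h4 := (abs_le.1 h3).2
    rw [hz u] at h4 ⊢
    have h5 := hD u
    generalize -(q.A' * (I u - I v)) + (Y u - Y v) = D at h4 h5 ⊢
    generalize q.K₀ * (T u - T v) = S at h4 ⊢
    have h6 := mm_le_one hq.hβ.le v u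
    have h7 := mm_nonneg q.β v u
    have h8 : C₁ * mm q.β v u ≤ 1 / 3 := by nlinarith
    have h9 : 0 ≤ C₁ * mm q.β v u := mul_nonneg hC0 h7
    have h10 : D ^ 2 ≤ C₁ * mm q.β v u := by
      have h11 : D ^ 2 ≤ (C₁ * mm q.β v u) ^ 2 := by
        rw [← sq_abs]
        exact pow_le_pow_left₀ (abs_nonneg _) h5 2
      nlinarith
    have h12 := le_abs_self D
    have h13 : (S + D) ^ 2 ≤ 2 * S ^ 2 + 2 * D ^ 2 := by nlinarith [sq_nonneg (S - D)]
    linarith
  have hSb : ∀ u, |q.K₀ * (T u - T v)| ≤ 1 := by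
    intro u
    have h1 := hE u
    have h5 := hD u
    rw [hz u] at h1
    generalize -(q.A' * (I u - I v)) + (Y u - Y v) = D at h1 h5
    generalize q.K₀ * (T u - T v) = S at h1 ⊢
    have h6 := mm_le_one hq.hβ.le v u
    have h7 := mm_nonneg q.β v u
    have h8 : C₁ * mm q.β v u ≤ 1 / 3 := by nlinarith
    have h9 : |S| ≤ |S + D| + |D| := by
      have := abs_sub (S + D) D
      rwa [add_sub_cancel_right] at this
    linarith
  refine ⟨fun u => Real.exp (EW q e F x u + Y u - (EW q e F x v + Y v)) - 1, hPm, ?_, hPb, ?_⟩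
  · intro u
    have h1 := mul_le_mul_of_nonneg_right (hmax u) (Real.exp_pos (EW q e F x u + Y u)).le
    have e1 : F x u * (1 + nsq u) ^ p * Real.exp (-(EW q e F x u + Y u)) *
        Real.exp (EW q e F x u + Y u) = F x u * (1 + nsq u) ^ p := by
      rw [mul_assoc, ← Real.exp_add]
      simp
    have e2 : F x v * (1 + nsq v) ^ p * Real.exp (-(EW q e F x v + Y v)) *
        Real.exp (EW q e F x u + Y u) = F x v * (1 + nsq v) ^ p *
          (1 + (Real.exp (EW q e F x u + Y u - (EW q e F x v + Y v)) - 1)) := by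
      rw [mul_assoc, ← Real.exp_add]
      congr 1
      rw [add_sub_cancel]
      congr 1
      ring
    rw [e1, e2] at h1
    exact h1
  · intro m hm k hk
    have g1 := tch_sup (ν := zw d) (ρ := ro2 q e F x) (t := fun p : ℝ × Vec d => kl 1 p.1)
      (w := fun p : ℝ × Vec d => p.2) hq.ha ha1 hq.hM hc hK hS n2 m2
      ((kl_meas 1).comp measurable_fst) tcC_kl measurable_snd i3 hε hq.hK hsm (T := T) hTd hm hk
    have j1 : IntegrableOn (fun σ : Vec d => k (co m σ) *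
        (Real.exp (EW q e F x (v + hh σ m) + Y (v + hh σ m) - (EW q e F x v + Y v)) - 1))
        {σ : Vec d | 0 < dot m σ} (surf d) :=
      radk_int hk (F := fun y => Real.exp (EW q e F x (v + y) + Y (v + y) -
        (EW q e F x v + Y v)) - 1) (hPm.comp (tcC_add v)) (B := 4 * δ) fun y _ => hPb (v + y)
    have j2 : IntegrableOn (fun σ : Vec d => k (co m σ) *
        (q.K₀ * (T (v + hh σ m) - T v) + 2 * (q.K₀ * (T (v + hh σ m) - T v)) ^ 2))
        {σ : Vec d | 0 < dot m σ} (surf d) := by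
      have mm1 : Measurable fun y : Vec d => q.K₀ * (T (v + y) - T v) :=
        (((hTm.comp (tcC_add v)).sub_const _).const_mul _)
      refine radk_int hk (F := fun y => q.K₀ * (T (v + y) - T v) +
        2 * (q.K₀ * (T (v + y) - T v)) ^ 2) (mm1.add ((mm1.pow_const 2).const_mul 2)) (B := 3)
        fun y _ => ?_
      have h1 := hSb (v + y)
      show |q.K₀ * (T (v + y) - T v) + 2 * (q.K₀ * (T (v + y) - T v)) ^ 2| ≤ 3
      generalize q.K₀ * (T (v + y) - T v) = S at h1 ⊢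
      rw [abs_le] at h1 ⊢
      constructor <;> nlinarith [h1.1, h1.2]
    have j3 : IntegrableOn (fun σ : Vec d => k (co m σ) * mm q.β v (v + hh σ m))
        {σ : Vec d | 0 < dot m σ} (surf d) := by
      refine radk_int hk (F := fun y => mm q.β v (v + y)) ((mm_meas q.β v).comp (tcC_add v))
        (B := 1) fun y _ => ?_
      rw [abs_of_nonneg (mm_nonneg _ _ _)]
      exact mm_le_one hq.hβ.le v _
    have hI0 : 0 ≤ ∫ σ in {σ : Vec d | 0 < dot m σ}, k (co m σ) * mm q.β v (v + hh σ m)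
        ∂(surf d) := integral_nonneg fun σ => mul_nonneg (hk.nonneg _) (mm_nonneg _ _ _)
    have g2 : ∫ σ in {σ : Vec d | 0 < dot m σ}, k (co m σ) *
        (Real.exp (EW q e F x (v + hh σ m) + Y (v + hh σ m) - (EW q e F x v + Y v)) - 1)
        ∂(surf d) ≤
        ∫ σ in {σ : Vec d | 0 < dot m σ}, (k (co m σ) * (q.K₀ * (T (v + hh σ m) - T v) +
          2 * (q.K₀ * (T (v + hh σ m) - T v)) ^ 2) + 3 * C₁ * (k (co m σ) *
            mm q.β v (v + hh σ m))) ∂(surf d) := by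
      refine integral_mono j1 (j2.add (j3.const_mul _)) fun σ => ?_
      have h1 := mul_le_mul_of_nonneg_left (hpt (v + hh σ m)) (hk.nonneg (co m σ))
      refine h1.trans (le_of_eq ?_)
      show _ = k (co m σ) * (q.K₀ * (T (v + hh σ m) - T v) +
          2 * (q.K₀ * (T (v + hh σ m) - T v)) ^ 2) + 3 * C₁ * (k (co m σ) *
            mm q.β v (v + hh σ m))
      ring
    rw [integral_add j2 (j3.const_mul _), integral_const_mul] at g2
    have g3 := mul_le_mul_of_nonneg_right hsum hI0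
    refine g2.trans (le_trans ?_ g3)
    linarith

end Pool.Agent.H48.PW
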