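import Pool.Agent.H48.PW.XTc
import Pool.Agent.H48.PI.TimO

/-!
# Module TimWW: the time weight and its bounds

Copies of PI/TimW.lean (138 lines) and PI/TimO.lean (142 lines) with `yv e β`, `Xt ↦ Zw a m f · 1` (`Zw_cont` at `V = 1`), `Zt ↦ Zw a m f`.
-/

set_option autoImplicit false

open MeasureTheory Set Filter Topology Pool.Agent.H25.Kin Pool.Agent.H48.PL Pool.Agent.H48.PI

namespace Pool.Agent.H48.PW

variable {d : ℕ} {a β m T ε₁ K₁ R₁ c₂ : ℝ} {e : Fin d} {Q f : ℝ → Vec d → Vec d → ℝ}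

/-- the rate -/
noncomputable def ntW (e : Fin d) (a β m ε₁ K₁ R₁ : ℝ) (f : ℝ → Vec d → Vec d → ℝ) (t : ℝ) (v : Vec d) : ℝ :=
  ε₁ * yv e β v * Zw a m f t 1 + K₁ * Zw a m f t (max (jb v) R₁)

/-- the time weight -/
noncomputable def YW (e : Fin d) (a β m ε₁ K₁ R₁ c₂ : ℝ) (f : ℝ → Vec d → Vec d → ℝ) (t : ℝ) (v : Vec d) : ℝ :=
  (∫ τ in (0 : ℝ)..t, ntW e a β m ε₁ K₁ R₁ f τ v) - c₂ * yv e β v * t

private lemma tww_yv (e : Fin d) (β : ℝ) : Continuous (yv e β : Vec d → ℝ) := by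
  have h : Continuous fun v : Vec d => (1 + |v e|) / jb v :=
    (continuous_const.add (continuous_apply e).abs).div jb_cont fun v => (jb_pos v).ne'
  refine h.rpow_const fun v => Or.inl ?_
  have := jb_pos v
  positivity

private lemma tww_Zc (ha : 0 ≤ a) (ha1 : a ≤ 1) (hm : 0 ≤ m) (hm1 : m ≤ 1) (hf : IsClassicalSol T Q f)
    {V : ℝ} (hV : 0 < V) : ContinuousOn (fun τ => Zw a m f τ V) (Ico 0 T) := by
  have h1 : Continuous fun τ : ℝ => ((τ, V) : ℝ × ℝ) := by fun_prop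
  exact (Zw_cont ha ha1 hm hm1 hf).comp h1.continuousOn fun _ hτ => ⟨hτ, hV⟩

private lemma tww_Z (ha : 0 ≤ a) (ha1 : a ≤ 1) (hm : 0 ≤ m) (hm1 : m ≤ 1) (hf : IsClassicalSol T Q f)
    {t : ℝ} (ht : t ∈ Ico 0 T) {V : ℝ} (hV : 0 < V) :
    IntervalIntegrable (fun τ => Zw a m f τ V) volume 0 t :=
  ((tww_Zc ha ha1 hm hm1 hf hV).mono fun _ hτ => ⟨hτ.1, hτ.2.trans_lt ht.2⟩).intervalIntegrable_of_Icc ht.1

lemma ntW_cont (ha : 0 ≤ a) (ha1 : a ≤ 1) (hm : 0 ≤ m) (hm1 : m ≤ 1) (hf : IsClassicalSol T Q f)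
    (hR : 1 ≤ R₁) :
    ContinuousOn (fun q : ℝ × Vec d => ntW e a β m ε₁ K₁ R₁ f q.1 q.2) (Ico 0 T ×ˢ univ) := by
  unfold ntW
  have h2 : Continuous fun q : ℝ × Vec d => yv e β q.2 := (tww_yv e β).comp continuous_snd
  have h1 : ContinuousOn (fun q : ℝ × Vec d => Zw a m f q.1 1) (Ico 0 T ×ˢ univ) :=
    (tww_Zc ha ha1 hm hm1 hf zero_lt_one).comp continuous_fst.continuousOn fun q hq => hq.1
  have h3 : Continuous fun q : ℝ × Vec d => ((q.1, max (jb q.2) R₁) : ℝ × ℝ) :=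
    continuous_fst.prodMk ((jb_cont.comp continuous_snd).max continuous_const)
  have h4 : ContinuousOn (fun q : ℝ × Vec d => Zw a m f q.1 (max (jb q.2) R₁)) (Ico 0 T ×ˢ univ) :=
    (Zw_cont ha ha1 hm hm1 hf).comp h3.continuousOn fun q hq =>
      ⟨hq.1, (zero_lt_one.trans_le hR).trans_le (le_max_right _ _)⟩
  exact ((continuous_const.mul h2).continuousOn.mul h1).add (continuousOn_const.mul h4)

private lemma tww_n (ha : 0 ≤ a) (ha1 : a ≤ 1) (hm : 0 ≤ m) (hm1 : m ≤ 1) (hf : IsClassicalSol T Q f)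
    (hR : 1 ≤ R₁) (v : Vec d) : ContinuousOn (fun τ => ntW e a β m ε₁ K₁ R₁ f τ v) (Ico 0 T) := by
  have hV : 0 < max (jb v) R₁ := (zero_lt_one.trans_le hR).trans_le (le_max_right _ _)
  unfold ntW
  exact (continuousOn_const.mul (tww_Zc ha ha1 hm hm1 hf zero_lt_one)).add
    (continuousOn_const.mul (tww_Zc ha ha1 hm hm1 hf hV))

lemma YW_eq (ha : 0 ≤ a) (ha1 : a ≤ 1) (hm : 0 ≤ m) (hm1 : m ≤ 1) (hf : IsClassicalSol T Q f)
    (hR : 1 ≤ R₁) {t : ℝ} (ht : t ∈ Ico 0 T) (v : Vec d) : YW e a β m ε₁ K₁ R₁ c₂ f t v =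
      ε₁ * yv e β v * (∫ τ in (0 : ℝ)..t, Zw a m f τ 1) +
        K₁ * (∫ τ in (0 : ℝ)..t, Zw a m f τ (max (jb v) R₁)) - c₂ * yv e β v * t := by
  have hV : 0 < max (jb v) R₁ := lt_of_lt_of_le (by linarith) (le_max_right _ _)
  unfold YW ntW
  rw [intervalIntegral.integral_add ((tww_Z ha ha1 hm hm1 hf ht zero_lt_one).const_mul _)
    ((tww_Z ha ha1 hm hm1 hf ht hV).const_mul _), intervalIntegral.integral_const_mul,
    intervalIntegral.integral_const_mul]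

lemma YW_deriv (ha : 0 ≤ a) (ha1 : a ≤ 1) (hm : 0 ≤ m) (hm1 : m ≤ 1) (hf : IsClassicalSol T Q f)
    (hR : 1 ≤ R₁) {t : ℝ} (ht : t ∈ Ioo 0 T) (v : Vec d) :
    HasDerivAt (fun r => YW e a β m ε₁ K₁ R₁ c₂ f r v)
      (ntW e a β m ε₁ K₁ R₁ f t v - c₂ * yv e β v) t := by
  have hc := tww_n (e := e) (β := β) (ε₁ := ε₁) (K₁ := K₁) ha ha1 hm hm1 hf hR v
  have hi : IntervalIntegrable (fun τ => ntW e a β m ε₁ K₁ R₁ f τ v) volume 0 t :=
    (hc.mono fun τ hτ => ⟨hτ.1, hτ.2.trans_lt ht.2⟩).intervalIntegrable_of_Icc ht.1.le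
  have hco : ContinuousOn (fun τ => ntW e a β m ε₁ K₁ R₁ f τ v) (Ioo 0 T) := hc.mono Ioo_subset_Ico_self
  have h1 := intervalIntegral.integral_hasDerivAt_right hi
    (hco.stronglyMeasurableAtFilter isOpen_Ioo t ht) (hco.continuousAt (Ioo_mem_nhds ht.1 ht.2))
  have h2 := h1.sub ((hasDerivAt_id t).const_mul (c₂ * yv e β v))
  rw [mul_one] at h2
  exact h2

lemma YW_cont (ha : 0 ≤ a) (ha1 : a ≤ 1) (hm : 0 ≤ m) (hm1 : m ≤ 1) (hf : IsClassicalSol T Q f)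
    (hR : 1 ≤ R₁) :
    ContinuousOn (unc fun t (_ : Vec d) v => YW e a β m ε₁ K₁ R₁ c₂ f t v) (Ico 0 T ×ˢ univ) := by
  intro p hp
  have hp1 : p.1 ∈ Ico 0 T := hp.1
  set T₁ : ℝ := (p.1 + T) / 2 with hT₁
  have hlt : T₁ < T := by rw [hT₁]; linarith [hp1.2]
  have hpl : p.1 < T₁ := by rw [hT₁]; linarith [hp1.2]
  have hT0 : 0 ≤ T₁ := hp1.1.trans hpl.le
  have hg : Continuous fun r : (ℝ × Vec d × Vec d) × ℝ =>
      ntW e a β m ε₁ K₁ R₁ f (max 0 (min r.2 T₁)) r.1.2.2 := by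
    have h1 : Continuous fun r : (ℝ × Vec d × Vec d) × ℝ =>
        ((max 0 (min r.2 T₁), r.1.2.2) : ℝ × Vec d) := by fun_prop
    exact (ntW_cont (e := e) (β := β) (ε₁ := ε₁) (K₁ := K₁) ha ha1 hm hm1 hf hR).comp_continuous h1 fun r =>
      ⟨⟨le_max_left _ _, max_lt (hT0.trans_lt hlt) ((min_le_right _ _).trans_lt hlt)⟩, mem_univ _⟩
  have hI : Continuous fun q : ℝ × Vec d × Vec d =>
      ∫ τ in (0 : ℝ)..q.1, ntW e a β m ε₁ K₁ R₁ f (max 0 (min τ T₁)) q.2.2 :=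
    intervalIntegral.continuous_parametric_intervalIntegral_of_continuous
      (f := fun (q : ℝ × Vec d × Vec d) (τ : ℝ) => ntW e a β m ε₁ K₁ R₁ f (max 0 (min τ T₁)) q.2.2)
      hg continuous_fst
  have hy : Continuous fun q : ℝ × Vec d × Vec d => c₂ * yv e β q.2.2 * q.1 :=
    (continuous_const.mul ((tww_yv e β).comp (continuous_snd.comp continuous_snd))).mul
      continuous_fst
  have hG : ContinuousWithinAt (fun q : ℝ × Vec d × Vec d =>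
      (∫ τ in (0 : ℝ)..q.1, ntW e a β m ε₁ K₁ R₁ f (max 0 (min τ T₁)) q.2.2) - c₂ * yv e β q.2.2 * q.1)
      (Ico 0 T ×ˢ univ) p := (hI.sub hy).continuousWithinAt
  have heq : ∀ q : ℝ × Vec d × Vec d, 0 ≤ q.1 → q.1 ≤ T₁ →
      unc (fun t (_ : Vec d) v => YW e a β m ε₁ K₁ R₁ c₂ f t v) q =
      (∫ τ in (0 : ℝ)..q.1, ntW e a β m ε₁ K₁ R₁ f (max 0 (min τ T₁)) q.2.2) - c₂ * yv e β q.2.2 * q.1 := by
    intro q h0 h1
    change (∫ τ in (0 : ℝ)..q.1, ntW e a β m ε₁ K₁ R₁ f τ q.2.2) - c₂ * yv e β q.2.2 * q.1 = _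
    congr 1
    apply intervalIntegral.integral_congr
    intro τ hτ
    rw [uIcc_of_le h0] at hτ
    have h2 : max 0 (min τ T₁) = τ := by
      rw [min_eq_left (hτ.2.trans h1), max_eq_right hτ.1]
    simp only [h2]
  refine hG.congr_of_eventuallyEq ?_ (heq p hp1.1 hpl.le)
  have hop : {q : ℝ × Vec d × Vec d | q.1 < T₁} ∈ 𝓝 p :=
    (isOpen_lt continuous_fst continuous_const).mem_nhds hpl
  filter_upwards [mem_nhdsWithin_of_mem_nhds hop, self_mem_nhdsWithin] with q hq hq2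
  exact heq q hq2.1.1 (le_of_lt hq)

private lemma tww_mem {t τ : ℝ} (ht : t ∈ Ico 0 T) (h : τ ∈ Icc 0 t) : τ ∈ Ico 0 T :=
  ⟨h.1, h.2.trans_lt ht.2⟩

private lemma tww_quot (hβ : 0 < β) (hβ1 : β ≤ 1) (u v : Vec d) :
    |max (jb u) R₁ - max (jb v) R₁| / max (max (jb u) R₁) (max (jb v) R₁) ≤
      min 1 (len (u - v) / jb v) ^ β := by
  have hj := jb_pos v
  have hju := jb_pos u
  have hM : 0 < max (max (jb u) R₁) (max (jb v) R₁) := by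
    refine lt_of_lt_of_le hju ((le_max_left _ _).trans (le_max_left _ _))
  have hMv : jb v ≤ max (max (jb u) R₁) (max (jb v) R₁) := (le_max_left _ _).trans (le_max_right _ _)
  have h1 : |max (jb u) R₁ - max (jb v) R₁| ≤ len (u - v) :=
    (abs_max_sub_max_le_abs _ _ _).trans (jb_lip u v)
  have h2 : |max (jb u) R₁ - max (jb v) R₁| ≤ max (max (jb u) R₁) (max (jb v) R₁) := by
    have p1 : 0 ≤ max (jb u) R₁ := hju.le.trans (le_max_left _ _)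
    have p2 : 0 ≤ max (jb v) R₁ := hj.le.trans (le_max_left _ _)
    have p3 : max (jb u) R₁ ≤ max (max (jb u) R₁) (max (jb v) R₁) := le_max_left _ _
    have p4 : max (jb v) R₁ ≤ max (max (jb u) R₁) (max (jb v) R₁) := le_max_right _ _
    rw [abs_le]
    constructor <;> linarith
  have hl := len_nonneg (u - v)
  have hm0 : 0 ≤ min 1 (len (u - v) / jb v) := le_min zero_le_one (div_nonneg hl hj.le)
  have hm1 : min 1 (len (u - v) / jb v) ≤ 1 := min_le_left _ _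
  have h3 : |max (jb u) R₁ - max (jb v) R₁| / max (max (jb u) R₁) (max (jb v) R₁) ≤
      min 1 (len (u - v) / jb v) := by
    refine le_min ((div_le_one hM).2 h2) ?_
    exact div_le_div₀ hl h1 hj hMv
  refine h3.trans ?_
  have h4 := Real.rpow_le_rpow_of_exponent_ge' hm0 hm1 hβ.le hβ1
  rwa [Real.rpow_one] at h4

theorem YW_osc (ha : 0 ≤ a) (ha1 : a ≤ 1) (hβ : 0 < β) (hβ1 : β ≤ 1) (hm : 0 < m) (hm1 : m ≤ 1)
    (hf : IsClassicalSol T Q f) (hR : 1 ≤ R₁) (hε : 0 ≤ ε₁) (hK : 0 ≤ K₁) (hc : 0 ≤ c₂) {t : ℝ}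
    (ht : t ∈ Ico 0 T) (u v : Vec d) :
    |YW e a β m ε₁ K₁ R₁ c₂ f t u - YW e a β m ε₁ K₁ R₁ c₂ f t v| ≤
      (16 * ε₁ * (∫ τ in (0 : ℝ)..t, Zw a m f τ 1) + 4 * K₁ * (∫ τ in (0 : ℝ)..t, Zw a m f τ R₁) +
        16 * c₂ * t) * min 1 (len (u - v) / jb v) ^ β := by
  have hR0 : 0 < R₁ := by linarith
  have hVu : R₁ ≤ max (jb u) R₁ := le_max_right _ _
  have hVv : R₁ ≤ max (jb v) R₁ := le_max_right _ _
  rw [YW_eq ha ha1 hm.le hm1 hf hR ht, YW_eq ha ha1 hm.le hm1 hf hR ht]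
  set q := min 1 (len (u - v) / jb v) ^ β with hq
  have hy := yv_osc hβ hβ1 e u v
  rw [← hq] at hy
  have hIX : 0 ≤ ∫ τ in (0 : ℝ)..t, Zw a m f τ 1 :=
    intervalIntegral.integral_nonneg ht.1 fun τ hτ => Zw_nonneg hf (tww_mem ht hτ) zero_lt_one
  set IX := ∫ τ in (0 : ℝ)..t, Zw a m f τ 1 with hIXd
  have iu := tww_Z ha ha1 hm.le hm1 hf ht (hR0.trans_le hVu)
  have iv := tww_Z ha ha1 hm.le hm1 hf ht (hR0.trans_le hVv)
  have iR := tww_Z ha ha1 hm.le hm1 hf ht hR0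
  have hZ : |(∫ τ in (0 : ℝ)..t, Zw a m f τ (max (jb u) R₁)) -
      ∫ τ in (0 : ℝ)..t, Zw a m f τ (max (jb v) R₁)| ≤ 4 * q * ∫ τ in (0 : ℝ)..t, Zw a m f τ R₁ := by
    rw [← intervalIntegral.integral_sub iu iv, ← intervalIntegral.integral_const_mul]
    refine (intervalIntegral.abs_integral_le_integral_abs ht.1).trans ?_
    refine intervalIntegral.integral_mono_on ht.1 (iu.sub iv).abs (iR.const_mul _) fun τ hτ => ?_
    have h1 := Zw_osc ha ha1 hm hm1 hf (tww_mem ht hτ) hR0 hVu hVv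
    refine h1.trans (mul_le_mul_of_nonneg_right ?_ (Zw_nonneg hf (tww_mem ht hτ) hR0))
    exact mul_le_mul_of_nonneg_left (tww_quot hβ hβ1 u v) (by norm_num)
  set Zu := ∫ τ in (0 : ℝ)..t, Zw a m f τ (max (jb u) R₁) with hZu
  set Zv := ∫ τ in (0 : ℝ)..t, Zw a m f τ (max (jb v) R₁) with hZv
  set ZR := ∫ τ in (0 : ℝ)..t, Zw a m f τ R₁ with hZR
  have e1 : ε₁ * yv e β u * IX + K₁ * Zu - c₂ * yv e β u * t -
      (ε₁ * yv e β v * IX + K₁ * Zv - c₂ * yv e β v * t) =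
      (ε₁ * IX) * (yv e β u - yv e β v) + K₁ * (Zu - Zv) - (c₂ * t) * (yv e β u - yv e β v) := by
    ring
  rw [e1]
  have hct : 0 ≤ c₂ * t := mul_nonneg hc ht.1
  have hεI : 0 ≤ ε₁ * IX := mul_nonneg hε hIX
  have b1 : |(ε₁ * IX) * (yv e β u - yv e β v)| ≤ (ε₁ * IX) * (16 * q) := by
    rw [abs_mul, abs_of_nonneg hεI]
    exact mul_le_mul_of_nonneg_left hy hεI
  have b2 : |K₁ * (Zu - Zv)| ≤ K₁ * (4 * q * ZR) := by
    rw [abs_mul, abs_of_nonneg hK]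
    exact mul_le_mul_of_nonneg_left hZ hK
  have b3 : |(c₂ * t) * (yv e β u - yv e β v)| ≤ (c₂ * t) * (16 * q) := by
    rw [abs_mul, abs_of_nonneg hct]
    exact mul_le_mul_of_nonneg_left hy hct
  have b4 := abs_sub ((ε₁ * IX) * (yv e β u - yv e β v) + K₁ * (Zu - Zv))
    ((c₂ * t) * (yv e β u - yv e β v))
  have b5 := abs_add_le ((ε₁ * IX) * (yv e β u - yv e β v)) (K₁ * (Zu - Zv))
  have e2 : (16 * ε₁ * IX + 4 * K₁ * ZR + 16 * c₂ * t) * q =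
      (ε₁ * IX) * (16 * q) + K₁ * (4 * q * ZR) + (c₂ * t) * (16 * q) := by ring
  rw [e2]
  linarith

theorem YW_abs (ha : 0 ≤ a) (ha1 : a ≤ 1) (hβ : 0 < β) (hβ1 : β ≤ 1) (hm : 0 < m) (hm1 : m ≤ 1)
    (hf : IsClassicalSol T Q f) (hR : 1 ≤ R₁) (hε : 0 ≤ ε₁) (hK : 0 ≤ K₁) (hc : 0 ≤ c₂) {t : ℝ}
    (ht : t ∈ Ico 0 T) (v : Vec d) :
    |YW e a β m ε₁ K₁ R₁ c₂ f t v| ≤
      2 * ε₁ * (∫ τ in (0 : ℝ)..t, Zw a m f τ 1) + K₁ * (∫ τ in (0 : ℝ)..t, Zw a m f τ R₁) + 2 * c₂ * t := by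
  have hR0 : 0 < R₁ := by linarith
  have hVv : R₁ ≤ max (jb v) R₁ := le_max_right _ _
  rw [YW_eq ha ha1 hm.le hm1 hf hR ht]
  have hIX : 0 ≤ ∫ τ in (0 : ℝ)..t, Zw a m f τ 1 :=
    intervalIntegral.integral_nonneg ht.1 fun τ hτ => Zw_nonneg hf (tww_mem ht hτ) zero_lt_one
  have iv := tww_Z ha ha1 hm.le hm1 hf ht (hR0.trans_le hVv)
  have iR := tww_Z ha ha1 hm.le hm1 hf ht hR0
  have hZ0 : 0 ≤ ∫ τ in (0 : ℝ)..t, Zw a m f τ (max (jb v) R₁) :=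
    intervalIntegral.integral_nonneg ht.1 fun τ hτ =>
      Zw_nonneg hf (tww_mem ht hτ) (hR0.trans_le hVv)
  have hZ1 : (∫ τ in (0 : ℝ)..t, Zw a m f τ (max (jb v) R₁)) ≤ ∫ τ in (0 : ℝ)..t, Zw a m f τ R₁ :=
    intervalIntegral.integral_mono_on ht.1 iv iR fun τ hτ =>
      Zw_anti ha ha1 hm.le hm1 hf (tww_mem ht hτ) hR0 hVv
  have hy0 := (yv_pos e β v).le
  have hy2 := yv_le hβ hβ1 e v
  have hct : 0 ≤ c₂ * t := mul_nonneg hc ht.1
  have hεI : 0 ≤ ε₁ * ∫ τ in (0 : ℝ)..t, Zw a m f τ 1 := mul_nonneg hε hIX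
  have a1 := mul_le_mul_of_nonneg_left hy2 hεI
  have a2 := mul_le_mul_of_nonneg_left hy2 hct
  have a3 := mul_le_mul_of_nonneg_left hZ1 hK
  have a4 := mul_nonneg hεI hy0
  have a5 := mul_nonneg hct hy0
  have a6 := mul_nonneg hK hZ0
  rw [abs_le]
  constructor <;> nlinarith

end Pool.Agent.H48.PW
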