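import Pool.Agent.H48.PW.WinW
import Pool.Agent.H48.PW.AnyW
import Pool.Agent.H48.PW.StartW
import Pool.Agent.H48.PI.Uni

/-!
# Module UniW: the uniform pointwise bound

Copy of PI/Uni.lean (186 lines). `q, N, ηw, Cd` from `good_windowW`, `K'` from `any_windowW`, `C₁` from `Hs_low` (PI/BadW). First extend `any_windowW` to `t₀ = 0` (private lemma): for `0 ≤ t ≤ 1`, `t < T`: `start_W` with `η = 1` gives `t₁`; for `t ≤ t₁` the bound `A + 1`; for `t > t₁` take
`t₀' ∈ (0, t₁]` with `t ≤ t₀' + 1` and `t₀' ≤ t`: if `t ≤ 1` any `t₀' = min t₁ t` works (`t ≤ 1 ≤ t₀' + 1`): `f t W ≤ K' (A + 2) ≤ 2K' (A + 1)`. So the factor is `K'' (A + 1)`, `K'' = 2K' ≥ 1`, for all `t₀ ≥ 0`.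
Claim: for natural `n ≥ 1`, `n < T`: `f n W exp(-EW) ≤ B_n := max (exp 1 K'' (A₀+1)) (max N 1) · exp(C' (Hs(f 1) - Hs(f n)))`, `C' = Cd + L`, `L = log(2 exp 2 K'')/ηw ≥ 0`. Step: `drop ≤ ηw`: `good_windowW`; `drop > ηw`: `f n W ≤ exp 1 B_n`, `any_windowW`: `f (n+1) W ≤ K''(exp 1 B_n + 1) ≤ 2 exp 1 K'' B_n`
(`B_n ≥ 1`), times `exp(-EW) ≤ exp 1`: factor `2 exp 2 K'' = exp(L ηw) ≤ exp(L drop)`. For `t ≥ 1`, `n = ⌊t⌋₊`: `any_windowW` from `n`. `A₀ ≥ 0` may be assumed (`f ≥ 0` and `T > 0`; if the torus bound holds then `A₀ ≥ 0`).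
-/

set_option autoImplicit false

open MeasureTheory Set Filter Topology Pool.Agent.H25.Kin Pool.Agent.H82.BK Pool.Agent.H82.CM
open Pool.Agent.H48.PL Pool.Agent.H48.PI

namespace Pool.Agent.H48.PW

variable {d : ℕ} {s a β m C Ca cb : ℝ} {b : ℝ → ℝ}

private lemma any0 (HL : HypL d (1 + a) s b C Ca cb) (W : WP s a β m) (hd : 3 ≤ d ∨ β ≤ a)
    (hT : TailT d a β m b) (e : Fin d) {M : ℝ} (hM : 0 ≤ M) {p : ℕ}
    (hp : (d : ℝ) + (1 + a) + 4 ≤ 2 * p) :
    ∃ K' : ℝ, 1 ≤ K' ∧ ∀ (T : ℝ) (f : ℝ → Vec d → Vec d → ℝ), IsBoltzmannSol (1 + a) b T f →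
      Planar e T f → GB M (f 0) → ∀ t₀ t : ℝ, 0 ≤ t₀ → t₀ ≤ t → t ≤ t₀ + 1 → t < T → ∀ A : ℝ, 0 ≤ A →
      (∀ x v, f t₀ x v * (1 + nsq v) ^ p ≤ A) → ∀ x v, f t x v * (1 + nsq v) ^ p ≤ K' * (A + 1) := by
  obtain ⟨K', hK', hany⟩ := any_windowW HL W hd hT e hM hp
  refine ⟨2 * K', by linarith, ?_⟩
  intro T f hf hpl hG t₀ t ht₀ htt ht1 htT A hA hfA x v
  have hKA : A + 1 ≤ K' * (A + 1) := le_mul_of_one_le_left (by linarith) hK'
  have hmono : K' * (A + 1) ≤ 2 * K' * (A + 1) := by linarith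
  rcases ht₀.eq_or_lt with h0 | h0
  · rw [← h0] at htt ht1 hfA
    rw [zero_add] at ht1
    obtain ⟨t₁, ht₁, ht₁T, hst⟩ := start_W hf (htt.trans_lt htT) p hA hfA one_pos
    rcases le_or_gt t t₁ with h | h
    · refine (hst t ⟨htt, h⟩ x v).trans ?_
      linarith
    · have h1 := hany T f hf hpl hG t₁ t ht₁ h.le (by linarith) htT (A + 1) (by linarith)
        (hst t₁ ⟨ht₁.le, le_rfl⟩) x v
      refine h1.trans ?_
      have h2 : K' * (A + 1 + 1) ≤ K' * (2 * (A + 1)) :=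
        mul_le_mul_of_nonneg_left (by linarith) (by linarith)
      linarith
  · exact (hany T f hf hpl hG t₀ t h0 htt ht1 htT A hA hfA x v).trans hmono

theorem planar_uniformW (HL : HypL d (1 + a) s b C Ca cb) (W : WP s a β m) (hd : 3 ≤ d ∨ β ≤ a)
    (hT : TailT d a β m b) (e : Fin d) {M : ℝ} (hM : 0 ≤ M) {mm₀ : ℝ} (hm : 0 < mm₀) {p : ℕ}
    (hp : (d : ℝ) + (1 + a) + 4 ≤ 2 * p) :
    ∃ K : ℝ, 0 ≤ K ∧ ∀ (T : ℝ) (f : ℝ → Vec d → Vec d → ℝ), IsBoltzmannSol (1 + a) b T f →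
      Planar e T f → GB M (f 0) → mm₀ ≤ ∫ q, f 0 q.2 q.1 ∂(nu d) →
      ∀ A₀ : ℝ, (∀ x v, f 0 x v * (1 + nsq v) ^ p ≤ A₀) →
      ∀ t ∈ Ico 0 T, ∀ x v, f t x v * (1 + nsq v) ^ p ≤ K * (A₀ + 1) := by
  obtain ⟨q, N, ηw, Cd, hN, hηw, hCd, hgood⟩ := good_windowW HL W hd hT e hM hm hp
  obtain ⟨K', hK', hany⟩ := any0 HL W hd hT e hM hp
  obtain ⟨C₁, hC₁, hlow⟩ := Hs_low HL M
  have hK'0 : 0 < K' := by linarith
  have he1 : 1 ≤ Real.exp 1 := Real.one_le_exp zero_le_one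
  have he0 : 0 < Real.exp 1 := Real.exp_pos 1
  have hee : 1 ≤ 2 * (Real.exp 1 * Real.exp 1 * K') := by
    have h1 : 1 ≤ Real.exp 1 * Real.exp 1 * K' :=
      one_le_mul_of_one_le_of_one_le (one_le_mul_of_one_le_of_one_le he1 he1) hK'
    linarith
  set L : ℝ := Real.log (2 * (Real.exp 1 * Real.exp 1 * K')) / ηw with hL
  have hL0 : 0 ≤ L := div_nonneg (Real.log_nonneg hee) hηw.le
  set C' : ℝ := Cd + L with hC'
  have hC'0 : 0 ≤ C' := by linarith
  have hexp1 : 1 ≤ Real.exp (C' * (M + C₁)) := Real.one_le_exp (by positivity)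
  refine ⟨2 * K' * Real.exp 1 * (Real.exp 1 * K' + N) * Real.exp (C' * (M + C₁)), by positivity, ?_⟩
  intro T f hf hpl hG hmass A₀ hA₀ t ht x v
  have hT0 : 0 < T := ht.1.trans_lt ht.2
  obtain ⟨hE, hwin⟩ := hgood T f hf hpl hG hmass
  have hW : ∀ v : Vec d, 0 < (1 + nsq v) ^ p := fun v => by
    have : 0 ≤ nsq v := Finset.sum_nonneg fun i _ => sq_nonneg _
    positivity
  have hA0 : 0 ≤ A₀ := by
    refine le_trans (mul_nonneg ?_ (hW v).le) (hA₀ x v)
    exact hf.nonneg 0 ⟨le_rfl, hT0⟩ x v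
  have heK : 1 ≤ Real.exp 1 * K' := one_le_mul_of_one_le_of_one_le he1 hK'
  set B₁ : ℝ := Real.exp 1 * K' * (A₀ + 1) + N with hB₁
  have hB₁0 : 0 < B₁ := by positivity
  have hB₁N : N ≤ B₁ := by
    have : 0 ≤ Real.exp 1 * K' * (A₀ + 1) := by positivity
    linarith
  have hB₁1 : 1 ≤ B₁ := by
    have : 1 ≤ Real.exp 1 * K' * (A₀ + 1) :=
      one_le_mul_of_one_le_of_one_le heK (by linarith)
    linarith
  have hexpE : ∀ t ∈ Ioo 0 T, ∀ x v, Real.exp (-EW q e (f t) x v) ≤ Real.exp 1 := by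
    intro t ht x v
    refine Real.exp_le_exp.2 ?_
    have := (abs_le.1 (hE t ht x v)).1
    linarith
  have hexpE' : ∀ t ∈ Ioo 0 T, ∀ x v, Real.exp (EW q e (f t) x v) ≤ Real.exp 1 := by
    intro t ht x v
    exact Real.exp_le_exp.2 (abs_le.1 (hE t ht x v)).2
  have hmain : ∀ n : ℕ, 1 ≤ n → (n : ℝ) < T → ∀ x v,
      f n x v * (1 + nsq v) ^ p * Real.exp (-EW q e (f n) x v) ≤
        B₁ * Real.exp (C' * (Hs (f 1) - Hs (f n))) := by
    intro n hn
    induction n, hn using Nat.le_induction with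
    | base =>
      intro h1 x v
      rw [Nat.cast_one] at h1 ⊢
      have h2 := hany T f hf hpl hG 0 1 le_rfl zero_le_one (by norm_num) h1 A₀ hA0 hA₀ x v
      have h3 := hexpE 1 ⟨one_pos, h1⟩ x v
      rw [sub_self, mul_zero, Real.exp_zero, mul_one]
      calc f 1 x v * (1 + nsq v) ^ p * Real.exp (-EW q e (f 1) x v)
          ≤ K' * (A₀ + 1) * Real.exp 1 := mul_le_mul h2 h3 (Real.exp_pos _).le (by positivity)
        _ ≤ B₁ := by
            rw [hB₁]
            linarith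
    | succ n hn ih =>
      intro h1 x v
      have hcast : ((n + 1 : ℕ) : ℝ) = (n : ℝ) + 1 := by push_cast; ring
      rw [hcast] at h1 ⊢
      have hn0 : (0 : ℝ) < n := by exact_mod_cast hn
      have hnT : (n : ℝ) < T := by linarith
      have ihn := ih hnT
      set B : ℝ := B₁ * Real.exp (C' * (Hs (f 1) - Hs (f n))) with hB
      have hn1 : (1 : ℝ) ≤ n := by exact_mod_cast hn
      have hdrop1 : 0 ≤ Hs (f 1) - Hs (f n) := by
        have := Hs_anti HL hf zero_le_one hn1 hnT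
        linarith
      have hBB : B₁ ≤ B := by
        rw [hB]
        exact le_mul_of_one_le_right hB₁0.le (Real.one_le_exp (mul_nonneg hC'0 hdrop1))
      have hB0 : 0 < B := by linarith
      have hdrop : 0 ≤ Hs (f n) - Hs (f (n + 1)) := by
        have := Hs_anti HL hf hn0.le (by linarith : (n : ℝ) ≤ n + 1) h1
        linarith
      have hfin : ∀ z : ℝ, z ≤ B * Real.exp (C' * (Hs (f n) - Hs (f (n + 1)))) →
          z ≤ B₁ * Real.exp (C' * (Hs (f 1) - Hs (f (n + 1)))) := by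
        intro z hz
        refine hz.trans (le_of_eq ?_)
        rw [hB, mul_assoc, ← Real.exp_add]
        congr 2
        ring
      refine hfin _ ?_
      rcases le_or_gt (Hs (f n) - Hs (f (n + 1))) ηw with hc | hc
      · refine (hwin n hn0 h1 hc B (hB₁N.trans hBB) ihn x v).trans ?_
        refine mul_le_mul_of_nonneg_left (Real.exp_le_exp.2 ?_) hB0.le
        exact mul_le_mul_of_nonneg_right (by linarith) hdrop
      · have h2 : ∀ x v, f n x v * (1 + nsq v) ^ p ≤ B * Real.exp 1 := by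
          intro x v
          have h3 := ihn x v
          have h4 := hexpE' n ⟨hn0, hnT⟩ x v
          have h5 : f n x v * (1 + nsq v) ^ p = f n x v * (1 + nsq v) ^ p *
              Real.exp (-EW q e (f n) x v) * Real.exp (EW q e (f n) x v) := by
            rw [mul_assoc, ← Real.exp_add, neg_add_cancel, Real.exp_zero, mul_one]
          rw [h5]
          exact mul_le_mul h3 h4 (Real.exp_pos _).le hB0.le
        have hBe : 1 ≤ B * Real.exp 1 := one_le_mul_of_one_le_of_one_le (hB₁1.trans hBB) he1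
        have hKBe := mul_le_mul_of_nonneg_left hBe hK'0.le
        have h3 := hany T f hf hpl hG n (n + 1) hn0.le (by linarith) le_rfl h1 (B * Real.exp 1)
          (by positivity) h2 x v
        have h3' : K' * (B * Real.exp 1 + 1) ≤ 2 * (K' * (B * Real.exp 1)) := by linarith
        have h4 := hexpE (n + 1) ⟨by linarith, h1⟩ x v
        have h5 : 2 * (Real.exp 1 * Real.exp 1 * K') ≤
            Real.exp (C' * (Hs (f n) - Hs (f (n + 1)))) := by
          have h6 : Real.exp (L * ηw) = 2 * (Real.exp 1 * Real.exp 1 * K') := by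
            rw [hL, div_mul_cancel₀ _ hηw.ne', Real.exp_log (by positivity)]
          rw [← h6]
          refine Real.exp_le_exp.2 ?_
          calc L * ηw ≤ L * (Hs (f n) - Hs (f (n + 1))) := mul_le_mul_of_nonneg_left hc.le hL0
            _ ≤ C' * (Hs (f n) - Hs (f (n + 1))) := mul_le_mul_of_nonneg_right (by linarith) hdrop
        calc f (n + 1) x v * (1 + nsq v) ^ p * Real.exp (-EW q e (f (n + 1)) x v)
            ≤ 2 * (K' * (B * Real.exp 1)) * Real.exp 1 :=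
              mul_le_mul (h3.trans h3') h4 (Real.exp_pos _).le (by positivity)
          _ = B * (2 * (Real.exp 1 * Real.exp 1 * K')) := by ring
          _ ≤ B * Real.exp (C' * (Hs (f n) - Hs (f (n + 1)))) :=
              mul_le_mul_of_nonneg_left h5 hB0.le
  have hKK : B₁ ≤ (Real.exp 1 * K' + N) * (A₀ + 1) := by
    rw [hB₁]
    have h1 : 0 ≤ N * A₀ := by positivity
    linarith
  have hone : 1 ≤ Real.exp 1 * (Real.exp 1 * K' + N) :=
    one_le_mul_of_one_le_of_one_le he1 (by linarith)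
  rcases lt_or_ge t 1 with h1 | h1
  · have h2 := hany T f hf hpl hG 0 t le_rfl ht.1 (by linarith) ht.2 A₀ hA0 hA₀ x v
    refine h2.trans ?_
    have h3 : 1 ≤ 2 * (Real.exp 1 * (Real.exp 1 * K' + N) * Real.exp (C' * (M + C₁))) := by
      have := one_le_mul_of_one_le_of_one_le hone hexp1
      linarith
    have h4 : K' * (A₀ + 1) * 1 ≤ K' * (A₀ + 1) *
        (2 * (Real.exp 1 * (Real.exp 1 * K' + N) * Real.exp (C' * (M + C₁)))) :=
      mul_le_mul_of_nonneg_left h3 (by positivity)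
    calc K' * (A₀ + 1) = K' * (A₀ + 1) * 1 := by ring
      _ ≤ _ := h4
      _ = _ := by ring
  · have hn1 : 1 ≤ ⌊t⌋₊ := (Nat.one_le_floor_iff t).2 h1
    have hnt : ((⌊t⌋₊ : ℕ) : ℝ) ≤ t := Nat.floor_le ht.1
    have htn : t ≤ ((⌊t⌋₊ : ℕ) : ℝ) + 1 := (Nat.lt_floor_add_one t).le
    have hn1' : (1 : ℝ) ≤ ((⌊t⌋₊ : ℕ) : ℝ) := by exact_mod_cast hn1
    set n : ℕ := ⌊t⌋₊ with hn
    have hnT : (n : ℝ) < T := hnt.trans_lt ht.2
    have hn0 : (0 : ℝ) < n := by linarith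
    have h2 := hmain n hn1 hnT
    have hH1 := hlow T f hf hG 1 ⟨zero_le_one, by linarith⟩
    have hHn := hlow T f hf hG n ⟨hn0.le, hnT⟩
    have h3 : B₁ * Real.exp (C' * (Hs (f 1) - Hs (f n))) ≤ B₁ * Real.exp (C' * (M + C₁)) := by
      refine mul_le_mul_of_nonneg_left (Real.exp_le_exp.2 ?_) hB₁0.le
      exact mul_le_mul_of_nonneg_left (by linarith [hH1.2, hHn.1]) hC'0
    have h4 : ∀ x v, f n x v * (1 + nsq v) ^ p ≤ B₁ * Real.exp (C' * (M + C₁)) * Real.exp 1 := by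
      intro x v
      have h5 := (h2 x v).trans h3
      have h6 := hexpE' n ⟨hn0, hnT⟩ x v
      have h7 : f n x v * (1 + nsq v) ^ p = f n x v * (1 + nsq v) ^ p *
          Real.exp (-EW q e (f n) x v) * Real.exp (EW q e (f n) x v) := by
        rw [mul_assoc, ← Real.exp_add, neg_add_cancel, Real.exp_zero, mul_one]
      rw [h7]
      exact mul_le_mul h5 h6 (Real.exp_pos _).le (by positivity)
    have hAA : 1 ≤ B₁ * Real.exp (C' * (M + C₁)) * Real.exp 1 := by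
      have h8 : 1 ≤ B₁ * Real.exp (C' * (M + C₁)) := one_le_mul_of_one_le_of_one_le hB₁1 hexp1
      exact one_le_mul_of_one_le_of_one_le h8 he1
    have h5 := hany T f hf hpl hG n t hn0.le hnt htn ht.2 _ (by positivity) h4 x v
    refine h5.trans ?_
    calc K' * (B₁ * Real.exp (C' * (M + C₁)) * Real.exp 1 + 1)
        ≤ 2 * (K' * (B₁ * Real.exp (C' * (M + C₁)) * Real.exp 1)) := by
          have h9 := mul_le_mul_of_nonneg_left hAA hK'0.le
          linarith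
      _ = 2 * K' * Real.exp 1 * Real.exp (C' * (M + C₁)) * B₁ := by ring
      _ ≤ 2 * K' * Real.exp 1 * Real.exp (C' * (M + C₁)) * ((Real.exp 1 * K' + N) * (A₀ + 1)) :=
          mul_le_mul_of_nonneg_left hKK (by positivity)
      _ = _ := by ring

end Pool.Agent.H48.PW
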