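import Pool.Agent.H48.PW.Blk
import Pool.Agent.H48.PW.TchC
import Pool.Agent.H48.PW.AvGW
import Pool.Agent.H48.PI.WinP

/-!
# Module WinC: the weight function with all its properties

`K₀, κ, δ₁` from `op_w`; `M₁, c₂, K` from `sp_cusp` (`hd`); `δ = δ₁/4`. Given `A', R₀, R', C', ε'`: `ε₂ = min ε' (min (δ/(25 (K₀ K + 1))) (min (c₂/(2 K₀ (1/2+M₁)^2 + 1)) (δ/(4 (1+2M₁) (K₀+1)))))`; `gw_small M` gives `R = max R' (max (2..) ..)`, `C₀ = max C' ..` with `∫ (F - gw) jb^(1+a) ≤ ε₂`;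
`q = ⟨a, β, K₀, M₁, A', R₀, R, C₀⟩`; `N₁` from `op_w` (with `C₀`, `2R`). `∫ F jb² ≤ 2M` (private lemma `wp_jb2` in PI/WinP.lean, copy).
* `|EW| ≤ (1+2M₁) K₀ ε₂ + 2 A' M ≤ δ/2` (`EW_abs`).
* touching: `touch_W` with `η₁ = δ`, `M₂ = 2M`: `K₀ K ε₂ + 3 (64 A' M + δ) ≤ δ/25 + 192/200 δ + 3 δ ≤ 4 δ`; `|E u - E v| ≤ 2 |EW| + δ ≤ 2δ`.
* NTI: `op_w` with `g₁ = chi q.R w * bet q.C₀ (g w)` (as in PI/WinP.lean) and `κ ∫ len^(1+a) g₁ ≥ A' ∫ (v_e-w_e) PgB g₁` (`VPgB_le_len`, `4 R₀ A' ≤ κ`, integrable: `freq_integrable`-type domination or `g₁ ≤ g` nice), `g v ≥ 0`.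
-/

set_option autoImplicit false

open MeasureTheory Set Filter Topology Pool.Agent.H25.Kin Pool.Agent.H82.BK Pool.Agent.H82.CM
open Pool.Agent.H48.PL Pool.Agent.H48.PI

namespace Pool.Agent.H48.PW

variable {d : ℕ} {s a β m C Ca cb : ℝ} {b : ℝ → ℝ}

private lemma wp_jb2 {e : Fin d} {F G : Vec d → Vec d → ℝ} (h : FS e F G) {M : ℝ} (hg : GB M F) :
    ∫ p, F p.2 p.1 * jb p.1 ^ 2 ∂(nu d) ≤ 2 * M := by
  have hc : Continuous fun q : Vec d × Vec d => F q.2 q.1 :=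
    h.contF.comp (continuous_snd.prodMk continuous_fst)
  have key : ∀ k : ℕ, ∃ C : ℝ, ∀ x v, F x v * (1 + ‖v‖) ^ k ≤ C * wt d v := by
    intro k
    obtain ⟨C, hC⟩ := h.decF (k + (d + 1))
    refine ⟨C, fun x v => ?_⟩
    have h1 := hC x v
    rw [abs_of_nonneg (h.nonneg x v)] at h1
    unfold wt
    rw [← div_eq_mul_inv, le_div_iff₀ (pow_pos (w_pos v) _)]
    calc F x v * (1 + ‖v‖) ^ k * (1 + ‖v‖) ^ (d + 1) = (1 + ‖v‖) ^ (k + (d + 1)) * F x v := by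
          rw [pow_add]; ring
      _ ≤ C := h1
  obtain ⟨C₁, hC₁⟩ := key 0
  obtain ⟨C₂, hC₂⟩ := key 2
  have i1 : Integrable (fun q : Vec d × Vec d => F q.2 q.1) (nu d) := by
    refine integrable_nu (C := C₁) hc.aestronglyMeasurable fun q => ?_
    have := hC₁ q.2 q.1
    rw [pow_zero, mul_one] at this
    rw [abs_of_nonneg (h.nonneg _ _)]
    exact this
  have i2 : Integrable (fun q : Vec d × Vec d => F q.2 q.1 * nsq q.1) (nu d) := by
    refine integrable_nu (C := d * C₂)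
      (hc.mul (continuous_sq.comp continuous_fst)).aestronglyMeasurable fun q => ?_
    rw [abs_of_nonneg (mul_nonneg (h.nonneg _ _) (sq_nonneg' _))]
    have h3 : nsq q.1 ≤ d * (1 + ‖q.1‖) ^ 2 := by
      refine (sq_le q.1).trans (mul_le_mul_of_nonneg_left ?_ (Nat.cast_nonneg _))
      exact pow_le_pow_left₀ (norm_nonneg _) (by linarith) 2
    calc F q.2 q.1 * nsq q.1 ≤ F q.2 q.1 * (d * (1 + ‖q.1‖) ^ 2) :=
          mul_le_mul_of_nonneg_left h3 (h.nonneg _ _)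
      _ = d * (F q.2 q.1 * (1 + ‖q.1‖) ^ 2) := by ring
      _ ≤ d * (C₂ * wt d q.1) := mul_le_mul_of_nonneg_left (hC₂ _ _) (Nat.cast_nonneg _)
      _ = d * C₂ * wt d q.1 := by ring
  have e1 : ∫ p, F p.2 p.1 * jb p.1 ^ 2 ∂(nu d) =
      ∫ p, F p.2 p.1 ∂(nu d) + ∫ p, F p.2 p.1 * nsq p.1 ∂(nu d) := by
    rw [← integral_add i1 i2]
    refine integral_congr_ae (Eventually.of_forall fun p => ?_)
    simp only
    rw [jb_sq]
    ring
  rw [e1]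
  linarith [hg.mass, hg.energy]

theorem win_core (HL : HypL d (1 + a) s b C Ca cb) (W : WP s a β m) (hd : 3 ≤ d ∨ β ≤ a) {p : ℕ}
    (hp : (d : ℝ) + (1 + a) + 4 ≤ 2 * p) (e : Fin d) {M : ℝ} (hM : 0 ≤ M) :
    ∃ K₀ M₁ κ δ : ℝ, 0 ≤ K₀ ∧ 0 ≤ M₁ ∧ 0 < κ ∧ 0 < δ ∧ δ ≤ 1 / 4 ∧
    ∀ A' R₀ R' C' ε' : ℝ, 0 ≤ A' → 1 ≤ R₀ → 4 * R₀ * A' ≤ κ → 200 * A' * M ≤ δ → 0 < ε' →
    ∃ (q : Pm) (N₁ : ℝ), q.Ok ∧ q.a = a ∧ q.β = β ∧ q.K₀ = K₀ ∧ q.M₁ = M₁ ∧ q.A' = A' ∧ q.R₀ = R₀ ∧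
      R' ≤ q.R ∧ C' ≤ q.C₀ ∧ 0 < N₁ ∧
      (∀ F G : Vec d → Vec d → ℝ, FS e F G → GB M F →
        (∫ p, (F p.2 p.1 - gw q F p.2 p.1) * jb p.1 ^ (1 + a) ∂(nu d) ≤ ε') ∧
        (∀ x v, |EW q e F x v| ≤ δ / 2) ∧
        ∀ (x v : Vec d) (Y : Vec d → ℝ), Continuous Y →
          (∀ u, |Y u - Y v| ≤ δ * min 1 (len (u - v) / jb v) ^ β) →
          (∀ u, F x u * (1 + nsq u) ^ p * Real.exp (-(EW q e F x u + Y u)) ≤
            F x v * (1 + nsq v) ^ p * Real.exp (-(EW q e F x v + Y v))) →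
          TouchS (4 * δ) β p (F x) v) ∧
      ∀ g : Vec d → ℝ, Nice g → (∀ u, 0 ≤ g u) → ∀ v, TouchS (4 * δ) β p g v →
        N₁ ≤ g v * (1 + nsq v) ^ p →
        boltzQ (1 + a) b g v ≤ g v * (K₀ * (∫ w, (v e - w e) * PhS e a v w *
          (g w - chi q.R w * bet q.C₀ (g w))) -
          A' * ∫ w, (v e - w e) * PgB e a β R₀ v w * (chi q.R w * bet q.C₀ (g w))) := by
  obtain ⟨K₀, κ, δ₁, hK₀, hκ, hδ₁, hδ₁1, hop⟩ := op_w HL W hp e
  have hβ0 : 0 < β := by have := W.hs; have := W.hβ; linarith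
  have ha1 : a < 1 := by have := W.haβ; linarith
  have hβ1 : β ≤ 1 := by have := W.haβ; have := W.ha; linarith
  obtain ⟨M₁, c₂, K, hM₁, hc₂, hK, hsp⟩ := sp_cusp HL.H.hd W.ha ha1 hβ0 hβ1 hd e
  obtain ⟨δ, hδd⟩ : ∃ δ : ℝ, δ = δ₁ / 4 := ⟨_, rfl⟩
  have hδ : 0 < δ := by rw [hδd]; positivity
  have hδ4 : δ ≤ 1 / 4 := by rw [hδd]; linarith
  refine ⟨K₀, M₁, κ, δ, hK₀, hM₁, hκ, hδ, hδ4, fun A' R₀ R' C' ε' hA hR₀ hκA hAM hε' => ?_⟩
  have hKK : 0 ≤ K₀ * K := mul_nonneg hK₀ hK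
  have hS2 : 0 ≤ 2 * K₀ * (1 / 2 + M₁) ^ 2 := by positivity
  obtain ⟨ε₂, hε₂d⟩ : ∃ ε₂ : ℝ, ε₂ = min ε' (min (δ / (25 * (K₀ * K + 1)))
    (min (c₂ / (2 * K₀ * (1 / 2 + M₁) ^ 2 + 1)) (δ / (4 * (1 + 2 * M₁) * (K₀ + 1))))) := ⟨_, rfl⟩
  have hε₂ : 0 < ε₂ := by
    rw [hε₂d]
    refine lt_min hε' (lt_min (by positivity) (lt_min (by positivity) (by positivity)))
  have e1 : ε₂ ≤ ε' := by rw [hε₂d]; exact min_le_left _ _
  have e2 : K₀ * K * ε₂ ≤ δ / 25 := by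
    have h2 : ε₂ ≤ δ / (25 * (K₀ * K + 1)) := by
      rw [hε₂d]; exact (min_le_right _ _).trans (min_le_left _ _)
    rw [le_div_iff₀ (by positivity)] at h2
    linarith
  have e3 : 2 * K₀ * (1 / 2 + M₁) ^ 2 * ε₂ ≤ c₂ := by
    have h2 : ε₂ ≤ c₂ / (2 * K₀ * (1 / 2 + M₁) ^ 2 + 1) := by
      rw [hε₂d]; exact (min_le_right _ _).trans ((min_le_right _ _).trans (min_le_left _ _))
    rw [le_div_iff₀ (by positivity)] at h2
    linarith
  have e4 : (1 + 2 * M₁) * (K₀ * ε₂) ≤ δ / 4 := by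
    have h2 : ε₂ ≤ δ / (4 * (1 + 2 * M₁) * (K₀ + 1)) := by
      rw [hε₂d]; exact (min_le_right _ _).trans ((min_le_right _ _).trans (min_le_right _ _))
    rw [le_div_iff₀ (by positivity)] at h2
    have h3 : 0 ≤ (1 + 2 * M₁) * ε₂ := by positivity
    linarith
  obtain ⟨Rg, hRg, hg⟩ := gw_small (d := d) M W.ha ha1 hε₂
  obtain ⟨C₁, hC₁, hg'⟩ := hg (max R' Rg) (le_max_right _ _)
  have hR1 : 1 ≤ max R' Rg := hRg.trans (le_max_right _ _)
  have hC1 : 1 ≤ max C' C₁ := hC₁.trans (le_max_right _ _)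
  obtain ⟨q, hqd⟩ : ∃ q : Pm, q = ⟨a, β, K₀, M₁, A', R₀, max R' Rg, max C' C₁⟩ := ⟨_, rfl⟩
  have qa : q.a = a := by rw [hqd]
  have qβ : q.β = β := by rw [hqd]
  have qK : q.K₀ = K₀ := by rw [hqd]
  have qM : q.M₁ = M₁ := by rw [hqd]
  have qA : q.A' = A' := by rw [hqd]
  have qR₀ : q.R₀ = R₀ := by rw [hqd]
  have qR : q.R = max R' Rg := by rw [hqd]
  have qC : q.C₀ = max C' C₁ := by rw [hqd]
  have hq : q.Ok := ⟨by rw [qa]; exact W.ha, by rw [qβ]; exact hβ0, by rw [qa, qβ]; exact W.haβ,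
    by rw [qK]; exact hK₀, by rw [qM]; exact hM₁, by rw [qA]; exact hA, by rw [qR₀]; exact hR₀,
    by rw [qR]; exact hR1, by rw [qC]; linarith⟩
  obtain ⟨N₁, hN₁, hop'⟩ := hop (max C' C₁) (2 * max R' Rg) (by linarith) (by linarith)
  refine ⟨q, N₁, hq, qa, qβ, qK, qM, qA, qR₀, by rw [qR]; exact le_max_left _ _,
    by rw [qC]; exact le_max_left _ _, hN₁, ?_, ?_⟩
  · intro F G hF hG
    have h2 : ∫ p, (F p.2 p.1 - gw q F p.2 p.1) * jb p.1 ^ (1 + a) ∂(nu d) ≤ ε₂ :=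
      hg' (max C' C₁) (le_max_right _ _) q qa qR qC e F G hF hG
    have h2' : ∫ p, (F p.2 p.1 - gw q F p.2 p.1) * jb p.1 ^ (1 + q.a) ∂(nu d) ≤ ε₂ := by
      rw [qa]; exact h2
    have h3 := wp_jb2 hF hG
    have hEW : ∀ x v, |EW q e F x v| ≤ δ / 2 := by
      intro x v
      have h4 := EW_abs hq hF h2' h3 x v
      rw [qK, qM, qA] at h4
      linarith
    refine ⟨h2.trans e1, hEW, fun x v Y hYc hY hmax => ?_⟩
    have ht := touch_W hq hF hc₂.le hK (by rw [qa, qβ, qM]; exact hsp) h2' h3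
      (by rw [qK, qM]; exact e3) hδ hδ4 hδ.le
      (by rw [qK, qA]; linarith) (p := p) (x := x) (v := v) hYc
      (fun u => by rw [qβ]; exact hY u) (fun u => ?_) hmax
    · rw [qβ] at ht
      exact ht
    · have h5 := hEW x u
      have h6 := hEW x v
      have h7 := hY u
      have h8 : min 1 (len (u - v) / jb v) ^ β ≤ 1 :=
        Real.rpow_le_one (le_min zero_le_one (div_nonneg (len_nonneg _) (jb_pos v).le))
          (min_le_left _ _) hβ0.le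
      have h9 : δ * min 1 (len (u - v) / jb v) ^ β ≤ δ := mul_le_of_le_one_right hδ.le h8
      rw [abs_le] at h5 h6 h7 ⊢
      constructor <;> linarith [h5.1, h5.2, h6.1, h6.2, h7.1, h7.2]
  · intro g hg hg0 v ht hN
    have hC0 : (0 : ℝ) < max C' C₁ := by linarith
    have e5 : 4 * δ = δ₁ := by rw [hδd]; ring
    rw [e5] at ht
    rw [qR, qC]
    obtain ⟨g₁, hg₁d⟩ : ∃ g₁ : Vec d → ℝ,
      g₁ = fun u : Vec d => chi (max R' Rg) u * bet (max C' C₁) (g u) := ⟨_, rfl⟩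
    have hb0 : ∀ u, 0 ≤ bet (max C' C₁) (g u) := fun u => bet_nonneg hC0 (hg0 u)
    have hmb : Measurable g₁ := by
      have m1 : Measurable (bet (max C' C₁)) := by
        unfold bet
        exact (measurable_const.mul measurable_id).div (measurable_const.add measurable_id)
      rw [hg₁d]
      exact (chi_cont _).measurable.mul (m1.comp hg.cont.measurable)
    have g0 : ∀ u, 0 ≤ g₁ u := fun u => by rw [hg₁d]; exact mul_nonneg (chi_nonneg _ _) (hb0 u)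
    have gb : ∀ u, g₁ u ≤ bet (max C' C₁) (g u) := fun u => by
      rw [hg₁d]
      calc chi (max R' Rg) u * bet (max C' C₁) (g u) ≤ 1 * bet (max C' C₁) (g u) :=
            mul_le_mul_of_nonneg_right (chi_le_one _ _) (hb0 u)
        _ = bet (max C' C₁) (g u) := one_mul _
    have gg : ∀ u, g₁ u ≤ g u := fun u => (gb u).trans (bet_le hC0 (hg0 u))
    have gC : ∀ u, g₁ u ≤ max C' C₁ := fun u => (gb u).trans (bet_le_C hC0 (hg0 u))
    have gR : ∀ u, 2 * max R' Rg < jb u → g₁ u = 0 := fun u hu => by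
      rw [hg₁d]
      show chi (max R' Rg) u * bet (max C' C₁) (g u) = 0
      rw [chi_eq_zero hR1 hu.le, zero_mul]
    have main := hop' g g₁ hg hg0 hmb g0 gg gC gR v ht hN
    have hlen0 : ∀ z : Vec d, 0 ≤ len (v - z) ^ (1 + a) := fun z => Real.rpow_nonneg (len_nonneg _) _
    have hlm : Measurable fun z : Vec d => len (v - z) ^ (1 + a) :=
      (continuous_len.comp (continuous_const.sub continuous_id)).measurable.pow_const _
    have hint := freq_integrable HL.H.hd HL.H.g1 HL.H.g2 hg v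
    have hint1 : Integrable fun z : Vec d => len (v - z) ^ (1 + a) * g₁ z := by
      refine hint.mono (hlm.mul hmb).aestronglyMeasurable (Eventually.of_forall fun z => ?_)
      rw [Real.norm_eq_abs, Real.norm_eq_abs, abs_of_nonneg (mul_nonneg (hlen0 z) (g0 z)),
        abs_of_nonneg (mul_nonneg (hg0 z) (hlen0 z)), mul_comm]
      exact mul_le_mul_of_nonneg_right (gg z) (hlen0 z)
    have hcmp : ∫ w, (v e - w e) * PgB e a β R₀ v w * g₁ w ≤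
        ∫ w, 4 * R₀ * (len (v - w) ^ (1 + a) * g₁ w) := by
      refine integral_mono_of_nonneg (Eventually.of_forall fun w => ?_) (hint1.const_mul _)
        (Eventually.of_forall fun w => ?_)
      · exact mul_nonneg (VPgB_nonneg hβ0 e v w) (g0 w)
      · show (v e - w e) * PgB e a β R₀ v w * g₁ w ≤ 4 * R₀ * (len (v - w) ^ (1 + a) * g₁ w)
        rw [← mul_assoc]
        exact mul_le_mul_of_nonneg_right (VPgB_le_len W.ha ha1.le hβ0 hβ1 hR₀ e v w) (g0 w)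
    rw [integral_const_mul] at hcmp
    have hI : 0 ≤ ∫ w, len (v - w) ^ (1 + a) * g₁ w :=
      integral_nonneg fun w => mul_nonneg (hlen0 w) (g0 w)
    have hfin : A' * ∫ w, (v e - w e) * PgB e a β R₀ v w * g₁ w ≤
        κ * ∫ w, len (v - w) ^ (1 + a) * g₁ w := by
      calc A' * ∫ w, (v e - w e) * PgB e a β R₀ v w * g₁ w ≤
          A' * (4 * R₀ * ∫ w, len (v - w) ^ (1 + a) * g₁ w) := mul_le_mul_of_nonneg_left hcmp hA
        _ = (4 * R₀ * A') * ∫ w, len (v - w) ^ (1 + a) * g₁ w := by ring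
        _ ≤ _ := mul_le_mul_of_nonneg_right hκA hI
    have hgoal : boltzQ (1 + a) b g v ≤ g v * (K₀ * (∫ w, (v e - w e) * PhS e a v w *
        (g w - g₁ w)) - A' * ∫ w, (v e - w e) * PgB e a β R₀ v w * g₁ w) :=
      main.trans (mul_le_mul_of_nonneg_left (by linarith) (hg0 v))
    rw [hg₁d] at hgoal
    exact hgoal

end Pool.Agent.H48.PW
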