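import Pool.Agent.H48.PW.Blk
import Pool.Agent.H48.PW.TimWW
import Pool.Agent.H48.PI.WinY

/-!
# Module WinYW: the time weight is small on a window with small entropy drop

Copy of PI/WinY.lean (213 lines). `r, K_T` from `TailT` (with `e`, `M`), `r > β`. `g t = f (t₀ + t)`. `V = 1`: `∫_0^t Zw g τ 1 ≤ K_T (2 + ηw) ≤ 3 K_T` (`ηw ≤ 1`); `V ≥ 1`: `∫_0^t Zw g τ V ≤ K_T (2 V^(-r) + drop)`, `drop ≤ ηw`.
Constants: `R₁ ≥ 1` with `8 K₁ K_T R₁^(-r) ≤ δ/8`, `2 K₁ K_T R₁^(-(r-β)) ≤ c₂/2`; `ηw ≤ 1` with `4 K₁ K_T ηw ≤ δ/8`; `ε` with `48 ε Cy K_T ≤ δ/8`, `3 ε Cy K_T ≤ c₂/2`. `K₂ = K₁ K_T`.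
* oscillation: `YW_osc` with `ε₁ = ε Cy`. * `|YW|`: `YW_abs`. * `YW 1 v` (`YW_eq`, `V = max (jb v) R₁`): `V^(-r) = V^(-(r-β)) V^(-β) ≤ R₁^(-(r-β)) jb v^(-β) ≤ R₁^(-(r-β)) yv e β v` (`yv_ge`).
-/

set_option autoImplicit false

open MeasureTheory Set Filter Topology Pool.Agent.H25.Kin Pool.Agent.H82.BK Pool.Agent.H82.CM
open Pool.Agent.H48.PL Pool.Agent.H48.PI

namespace Pool.Agent.H48.PW

variable {d : ℕ} {s a β m : ℝ} {b : ℝ → ℝ}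

private lemma wyw_rpow {q θ : ℝ} (hq : 0 < q) (hθ : 0 < θ) : ∃ R : ℝ, 1 ≤ R ∧ R ^ (-q) ≤ θ := by
  have h := (tendsto_rpow_neg_atTop hq).eventually (gt_mem_nhds hθ)
  obtain ⟨R, h1, h2⟩ := (h.and (eventually_ge_atTop (1 : ℝ))).exists
  exact ⟨R, h2, le_of_lt h1⟩

private lemma wyw_Z {T t₀ D V : ℝ} {Q f : ℝ → Vec d → Vec d → ℝ} (ha : 0 ≤ a) (ha1 : a ≤ 1)
    (hm : 0 ≤ m) (hm1 : m ≤ 1)
    (hg : IsClassicalSol (T - t₀) Q (fun t => f (t₀ + t))) (h1 : t₀ + 1 < T) (hV : 0 < V)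
    (hX : ∫ τ in t₀..(t₀ + 1), (∫ x, XT a m V (f τ x) ∂(muD d)) ≤ D)
    {t : ℝ} (ht : t ∈ Icc (0 : ℝ) 1) :
    ∫ τ in (0 : ℝ)..t, Zw a m (fun t => f (t₀ + t)) τ V ≤ D := by
  have hlt : (1 : ℝ) < T - t₀ := by linarith
  have hc := Zw_cont ha ha1 hm hm1 hg
  have i1 : IntervalIntegrable (fun τ => Zw a m (fun t => f (t₀ + t)) τ V) volume 0 1 := by
    refine ContinuousOn.intervalIntegrable ?_
    rw [uIcc_of_le zero_le_one]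
    refine hc.comp (f := fun τ : ℝ => (τ, V)) (by fun_prop) fun τ hτ => ?_
    exact ⟨⟨hτ.1, hτ.2.trans_lt hlt⟩, hV⟩
  have h2 : ∫ τ in (0 : ℝ)..t, Zw a m (fun t => f (t₀ + t)) τ V ≤
      ∫ τ in (0 : ℝ)..1, Zw a m (fun t => f (t₀ + t)) τ V := by
    refine intervalIntegral.integral_mono_interval le_rfl ht.1 ht.2 ?_ i1
    refine (ae_restrict_iff' measurableSet_Ioc).2 (Eventually.of_forall fun τ hτ => ?_)
    exact Zw_nonneg hg ⟨hτ.1.le, hτ.2.trans_lt hlt⟩ hV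
  refine h2.trans ?_
  have h3 : ∫ τ in (0 : ℝ)..1, Zw a m (fun t => f (t₀ + t)) τ V =
      ∫ τ in t₀..(t₀ + 1), (∫ x, XT a m V (f τ x) ∂(muD d)) := by
    have := intervalIntegral.integral_comp_add_left
      (fun τ => ∫ x, XT a m V (f τ x) ∂(muD d)) (a := 0) (b := 1) t₀
    rw [add_zero] at this
    exact this
  rw [h3]
  exact hX

theorem win_YW (W : WP s a β m) (hT : TailT d a β m b) (e : Fin d) (M : ℝ)
    {K₁ δ c₂ : ℝ} (hK : 0 ≤ K₁) (hδ : 0 < δ) (hc : 0 < c₂) (hcδ : 16 * c₂ ≤ δ / 2) :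
    ∃ R₁ K₂ : ℝ, 1 ≤ R₁ ∧ 0 ≤ K₂ ∧ ∀ Cy : ℝ, 0 ≤ Cy → ∃ ε ηw : ℝ, 0 < ε ∧ ε ≤ 1 ∧ 0 < ηw ∧
    ∀ (T : ℝ) (f : ℝ → Vec d → Vec d → ℝ), IsBoltzmannSol (1 + a) b T f → Planar e T f → GB M (f 0) →
      ∀ t₀ : ℝ, 0 < t₀ → t₀ + 1 < T → Hs (f t₀) - Hs (f (t₀ + 1)) ≤ ηw →
      Hs (f (t₀ + 1)) ≤ Hs (f t₀) →
      (∀ t ∈ Icc (0 : ℝ) 1, Hs (f (t₀ + 1)) ≤ Hs (f (t₀ + t))) →
      (∀ t ∈ Icc (0 : ℝ) 1, ∀ u v, |YW e a β m (ε * Cy) K₁ R₁ c₂ (fun t => f (t₀ + t)) t u -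
        YW e a β m (ε * Cy) K₁ R₁ c₂ (fun t => f (t₀ + t)) t v| ≤ δ * min 1 (len (u - v) / jb v) ^ β) ∧
      (∀ t ∈ Icc (0 : ℝ) 1, ∀ v, |YW e a β m (ε * Cy) K₁ R₁ c₂ (fun t => f (t₀ + t)) t v| ≤ δ) ∧
      ∀ v, YW e a β m (ε * Cy) K₁ R₁ c₂ (fun t => f (t₀ + t)) 1 v ≤
        K₂ * (Hs (f t₀) - Hs (f (t₀ + 1))) := by
  obtain ⟨r, KT, hr, hKT, hTb⟩ := hT e M
  have ha := W.ha
  have hβ0 : 0 < β := by have := W.hs; have := W.hβ; linarith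
  have ha1' : a ≤ 1 := by have := W.haβ; linarith
  have hm0' : 0 < m := lt_of_lt_of_le hβ0 W.hβm
  have hm1' : m ≤ 1 := W.hm.le
  have hβ1 : β ≤ 1 := W.hβm.trans hm1'
  have hKK : 0 ≤ K₁ * KT := mul_nonneg hK hKT
  set μ : ℝ := min (δ / 8) (c₂ / 2) with hμ
  have hμ0 : 0 < μ := lt_min (by linarith) (by linarith)
  have hμδ : μ ≤ δ / 8 := min_le_left _ _
  have hμc : μ ≤ c₂ / 2 := min_le_right _ _
  obtain ⟨R₁, hR, hRθ⟩ := wyw_rpow (q := r - β) (θ := μ / (8 * (K₁ * KT) + 1)) (by linarith)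
    (by positivity)
  have hR0 : 0 < R₁ := by linarith
  have hRa : R₁ ^ (-r) ≤ R₁ ^ (-(r - β)) :=
    Real.rpow_le_rpow_of_exponent_le hR (by linarith)
  have hq0 : 0 ≤ R₁ ^ (-(r - β)) := Real.rpow_nonneg hR0.le _
  have hR8 : 8 * (K₁ * KT) * R₁ ^ (-(r - β)) ≤ μ := by
    have h1 : (8 * (K₁ * KT) + 1) * R₁ ^ (-(r - β)) ≤ μ := by
      rw [le_div_iff₀ (by positivity)] at hRθ
      linarith
    nlinarith
  refine ⟨R₁, K₁ * KT, hR, hKK, fun Cy hCy => ?_⟩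
  have hCK : 0 ≤ Cy * KT := mul_nonneg hCy hKT
  set ε : ℝ := min 1 (μ / (48 * (Cy * KT) + 1)) with hε
  set ηw : ℝ := min 1 (δ / 8 / (4 * (K₁ * KT) + 1)) with hηw
  have hε0 : 0 < ε := lt_min one_pos (by positivity)
  have hε1 : ε ≤ 1 := min_le_left _ _
  have hη0 : 0 < ηw := lt_min one_pos (by positivity)
  have hη1 : ηw ≤ 1 := min_le_left _ _
  have hε48 : 48 * (ε * (Cy * KT)) ≤ μ := by
    have h1 : ε ≤ μ / (48 * (Cy * KT) + 1) := min_le_right _ _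
    rw [le_div_iff₀ (by positivity)] at h1
    nlinarith
  have hη4 : 4 * (K₁ * KT) * ηw ≤ δ / 8 := by
    have h1 : ηw ≤ δ / 8 / (4 * (K₁ * KT) + 1) := min_le_right _ _
    rw [le_div_iff₀ (by positivity)] at h1
    nlinarith
  refine ⟨ε, ηw, hε0, hε1, hη0, fun T f hf hpl h0 t₀ ht₀ ht1 hdrop hD0 _ => ?_⟩
  have hg := boltz_shift hf ht₀.le
  have hlt : (1 : ℝ) < T - t₀ := by linarith
  have hmem : ∀ t ∈ Icc (0 : ℝ) 1, t ∈ Ico 0 (T - t₀) := fun t ht => ⟨ht.1, ht.2.trans_lt hlt⟩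
  have hIZ : ∀ V : ℝ, 1 ≤ V → ∀ t ∈ Icc (0 : ℝ) 1,
      ∫ τ in (0 : ℝ)..t, Zw a m (fun t => f (t₀ + t)) τ V ≤
        KT * (V ^ (-r) * 2 + (Hs (f t₀) - Hs (f (t₀ + 1)))) := by
    intro V hV t ht
    refine wyw_Z ha.le ha1' hm0'.le hm1' hg ht1 (by linarith) ?_ ht
    have := hTb T f hf hpl h0 V hV t₀ (t₀ + 1) ht₀ (by linarith) ht1
    have e1 : 1 + (t₀ + 1 - t₀) = (2 : ℝ) := by ring
    rwa [e1] at this
  set D : ℝ := Hs (f t₀) - Hs (f (t₀ + 1)) with hD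
  have hD1 : 0 ≤ D := by rw [hD]; linarith
  have hIX : ∀ t ∈ Icc (0 : ℝ) 1, ∫ τ in (0 : ℝ)..t, Zw a m (fun t => f (t₀ + t)) τ 1 ≤ 3 * KT := by
    intro t ht
    refine (hIZ 1 le_rfl t ht).trans ?_
    rw [Real.one_rpow]
    nlinarith
  have hεC : 0 ≤ ε * Cy := mul_nonneg hε0.le hCy
  -- bounds of the three terms
  have b1 : ∀ t ∈ Icc (0 : ℝ) 1,
      ε * Cy * ∫ τ in (0 : ℝ)..t, Zw a m (fun t => f (t₀ + t)) τ 1 ≤ 3 * (ε * (Cy * KT)) := by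
    intro t ht
    have := mul_le_mul_of_nonneg_left (hIX t ht) hεC
    nlinarith
  have b2 : ∀ t ∈ Icc (0 : ℝ) 1,
      K₁ * ∫ τ in (0 : ℝ)..t, Zw a m (fun t => f (t₀ + t)) τ R₁ ≤
        2 * (K₁ * KT) * R₁ ^ (-(r - β)) + K₁ * KT * D := by
    intro t ht
    have h1 := mul_le_mul_of_nonneg_left (hIZ R₁ hR t ht) hK
    have h2 := mul_le_mul_of_nonneg_left hRa hKK
    nlinarith
  have b3 : K₁ * KT * D ≤ K₁ * KT * ηw := mul_le_mul_of_nonneg_left hdrop hKK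
  refine ⟨fun t ht u v => ?_, fun t ht v => ?_, fun v => ?_⟩
  · refine (YW_osc ha.le ha1' hβ0 hβ1 hm0' hm1' hg hR hεC hK hc.le (hmem t ht) u v).trans ?_
    refine mul_le_mul_of_nonneg_right ?_ ?_
    · have c1 := b1 t ht
      have c2 := b2 t ht
      have c3 : 16 * c₂ * t ≤ δ / 2 := by nlinarith [ht.1, ht.2]
      have c4 : 16 * (ε * Cy) * (∫ τ in (0 : ℝ)..t, Zw a m (fun t => f (t₀ + t)) τ 1) ≤
          48 * (ε * (Cy * KT)) := by nlinarith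
      have c5 : 4 * K₁ * (∫ τ in (0 : ℝ)..t, Zw a m (fun t => f (t₀ + t)) τ R₁) ≤
          8 * (K₁ * KT) * R₁ ^ (-(r - β)) + 4 * (K₁ * KT) * ηw := by nlinarith
      linarith
    · exact Real.rpow_nonneg (le_min zero_le_one (div_nonneg (len_nonneg _) (jb_pos v).le)) _
  · refine (YW_abs ha.le ha1' hβ0 hβ1 hm0' hm1' hg hR hεC hK hc.le (hmem t ht) v).trans ?_
    have c1 := b1 t ht
    have c2 := b2 t ht
    have c3 : 2 * c₂ * t ≤ δ / 2 := by nlinarith [ht.1, ht.2]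
    have c4 : 2 * (ε * Cy) * (∫ τ in (0 : ℝ)..t, Zw a m (fun t => f (t₀ + t)) τ 1) ≤
        6 * (ε * (Cy * KT)) := by nlinarith
    have c6 : 0 ≤ ε * (Cy * KT) := mul_nonneg hε0.le hCK
    have c7 : 0 ≤ K₁ * KT * R₁ ^ (-(r - β)) := mul_nonneg hKK hq0
    have c8 : 0 ≤ K₁ * KT * ηw := mul_nonneg hKK hη0.le
    linarith
  · have h1 : (1 : ℝ) ∈ Icc (0 : ℝ) 1 := ⟨zero_le_one, le_rfl⟩
    rw [YW_eq ha.le ha1' hm0'.le hm1' hg hR (hmem 1 h1)]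
    set V : ℝ := max (jb v) R₁ with hVd
    have hVR : R₁ ≤ V := le_max_right _ _
    have hVj : jb v ≤ V := le_max_left _ _
    have hV1 : 1 ≤ V := hR.trans hVR
    have hV0 : 0 < V := by linarith
    have hy := yv_pos e β v
    have d1 := mul_le_mul_of_nonneg_right (b1 1 h1) hy.le
    have d2 := mul_le_mul_of_nonneg_left (hIZ V hV1 1 h1) hK
    have d3 : V ^ (-r) ≤ R₁ ^ (-(r - β)) * yv e β v := by
      have e1 : V ^ (-r) = V ^ (-(r - β)) * V ^ (-β) := by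
        rw [← Real.rpow_add hV0]; congr 1; ring
      rw [e1]
      have e2 : V ^ (-(r - β)) ≤ R₁ ^ (-(r - β)) :=
        Real.rpow_le_rpow_of_nonpos hR0 hVR (by linarith)
      have e3 : V ^ (-β) ≤ jb v ^ (-β) :=
        Real.rpow_le_rpow_of_nonpos (jb_pos v) hVj (by linarith)
      exact mul_le_mul e2 (e3.trans (yv_ge hβ0 e v)) (Real.rpow_nonneg hV0.le _) hq0
    have d4 := mul_le_mul_of_nonneg_left d3 hKK
    have d5 : 3 * (ε * (Cy * KT)) * yv e β v ≤ c₂ / 2 * yv e β v := by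
      refine mul_le_mul_of_nonneg_right ?_ hy.le
      have : 0 ≤ ε * (Cy * KT) := mul_nonneg hε0.le hCK
      linarith
    have d6 : 2 * (K₁ * KT) * R₁ ^ (-(r - β)) * yv e β v ≤ c₂ / 2 * yv e β v := by
      refine mul_le_mul_of_nonneg_right ?_ hy.le
      have : 0 ≤ K₁ * KT * R₁ ^ (-(r - β)) := mul_nonneg hKK hq0
      linarith
    have e4 : ε * Cy * yv e β v * (∫ τ in (0 : ℝ)..1, Zw a m (fun t => f (t₀ + t)) τ 1) =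
        ε * Cy * (∫ τ in (0 : ℝ)..1, Zw a m (fun t => f (t₀ + t)) τ 1) * yv e β v := by ring
    rw [e4]
    nlinarith

end Pool.Agent.H48.PW
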