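import Pool.Agent.H48.PW.WinC
import Pool.Agent.H48.PW.WinYW
import Pool.Agent.H48.PW.AvIW
import Pool.Agent.H48.PW.AvLW
import Pool.Agent.H48.PW.ErrW
import Pool.Agent.H48.PI.Win
import Pool.Agent.H48.PI.BadW

/-!
# Module WinW: windows with small entropy drop

Copy of PI/Win.lean (324 lines) with `EE ↦ EW`, `YY ↦ YW`, `Xt ↦ Zw · 1`, `Zt ↦ Zw`, `yv e a ↦ yv e β`, `c₁ ↦ q.A'`, and the parameters from `win_core` instead of `win_par`:
`K₀, M₁, κ, δ` from `win_core`; `R₀, C₁, c` from `av1w_low M hm`; `A' = min (κ/(4R₀)) (min (δ/(200(M+1))) (δ/(8c)))`, `c₂ = A' c/4` (`16 c₂ ≤ δ/2`); `ε'` from `avw_cmp` (with `K₀, c, A', M₂ = 2M`); `q, N₁` from `win_core` with `A', R₀, R' = R₀, C' = C₁, ε'`.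
Then `K₀ av2w - A' av1w ≤ A' c/4 yv - A' c yv ≤ -(c₂ yv)` (`av2w_up`, `avw_cmp`, `av1w_low`, `yv > 0`). `K₁` from `dEW_low` (with `K₀, M₁`); `R₁, K₂` from `win_YW` (with `K₁, δ, c₂`); `Cy`, then `ε, ηw`, then `Cε` from `dEW_low`; `N = 3 N₁`, `Cd = Cε + K₂`.
`E = EW q e (g t) x v + YW t v`, `|E| ≤ δ/2 + δ ≤ 1/2` (`high_E`). At a touching point of height `≥ 3N₁`: `win_core` (touching part with `Y = YW .. t`, `YW_cont`, the oscillation from `win_YW`), `win_core` (NTI), `dEW_low`. The entropy hypotheses of `win_YW` from `Hs_anti` (PI/BadW).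
The maximum principle `max_high`, the error function `m t`, `η → 0`, `t → 1` exactly as in PI/Win.lean (its private lemmas `win_avg`, `win_m` are generic: copy).
-/

set_option autoImplicit false

open MeasureTheory Set Filter Topology Pool.Agent.H25.Kin Pool.Agent.H82.BK Pool.Agent.H82.CM
open Pool.Agent.H48.PL Pool.Agent.H48.PI

namespace Pool.Agent.H48.PW

variable {d : ℕ} {s a β m C Ca cb : ℝ} {b : ℝ → ℝ}

/-- the average of the entropy production is at least `-η` -/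
private lemma win_avg (HL : HypL d (1 + a) s b C Ca cb) {T : ℝ} {f : ℝ → Vec d → Vec d → ℝ}
    (hf : IsBoltzmannSol (1 + a) b T f) {δ : ℝ} (hδ : 0 < δ) {t : ℝ} (ht : t ∈ Ioo 0 T) {η : ℝ}
    (h : ∀ y, -η ≤ Dn (1 + a) b δ (f t y)) : -η ≤ ∫ y, Dn (1 + a) b δ (f t y) ∂(muD d) := by
  have h1 : Continuous fun y : Vec d => (t, y) := by fun_prop
  have h2 : Continuous ((fun q : ℝ × Vec d => Dn (1 + a) b δ (f q.1 q.2)) ∘ fun y : Vec d => (t, y)) :=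
    ContinuousOn.comp_continuous (Dn_cont HL hf hδ).1 h1 fun y => ⟨ht, mem_univ _⟩
  have h2' : Continuous fun y : Vec d => Dn (1 + a) b δ (f t y) := h2
  have h3 : Integrable (fun y : Vec d => Dn (1 + a) b δ (f t y)) (muD d) := by
    unfold muD
    exact h2'.continuousOn.integrableOn_compact isCompact_Icc
  have h4 := integral_mono (integrable_const (-η)) h3 h
  have h5 : (muD d).real univ = 1 := by
    rw [Measure.real, muD_univ]
    rfl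
  rw [integral_const, h5, one_smul] at h4
  exact h4

/-- the integral of the error over a part of the window -/
private lemma win_m (HL : HypL d (1 + a) s b C Ca cb) {T : ℝ} {f : ℝ → Vec d → Vec d → ℝ}
    (hf : IsBoltzmannSol (1 + a) b T f) {δ : ℝ} (hδ : 0 < δ) {t₀ : ℝ} (h0 : 0 < t₀) (h1 : t₀ + 1 < T)
    {η Ce : ℝ} (hη : 0 < η) (hCe : 0 ≤ Ce) (h : ∀ t ∈ Icc t₀ (t₀ + 1), ∀ y, -η ≤ Dn (1 + a) b δ (f t y))
    (hd : |(∫ τ in t₀..(t₀ + 1), (∫ x, Dn (1 + a) b δ (f τ x) ∂(muD d))) -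
      (Hs (f t₀) - Hs (f (t₀ + 1)))| ≤ η) :
    IntegrableOn (fun t => Ce * ((∫ x, Dn (1 + a) b δ (f (t₀ + t) x) ∂(muD d)) + η) + η) (Ioo 0 1) ∧
    (∀ t ∈ Ioo (0 : ℝ) 1, 0 ≤ Ce * ((∫ x, Dn (1 + a) b δ (f (t₀ + t) x) ∂(muD d)) + η) + η) ∧
    ∀ t ∈ Ico (0 : ℝ) 1, ∫ r in Ioc 0 t, (Ce * ((∫ x, Dn (1 + a) b δ (f (t₀ + r) x) ∂(muD d)) + η) + η) ≤
      Ce * ((Hs (f t₀) - Hs (f (t₀ + 1))) + 2 * η) + η := by
  have hcD : ContinuousOn (fun t : ℝ => ∫ x, Dn (1 + a) b δ (f (t₀ + t) x) ∂(muD d)) (Icc 0 1) := by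
    have h2 := (Dn_cont HL hf hδ).2
    exact h2.comp (f := fun t : ℝ => t₀ + t) (by fun_prop) fun t ht => ⟨by linarith [ht.1], by linarith [ht.2]⟩
  have hcm : ContinuousOn (fun t : ℝ => Ce * ((∫ x, Dn (1 + a) b δ (f (t₀ + t) x) ∂(muD d)) + η) + η)
      (Icc 0 1) := by
    exact ((hcD.add continuousOn_const).const_smul Ce).add continuousOn_const
  have hint : IntegrableOn (fun t : ℝ => Ce * ((∫ x, Dn (1 + a) b δ (f (t₀ + t) x) ∂(muD d)) + η) + η)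
      (Icc 0 1) := hcm.integrableOn_compact isCompact_Icc
  have hnn : ∀ t ∈ Icc (0 : ℝ) 1, 0 ≤ Ce * ((∫ x, Dn (1 + a) b δ (f (t₀ + t) x) ∂(muD d)) + η) + η := by
    intro t ht
    have h3 := win_avg HL hf hδ (t := t₀ + t) ⟨by linarith [ht.1], by linarith [ht.2]⟩
      (h (t₀ + t) ⟨by linarith [ht.1], by linarith [ht.2]⟩)
    have h4 : 0 ≤ (∫ x, Dn (1 + a) b δ (f (t₀ + t) x) ∂(muD d)) + η := by linarith
    have := mul_nonneg hCe h4
    linarith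
  refine ⟨hint.mono_set Ioo_subset_Icc_self, fun t ht => hnn t (Ioo_subset_Icc_self ht), fun t ht => ?_⟩
  have e1 : ∫ r in Ioc 0 t, (Ce * ((∫ x, Dn (1 + a) b δ (f (t₀ + r) x) ∂(muD d)) + η) + η) ≤
      ∫ r in Ioc 0 1, (Ce * ((∫ x, Dn (1 + a) b δ (f (t₀ + r) x) ∂(muD d)) + η) + η) := by
    refine setIntegral_mono_set (hint.mono_set Ioc_subset_Icc_self) ?_ ?_
    · refine (ae_restrict_iff' measurableSet_Ioc).2 (Eventually.of_forall fun r hr => ?_)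
      exact hnn r (Ioc_subset_Icc_self hr)
    · exact (Ioc_subset_Ioc_right ht.2.le).eventuallyLE
  have hDi : IntervalIntegrable (fun t : ℝ => ∫ x, Dn (1 + a) b δ (f (t₀ + t) x) ∂(muD d)) volume 0 1 := by
    refine ContinuousOn.intervalIntegrable ?_
    rw [uIcc_of_le zero_le_one]
    exact hcD
  have e2 : ∫ r in Ioc 0 1, (Ce * ((∫ x, Dn (1 + a) b δ (f (t₀ + r) x) ∂(muD d)) + η) + η) =
      Ce * ((∫ r in (0 : ℝ)..1, (∫ x, Dn (1 + a) b δ (f (t₀ + r) x) ∂(muD d))) + η) + η := by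
    rw [← intervalIntegral.integral_of_le zero_le_one]
    rw [intervalIntegral.integral_add ((hDi.add intervalIntegrable_const).const_mul Ce)
      intervalIntegrable_const, intervalIntegral.integral_const_mul,
      intervalIntegral.integral_add hDi intervalIntegrable_const]
    simp
  have e3 : ∫ r in (0 : ℝ)..1, (∫ x, Dn (1 + a) b δ (f (t₀ + r) x) ∂(muD d)) =
      ∫ τ in t₀..(t₀ + 1), (∫ x, Dn (1 + a) b δ (f τ x) ∂(muD d)) := by
    have h5 := intervalIntegral.integral_comp_add_left (a := (0 : ℝ)) (b := 1)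
      (fun τ : ℝ => ∫ x, Dn (1 + a) b δ (f τ x) ∂(muD d)) t₀
    rw [add_zero] at h5
    exact h5
  rw [e2, e3] at e1
  refine e1.trans ?_
  have h6 := (abs_le.1 hd).2
  have h7 : (∫ τ in t₀..(t₀ + 1), (∫ x, Dn (1 + a) b δ (f τ x) ∂(muD d))) + η ≤
      (Hs (f t₀) - Hs (f (t₀ + 1))) + 2 * η := by linarith
  have h8 := mul_le_mul_of_nonneg_left h7 hCe
  linarith

/-- the limit `η → 0` -/
private lemma win_lim {X B Ce D : ℝ} (h : ∀ η : ℝ, 0 < η → X ≤ B * Real.exp (Ce * (D + 2 * η) + η)) :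
    X ≤ B * Real.exp (Ce * D) := by
  have hlim : Tendsto (fun η : ℝ => B * Real.exp (Ce * (D + 2 * η) + η)) (𝓝[>] 0)
      (𝓝 (B * Real.exp (Ce * (D + 2 * 0) + 0))) := by
    have : Continuous fun η : ℝ => B * Real.exp (Ce * (D + 2 * η) + η) := by fun_prop
    exact (this.tendsto 0).mono_left nhdsWithin_le_nhds
  have := ge_of_tendsto hlim (by
    filter_upwards [self_mem_nhdsWithin] with η h1 using h η h1)
  simpa using this

/-- the limit `t → 1` -/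
private lemma win_cl {T : ℝ} (hT : 1 < T) {g E : ℝ → Vec d → Vec d → ℝ}
    (hg : ContinuousOn (unc g) (Ico 0 T ×ˢ univ)) (hE : ContinuousOn (unc E) (Ico 0 T ×ˢ univ)) {W K : ℝ}
    {x v : Vec d} (h : ∀ t ∈ Ico (0 : ℝ) 1, g t x v * W * Real.exp (-E t x v) ≤ K) :
    g 1 x v * W * Real.exp (-E 1 x v) ≤ K := by
  have h4 : Continuous fun r : ℝ => (r, x, v) := by fun_prop
  have h1 : ContinuousOn (fun r : ℝ => g r x v) (Ico 0 T) :=
    ContinuousOn.comp (g := unc g) (f := fun r : ℝ => (r, x, v)) hg h4.continuousOn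
      (fun r hr => ⟨hr, mem_univ _⟩)
  have h2 : ContinuousOn (fun r : ℝ => E r x v) (Ico 0 T) :=
    ContinuousOn.comp (g := unc E) (f := fun r : ℝ => (r, x, v)) hE h4.continuousOn
      (fun r hr => ⟨hr, mem_univ _⟩)
  have h3 : ContinuousOn (fun r : ℝ => g r x v * W * Real.exp (-E r x v)) (Ico 0 T) :=
    (h1.mul continuousOn_const).mul (Real.continuous_exp.comp_continuousOn h2.neg)
  have hne : (𝓝[Ico (0 : ℝ) 1] 1).NeBot := by
    rw [← mem_closure_iff_nhdsWithin_neBot, closure_Ico zero_ne_one]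
    exact ⟨zero_le_one, le_rfl⟩
  have h5 : Tendsto (fun r : ℝ => g r x v * W * Real.exp (-E r x v)) (𝓝[Ico (0 : ℝ) 1] 1)
      (𝓝 (g 1 x v * W * Real.exp (-E 1 x v))) :=
    (h3 1 ⟨zero_le_one, hT⟩).mono (Ico_subset_Ico_right hT.le)
  exact le_of_tendsto h5 (eventually_nhdsWithin_of_forall h)

private lemma ww_jb2 {e : Fin d} {F G : Vec d → Vec d → ℝ} (h : FS e F G) {M : ℝ} (hg : GB M F) :
    ∫ p, F p.2 p.1 * jb p.1 ^ 2 ∂(nu d) ≤ 2 * M := by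
  have hc : Continuous fun q : Vec d × Vec d => F q.2 q.1 :=
    h.contF.comp (continuous_snd.prodMk continuous_fst)
  have key : ∀ k : ℕ, ∃ C : ℝ, ∀ x v, F x v * (1 + ‖v‖) ^ k ≤ C * wt d v := by
    intro k
    obtain ⟨C, hC⟩ := h.decF (k + (d + 1))
    refine ⟨C, fun x v => ?_⟩
    have h1 := hC x v
    rw [abs_of_nonneg (h.nonneg x v)] at h1
    unfold wt
    rw [← div_eq_mul_inv, le_div_iff₀ (pow_pos (w_pos v) _)]
    calc F x v * (1 + ‖v‖) ^ k * (1 + ‖v‖) ^ (d + 1) = (1 + ‖v‖) ^ (k + (d + 1)) * F x v := by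
          rw [pow_add]; ring
      _ ≤ C := h1
  obtain ⟨C₁, hC₁⟩ := key 0
  obtain ⟨C₂, hC₂⟩ := key 2
  have i1 : Integrable (fun q : Vec d × Vec d => F q.2 q.1) (nu d) := by
    refine integrable_nu (C := C₁) hc.aestronglyMeasurable fun q => ?_
    have := hC₁ q.2 q.1
    rw [pow_zero, mul_one] at this
    rw [abs_of_nonneg (h.nonneg _ _)]
    exact this
  have i2 : Integrable (fun q : Vec d × Vec d => F q.2 q.1 * nsq q.1) (nu d) := by
    refine integrable_nu (C := d * C₂)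
      (hc.mul (continuous_sq.comp continuous_fst)).aestronglyMeasurable fun q => ?_
    rw [abs_of_nonneg (mul_nonneg (h.nonneg _ _) (sq_nonneg' _))]
    have h3 : nsq q.1 ≤ d * (1 + ‖q.1‖) ^ 2 := by
      refine (sq_le q.1).trans (mul_le_mul_of_nonneg_left ?_ (Nat.cast_nonneg _))
      exact pow_le_pow_left₀ (norm_nonneg _) (by linarith) 2
    calc F q.2 q.1 * nsq q.1 ≤ F q.2 q.1 * (d * (1 + ‖q.1‖) ^ 2) :=
          mul_le_mul_of_nonneg_left h3 (h.nonneg _ _)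
      _ = d * (F q.2 q.1 * (1 + ‖q.1‖) ^ 2) := by ring
      _ ≤ d * (C₂ * wt d q.1) := mul_le_mul_of_nonneg_left (hC₂ _ _) (Nat.cast_nonneg _)
      _ = d * C₂ * wt d q.1 := by ring
  have e1 : ∫ p, F p.2 p.1 * jb p.1 ^ 2 ∂(nu d) =
      ∫ p, F p.2 p.1 ∂(nu d) + ∫ p, F p.2 p.1 * nsq p.1 ∂(nu d) := by
    rw [← integral_add i1 i2]
    refine integral_congr_ae (Eventually.of_forall fun p => ?_)
    simp only
    rw [jb_sq]
    ring
  rw [e1]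
  linarith [hg.mass, hg.energy]

theorem good_windowW (HL : HypL d (1 + a) s b C Ca cb) (W : WP s a β m) (hd : 3 ≤ d ∨ β ≤ a)
    (hT : TailT d a β m b) (e : Fin d) {M : ℝ} (hM : 0 ≤ M) {mm₀ : ℝ} (hm : 0 < mm₀) {p : ℕ}
    (hp : (d : ℝ) + (1 + a) + 4 ≤ 2 * p) :
    ∃ (q : Pm) (N ηw Cd : ℝ), 0 < N ∧ 0 < ηw ∧ 0 ≤ Cd ∧
      ∀ (T : ℝ) (f : ℝ → Vec d → Vec d → ℝ), IsBoltzmannSol (1 + a) b T f → Planar e T f → GB M (f 0) →
        mm₀ ≤ ∫ q, f 0 q.2 q.1 ∂(nu d) →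
        (∀ t ∈ Ioo 0 T, ∀ x v, |EW q e (f t) x v| ≤ 1) ∧
        ∀ t₀ : ℝ, 0 < t₀ → t₀ + 1 < T → Hs (f t₀) - Hs (f (t₀ + 1)) ≤ ηw → ∀ B : ℝ, N ≤ B →
          (∀ x v, f t₀ x v * (1 + nsq v) ^ p * Real.exp (-EW q e (f t₀) x v) ≤ B) →
          ∀ x v, f (t₀ + 1) x v * (1 + nsq v) ^ p * Real.exp (-EW q e (f (t₀ + 1)) x v) ≤
            B * Real.exp (Cd * (Hs (f t₀) - Hs (f (t₀ + 1)))) := by
  have ha : 0 < a := W.ha
  have hβ0 : 0 < β := by linarith [W.hs, W.hβ]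
  have haβ : a + β < 1 := W.haβ
  have ha1 : a ≤ 1 := by linarith
  have hβ1 : β ≤ 1 := by linarith
  have hm0' : 0 < m := lt_of_lt_of_le hβ0 W.hβm
  have hm1' : m ≤ 1 := W.hm.le
  obtain ⟨K₀, M₁, κ, δ, hK₀, hM₁, hκ, hδ, hδ4, hcore⟩ := win_core HL W hd hp e hM
  obtain ⟨R₀, C₁, c, hR₀, hC₁, hc, hav1⟩ := av1w_low (d := d) M hm ha hβ0 haβ
  obtain ⟨A', hA'd⟩ : ∃ A' : ℝ, A' = min (κ / (4 * R₀)) (min (δ / (200 * (M + 1))) (δ / (8 * c))) :=
    ⟨_, rfl⟩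
  have hA' : 0 < A' := by
    rw [hA'd]
    exact lt_min (by positivity) (lt_min (by positivity) (by positivity))
  have hA1 : 4 * R₀ * A' ≤ κ := by
    have h2 : A' ≤ κ / (4 * R₀) := by rw [hA'd]; exact min_le_left _ _
    rw [le_div_iff₀ (by positivity)] at h2
    linarith
  have hA2 : 200 * A' * M ≤ δ := by
    have h2 : A' ≤ δ / (200 * (M + 1)) := by
      rw [hA'd]; exact (min_le_right _ _).trans (min_le_left _ _)
    rw [le_div_iff₀ (by positivity)] at h2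
    nlinarith
  have hA3 : A' * c ≤ δ / 8 := by
    have h2 : A' ≤ δ / (8 * c) := by
      rw [hA'd]; exact (min_le_right _ _).trans (min_le_right _ _)
    rw [le_div_iff₀ (by positivity)] at h2
    linarith
  obtain ⟨c₂, hc₂d⟩ : ∃ c₂ : ℝ, c₂ = A' * c / 4 := ⟨_, rfl⟩
  have hc₂ : 0 < c₂ := by rw [hc₂d]; positivity
  have hc₂δ : 16 * c₂ ≤ δ / 2 := by rw [hc₂d]; linarith
  obtain ⟨ε', hε', hcmp⟩ := avw_cmp (d := d) ha hβ0 haβ hK₀ hc hA' (M₂ := 2 * M) (by linarith)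
  obtain ⟨q, N₁, hq, qa, qβ, qK, qM, qA, qR₀, qR, qC, hN₁, hsl, hop⟩ :=
    hcore A' R₀ R₀ C₁ ε' hA'.le hR₀ hA1 hA2 hε'
  obtain ⟨K₁, hK₁, hdE1⟩ := dEW_low HL W hK₀ hM₁
  obtain ⟨R₁, K₂, hR₁, hK₂, hY1⟩ := win_YW W hT e M hK₁ hδ hc₂ hc₂δ
  obtain ⟨Cy, hCy, hdE2⟩ := hdE1 q hq qa qβ qK qM R₁ hR₁
  obtain ⟨ε, ηw, hε, hε1, hηw, hY⟩ := hY1 Cy hCy
  obtain ⟨Ce, hCe, hdE⟩ := hdE2 ε hε hε1
  refine ⟨q, 3 * N₁, ηw, Ce + K₂, by linarith, hηw, by linarith, ?_⟩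
  intro T f hf hpl hG0 hmass
  have hfc : IsClassicalSol T (fun t x => boltzQ (1 + a) b (f t x)) f := hf
  have hgb : ∀ τ ∈ Ico 0 T, GB M (f τ) := fun τ hτ => glob_bounds HL.H hf hG0 hτ
  have hfs : ∀ τ ∈ Ioo 0 T, FS e (f τ) (fun x => boltzQ (1 + a) b (f τ x)) := fun τ hτ =>
    fs_of hf hpl hτ
  have hmc : ∀ τ ∈ Ico 0 T, mm₀ ≤ ∫ p, f τ p.2 p.1 ∂(nu d) := by
    intro τ hτ
    have h2 := Pool.Agent.H15.AV.mass_const (Q := boltzQ (1 + a) b) hf (boltz_HasInvariants HL.H hf) hτ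
    rw [h2]
    exact hmass
  have hsl' := fun τ (hτ : τ ∈ Ioo 0 T) =>
    hsl (f τ) _ (hfs τ hτ) (hgb τ ⟨hτ.1.le, hτ.2⟩)
  have havg : ∀ τ ∈ Ioo 0 T, ∀ v, q.K₀ * av2w q e (f τ) v - q.A' * av1w q e (f τ) v ≤
      -(c₂ * yv e β v) := by
    intro τ hτ v
    have h2 : ∫ p, (f τ p.2 p.1 - gw q (f τ) p.2 p.1) * jb p.1 ^ (1 + q.a) ∂(nu d) ≤ ε' := by
      rw [qa]
      exact (hsl' τ hτ).1
    have h3 := ww_jb2 (hfs τ hτ) (hgb τ ⟨hτ.1.le, hτ.2⟩)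
    obtain ⟨-, h5, h6⟩ := av2w_up hq (hfs τ hτ) h2 h3 v
    rw [qa] at h6
    have h7 := hcmp e v (av2w q e (f τ) v) h5 h6
    have h8 := hav1 q qa qβ qR₀ qR qC e (f τ) _ (hfs τ hτ) (hgb τ ⟨hτ.1.le, hτ.2⟩)
      (hmc τ ⟨hτ.1.le, hτ.2⟩) v
    have h9 := mul_le_mul_of_nonneg_left h8 hA'.le
    have h10 : 0 ≤ A' * c * yv e β v := mul_nonneg (by positivity) (yv_pos e β v).le
    rw [qK, qA, hc₂d]
    nlinarith
  refine ⟨fun t ht x v => ((hsl' t ht).2.1 x v).trans (by linarith), ?_⟩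
  intro t₀ ht₀ ht₁ hdrop B hB hB0 x v
  obtain ⟨g, hgd⟩ : ∃ g : ℝ → Vec d → Vec d → ℝ, g = fun t => f (t₀ + t) := ⟨_, rfl⟩
  have hgt : ∀ t, g t = f (t₀ + t) := fun t => by rw [hgd]
  have hgs : IsBoltzmannSol (1 + a) b (T - t₀) g := by
    rw [hgd]
    exact boltz_shift hf ht₀.le
  have hgc : IsClassicalSol (T - t₀) (fun t x => boltzQ (1 + a) b (g t x)) g := hgs
  have hgpl : Planar e (T - t₀) g := by
    rw [hgd]
    exact planar_shift hpl ht₀.le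
  have hT1 : 1 < T - t₀ := by linarith
  have hg1 : IsClassicalSol 1 (fun t x => boltzQ (1 + a) b (g t x)) g := sol_restrict hgc hT1.le
  have hYY := hY T f hf hpl hG0 t₀ ht₀ ht₁ hdrop
    (Hs_anti HL hf ht₀.le (by linarith) ht₁)
    (fun t ht => Hs_anti HL hf (by linarith [ht.1]) (by linarith [ht.2]) ht₁)
  rw [← hgd] at hYY
  obtain ⟨hYo, hYa, hYe⟩ := hYY
  obtain ⟨E, hEd⟩ : ∃ E : ℝ → Vec d → Vec d → ℝ,
    E = fun t x v => EW q e (g t) x v + YW e a β m (ε * Cy) K₁ R₁ c₂ g t v := ⟨_, rfl⟩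
  obtain ⟨DE, hDEd⟩ : ∃ DE : ℝ → Vec d → Vec d → ℝ, DE = fun t x v =>
    dEW q e (g t) (fun y => boltzQ (1 + a) b (g t y)) x v +
      (ntW e a β m (ε * Cy) K₁ R₁ g t v - c₂ * yv e β v) := ⟨_, rfl⟩
  have hYc := YW_cont (c₂ := c₂) (e := e) (ε₁ := ε * Cy) (K₁ := K₁) (β := β) ha.le ha1 hm0'.le hm1' hgc hR₁
  have hEc : ContinuousOn (unc E) (Ico 0 (T - t₀) ×ˢ univ) := by
    rw [hEd]
    exact (EW_cont hq hgc e).add hYc
  have hEc1 : ContinuousOn (unc E) (Ico 0 1 ×ˢ univ) :=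
    hEc.mono fun z hz => ⟨⟨hz.1.1, hz.1.2.trans hT1⟩, hz.2⟩
  have hIoo : ∀ t ∈ Icc (0 : ℝ) 1, t₀ + t ∈ Ioo 0 T := fun t ht =>
    ⟨by linarith [ht.1], by linarith [ht.2]⟩
  have hEb : ∀ t ∈ Icc (0 : ℝ) 1, ∀ x v, |E t x v| ≤ 1 / 2 := by
    intro t ht y u
    have e1 := (hsl' (t₀ + t) (hIoo t ht)).2.1 y u
    rw [← hgt] at e1
    have e2 := hYa t ht u
    simp only [hEd]
    have := abs_add_le (EW q e (g t) y u) (YW e a β m (ε * Cy) K₁ R₁ c₂ g t u)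
    linarith
  have hEp : ∀ t ∈ Ico (0 : ℝ) 1, ∀ x v i, E t (x + Pi.single i 1) v = E t x v := by
    intro t ht y u i
    simp only [hEd]
    rw [EW_per (hg1.periodic t ht) e y u i]
  have hED : ∀ t ∈ Ioo (0 : ℝ) 1, ∀ x v,
      HasDerivAt (fun r => E r (x + r • v) v) (DE t (x + t • v) v) t := by
    intro t ht y u
    have ht' : t ∈ Ioo 0 (T - t₀) := ⟨ht.1, ht.2.trans hT1⟩
    rw [hEd, hDEd]
    exact (EW_char hq hgc hgpl ht' y u).add (YW_deriv ha.le ha1 hm0'.le hm1' hgc hR₁ ht' u)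
  -- the main estimate
  have hmain : ∀ η : ℝ, 0 < η → ∀ t ∈ Ico (0 : ℝ) 1,
      g t x v * (1 + nsq v) ^ p * Real.exp (-E t x v) ≤
        B * Real.exp (Ce * ((Hs (f t₀) - Hs (f (t₀ + 1))) + 2 * η) + η) := by
    intro η hη t ht
    obtain ⟨δa, hδa, HA⟩ := hdE e T f hf hpl t₀ (t₀ + 1) ht₀ (by linarith) ht₁ η hη
    obtain ⟨Cl, hCl⟩ := Pool.Agent.H15.AV.sol_unice hf ht₀ ht₁
    obtain ⟨δb, hδb, HB⟩ := Dn_low HL Cl hη
    obtain ⟨δc, hδc, HC⟩ := drop_lim HL hf ht₀ (by linarith : t₀ ≤ t₀ + 1) ht₁ hη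
    obtain ⟨δ', hδ', hda, hdb, hdc⟩ : ∃ δ' : ℝ, 0 < δ' ∧ δ' ≤ δa ∧ δ' ≤ δb ∧ δ' ≤ δc :=
      ⟨min δa (min δb δc), lt_min hδa (lt_min hδb hδc), min_le_left _ _,
        (min_le_right _ _).trans (min_le_left _ _), (min_le_right _ _).trans (min_le_right _ _)⟩
    have hDn : ∀ t ∈ Icc t₀ (t₀ + 1), ∀ y, -η ≤ Dn (1 + a) b δ' (f t y) := fun t ht y =>
      HB δ' ⟨hδ', hdb⟩ (f t y) (hCl t ht y)
    obtain ⟨hmi, hm0, hmI⟩ := win_m HL hf hδ' ht₀ ht₁ hη hCe hDn (HC δ' ⟨hδ', hdc⟩)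
    have hQ : ∀ t ∈ Ioo (0 : ℝ) 1, ∀ x v, 3 * N₁ ≤ g t x v * (1 + nsq v) ^ p * Real.exp (-E t x v) →
        (∀ u, g t x u * (1 + nsq u) ^ p * Real.exp (-E t x u) ≤
          g t x v * (1 + nsq v) ^ p * Real.exp (-E t x v)) →
        boltzQ (1 + a) b (g t x) v ≤ g t x v * (DE t x v +
          (Ce * ((∫ x, Dn (1 + a) b δ' (f (t₀ + t) x) ∂(muD d)) + η) + η)) := by
      intro t ht y u hhigh htch
      have htI : t ∈ Icc (0 : ℝ) 1 := ⟨ht.1.le, ht.2.le⟩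
      have ht' : t ∈ Ioo 0 (T - t₀) := ⟨ht.1, ht.2.trans hT1⟩
      have hg0 : ∀ w, 0 ≤ g t y w := hgc.nonneg t ⟨ht'.1.le, ht'.2⟩ y
      have htc := (hsl' (t₀ + t) (hIoo t htI)).2.2
      have hav' := havg (t₀ + t) (hIoo t htI) u
      rw [← hgt] at htc hav'
      have hYcont : Continuous fun w : Vec d => YW e a β m (ε * Cy) K₁ R₁ c₂ g t w := by
        have h4 : Continuous fun w : Vec d => (t, y, w) := by fun_prop
        exact ContinuousOn.comp_continuous (f := fun w : Vec d => (t, y, w)) hYc h4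
          fun w => ⟨⟨ht'.1.le, ht'.2⟩, mem_univ _⟩
      have hTo : TouchS (4 * δ) β p (g t y) u := by
        refine htc y u (fun w => YW e a β m (ε * Cy) K₁ R₁ c₂ g t w) hYcont
          (fun w => hYo t htI w u) ?_
        intro w
        have e1 := htch w
        simp only [hEd] at e1
        exact e1
      have hHi : N₁ ≤ g t y u * (1 + nsq u) ^ p := high_E hN₁ (hEb t htI y u) hhigh
      have hQ1 := hop (g t y) (hgc.nice ht' y) hg0 u hTo hHi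
      have hA := HA δ' ⟨hδ', hda⟩ (t₀ + t) ⟨by linarith [ht.1], by linarith [ht.2]⟩ y u
      rw [← hgt] at hA
      refine hQ1.trans (mul_le_mul_of_nonneg_left ?_ (hg0 u))
      have hA'' : (K₀ * ∫ w, (u e - w e) * PhS e a u w * (g t y w - chi q.R w * bet q.C₀ (g t y w))) -
        A' * (∫ w, (u e - w e) * PgB e a β R₀ u w * (chi q.R w * bet q.C₀ (g t y w))) -
        K₀ * av2w q e (g t) u + A' * av1w q e (g t) u -
        (Ce * (∫ y, Dn (1 + a) b δ' (g t y) ∂(muD d)) + ε * Cy * yv e β u * Zw a m f (t₀ + t) 1 +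
          K₁ * Zw a m f (t₀ + t) (max (jb u) R₁) + η) ≤
        dEW q e (g t) (fun y => boltzQ (1 + a) b (g t y)) y u := by
        rw [qA, qR₀] at hA
        exact hA
      have hZ : ∀ V, Zw a m f (t₀ + t) V = Zw a m g t V := by
        intro V
        unfold Zw
        rw [hgt]
      rw [hZ, hZ] at hA''
      rw [qK, qA] at hav'
      have hCη : 0 ≤ Ce * η := mul_nonneg hCe hη.le
      rw [← hgt]
      simp only [hDEd]
      unfold ntW
      linarith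
    have hA₀ : ∀ x v, g 0 x v * (1 + nsq v) ^ p * Real.exp (-E 0 x v) ≤ B := by
      intro y u
      have e1 := hB0 y u
      have e2 : E 0 y u = EW q e (f t₀) y u := by
        simp only [hEd]
        unfold YW
        rw [hgt, add_zero]
        simp
      rw [e2, hgt, add_zero]
      exact e1
    have key := max_high hg1 p hEc1 hEp (fun T₁ hT₁ => ⟨1 / 2, fun τ hτ y u =>
      hEb τ ⟨hτ.1, hτ.2.trans hT₁.le⟩ y u⟩) hED hmi hm0 hQ hB hA₀ t ht x v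
    refine key.trans (mul_le_mul_of_nonneg_left (Real.exp_le_exp.2 (hmI t ht)) ?_)
    linarith
  have hlim : ∀ t ∈ Ico (0 : ℝ) 1, g t x v * (1 + nsq v) ^ p * Real.exp (-E t x v) ≤
      B * Real.exp (Ce * (Hs (f t₀) - Hs (f (t₀ + 1)))) := fun t ht =>
    win_lim fun η hη => hmain η hη t ht
  have hend := win_cl hT1 hgc.isCont hEc hlim
  have hYv := hYe v
  have hB' : 0 ≤ B := by linarith
  rw [← hgt]
  have e1 : g 1 x v * (1 + nsq v) ^ p * Real.exp (-EW q e (g 1) x v) =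
      g 1 x v * (1 + nsq v) ^ p * Real.exp (-E 1 x v) *
        Real.exp (YW e a β m (ε * Cy) K₁ R₁ c₂ g 1 v) := by
    have e0 : Real.exp (-EW q e (g 1) x v) =
        Real.exp (-E 1 x v) * Real.exp (YW e a β m (ε * Cy) K₁ R₁ c₂ g 1 v) := by
      rw [← Real.exp_add]
      simp only [hEd]
      congr 1
      ring
    rw [e0, ← mul_assoc]
  rw [e1]
  have e2 : (Ce + K₂) * (Hs (f t₀) - Hs (f (t₀ + 1))) =
      Ce * (Hs (f t₀) - Hs (f (t₀ + 1))) + K₂ * (Hs (f t₀) - Hs (f (t₀ + 1))) := by ring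
  rw [hgt 1] at hend ⊢
  rw [e2, Real.exp_add, ← mul_assoc]
  refine mul_le_mul hend (Real.exp_le_exp.2 ?_) (Real.exp_pos _).le (mul_nonneg hB' (Real.exp_pos _).le)
  exact hYv

end Pool.Agent.H48.PW
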